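import Mathlib

set_option autoImplicit false

open Set Filter Topology MeasureTheory Metric
open scoped ContDiff

namespace Pool.Agent.Helper930.WD

variable {E F : Type*} [NormedAddCommGroup E] [InnerProductSpace ℝ E] [FiniteDimensional ℝ E]
  [MeasurableSpace E] [BorelSpace E] [NormedAddCommGroup F] [NormedSpace ℝ F]
  [FiniteDimensional ℝ F]

/-- `Df` is the weak derivative of `f` on the open set `Ω`: both are locally integrable on `Ω` and
the integration by parts formula holds against all smooth test functions with compact support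
in `Ω`. -/
def WeakDerivOn (Ω : Set E) (f : E → F) (Df : E → E →L[ℝ] F) : Prop :=
  LocallyIntegrableOn f Ω ∧ LocallyIntegrableOn Df Ω ∧
    ∀ φ : E → ℝ, ContDiff ℝ ∞ φ → HasCompactSupport φ → tsupport φ ⊆ Ω → ∀ v : E,
      ∫ x, (fderiv ℝ φ x v) • f x = - ∫ x, φ x • Df x v

/-- mollification at a point -/
noncomputable def moll (φ : E → ℝ) (f : E → F) (z : E) : F := ∫ w, φ (z - w) • f w

lemma convolution_eq_moll (φ : E → ℝ) (f : E → F) (z : E) :
    (MeasureTheory.convolution φ f (ContinuousLinearMap.lsmul ℝ ℝ) volume) z = moll φ f z := by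
  rw [MeasureTheory.convolution_eq_swap]
  rfl

/-- derivative of the mollification -/
lemma moll_hasFDerivAt {φ : E → ℝ} (hφ : ContDiff ℝ ∞ φ) (hc : HasCompactSupport φ) {f : E → F}
    (hf : LocallyIntegrable f volume) (z : E) :
    ∃ A : E →L[ℝ] F, HasFDerivAt (moll φ f) A z ∧
      ∀ v, A v = ∫ w, (fderiv ℝ φ (z - w) v) • f w := by
  have h := hc.hasFDerivAt_convolution_left (ContinuousLinearMap.lsmul ℝ ℝ : ℝ →L[ℝ] F →L[ℝ] F)
    (hφ.of_le (by norm_num)) hf z
  have h1 : (MeasureTheory.convolution φ f (ContinuousLinearMap.lsmul ℝ ℝ) volume) = moll φ f :=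
    funext (convolution_eq_moll φ f)
  rw [h1] at h
  refine ⟨_, h, ?_⟩
  intro v
  have hci : HasCompactSupport (fderiv ℝ φ) := hc.fderiv (𝕜 := ℝ)
  have hcont : Continuous (fderiv ℝ φ) := hφ.continuous_fderiv (by norm_num)
  have hex : MeasureTheory.ConvolutionExistsAt (fderiv ℝ φ) f z
      ((ContinuousLinearMap.lsmul ℝ ℝ : ℝ →L[ℝ] F →L[ℝ] F).precompL E) volume :=
    (hci.convolutionExists_left _ hcont hf) z
  rw [MeasureTheory.convolution_eq_swap]
  have hi : Integrable (fun t => ((ContinuousLinearMap.lsmul ℝ ℝ : ℝ →L[ℝ] F →L[ℝ] F).precompL E)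
      (fderiv ℝ φ (z - t)) (f t)) volume := by
    have := hex.integrable_swap
    exact this
  rw [ContinuousLinearMap.integral_apply hi]
  rfl

/-- if the mollifier is supported in a small ball, the derivative of the mollification is the
mollification of the weak derivative -/
lemma moll_weak {Ω : Set E} {f g : E → F} {Df : E → E →L[ℝ] F} (hD : WeakDerivOn Ω f Df)
    {φ : E → ℝ} (hφ : ContDiff ℝ ∞ φ) (hc : HasCompactSupport φ) {z : E} {r : ℝ}
    (hsupp : tsupport φ ⊆ closedBall 0 r) (hr : closedBall z r ⊆ Ω)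
    (hg : ∀ w ∈ closedBall z r, g w = f w) (v : E) :
    ∫ w, (fderiv ℝ φ (z - w) v) • g w = ∫ w, φ (z - w) • Df w v := by
  have hψ : ContDiff ℝ ∞ (fun w => φ (z - w)) := hφ.comp (contDiff_const.sub contDiff_id)
  have hψs : tsupport (fun w => φ (z - w)) ⊆ closedBall z r := by
    refine closure_minimal ?_ isClosed_closedBall
    intro w hw
    have : z - w ∈ closedBall (0:E) r := hsupp (subset_tsupport φ hw)
    rw [mem_closedBall, dist_zero_right] at this
    rw [mem_closedBall, dist_comm, dist_eq_norm]
    exact this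
  have hψc : HasCompactSupport (fun w => φ (z - w)) :=
    IsCompact.of_isClosed_subset (isCompact_closedBall z r) (isClosed_tsupport _) hψs
  have h := hD.2.2 _ hψ hψc (hψs.trans hr) v
  have h1 : ∀ w, fderiv ℝ (fun w => φ (z - w)) w v = - fderiv ℝ φ (z - w) v := by
    intro w
    have hd : HasFDerivAt φ (fderiv ℝ φ (z - w)) (z - w) :=
      (hφ.differentiable (by norm_num) (z - w)).hasFDerivAt
    have h2 : HasFDerivAt (fun w => z - w) (-(ContinuousLinearMap.id ℝ E)) w :=
      (hasFDerivAt_id w).const_sub z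
    have h3 := hd.comp w h2
    have h4 : fderiv ℝ (fun w => φ (z - w)) w =
        (fderiv ℝ φ (z - w)).comp (-(ContinuousLinearMap.id ℝ E)) := h3.fderiv
    rw [h4]; simp
  simp_rw [h1, neg_smul] at h
  rw [integral_neg, neg_inj] at h
  rw [← h]
  congr 1
  funext w
  by_cases hw : w ∈ closedBall z r
  · rw [hg w hw]
  · have h0 : fderiv ℝ φ (z - w) = 0 := by
      have : z - w ∉ tsupport φ := by
        intro hcon
        apply hw
        have := hsupp hcon
        rw [mem_closedBall, dist_zero_right] at this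
        rw [mem_closedBall, dist_comm, dist_eq_norm]
        exact this
      by_contra hne
      exact this ((support_fderiv_subset ℝ) (Function.mem_support.mpr hne))
    rw [h0]; simp

end Pool.Agent.Helper930.WD
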