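import Mathlib
import Pool.Agent.Helper930.WD

set_option autoImplicit false

open Set Filter Topology MeasureTheory Metric
open scoped ContDiff NNReal

namespace Pool.Agent.Helper930.WD

variable {E F : Type*} [NormedAddCommGroup E] [InnerProductSpace ℝ E] [FiniteDimensional ℝ E]
  [MeasurableSpace E] [BorelSpace E] [NormedAddCommGroup F] [NormedSpace ℝ F]
  [FiniteDimensional ℝ F]

lemma ibp_lip_real {f : E → ℝ} {C : ℝ≥0} (hf : LipschitzWith C f) {φ : E → ℝ}
    (hφ : ContDiff ℝ 1 φ) (hc : HasCompactSupport φ) (v : E) :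
    ∫ x, (fderiv ℝ φ x v) * f x = - ∫ x, φ x * lineDeriv ℝ f x v := by
  obtain ⟨C', hL⟩ := ContDiff.lipschitzWith_of_hasCompactSupport hc hφ (by norm_num)
  have h := hf.integral_lineDeriv_mul_eq (μ := (volume : Measure E)) hL hc v
  have h1 : ∀ x, lineDeriv ℝ φ x (-v) = - (fderiv ℝ φ x v) := by
    intro x
    rw [(hφ.differentiable (by norm_num) x).lineDeriv_eq_fderiv, map_neg]
  simp_rw [h1] at h
  have h2 : ∫ x, φ x * lineDeriv ℝ f x v = ∫ x, lineDeriv ℝ f x v * φ x := by
    congr 1; funext x; ring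
  rw [h2, h]
  simp only [neg_mul]
  rw [MeasureTheory.integral_neg, neg_neg]

lemma ibp_lip {f : E → F} {C : ℝ≥0} (hf : LipschitzWith C f) {φ : E → ℝ}
    (hφ : ContDiff ℝ 1 φ) (hc : HasCompactSupport φ) (v : E) :
    ∫ x, (fderiv ℝ φ x v) • f x = - ∫ x, φ x • fderiv ℝ f x v := by
  borelize F
  haveI : CompleteSpace F := FiniteDimensional.complete ℝ F
  have hdiff : ∀ᵐ z : E, DifferentiableAt ℝ f z := hf.ae_differentiableAt
  have hcf : Continuous (fun x => fderiv ℝ φ x v) :=
    (hφ.continuous_fderiv (by norm_num)).clm_apply continuous_const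
  have hcs : HasCompactSupport (fun x => fderiv ℝ φ x v) := by
    have := hc.fderiv (𝕜 := ℝ)
    exact this.comp_left (g := fun A : E →L[ℝ] ℝ => A v) (by simp)
  have hi1 : Integrable (fun x => (fderiv ℝ φ x v) • f x) (volume : Measure E) :=
    (hcf.smul hf.continuous).integrable_of_hasCompactSupport hcs.smul_right
  have hi2 : Integrable (fun x => φ x • fderiv ℝ f x v) (volume : Measure E) := by
    have hφi : Integrable (fun x => φ x) (volume : Measure E) :=
      hφ.continuous.integrable_of_hasCompactSupport hc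
    refine Integrable.mono' (hφi.norm.mul_const (C * ‖v‖)) ?_ ?_
    · exact hφ.continuous.aestronglyMeasurable.smul
        (measurable_fderiv_apply_const ℝ f v).aestronglyMeasurable
    · filter_upwards with x
      rw [norm_smul]
      gcongr
      exact (ContinuousLinearMap.le_opNorm _ _).trans
        (by gcongr; exact norm_fderiv_le_of_lipschitz ℝ hf)
  rw [SeparatingDual.eq_iff_forall_dual_eq (R := ℝ)]
  intro g
  have hg : LipschitzWith (‖g‖₊ * C) (fun x => g (f x)) := g.lipschitz.comp hf
  rw [map_neg, ← g.integral_comp_comm hi1, ← g.integral_comp_comm hi2]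
  simp only [map_smul, smul_eq_mul]
  rw [ibp_lip_real hg hφ hc v]
  congr 1
  apply integral_congr_ae
  filter_upwards [hdiff] with x hx
  have h1 : HasFDerivAt (fun x => g (f x)) (g.comp (fderiv ℝ f x)) x :=
    g.hasFDerivAt.comp x hx.hasFDerivAt
  rw [h1.differentiableAt.lineDeriv_eq_fderiv, h1.fderiv]
  rfl

/-- a map which is Lipschitz near every compact subset of the open set `Ω` has its almost
everywhere derivative as weak derivative. -/
theorem weakDeriv_of_lip {Ω : Set E} (hΩ : IsOpen Ω) {f : E → F}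
    (hL : ∀ K ⊆ Ω, IsCompact K → ∃ V, IsOpen V ∧ K ⊆ V ∧ ∃ C, LipschitzOnWith C f V) :
    WeakDerivOn Ω f (fderiv ℝ f) := by
  haveI : CompleteSpace F := FiniteDimensional.complete ℝ F
  have hloc : ∀ x ∈ Ω, ∃ V, IsOpen V ∧ x ∈ V ∧ ∃ C, LipschitzOnWith C f V := by
    intro x hx
    obtain ⟨V, hV, hxV, hC⟩ := hL {x} (by simpa using hx) isCompact_singleton
    exact ⟨V, hV, hxV rfl, hC⟩
  refine ⟨?_, ?_, ?_⟩
  · apply ContinuousOn.locallyIntegrableOn _ hΩ.measurableSet
    intro x hx
    obtain ⟨V, hV, hxV, C, hC⟩ := hloc x hx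
    exact (hC.continuousOn.continuousAt (hV.mem_nhds hxV)).continuousWithinAt
  · intro x hx
    obtain ⟨V, hV, hxV, C, hC⟩ := hloc x hx
    obtain ⟨r, hr, hrV⟩ := Metric.isOpen_iff.mp hV x hxV
    refine ⟨ball x r, mem_nhdsWithin_of_mem_nhds (ball_mem_nhds x hr), ?_⟩
    refine Integrable.mono' (g := fun _ => (C : ℝ)) ?_
      (measurable_fderiv ℝ f).aestronglyMeasurable ?_
    · exact integrableOn_const (by exact measure_ball_lt_top.ne)
    · filter_upwards [ae_restrict_mem isOpen_ball.measurableSet] with y hy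
      exact norm_fderiv_le_of_lipschitzOn ℝ (hV.mem_nhds (hrV hy)) hC
  · intro φ hφ hc hsub v
    obtain ⟨V, hV, hKV, C, hC⟩ := hL _ hsub hc
    obtain ⟨g, hg, hgf⟩ := hC.extend_finite_dimension
    have h := ibp_lip hg (hφ.of_le (by norm_num)) hc v
    have h1 : ∫ x, (fderiv ℝ φ x v) • f x = ∫ x, (fderiv ℝ φ x v) • g x := by
      congr 1
      funext x
      by_cases hx : x ∈ V
      · rw [hgf hx]
      · have : fderiv ℝ φ x = 0 := by
          by_contra hne
          exact hx (hKV ((support_fderiv_subset ℝ) (Function.mem_support.mpr hne)))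
        rw [this]; simp
    have h2 : ∫ x, φ x • fderiv ℝ f x v = ∫ x, φ x • fderiv ℝ g x v := by
      congr 1
      funext x
      by_cases hx : x ∈ V
      · have : f =ᶠ[𝓝 x] g := by
          filter_upwards [hV.mem_nhds hx] with y hy using hgf hy
        rw [this.fderiv_eq]
      · have : φ x = 0 := by
          by_contra hne
          exact hx (hKV (subset_tsupport φ (Function.mem_support.mpr hne)))
        rw [this]; simp
    rw [h1, h2, h]

end Pool.Agent.Helper930.WD
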