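import Mathlib

set_option autoImplicit false

open Set Filter Topology Metric

namespace Pool.Agent.Helper930.MA

/-- `log((1+z)/(1-z))`, from the unit disc to the strip -/
noncomputable def Lg (z : ℂ) : ℂ := Complex.log ((1+z)/(1-z))
/-- the inverse map `(e^ζ-1)/(e^ζ+1)` -/
noncomputable def Ep (ζ : ℂ) : ℂ := (Complex.exp ζ - 1)/(Complex.exp ζ + 1)

lemma one_sub_ne {z : ℂ} (hz : ‖z‖ < 1) : 1 - z ≠ 0 := by
  intro h
  have : z = 1 := by linear_combination -h
  rw [this, norm_one] at hz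
  exact lt_irrefl _ hz

lemma re_pos {z : ℂ} (hz : ‖z‖ < 1) : 0 < ((1+z)/(1-z)).re := by
  have h1 : 0 < Complex.normSq (1 - z) := Complex.normSq_pos.mpr (one_sub_ne hz)
  have h2 : Complex.normSq z < 1 := by
    rw [Complex.normSq_eq_norm_sq]; nlinarith [norm_nonneg z]
  rw [Complex.div_re]
  simp only [Complex.add_re, Complex.one_re, Complex.sub_re, Complex.add_im, Complex.one_im,
    Complex.sub_im, zero_add, zero_sub]
  rw [← add_div]
  apply div_pos _ h1
  rw [Complex.normSq_apply] at h2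
  nlinarith

lemma quot_ne {z : ℂ} (hz : ‖z‖ < 1) : (1+z)/(1-z) ≠ 0 := by
  intro h
  have := re_pos hz
  rw [h] at this
  simp at this

lemma Lg_im {z : ℂ} (hz : ‖z‖ < 1) : |(Lg z).im| < Real.pi/2 := by
  unfold Lg
  rw [Complex.log_im, Complex.abs_arg_lt_pi_div_two_iff]
  exact Or.inl (re_pos hz)

lemma exp_Lg {z : ℂ} (hz : ‖z‖ < 1) : Complex.exp (Lg z) = (1+z)/(1-z) :=
  Complex.exp_log (quot_ne hz)

lemma Ep_Lg {z : ℂ} (hz : ‖z‖ < 1) : Ep (Lg z) = z := by
  unfold Ep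
  rw [exp_Lg hz]
  have := one_sub_ne hz
  field_simp
  ring

lemma exp_re_pos {ζ : ℂ} (h : |ζ.im| < Real.pi/2) : 0 < (Complex.exp ζ).re := by
  rw [Complex.exp_re]
  rw [abs_lt] at h
  have := Real.cos_pos_of_mem_Ioo ⟨h.1, h.2⟩
  positivity

lemma exp_add_ne {ζ : ℂ} (h : |ζ.im| < Real.pi/2) : Complex.exp ζ + 1 ≠ 0 := by
  intro h0
  have h1 := exp_re_pos h
  have : (Complex.exp ζ + 1).re = 0 := by rw [h0]; simp
  rw [Complex.add_re, Complex.one_re] at this
  linarith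

lemma Ep_mem {ζ : ℂ} (h : |ζ.im| < Real.pi/2) : ‖Ep ζ‖ < 1 := by
  unfold Ep
  rw [norm_div, div_lt_one (norm_pos_iff.mpr (exp_add_ne h))]
  have h1 := exp_re_pos h
  have h2 : ‖Complex.exp ζ - 1‖^2 < ‖Complex.exp ζ + 1‖^2 := by
    rw [← Complex.normSq_eq_norm_sq, ← Complex.normSq_eq_norm_sq, Complex.normSq_apply,
      Complex.normSq_apply]
    simp only [Complex.sub_re, Complex.one_re, Complex.sub_im, Complex.one_im, Complex.add_re,
      Complex.add_im]
    nlinarith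
  exact lt_of_pow_lt_pow_left₀ 2 (norm_nonneg _) h2

lemma Lg_Ep {ζ : ℂ} (h : |ζ.im| < Real.pi/2) : Lg (Ep ζ) = ζ := by
  have h1 := exp_add_ne h
  have h2 : (1 + Ep ζ)/(1 - Ep ζ) = Complex.exp ζ := by
    unfold Ep
    have h3 : 1 - (Complex.exp ζ - 1)/(Complex.exp ζ + 1) = 2/(Complex.exp ζ + 1) := by
      field_simp; ring
    have h4 : 1 + (Complex.exp ζ - 1)/(Complex.exp ζ + 1) =
        2*Complex.exp ζ/(Complex.exp ζ + 1) := by
      field_simp; ring
    rw [h3, h4]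
    field_simp
  unfold Lg
  rw [h2]
  rw [abs_lt] at h
  apply Complex.log_exp <;> linarith [Real.pi_pos, h.1, h.2]

lemma Ep_hasDerivAt {ζ : ℂ} (h : |ζ.im| < Real.pi/2) :
    HasDerivAt Ep (2*Complex.exp ζ/(Complex.exp ζ + 1)^2) ζ := by
  have h1 := exp_add_ne h
  have h2 := ((Complex.hasDerivAt_exp ζ).sub_const 1).div ((Complex.hasDerivAt_exp ζ).add_const 1) h1
  have h3 : (Complex.exp ζ * (Complex.exp ζ + 1) - (Complex.exp ζ - 1) * Complex.exp ζ) /
      (Complex.exp ζ + 1)^2 = 2*Complex.exp ζ/(Complex.exp ζ + 1)^2 := by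
    congr 1; ring
  rw [h3] at h2
  exact h2

lemma Ep_deriv_bound {ζ : ℂ} (h : |ζ.im| < Real.pi/2) :
    ‖2*Complex.exp ζ/(Complex.exp ζ + 1)^2‖ ≤ 1 := by
  have h1 := exp_add_ne h
  rw [norm_div, norm_pow, div_le_one (by positivity), norm_mul]
  have h2 := exp_re_pos h
  have h3 : ‖(2:ℂ)‖ = 2 := by simp
  rw [h3]
  have h4 : ‖Complex.exp ζ + 1‖^2 = ‖Complex.exp ζ‖^2 + 2*(Complex.exp ζ).re + 1 := by
    rw [← Complex.normSq_eq_norm_sq, ← Complex.normSq_eq_norm_sq, Complex.normSq_apply,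
      Complex.normSq_apply]
    simp only [Complex.add_re, Complex.one_re, Complex.add_im, Complex.one_im]
    ring
  rw [h4]
  nlinarith [sq_nonneg (‖Complex.exp ζ‖ - 1)]

lemma Ep_deriv_ne {ζ : ℂ} (h : |ζ.im| < Real.pi/2) :
    2*Complex.exp ζ/(Complex.exp ζ + 1)^2 ≠ 0 := by
  have h1 := exp_add_ne h
  have h2 := Complex.exp_ne_zero ζ
  exact div_ne_zero (mul_ne_zero two_ne_zero h2) (pow_ne_zero 2 h1)

lemma sq_ne {z : ℂ} (hz : ‖z‖ < 1) : 1 - z^2 ≠ 0 := by
  intro h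
  have h1 : z^2 = 1 := by linear_combination -h
  have h2 : ‖z‖^2 = 1 := by rw [← norm_pow, h1, norm_one]
  nlinarith [norm_nonneg z]

lemma Lg_hasDerivAt {z : ℂ} (hz : ‖z‖ < 1) : HasDerivAt Lg (2/(1-z^2)) z := by
  have h0 := one_sub_ne hz
  have h1 : HasDerivAt (fun z : ℂ => (1+z)/(1-z)) (2/(1-z)^2) z := by
    have h2 := ((hasDerivAt_id z).const_add 1).div ((hasDerivAt_id z).const_sub 1) h0
    have h3 : (1 * (1 - id z) - (1 + id z) * -1) / (1 - id z)^2 = 2/(1-z)^2 := by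
      simp only [id]; congr 1; ring
    rw [h3] at h2
    exact h2
  have h2 : (1+z)/(1-z) ∈ Complex.slitPlane := Or.inl (re_pos hz)
  have h3 := h1.clog h2
  have h4 : 2/(1-z)^2/((1+z)/(1-z)) = 2/(1-z^2) := by
    have h5 : 1 + z ≠ 0 := by
      intro h
      have : z = -1 := by linear_combination h
      rw [this, norm_neg, norm_one] at hz
      exact lt_irrefl _ hz
    have h6 : 1 - z^2 = (1-z)*(1+z) := by ring
    rw [h6]
    field_simp
  rw [h4] at h3
  exact h3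

lemma Lg_continuousOn : ContinuousOn Lg (ball 0 1) := fun z hz => by
  have hz' : ‖z‖ < 1 := by simpa using hz
  exact (Lg_hasDerivAt hz').continuousAt.continuousWithinAt

/-- the marked points -/
noncomputable def pt (n : ℤ) : ℝ := ((2:ℝ)^n - 1)/((2:ℝ)^n + 1)

lemma zp (n : ℤ) : (0:ℝ) < 2^n := by positivity

lemma pt_abs (n : ℤ) : |pt n| < 1 := by
  unfold pt
  have := zp n
  rw [abs_div, abs_of_pos (by linarith : (0:ℝ) < 2^n + 1), div_lt_one (by linarith), abs_lt]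
  constructor <;> linarith

lemma pt_mem (n : ℤ) : (pt n : ℂ) ∈ ball (0:ℂ) 1 := by
  simpa using pt_abs n

lemma exp_log_two (n : ℤ) : Complex.exp ((n * Real.log 2 : ℝ) : ℂ) = ((2:ℝ)^n : ℝ) := by
  rw [← Complex.ofReal_exp, mul_comm, Real.exp_mul, Real.exp_log (by norm_num),
    Real.rpow_intCast]

lemma Ep_int (n : ℤ) : Ep ((n * Real.log 2 : ℝ) : ℂ) = pt n := by
  unfold Ep pt
  rw [exp_log_two]
  push_cast
  rfl

lemma Lg_pt (n : ℤ) : Lg (pt n) = ((n * Real.log 2 : ℝ) : ℂ) := by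
  rw [← Ep_int]
  apply Lg_Ep
  simp only [Complex.ofReal_im, abs_zero]
  positivity

lemma pt_injective : Function.Injective pt := by
  intro m n h
  have h1 := Lg_pt m
  rw [h, Lg_pt n] at h1
  have h2 : (n * Real.log 2 : ℝ) = m * Real.log 2 := by exact_mod_cast h1
  have h3 := mul_right_cancel₀ (Real.log_pos (by norm_num : (1:ℝ) < 2)).ne' h2
  exact_mod_cast h3.symm

/-- the disc with a set of marked points removed -/
def DS (S : Set ℤ) : Set ℂ := ball 0 1 \ (fun n : ℤ => (pt n : ℂ)) '' S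

lemma isOpen_DS (S : Set ℤ) : IsOpen (DS S) := by
  have hL : (0:ℝ) < Real.log 2 := Real.log_pos (by norm_num)
  have hcl : IsClosed ((fun n : ℤ => ((n * Real.log 2 : ℝ) : ℂ)) '' S) := by
    have h1 : (fun n : ℤ => ((n * Real.log 2 : ℝ) : ℂ)) '' S =
        (fun x : ℝ => (x : ℂ)) '' ((fun x : ℝ => x * Real.log 2) '' ((fun n : ℤ => (n : ℝ)) '' S)) := by
      rw [image_image, image_image]
    rw [h1]
    apply Complex.isometry_ofReal.isClosedEmbedding.isClosedMap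
    have h2 : IsClosed ((fun n : ℤ => (n : ℝ)) '' S) :=
      Int.isClosedEmbedding_coe_real.isClosedMap _ (isClosed_discrete S)
    exact (Homeomorph.mulRight₀ (Real.log 2) hL.ne').isClosedMap _ h2
  have h3 : DS S = ball 0 1 ∩ Lg ⁻¹' ((fun n : ℤ => ((n * Real.log 2 : ℝ) : ℂ)) '' S)ᶜ := by
    ext z
    constructor
    · rintro ⟨hz, hn⟩
      refine ⟨hz, ?_⟩
      rintro ⟨n, hnS, hn2⟩
      apply hn
      refine ⟨n, hnS, ?_⟩
      simp only at hn2 ⊢
      have hz' : ‖z‖ < 1 := by simpa using hz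
      rw [← Ep_int, hn2, Ep_Lg hz']
    · rintro ⟨hz, hn⟩
      refine ⟨hz, ?_⟩
      rintro ⟨n, hnS, rfl⟩
      apply hn
      exact ⟨n, hnS, (Lg_pt n).symm⟩
  rw [h3]
  exact Lg_continuousOn.isOpen_inter_preimage isOpen_ball hcl.isOpen_compl

end Pool.Agent.Helper930.MA
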