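import Mathlib
import Pool.Agent.Helper930.Strip
import Pool.Agent.Helper930.LipWD

set_option autoImplicit false

open Set Filter Topology MeasureTheory Metric
open scoped ContDiff NNReal

namespace Pool.Agent.Helper930.MA

/-- `log 2` -/
noncomputable def LL : ℝ := Real.log 2
lemma LL_pos : 0 < LL := Real.log_pos (by norm_num)

/-- the shift which opens a gap at `0` -/
noncomputable def gm (m : ℕ) (x : ℝ) : ℝ := x - m*LL + max 0 (min (x - (m-1)*LL) LL)
/-- its inverse -/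
noncomputable def gi (m : ℕ) (y : ℝ) : ℝ := y + m*LL - (max (-LL) (min y LL) + LL)/2

lemma gm_low {m : ℕ} {x : ℝ} (h : x ≤ (m-1)*LL) : gm m x = x - m*LL := by
  unfold gm
  have := LL_pos
  rw [min_eq_left (by linarith), max_eq_left (by linarith), add_zero]

lemma gm_mid {m : ℕ} {x : ℝ} (h : (m-1)*LL ≤ x) (h2 : x ≤ m*LL) :
    gm m x = 2*x - (2*m-1)*LL := by
  unfold gm
  rw [min_eq_left (by linarith), max_eq_right (by linarith)]
  ring

lemma gm_high {m : ℕ} {x : ℝ} (h : m*LL ≤ x) : gm m x = x - (m-1)*LL := by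
  unfold gm
  have := LL_pos
  rw [min_eq_right (by linarith), max_eq_right (by linarith)]
  ring

lemma gi_gm (m : ℕ) (x : ℝ) : gi m (gm m x) = x := by
  have hL := LL_pos
  rcases le_total x ((m-1)*LL) with h | h
  · rw [gm_low h]
    unfold gi
    rw [min_eq_left (by linarith), max_eq_left (by linarith)]
    ring
  · rcases le_total x (m*LL) with h2 | h2
    · rw [gm_mid h h2]
      unfold gi
      rw [min_eq_left (by linarith), max_eq_right (by linarith)]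
      ring
    · rw [gm_high h2]
      unfold gi
      rw [min_eq_right (by linarith), max_eq_right (by linarith)]
      ring

lemma gm_gi (m : ℕ) (y : ℝ) : gm m (gi m y) = y := by
  have hL := LL_pos
  rcases le_total y (-LL) with h | h
  · have h1 : gi m y = y + m*LL := by
      unfold gi
      rw [min_eq_left (by linarith), max_eq_left (by linarith)]
      ring
    rw [h1, gm_low (by linarith)]
    ring
  · rcases le_total y LL with h2 | h2
    · have h1 : gi m y = y + m*LL - (y + LL)/2 := by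
        unfold gi
        rw [min_eq_left (by linarith), max_eq_right (by linarith)]
      rw [h1, gm_mid (by linarith) (by linarith)]
      ring
    · have h1 : gi m y = y + m*LL - LL := by
        unfold gi
        rw [min_eq_right (by linarith), max_eq_right (by linarith)]
        ring
      rw [h1, gm_high (by linarith)]
      ring

lemma gm_continuous (m : ℕ) : Continuous (gm m) := by unfold gm; fun_prop
lemma gi_continuous (m : ℕ) : Continuous (gi m) := by unfold gi; fun_prop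

lemma gm_int (m : ℕ) (n : ℤ) : ∃ k : ℤ, k ≠ 0 ∧ gm m (n*LL) = k*LL := by
  have hL := LL_pos
  rcases le_or_gt n ((m:ℤ)-1) with h | h
  · refine ⟨n - m, by omega, ?_⟩
    have h' : (n:ℝ) ≤ m - 1 := by exact_mod_cast h
    rw [gm_low (by nlinarith)]
    push_cast
    ring
  · refine ⟨n - m + 1, by omega, ?_⟩
    have h1 : (m:ℤ) ≤ n := by omega
    have h' : (m:ℝ) ≤ n := by exact_mod_cast h1
    rw [gm_high (by nlinarith)]
    push_cast
    ring

lemma gi_int (m : ℕ) {k : ℤ} (hk : k ≠ 0) : ∃ n : ℤ, gi m (k*LL) = n*LL := by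
  have hL := LL_pos
  rcases lt_or_gt_of_ne hk with h | h
  · refine ⟨k + m, ?_⟩
    have h1 : k ≤ -1 := by omega
    have h' : (k:ℝ) ≤ -1 := by exact_mod_cast h1
    have h2 : gm m ((k+m)*LL) = k*LL := by
      rw [gm_low (by nlinarith)]; ring
    rw [← h2, gi_gm]; push_cast; ring
  · refine ⟨k + m - 1, ?_⟩
    have h1 : 1 ≤ k := by omega
    have h' : (1:ℝ) ≤ k := by exact_mod_cast h1
    have h2 : gm m ((k+m-1)*LL) = k*LL := by
      rw [gm_high (by nlinarith)]; ring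
    rw [← h2, gi_gm]; push_cast; ring

lemma gm_lip (m : ℕ) (x y : ℝ) : |gm m x - gm m y| ≤ 2 * |x - y| := by
  have h1 : |max 0 (min (x - (m-1)*LL) LL) - max 0 (min (y - (m-1)*LL) LL)| ≤ |x - y| := by
    have h2 : |max 0 (min (x - (m-1)*LL) LL) - max 0 (min (y - (m-1)*LL) LL)| ≤
        |(min (x - (m-1)*LL) LL) - (min (y - (m-1)*LL) LL)| := by
      rw [max_comm 0, max_comm 0]
      exact abs_max_sub_max_le_abs _ _ _
    refine h2.trans ?_
    have := abs_min_sub_min_le_max (x - (m-1)*LL) LL (y - (m-1)*LL) LL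
    simpa using this
  unfold gm
  calc _ = |(x - y) + (max 0 (min (x - (m-1)*LL) LL) - max 0 (min (y - (m-1)*LL) LL))| := by
        congr 1; ring
    _ ≤ |x - y| + |x - y| := (abs_add_le _ _).trans (by linarith)
    _ = _ := by ring

/-- the plane map `x + i y ↦ g x + i y` -/
noncomputable def GG (g : ℝ → ℝ) (ζ : ℂ) : ℂ := (g ζ.re : ℂ) + (ζ.im : ℂ) * Complex.I

@[simp] lemma GG_re (g : ℝ → ℝ) (ζ : ℂ) : (GG g ζ).re = g ζ.re := by simp [GG]
@[simp] lemma GG_im (g : ℝ → ℝ) (ζ : ℂ) : (GG g ζ).im = ζ.im := by simp [GG]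

lemma GG_continuous {g : ℝ → ℝ} (hg : Continuous g) : Continuous (GG g) := by
  unfold GG; fun_prop

lemma GG_inv {g h : ℝ → ℝ} (hgh : ∀ x, h (g x) = x) (ζ : ℂ) : GG h (GG g ζ) = ζ := by
  apply Complex.ext <;> simp [hgh]

lemma GG_gm_lip (m : ℕ) (ζ η : ℂ) : ‖GG (gm m) ζ - GG (gm m) η‖ ≤ 3 * ‖ζ - η‖ := by
  have h1 := Complex.norm_le_abs_re_add_abs_im (GG (gm m) ζ - GG (gm m) η)
  rw [Complex.sub_re, Complex.sub_im, GG_re, GG_re, GG_im, GG_im] at h1
  have h2 := gm_lip m ζ.re η.re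
  have h3 := Complex.abs_re_le_norm (ζ - η)
  have h4 := Complex.abs_im_le_norm (ζ - η)
  rw [Complex.sub_re] at h3
  rw [Complex.sub_im] at h4
  linarith

/-- the maps of the disc -/
noncomputable def FF (g : ℝ → ℝ) (z : ℂ) : ℂ := Ep (GG g (Lg z))

lemma FF_mem (g : ℝ → ℝ) {z : ℂ} (hz : ‖z‖ < 1) : ‖FF g z‖ < 1 := by
  apply Ep_mem
  rw [GG_im]; exact Lg_im hz

lemma FF_inv {g h : ℝ → ℝ} (hgh : ∀ x, h (g x) = x) {z : ℂ} (hz : ‖z‖ < 1) :
    FF h (FF g z) = z := by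
  unfold FF
  rw [Lg_Ep (by rw [GG_im]; exact Lg_im hz), GG_inv hgh, Ep_Lg hz]

lemma Ep_continuousOn : ContinuousOn Ep {ζ : ℂ | |ζ.im| < Real.pi/2} := fun ζ hζ =>
  (Ep_hasDerivAt hζ).continuousAt.continuousWithinAt

lemma FF_continuousOn {g : ℝ → ℝ} (hg : Continuous g) : ContinuousOn (FF g) (ball 0 1) := by
  unfold FF
  apply Ep_continuousOn.comp ((GG_continuous hg).comp_continuousOn Lg_continuousOn)
  intro z hz
  have hz' : ‖z‖ < 1 := by simpa using hz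
  change |(GG g (Lg z)).im| < _
  rw [GG_im]; exact Lg_im hz'

lemma FF_maps {g h : ℝ → ℝ} (hgh : ∀ x, h (g x) = x) {S T : Set ℤ}
    (hST : ∀ k ∈ T, ∃ n ∈ S, h (k*LL) = n*LL) {z : ℂ} (hz : z ∈ DS S) : FF g z ∈ DS T := by
  have hz' : ‖z‖ < 1 := by simpa using hz.1
  refine ⟨by simpa using FF_mem g hz', ?_⟩
  rintro ⟨k, hk, hk2⟩
  obtain ⟨n, hn, hn2⟩ := hST k hk
  apply hz.2
  refine ⟨n, hn, ?_⟩
  have h1 : (pt k : ℂ) = FF g z := hk2
  have h2 : FF h (pt k : ℂ) = z := by rw [h1, FF_inv hgh hz']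
  rw [← h2]
  change (pt n : ℂ) = FF h (pt k)
  unfold FF
  rw [Lg_pt, ← Ep_int n]
  congr 1
  apply Complex.ext
  · rw [GG_re, Complex.ofReal_re, Complex.ofReal_re]; exact hn2.symm
  · rw [GG_im, Complex.ofReal_im, Complex.ofReal_im]

/-- the homeomorphism -/
noncomputable def FH (m : ℕ) : DS univ ≃ₜ DS {n | n ≠ 0} where
  toFun z := ⟨FF (gm m) z, FF_maps (gi_gm m) (S := univ) (fun k hk => by
    obtain ⟨n, hn⟩ := gi_int m hk
    exact ⟨n, trivial, hn⟩) z.2⟩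
  invFun w := ⟨FF (gi m) w, FF_maps (gm_gi m) (S := {n | n ≠ 0}) (T := univ) (fun k _ => gm_int m k) w.2⟩
  left_inv z := Subtype.ext (FF_inv (gi_gm m) (by simpa using z.2.1))
  right_inv w := Subtype.ext (FF_inv (gm_gi m) (by simpa using w.2.1))
  continuous_toFun := Continuous.subtype_mk
    ((FF_continuousOn (gm_continuous m)).comp_continuous continuous_subtype_val
      (fun z => z.2.1)) _
  continuous_invFun := Continuous.subtype_mk
    ((FF_continuousOn (gi_continuous m)).comp_continuous continuous_subtype_val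
      (fun z => z.2.1)) _

lemma FH_apply (m : ℕ) (z : DS univ) : FF (gm m) z = FH m z := rfl

/-! Lipschitz bounds -/

lemma Ep_lip {ζ η : ℂ} (h1 : |ζ.im| < Real.pi/2) (h2 : |η.im| < Real.pi/2) :
    ‖Ep ζ - Ep η‖ ≤ ‖ζ - η‖ := by
  have hconv : Convex ℝ {ζ : ℂ | |ζ.im| < Real.pi/2} := by
    have : {ζ : ℂ | |ζ.im| < Real.pi/2} = (Complex.imLm : ℂ →ₗ[ℝ] ℝ) ⁻¹' (Ioo (-(Real.pi/2)) (Real.pi/2)) := by
      ext z; simp [abs_lt]
    rw [this]
    exact (convex_Ioo _ _).linear_preimage _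
  have := hconv.norm_image_sub_le_of_norm_hasDerivWithin_le (f := Ep) (C := 1)
    (fun x hx => (Ep_hasDerivAt hx).hasDerivWithinAt) (fun x hx => Ep_deriv_bound hx) h2 h1
  simpa using this

lemma Lg_lip {ρ : ℝ} (hρ0 : 0 ≤ ρ) (hρ : ρ < 1) {z w : ℂ} (hz : z ∈ ball (0:ℂ) ρ)
    (hw : w ∈ ball (0:ℂ) ρ) : ‖Lg z - Lg w‖ ≤ 2/(1-ρ^2) * ‖z - w‖ := by
  refine (convex_ball (0:ℂ) ρ).norm_image_sub_le_of_norm_hasDerivWithin_le (f := Lg)
    (f' := fun z => 2/(1-z^2)) (C := 2/(1-ρ^2)) ?_ ?_ hw hz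
  · intro x hx
    have hx' : ‖x‖ < ρ := by simpa using hx
    exact (Lg_hasDerivAt (hx'.trans hρ)).hasDerivWithinAt
  · intro x hx
    have hx' : ‖x‖ < ρ := by simpa using hx
    have h0 : 0 < 1 - ρ^2 := by nlinarith
    rw [norm_div]
    have h2 : ‖(2:ℂ)‖ = 2 := by simp
    rw [h2]
    gcongr
    have h3 := norm_sub_norm_le (1:ℂ) (x^2)
    rw [norm_one, norm_pow] at h3
    have h4 : ‖x‖^2 ≤ ρ^2 := by gcongr
    linarith

lemma FF_lip (m : ℕ) {ρ : ℝ} (hρ0 : 0 ≤ ρ) (hρ : ρ < 1) :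
    ∃ C : ℝ≥0, LipschitzOnWith C (FF (gm m)) (ball 0 ρ) := by
  have h0 : 0 < 1 - ρ^2 := by nlinarith
  refine ⟨⟨3 * (2/(1-ρ^2)), by positivity⟩, ?_⟩
  apply LipschitzOnWith.of_dist_le_mul
  intro z hz w hw
  rw [dist_eq_norm, dist_eq_norm]
  have hz' : ‖z‖ < 1 := lt_of_lt_of_le (by simpa using hz) hρ.le
  have hw' : ‖w‖ < 1 := lt_of_lt_of_le (by simpa using hw) hρ.le
  have h1 := Ep_lip (ζ := GG (gm m) (Lg z)) (η := GG (gm m) (Lg w))
    (by rw [GG_im]; exact Lg_im hz') (by rw [GG_im]; exact Lg_im hw')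
  have h2 := GG_gm_lip m (Lg z) (Lg w)
  have h3 := Lg_lip hρ0 hρ hz hw
  change ‖FF (gm m) z - FF (gm m) w‖ ≤ 3 * (2/(1-ρ^2)) * ‖z - w‖
  unfold FF
  linarith

lemma FF_lip_compact (m : ℕ) {K : Set ℂ} (hK : IsCompact K) (hK1 : K ⊆ ball 0 1) :
    ∃ V, IsOpen V ∧ K ⊆ V ∧ ∃ C : ℝ≥0, LipschitzOnWith C (FF (gm m)) V := by
  rcases K.eq_empty_or_nonempty with rfl | hne
  · exact ⟨∅, isOpen_empty, subset_rfl, 0, by simp⟩
  · obtain ⟨x, hx, hmax⟩ := hK.exists_isMaxOn hne continuous_norm.continuousOn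
    have hx1 : ‖x‖ < 1 := by simpa using hK1 hx
    have hρ0 : 0 ≤ (‖x‖+1)/2 := by positivity
    have hρ : (‖x‖+1)/2 < 1 := by linarith
    refine ⟨ball 0 ((‖x‖+1)/2), isOpen_ball, ?_, FF_lip m hρ0 hρ⟩
    intro y hy
    have : ‖y‖ ≤ ‖x‖ := hmax hy
    rw [mem_ball_zero_iff]
    linarith

lemma FF_weak (m : ℕ) {S : Set ℤ} : WD.WeakDerivOn (DS S) (FF (gm m)) (fderiv ℝ (FF (gm m))) :=
  WD.weakDeriv_of_lip (isOpen_DS S) (fun K hK hKc =>
    FF_lip_compact m hKc (hK.trans (fun z hz => hz.1)))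

/-! The derivative -/

lemma det_formula (A : ℂ →L[ℝ] ℂ) : A.det =
    (A 1).re * (A Complex.I).im - (A Complex.I).re * (A 1).im := by
  rw [ContinuousLinearMap.det, ← LinearMap.det_toMatrix Complex.basisOneI, Matrix.det_fin_two]
  simp [LinearMap.toMatrix_apply]

lemma gm_deriv (m : ℕ) {x : ℝ} (h1 : x ≠ (m-1)*LL) (h2 : x ≠ m*LL) :
    ∃ c : ℝ, (c = 1 ∨ c = 2) ∧ (c = 2 → (m-1)*LL ≤ x) ∧ HasDerivAt (gm m) c x := by
  have hL := LL_pos
  rcases lt_or_gt_of_ne h1 with h | h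
  · refine ⟨1, Or.inl rfl, fun h => by norm_num at h, ?_⟩
    have h3 : HasDerivAt (fun x : ℝ => x - m*LL) 1 x := (hasDerivAt_id x).sub_const _
    refine h3.congr_of_eventuallyEq ?_
    filter_upwards [Iio_mem_nhds h] with y hy using gm_low (le_of_lt hy)
  · rcases lt_or_gt_of_ne h2 with h' | h'
    · refine ⟨2, Or.inr rfl, fun _ => h.le, ?_⟩
      have h3 : HasDerivAt (fun x : ℝ => 2*x - (2*m-1)*LL) 2 x := by
        simpa using ((hasDerivAt_id x).const_mul 2).sub_const ((2*m-1)*LL)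
      refine h3.congr_of_eventuallyEq ?_
      filter_upwards [Ioo_mem_nhds h h'] with y hy using gm_mid hy.1.le hy.2.le
    · refine ⟨1, Or.inl rfl, fun h => by norm_num at h, ?_⟩
      have h3 : HasDerivAt (fun x : ℝ => x - (m-1)*LL) 1 x := (hasDerivAt_id x).sub_const _
      refine h3.congr_of_eventuallyEq ?_
      filter_upwards [Ioi_mem_nhds h'] with y hy using gm_high (le_of_lt hy)

lemma FF_deriv (m : ℕ) {z : ℂ} (hz : ‖z‖ < 1) (h1 : (Lg z).re ≠ (m-1)*LL)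
    (h2 : (Lg z).re ≠ m*LL) :
    ∃ (α β : ℂ) (c : ℝ), α ≠ 0 ∧ β ≠ 0 ∧ (c = 1 ∨ c = 2) ∧ (c = 2 → (m-1)*LL ≤ (Lg z).re) ∧
      ∀ v, fderiv ℝ (FF (gm m)) z v =
        β * (((c * (α*v).re : ℝ) : ℂ) + (((α*v).im : ℝ) : ℂ) * Complex.I) := by
  obtain ⟨c, hc, hc2, hc3⟩ := gm_deriv m h1 h2
  have hα : (2:ℂ)/(1-z^2) ≠ 0 := div_ne_zero two_ne_zero (sq_ne hz)
  have him : |(GG (gm m) (Lg z)).im| < Real.pi/2 := by rw [GG_im]; exact Lg_im hz
  refine ⟨2/(1-z^2), _, c, hα, Ep_deriv_ne him, hc, hc2, ?_⟩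
  intro v
  have e1 := (Lg_hasDerivAt hz).hasFDerivAt.restrictScalars ℝ
  have e3 := (Ep_hasDerivAt him).hasFDerivAt.restrictScalars ℝ
  have e2 : HasFDerivAt (GG (gm m)) ((Complex.ofRealCLM.comp (c • Complex.reCLM)) +
      ((ContinuousLinearMap.mul ℝ ℂ).flip Complex.I).comp (Complex.ofRealCLM.comp Complex.imCLM))
      (Lg z) := by
    have r1 : HasFDerivAt (fun ζ : ℂ => gm m ζ.re) (c • Complex.reCLM) (Lg z) :=
      hc3.comp_hasFDerivAt (Lg z) Complex.reCLM.hasFDerivAt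
    have r2 : HasFDerivAt (fun ζ : ℂ => ((gm m ζ.re : ℝ) : ℂ))
        (Complex.ofRealCLM.comp (c • Complex.reCLM)) (Lg z) :=
      Complex.ofRealCLM.hasFDerivAt.comp (Lg z) r1
    have r3 : HasFDerivAt (fun ζ : ℂ => ((ζ.im : ℝ) : ℂ) * Complex.I)
        (((ContinuousLinearMap.mul ℝ ℂ).flip Complex.I).comp
          (Complex.ofRealCLM.comp Complex.imCLM)) (Lg z) :=
      (((ContinuousLinearMap.mul ℝ ℂ).flip Complex.I).comp
          (Complex.ofRealCLM.comp Complex.imCLM)).hasFDerivAt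
    exact r2.add r3
  have e4 := (e3.comp (Lg z) e2).comp z e1
  have e5 : fderiv ℝ (FF (gm m)) z = _ := e4.fderiv
  rw [e5]
  simp only [ContinuousLinearMap.comp_apply, ContinuousLinearMap.coe_restrictScalars',
    _root_.add_apply, _root_.smul_apply, Complex.reCLM_apply,
    Complex.imCLM_apply, Complex.ofRealCLM_apply, ContinuousLinearMap.flip_apply,
    ContinuousLinearMap.mul_apply']
  simp
  ring

end Pool.Agent.Helper930.MA
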