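import Mathlib
import Pool.Agent.Helper930.FMap

set_option autoImplicit false

open Set Filter Topology MeasureTheory Metric
open scoped ContDiff NNReal ENNReal

namespace Pool.Agent.Helper930.MA

lemma line_null (x₀ : ℝ) : volume {ζ : ℂ | ζ.re = x₀} = 0 := by
  have h : volume ((Complex.reLm : ℂ →ₗ[ℝ] ℝ).ker : Set ℂ) = 0 := by
    apply Measure.addHaar_submodule
    intro htop
    have : (1:ℂ) ∈ (Complex.reLm : ℂ →ₗ[ℝ] ℝ).ker := by rw [htop]; trivial
    rw [LinearMap.mem_ker] at this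
    simp at this
  have h2 : {ζ : ℂ | ζ.re = x₀} = (fun z => z + (-(x₀:ℂ))) ⁻¹' ((Complex.reLm : ℂ →ₗ[ℝ] ℝ).ker : Set ℂ) := by
    ext z
    simp [sub_eq_zero, ← sub_eq_add_neg]
  rw [h2, measure_preimage_add_right, h]

lemma Lg_re_null (x₀ : ℝ) : volume {z : ℂ | ‖z‖ < 1 ∧ (Lg z).re = x₀} = 0 := by
  have h1 : {z : ℂ | ‖z‖ < 1 ∧ (Lg z).re = x₀} ⊆
      Ep '' ({ζ : ℂ | |ζ.im| < Real.pi/2} ∩ {ζ : ℂ | ζ.re = x₀}) := by
    rintro z ⟨hz, hz2⟩
    exact ⟨Lg z, ⟨Lg_im hz, hz2⟩, Ep_Lg hz⟩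
  refine measure_mono_null h1 ?_
  apply addHaar_image_eq_zero_of_differentiableOn_of_addHaar_eq_zero
  · intro ζ hζ
    exact ((Ep_hasDerivAt hζ.1).differentiableAt.restrictScalars ℝ).differentiableWithinAt
  · exact measure_mono_null inter_subset_right (line_null x₀)

lemma ae_good (m : ℕ) (S : Set ℤ) : ∀ᵐ z ∂(volume.restrict (DS S)),
    ‖z‖ < 1 ∧ (Lg z).re ≠ (m-1)*LL ∧ (Lg z).re ≠ m*LL := by
  rw [ae_restrict_iff' (isOpen_DS S).measurableSet]
  have h1 := Lg_re_null ((m-1)*LL)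
  have h2 := Lg_re_null (m*LL)
  rw [measure_eq_zero_iff_ae_notMem] at h1 h2
  filter_upwards [h1, h2] with z hz1 hz2 hz
  have hz' : ‖z‖ < 1 := by simpa using hz.1
  exact ⟨hz', fun h => hz1 ⟨hz', h⟩, fun h => hz2 ⟨hz', h⟩⟩

lemma near_one {m : ℕ} {z : ℂ} (hz : ‖z‖ < 1) (h : (m-1)*LL ≤ (Lg z).re) :
    z ∈ closedBall (1:ℂ) (4/2^m) := by
  have h1 : ‖(1+z)/(1-z)‖ = Real.exp (Lg z).re := by
    rw [← exp_Lg hz, Complex.norm_exp]
  have h2 : (2:ℝ)^m / 2 ≤ Real.exp (Lg z).re := by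
    have h3 : Real.exp ((m-1)*LL) = 2^m/2 := by
      unfold LL
      rw [sub_mul, Real.exp_sub, one_mul, Real.exp_log (by norm_num), Real.exp_nat_mul,
        Real.exp_log (by norm_num)]
    rw [← h3]
    exact Real.exp_le_exp.mpr h
  rw [← h1, norm_div] at h2
  have h0 : 0 < ‖1 - z‖ := norm_pos_iff.mpr (one_sub_ne hz)
  rw [le_div_iff₀ h0] at h2
  have h4 : ‖1 + z‖ ≤ 2 := (norm_add_le _ _).trans (by rw [norm_one]; linarith)
  rw [mem_closedBall, dist_comm, dist_eq_norm, le_div_iff₀ (by positivity)]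
  linarith

/-- facts about the special matrices -/
lemma mat_facts {A : ℂ →L[ℝ] ℂ} {α β : ℂ} {c : ℝ} (hc : 1 ≤ c) (hA : ∀ v, A v =
        β * (((c * (α*v).re : ℝ) : ℂ) + (((α*v).im : ℝ) : ℂ) * Complex.I)) :
    A.det = c * ‖α‖^2 * ‖β‖^2 ∧ ‖A 1‖^2 + ‖A Complex.I‖^2 = (c^2+1) * ‖α‖^2 * ‖β‖^2 ∧
      ‖A‖^2 ≤ c^2 * ‖α‖^2 * ‖β‖^2 := by
  refine ⟨?_, ?_, ?_⟩
  · rw [det_formula, hA, hA, ← Complex.normSq_eq_norm_sq, ← Complex.normSq_eq_norm_sq,
      Complex.normSq_apply, Complex.normSq_apply]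
    simp
    ring
  · rw [hA, hA]
    simp only [← Complex.normSq_eq_norm_sq, Complex.normSq_apply]
    simp
    ring
  · have h1 : ‖A‖ ≤ c * ‖α‖ * ‖β‖ := by
      apply ContinuousLinearMap.opNorm_le_bound _ (by positivity)
      intro v
      rw [hA, norm_mul]
      have h2 : ‖(((c * (α*v).re : ℝ) : ℂ) + (((α*v).im : ℝ) : ℂ) * Complex.I)‖ ≤ c * ‖α*v‖ := by
        apply le_of_sq_le_sq _ (by positivity)
        rw [mul_pow, ← Complex.normSq_eq_norm_sq, ← Complex.normSq_eq_norm_sq,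
          Complex.normSq_apply, Complex.normSq_apply]
        simp only [Complex.add_re, Complex.ofReal_re, Complex.mul_re, Complex.I_re, mul_zero,
          Complex.ofReal_im, Complex.I_im, Complex.add_im, Complex.mul_im]
        nlinarith [mul_self_nonneg (α.re * v.im + α.im * v.re),
          mul_nonneg (by nlinarith : (0:ℝ) ≤ c^2 - 1) (mul_self_nonneg (α.re * v.im + α.im * v.re))]
      calc ‖β‖ * ‖(((c * (α*v).re : ℝ) : ℂ) + (((α*v).im : ℝ) : ℂ) * Complex.I)‖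
          ≤ ‖β‖ * (c * ‖α*v‖) := by gcongr
        _ = c * ‖α‖ * ‖β‖ * ‖v‖ := by rw [norm_mul]; ring
    calc ‖A‖^2 ≤ (c * ‖α‖ * ‖β‖)^2 := by gcongr
      _ = _ := by ring

lemma det_continuous : Continuous (fun A : ℂ →L[ℝ] ℂ => A.det) := by
  have : (fun A : ℂ →L[ℝ] ℂ => A.det) = fun A : ℂ →L[ℝ] ℂ =>
      (A 1).re * (A Complex.I).im - (A Complex.I).re * (A 1).im := funext det_formula
  rw [this]
  have h1 : Continuous (fun A : ℂ →L[ℝ] ℂ => A 1) := (ContinuousLinearMap.apply ℝ ℂ (1:ℂ)).continuous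
  have h2 : Continuous (fun A : ℂ →L[ℝ] ℂ => A Complex.I) :=
    (ContinuousLinearMap.apply ℝ ℂ (Complex.I:ℂ)).continuous
  fun_prop

lemma det_bound (A : ℂ →L[ℝ] ℂ) : |A.det| ≤ 2 * ‖A‖^2 := by
  rw [det_formula]
  have h1 : ‖A 1‖ ≤ ‖A‖ := by
    have := A.le_opNorm 1; rw [norm_one, mul_one] at this; linarith
  have hI : ‖A Complex.I‖ ≤ ‖A‖ := by
    have := A.le_opNorm Complex.I; rw [Complex.norm_I, mul_one] at this; linarith
  have a1 := (Complex.abs_re_le_norm (A 1)).trans h1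
  have a2 := (Complex.abs_im_le_norm (A 1)).trans h1
  have a3 := (Complex.abs_re_le_norm (A Complex.I)).trans hI
  have a4 := (Complex.abs_im_le_norm (A Complex.I)).trans hI
  calc |(A 1).re * (A Complex.I).im - (A Complex.I).re * (A 1).im|
      ≤ |(A 1).re * (A Complex.I).im| + |(A Complex.I).re * (A 1).im| := abs_sub _ _
    _ = |(A 1).re| * |(A Complex.I).im| + |(A Complex.I).re| * |(A 1).im| := by
        rw [abs_mul, abs_mul]
    _ ≤ ‖A‖ * ‖A‖ + ‖A‖ * ‖A‖ := by gcongr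
    _ = _ := by ring

lemma FF_det_int (m : ℕ) (S : Set ℤ) :
    LocallyIntegrableOn (fun z => (fderiv ℝ (FF (gm m)) z).det) (DS S) := by
  intro x hx
  obtain ⟨V, hV, hxV, C, hC⟩ := FF_lip_compact m (K := {x}) isCompact_singleton
    (by simpa using hx.1)
  obtain ⟨r, hr, hrV⟩ := Metric.isOpen_iff.mp hV x (hxV rfl)
  refine ⟨ball x r, mem_nhdsWithin_of_mem_nhds (ball_mem_nhds x hr), ?_⟩
  refine Integrable.mono' (g := fun _ => 2 * (C : ℝ)^2) ?_
    (det_continuous.measurable.comp (measurable_fderiv ℝ _)).aestronglyMeasurable ?_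
  · exact integrableOn_const (by exact measure_ball_lt_top.ne)
  · filter_upwards [ae_restrict_mem isOpen_ball.measurableSet] with y hy
    have h1 := norm_fderiv_le_of_lipschitzOn ℝ (hV.mem_nhds (hrV hy)) hC
    rw [Real.norm_eq_abs]
    refine (det_bound _).trans ?_
    gcongr

end Pool.Agent.Helper930.MA
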