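import Mathlib

set_option autoImplicit false

open Set Filter Topology MeasureTheory

namespace Pool.Agent.Helper930.Fbc

/-- the exponent log_2 (3/2) -/
noncomputable def pp : ℝ := Real.log (3/2) / Real.log 2

lemma log_two_pos : 0 < Real.log 2 := Real.log_pos (by norm_num)

lemma two_rpow_pp : (2:ℝ) ^ pp = 3/2 := by
  rw [Real.rpow_def_of_pos (by norm_num), pp, mul_div_cancel₀ _ log_two_pos.ne',
    Real.exp_log (by norm_num)]

lemma pp_gt_half : 1/2 < pp := by
  rw [pp, lt_div_iff₀ log_two_pos]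
  have h : Real.log 2 < Real.log ((3/2)^2) := Real.log_lt_log (by norm_num) (by norm_num)
  rw [Real.log_pow] at h
  push_cast at h
  linarith

lemma pp_le : pp ≤ 3/5 := by
  rw [pp, div_le_iff₀ log_two_pos]
  have h : Real.log ((3/2)^5) ≤ Real.log (2^3) := Real.log_le_log (by norm_num) (by norm_num)
  rw [Real.log_pow, Real.log_pow] at h
  push_cast at h
  linarith

lemma pp_pos : 0 < pp := by linarith [pp_gt_half]

/-- clamp to the unit interval -/
noncomputable def cl (r : ℝ) : ℝ := min (max r 0) 1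

lemma cl_nonneg (r : ℝ) : 0 ≤ cl r := le_min (le_max_right _ _) zero_le_one
lemma cl_le_one (r : ℝ) : cl r ≤ 1 := min_le_right _ _
lemma cl_mono : Monotone cl := fun _ _ h => min_le_min_right _ (max_le_max_right _ h)
lemma cl_continuous : Continuous cl := by unfold cl; fun_prop
lemma cl_pos {r : ℝ} (h : 0 < r) : 0 < cl r := lt_min (lt_max_of_lt_left h) one_pos
lemma cl_eq {r : ℝ} (h : 0 ≤ r) (h1 : r ≤ 1) : cl r = r := by
  rw [cl, max_eq_left h, min_eq_left h1]
lemma cl_eq_one {r : ℝ} (h : 1 ≤ r) : cl r = 1 := by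
  rw [cl, max_eq_left (by linarith), min_eq_right h]

/-- basic profile -/
noncomputable def FF (k : ℕ) (m : ℝ) : ℝ := m ^ pp * (4 - Real.log m) ^ k

noncomputable def ell (r : ℝ) : ℝ := 4 - Real.log (cl r)
noncomputable def om (r : ℝ) : ℝ := FF 1 (cl r)
noncomputable def rho (r : ℝ) : ℝ := FF 2 (cl r)

lemma ell_ge (r : ℝ) : 4 ≤ ell r := by
  have := Real.log_nonpos (cl_nonneg r) (cl_le_one r)
  unfold ell; linarith

lemma rho_eq (r : ℝ) : rho r = om r * ell r := by
  simp only [rho, om, FF, ell]; ring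

lemma ell_anti {a b : ℝ} (ha : 0 < a) (hab : a ≤ b) : ell b ≤ ell a := by
  unfold ell
  have := Real.log_le_log (cl_pos ha) (cl_mono hab)
  linarith

lemma key_exp {a b : ℝ} (ha : 0 < a) (hab : a ≤ b) (hb : b ≤ 1) :
    4 - Real.log a ≤ (4 - Real.log b) * Real.exp ((Real.log b - Real.log a)/4) := by
  have hb0 : 0 < b := ha.trans_le hab
  have h1 : 0 ≤ Real.log b - Real.log a := by
    have := Real.log_le_log ha hab; linarith
  have h2 : 4 ≤ 4 - Real.log b := by
    have := Real.log_nonpos hb0.le hb; linarith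
  have h3 := Real.add_one_le_exp ((Real.log b - Real.log a)/4)
  nlinarith [mul_le_mul_of_nonneg_left h3 (by linarith : 0 ≤ 4 - Real.log b)]

lemma FF_mono {k : ℕ} (hk : k ≤ 2) {a b : ℝ} (ha : 0 ≤ a) (hab : a ≤ b) (hb : b ≤ 1) :
    FF k a ≤ FF k b := by
  unfold FF
  rcases ha.eq_or_lt with rfl | ha
  · rw [Real.zero_rpow pp_pos.ne', zero_mul]
    have h2 : 4 ≤ 4 - Real.log b := by
      have := Real.log_nonpos hab hb; linarith
    positivity
  have hb0 : 0 < b := ha.trans_le hab
  have h1 : 0 ≤ Real.log b - Real.log a := by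
    have := Real.log_le_log ha hab; linarith
  have h2 : 4 ≤ 4 - Real.log b := by
    have := Real.log_nonpos hb0.le hb; linarith
  have h4 : 4 ≤ 4 - Real.log a := by
    have := Real.log_nonpos ha.le (hab.trans hb); linarith
  have h3 := key_exp ha hab hb
  have h5 : (4 - Real.log a)^k ≤
      ((4 - Real.log b) * Real.exp ((Real.log b - Real.log a)/4))^k :=
    pow_le_pow_left₀ (by linarith) h3 k
  rw [mul_pow, ← Real.exp_nat_mul] at h5
  have h6 : Real.exp (k * ((Real.log b - Real.log a)/4)) ≤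
      Real.exp (pp * (Real.log b - Real.log a)) := by
    apply Real.exp_le_exp.mpr
    have hk' : (k:ℝ) ≤ 2 := by exact_mod_cast hk
    nlinarith [pp_gt_half, mul_nonneg (sub_nonneg.mpr hk') h1,
      mul_nonneg (sub_nonneg.mpr pp_gt_half.le) h1]
  have h7 : b ^ pp = a ^ pp * Real.exp (pp * (Real.log b - Real.log a)) := by
    rw [Real.rpow_def_of_pos ha, Real.rpow_def_of_pos hb0, ← Real.exp_add]
    congr 1; ring
  have h8 : 0 ≤ (4 - Real.log b)^k := by positivity
  have h9 : 0 < a ^ pp := Real.rpow_pos_of_pos ha _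
  calc a ^ pp * (4 - Real.log a)^k
      ≤ a ^ pp * ((4 - Real.log b)^k * Real.exp (pp * (Real.log b - Real.log a))) := by
        gcongr
        exact h5.trans (by gcongr)
    _ = b ^ pp * (4 - Real.log b)^k := by rw [h7]; ring

lemma FF_nonneg {k : ℕ} {a : ℝ} (ha : 0 ≤ a) (h1 : a ≤ 1) : 0 ≤ FF k a := by
  have h2 : 4 ≤ 4 - Real.log a := by
    have := Real.log_nonpos ha h1; linarith
  unfold FF; positivity

lemma FF_le {k : ℕ} {a : ℝ} (ha : 0 < a) (h1 : a ≤ 1) :
    FF k a ≤ 4^k * a ^ (pp - k/4) := by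
  unfold FF
  have h4 : 4 ≤ 4 - Real.log a := by
    have := Real.log_nonpos ha.le h1; linarith
  have h3 := key_exp ha h1 le_rfl
  rw [Real.log_one] at h3
  have h5 := pow_le_pow_left₀ (by linarith) h3 k
  rw [mul_pow, ← Real.exp_nat_mul] at h5
  have h7 : a ^ (pp - k/4) = a ^ pp * Real.exp (k * ((0 - Real.log a)/4)) := by
    rw [Real.rpow_def_of_pos ha, Real.rpow_def_of_pos ha, ← Real.exp_add]
    congr 1; ring
  have h9 : 0 < a ^ pp := Real.rpow_pos_of_pos ha _
  rw [h7]
  calc a ^ pp * (4 - Real.log a)^k ≤ a ^ pp * ((4-0)^k * Real.exp (k * ((0 - Real.log a)/4))) := by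
        gcongr
    _ = _ := by rw [sub_zero]; ring

lemma FF_continuousOn {k : ℕ} (hk : k ≤ 2) : ContinuousOn (FF k) (Icc 0 1) := by
  intro x hx
  rcases hx.1.eq_or_lt with rfl | hx0
  · -- continuity at zero
    have hq : 0 < pp - k/4 := by
      have hk' : (k:ℝ) ≤ 2 := by exact_mod_cast hk
      linarith [pp_gt_half]
    have h0 : FF k 0 = 0 := by simp [FF, Real.zero_rpow pp_pos.ne']
    have hc : ContinuousAt (fun a : ℝ => 4^k * a ^ (pp - k/4)) 0 :=
      (Real.continuousAt_rpow_const 0 _ (Or.inr hq.le)).const_mul _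
    have hc' : Tendsto (fun a : ℝ => 4^k * a ^ (pp - k/4)) (𝓝[Icc 0 1] 0) (𝓝 0) := by
      have := hc.tendsto.mono_left (nhdsWithin_le_nhds (s := Icc (0:ℝ) 1))
      simpa [Real.zero_rpow hq.ne'] using this
    rw [ContinuousWithinAt, h0]
    refine tendsto_of_tendsto_of_tendsto_of_le_of_le' tendsto_const_nhds hc' ?_ ?_
    · filter_upwards [self_mem_nhdsWithin] with a ha using FF_nonneg ha.1 ha.2
    · filter_upwards [self_mem_nhdsWithin] with a ha
      rcases ha.1.eq_or_lt with rfl | ha0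
      · rw [h0, Real.zero_rpow hq.ne', mul_zero]
      · exact FF_le ha0 ha.2
  · apply ContinuousAt.continuousWithinAt
    unfold FF
    refine (Real.continuousAt_rpow_const x _ (Or.inl hx0.ne')).mul ?_
    exact ((continuousAt_const.sub (Real.continuousAt_log hx0.ne')).pow k)

lemma om_mono : Monotone om := fun _ _ h =>
  FF_mono (by norm_num) (cl_nonneg _) (cl_mono h) (cl_le_one _)
lemma rho_mono : Monotone rho := fun _ _ h =>
  FF_mono (by norm_num) (cl_nonneg _) (cl_mono h) (cl_le_one _)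
lemma om_continuous : Continuous om :=
  (FF_continuousOn (k := 1) (by norm_num)).comp_continuous cl_continuous
    (fun r => ⟨cl_nonneg r, cl_le_one r⟩)
lemma rho_continuous : Continuous rho :=
  (FF_continuousOn (k := 2) (by norm_num)).comp_continuous cl_continuous
    (fun r => ⟨cl_nonneg r, cl_le_one r⟩)

lemma om_zero : om 0 = 0 := by simp [om, FF, cl, Real.zero_rpow pp_pos.ne']
lemma rho_zero : rho 0 = 0 := by simp [rho, FF, cl, Real.zero_rpow pp_pos.ne']
lemma om_pos {r : ℝ} (h : 0 < r) : 0 < om r := by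
  have h1 := ell_ge r
  have h2 := Real.rpow_pos_of_pos (cl_pos h) pp
  have : om r = cl r ^ pp * ell r := by simp [om, FF, ell]
  rw [this]; positivity
lemma rho_pos {r : ℝ} (h : 0 < r) : 0 < rho r := by
  rw [rho_eq]; have := ell_ge r; have := om_pos h; positivity
lemma om_nonneg (r : ℝ) : 0 ≤ om r := FF_nonneg (cl_nonneg r) (cl_le_one r)
lemma rho_nonneg (r : ℝ) : 0 ≤ rho r := FF_nonneg (cl_nonneg r) (cl_le_one r)
lemma om_of_ge {r : ℝ} (h : 1 ≤ r) : om r = 4 := by simp [om, FF, cl_eq_one h]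
lemma rho_of_ge {r : ℝ} (h : 1 ≤ r) : rho r = 16 := by simp [rho, FF, cl_eq_one h]; norm_num
lemma om_le (r : ℝ) : om r ≤ 4 := by
  rw [← om_of_ge (le_max_right r 1)]; exact om_mono (le_max_left _ _)
lemma rho_le (r : ℝ) : rho r ≤ 16 := by
  rw [← rho_of_ge (le_max_right r 1)]; exact rho_mono (le_max_left _ _)

lemma om_eq {r : ℝ} (h0 : 0 ≤ r) (h : r ≤ 1) : om r = r ^ pp * (4 - Real.log r) := by
  simp [om, FF, cl_eq h0 h]
lemma rho_eq' {r : ℝ} (h0 : 0 ≤ r) (h : r ≤ 1) : rho r = r ^ pp * (4 - Real.log r)^2 := by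
  simp [rho, FF, cl_eq h0 h]

/-- `om r / r` is nonincreasing -/
lemma om_div {a b : ℝ} (ha : 0 < a) (hab : a ≤ b) : om b * a ≤ om a * b := by
  have h1 : ∀ a b : ℝ, 0 < a → a ≤ b → b ≤ 1 → om b * a ≤ om a * b := by
    intro a b ha hab hb
    have hb0 : 0 < b := ha.trans_le hab
    rw [om_eq ha.le (hab.trans hb), om_eq hb0.le hb]
    have h2 : b ^ (pp - 1) ≤ a ^ (pp - 1) :=
      Real.rpow_le_rpow_of_nonpos ha hab (by linarith [pp_le])
    rw [Real.rpow_sub_one hb0.ne', Real.rpow_sub_one ha.ne', div_le_div_iff₀ hb0 ha] at h2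
    have h3 : Real.log a ≤ Real.log b := Real.log_le_log ha hab
    have h4 : Real.log b ≤ 0 := Real.log_nonpos hb0.le hb
    have h5 : 0 < b ^ pp := Real.rpow_pos_of_pos hb0 _
    have h6 : 0 < a ^ pp := Real.rpow_pos_of_pos ha _
    calc b ^ pp * (4 - Real.log b) * a = (b ^ pp * a) * (4 - Real.log b) := by ring
      _ ≤ (a ^ pp * b) * (4 - Real.log a) := by
          apply mul_le_mul h2 (by linarith) (by linarith) (by positivity)
      _ = _ := by ring
  rcases le_total b 1 with hb | hb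
  · exact h1 a b ha hab hb
  · rcases le_total a 1 with ha1 | ha1
    · have := h1 a 1 ha ha1 le_rfl
      rw [om_of_ge hb]
      rw [om_of_ge le_rfl] at this
      have h2 := om_nonneg a
      nlinarith
    · rw [om_of_ge hb, om_of_ge ha1]; linarith

lemma om_mul_le {a : ℝ} {c : ℝ} (ha : 0 < a) (hc : 1 ≤ c) : om (c * a) ≤ c * om a := by
  have h := om_div ha (by nlinarith : a ≤ c * a)
  have : om (c * a) * a ≤ (c * om a) * a := by linarith
  exact le_of_mul_le_mul_right this ha

lemma half_rpow (n : ℕ) : ((1/2:ℝ)^n) ^ pp = (2/3)^n := by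
  rw [← Real.rpow_natCast, ← Real.rpow_mul (by norm_num), mul_comm, Real.rpow_mul (by norm_num),
    one_div, Real.inv_rpow (by norm_num), two_rpow_pp, Real.rpow_natCast]
  norm_num

lemma om_half_pow (n : ℕ) : om ((1/2)^n) = (2/3)^n * (4 + n * Real.log 2) := by
  rw [om_eq (by positivity) (pow_le_one₀ (by norm_num) (by norm_num)), half_rpow,
    Real.log_pow, one_div, Real.log_inv]
  ring

end Pool.Agent.Helper930.Fbc
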