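import Mathlib
import Pool.Agent.Helper930.FbcA

set_option autoImplicit false

open Set Filter Topology MeasureTheory intervalIntegral

namespace Pool.Agent.Helper930.Fbc

/-- mass of a gap of length `g` -/
noncomputable def Th (g : ℝ) : ℝ := ∫ t in (0:ℝ)..g, rho (min t (g - t))

lemma Th_eq (g : ℝ) : Th g = 2 * ∫ t in (0:ℝ)..(g/2), rho t := by
  unfold Th
  have hi : ∀ a b : ℝ, IntervalIntegrable (fun t => rho (min t (g - t))) volume a b := fun a b =>
    (rho_continuous.comp (by fun_prop)).intervalIntegrable _ _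
  rw [← integral_add_adjacent_intervals (hi 0 (g/2)) (hi (g/2) g)]
  have h2 : ∫ t in (g/2)..g, rho (min t (g - t)) = ∫ t in (0:ℝ)..(g/2), rho (min t (g-t)) := by
    have := intervalIntegral.integral_comp_sub_left (a := 0) (b := g/2)
      (fun t => rho (min t (g - t))) g
    rw [show g - g/2 = g/2 by ring, sub_zero] at this
    rw [← this]
    congr 1
    ext t
    rw [min_comm]; congr 2; ring
  rw [h2]
  have h3 : ∫ t in (0:ℝ)..(g/2), rho (min t (g-t)) = ∫ t in (0:ℝ)..(g/2), rho t := by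
    apply integral_congr
    intro t ht
    simp only
    rcases le_total 0 (g/2) with hg | hg
    · rw [uIcc_of_le hg] at ht
      rw [min_eq_left (by linarith [ht.2])]
    · rw [uIcc_of_ge hg] at ht
      have h1 : rho t = 0 := by
        have := rho_mono ht.2
        rw [rho_zero] at this
        exact le_antisymm this (rho_nonneg _)
      have h2 : rho (min t (g-t)) = 0 := by
        have := rho_mono ((min_le_left t (g-t)).trans ht.2)
        rw [rho_zero] at this
        exact le_antisymm this (rho_nonneg _)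
      rw [h1, h2]
  rw [h3]; ring

lemma Th_continuous : Continuous Th := by
  have h : Th = fun g => 2 * ∫ t in (0:ℝ)..(g/2), rho t := funext Th_eq
  rw [h]
  have h1 : Continuous (fun x => ∫ t in (0:ℝ)..x, rho t) :=
    intervalIntegral.continuous_primitive (fun a b => rho_continuous.intervalIntegrable a b) 0
  exact (h1.comp (continuous_id.div_const 2)).const_mul 2

lemma Th_zero : Th 0 = 0 := by simp [Th]

lemma Th_ge {g : ℝ} (hg : 0 ≤ g) : (g/2) * rho (g/4) ≤ Th g := by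
  rw [Th_eq]
  have hi : ∀ a b : ℝ, IntervalIntegrable rho volume a b := fun a b =>
    rho_continuous.intervalIntegrable a b
  rw [← integral_add_adjacent_intervals (hi 0 (g/4)) (hi (g/4) (g/2))]
  have h1 : 0 ≤ ∫ t in (0:ℝ)..(g/4), rho t :=
    integral_nonneg (by linarith) (fun t _ => rho_nonneg t)
  have h2 : ∫ t in (g/4)..(g/2), rho (g/4) ≤ ∫ t in (g/4)..(g/2), rho t := by
    apply integral_mono_on (by linarith) (by simp) (hi _ _)
    intro t ht
    exact rho_mono ht.1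
  rw [intervalIntegral.integral_const, smul_eq_mul] at h2
  nlinarith

/-- the summable majorant -/
noncomputable def SS : ℝ := ∑' j : ℕ, ((j:ℝ) + 1) ^ (-(5/4) : ℝ)

lemma summable_pow : Summable (fun j : ℕ => ((j:ℝ) + 1) ^ (-(5/4) : ℝ)) := by
  have h : Summable (fun j : ℕ => ((j:ℝ)) ^ (-(5/4) : ℝ)) :=
    Real.summable_nat_rpow.mpr (by norm_num)
  have := (summable_nat_add_iff 1).mpr h
  simpa using this

lemma SS_ge : 1 ≤ SS := by
  have h := summable_pow.sum_le_tsum {0} (fun i _ => by positivity)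
  unfold SS
  simpa using h

noncomputable def cc : ℝ := 1 / (2 * SS)

lemma cc_pos : 0 < cc := by have := SS_ge; unfold cc; positivity
lemma cc_le : cc ≤ 1/2 := by
  have := SS_ge
  unfold cc
  rw [div_le_div_iff₀ (by positivity) (by norm_num)]; linarith

noncomputable def eta (j : ℕ) : ℝ := cc * (1/2)^j * ((j:ℝ) + 1) ^ (-(5/4) : ℝ)

lemma eta_pos (j : ℕ) : 0 < eta j := by have := cc_pos; unfold eta; positivity

lemma hasSum_eta : HasSum (fun j => 2^j * eta j) (1/2) := by
  have h := summable_pow.hasSum.mul_left cc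
  have h2 : cc * ∑' j : ℕ, ((j:ℝ) + 1) ^ (-(5/4) : ℝ) = 1/2 := by
    have h3 : SS ≠ 0 := by have := SS_ge; positivity
    have h4 : cc * SS = 1/2 := by unfold cc; field_simp
    exact h4
  rw [h2] at h
  have h5 : (fun j : ℕ => 2^j * eta j) = fun j : ℕ => cc * ((j:ℝ) + 1) ^ (-(5/4) : ℝ) := by
    funext j
    have : (2:ℝ)^j * (1/2)^j = 1 := by rw [← mul_pow]; norm_num
    unfold eta
    linear_combination (cc * ((j:ℝ) + 1) ^ (-(5/4) : ℝ)) * this
  rw [h5]; exact h

lemma Th_eta_ge (j : ℕ) : (cc/2 * (cc/4)^pp / 4) * (1/3)^j ≤ Th (eta j) := by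
  refine le_trans ?_ (Th_ge (eta_pos j).le)
  have hc := cc_pos
  have hx1 : (1:ℝ) ≤ (j:ℝ) + 1 := by linarith [Nat.cast_nonneg (α := ℝ) j]
  have hx0 : (0:ℝ) < (j:ℝ) + 1 := by linarith
  have hr : ((j:ℝ) + 1) ^ (-(5/4) : ℝ) ≤ 1 := Real.rpow_le_one_of_one_le_of_nonpos hx1 (by norm_num)
  have hr0 : 0 < ((j:ℝ) + 1) ^ (-(5/4) : ℝ) := Real.rpow_pos_of_pos hx0 _
  have hh : ((1:ℝ)/2)^j ≤ 1 := pow_le_one₀ (by norm_num) (by norm_num)
  have hh0 : (0:ℝ) < (1/2)^j := by positivity
  have he : eta j / 4 = (cc/4) * ((1/2)^j * ((j:ℝ) + 1) ^ (-(5/4) : ℝ)) := by unfold eta; ring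
  have he1 : eta j / 4 ≤ (1/2)^j * (1/8) := by
    rw [he]
    have := cc_le
    nlinarith [mul_le_mul_of_nonneg_left hr hh0.le, mul_pos hh0 hr0]
  have he0 : 0 < eta j / 4 := by have := eta_pos j; positivity
  have he2 : eta j / 4 ≤ 1 := by nlinarith
  rw [rho_eq' he0.le he2]
  have hlog : 4 - Real.log (eta j / 4) ≥ ((j:ℝ) + 1) * (1/2) := by
    have h1 : Real.log (eta j / 4) ≤ Real.log ((1/2)^j * (1/8)) := Real.log_le_log he0 he1
    rw [Real.log_mul (by positivity) (by norm_num), Real.log_pow, one_div, Real.log_inv] at h1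
    have h2 : Real.log (1/8) < 0 := Real.log_neg (by norm_num) (by norm_num)
    have h3 := Real.log_two_gt_d9
    have h4 : (0:ℝ) ≤ j := Nat.cast_nonneg j
    nlinarith
  have hpw : (eta j / 4) ^ pp = (cc/4)^pp * (2/3)^j * ((j:ℝ)+1)^(-(5/4) * pp) := by
    rw [he, Real.mul_rpow (by positivity) (by positivity), Real.mul_rpow (by positivity)
      (by positivity), half_rpow, ← Real.rpow_mul hx0.le]
    ring
  rw [hpw]
  have h5 : 1 ≤ ((j:ℝ)+1)^(-(5/4) : ℝ) * ((j:ℝ)+1)^(-(5/4) * pp) * ((j:ℝ)+1)^2 := by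
    rw [← Real.rpow_natCast ((j:ℝ)+1) 2, ← Real.rpow_add hx0, ← Real.rpow_add hx0]
    apply Real.one_le_rpow hx1
    have := pp_le
    push_cast; linarith
  have h6 : (((j:ℝ) + 1) * (1/2))^2 ≤ (4 - Real.log (eta j / 4))^2 :=
    pow_le_pow_left₀ (by positivity) hlog 2
  have h23 : ((1:ℝ)/2)^j * (2/3)^j = (1/3)^j := by rw [← mul_pow]; norm_num
  have hcp : 0 < (cc/4)^pp := Real.rpow_pos_of_pos (by positivity) _
  have hjp : 0 < ((j:ℝ)+1)^(-(5/4) * pp) := Real.rpow_pos_of_pos hx0 _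
  calc (cc/2 * (cc/4)^pp / 4) * (1/3)^j
      = (cc/2 * (cc/4)^pp / 4) * ((1/2)^j * (2/3)^j) * 1 := by rw [h23]; ring
    _ ≤ (cc/2 * (cc/4)^pp / 4) * ((1/2)^j * (2/3)^j) *
        (((j:ℝ)+1)^(-(5/4) : ℝ) * ((j:ℝ)+1)^(-(5/4) * pp) * ((j:ℝ)+1)^2) := by gcongr
    _ = (eta j / 2) * ((cc/4)^pp * (2/3)^j * ((j:ℝ)+1)^(-(5/4) * pp) *
        (((j:ℝ) + 1) * (1/2))^2) := by unfold eta; ring
    _ ≤ _ := by
        have := eta_pos j
        gcongr

/-- existence of the gap sequence -/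
theorem exists_gaps : ∃ (B : ℝ) (g : ℕ → ℝ), 0 < B ∧ (∀ j, 0 < g j) ∧
    (∀ j, B * Th (g j) = (1/3)^(j+1)) ∧ (∀ n, ∑ j ∈ Finset.range n, 2^j * g j ≤ 1/2) := by
  set κ : ℝ := cc/2 * (cc/4)^pp / 4 with hκ
  have hc := cc_pos
  have hκ0 : 0 < κ := by
    have : 0 < (cc/4)^pp := Real.rpow_pos_of_pos (by positivity) _
    positivity
  have hB : 0 < 1 / (3*κ) := by positivity
  have hex : ∀ j : ℕ, ∃ g : ℝ, g ∈ Icc 0 (eta j) ∧ Th g = κ * (1/3)^j := by
    intro j
    have h := intermediate_value_Icc (eta_pos j).le (Th_continuous.continuousOn (s := Icc 0 (eta j)))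
    rw [Th_zero] at h
    obtain ⟨g, hg, hg2⟩ := h ⟨by positivity, Th_eta_ge j⟩
    exact ⟨g, hg, hg2⟩
  choose g hg hg2 using hex
  refine ⟨1/(3*κ), g, hB, ?_, ?_, ?_⟩
  · intro j
    rcases (hg j).1.eq_or_lt with h | h
    · exfalso
      have := hg2 j
      rw [← h, Th_zero] at this
      have h3 : 0 < κ * (1/3)^j := by positivity
      linarith
    · exact h
  · intro j
    rw [hg2 j, pow_succ]
    field_simp
  · intro n
    calc ∑ j ∈ Finset.range n, 2^j * g j ≤ ∑ j ∈ Finset.range n, 2^j * eta j := by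
          apply Finset.sum_le_sum
          intro j _
          have := (hg j).2
          gcongr
      _ ≤ 1/2 := by
          apply sum_le_hasSum _ _ hasSum_eta
          intro j _
          have := eta_pos j
          positivity

end Pool.Agent.Helper930.Fbc
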