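import Mathlib
import Pool.Agent.Helper930.FbcB

set_option autoImplicit false

open Set Filter Topology MeasureTheory intervalIntegral

namespace Pool.Agent.Helper930.Fbc

structure GapData where
  B : ℝ
  g : ℕ → ℝ
  hB : 0 < B
  hg : ∀ j, 0 < g j
  hTh : ∀ j, B * Th (g j) = (1/3)^(j+1)
  hsum : ∀ n, ∑ j ∈ Finset.range n, 2^j * g j ≤ 1/2

variable (D : GapData)

/-- interval lengths -/
noncomputable def LL : ℕ → ℝ
  | 0 => 1
  | n+1 => (LL n - D.g n)/2

lemma LL_pow (n : ℕ) : 2^n * LL D n = 1 - ∑ j ∈ Finset.range n, 2^j * D.g j := by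
  induction n with
  | zero => simp [LL]
  | succ n ih =>
    rw [Finset.sum_range_succ, LL, pow_succ]
    linear_combination ih

lemma LL_ge (n : ℕ) : (1/2)^(n+1) ≤ LL D n := by
  have h1 := LL_pow D n
  have h2 := D.hsum n
  have h3 : (1/2:ℝ) ≤ 2^n * LL D n := by linarith
  have h4 : (1/2:ℝ)^(n+1) = (1/2)^n * (1/2) := pow_succ _ _
  have h5 : ((1:ℝ)/2)^n * 2^n = 1 := by rw [← mul_pow]; norm_num
  have h6 : (0:ℝ) < (1/2)^n := by positivity
  rw [h4]
  calc ((1:ℝ)/2)^n * (1/2) ≤ (1/2)^n * (2^n * LL D n) := by gcongr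
    _ = ((1/2)^n * 2^n) * LL D n := by ring
    _ = LL D n := by rw [h5, one_mul]

lemma LL_le (n : ℕ) : LL D n ≤ (1/2)^n := by
  have h1 := LL_pow D n
  have h2 : 0 ≤ ∑ j ∈ Finset.range n, 2^j * D.g j :=
    Finset.sum_nonneg (fun j _ => by have := D.hg j; positivity)
  have h3 : 2^n * LL D n ≤ 1 := by linarith
  have h5 : ((1:ℝ)/2)^n * 2^n = 1 := by rw [← mul_pow]; norm_num
  have h6 : (0:ℝ) < (1/2)^n := by positivity
  calc LL D n = ((1/2)^n * 2^n) * LL D n := by rw [h5, one_mul]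
    _ = (1/2)^n * (2^n * LL D n) := by ring
    _ ≤ (1/2)^n * 1 := by gcongr
    _ = _ := mul_one _

lemma LL_pos (n : ℕ) : 0 < LL D n := lt_of_lt_of_le (by positivity) (LL_ge D n)

lemma LL_succ (n : ℕ) : LL D n = 2 * LL D (n+1) + D.g n := by rw [LL]; ring

lemma LL_tendsto : Tendsto (LL D) atTop (𝓝 0) := by
  refine squeeze_zero (fun n => (LL_pos D n).le) (LL_le D) ?_
  exact tendsto_pow_atTop_nhds_zero_of_lt_one (by norm_num) (by norm_num)

/-- offsets -/
noncomputable def aa (n : ℕ) : ℝ := LL D n - LL D (n+1)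

lemma aa_eq (n : ℕ) : aa D n = LL D (n+1) + D.g n := by unfold aa; rw [LL_succ D n]; ring
lemma aa_pos (n : ℕ) : 0 < aa D n := by
  rw [aa_eq]; have := LL_pos D (n+1); have := D.hg n; positivity

lemma sum_aa (k n : ℕ) : ∑ j ∈ Finset.range n, aa D (k+j) = LL D k - LL D (k+n) := by
  induction n with
  | zero => simp
  | succ n ih => rw [Finset.sum_range_succ, ih, aa, ← add_assoc]; ring

lemma hasSum_aa (k : ℕ) : HasSum (fun j => aa D (k+j)) (LL D k) := by
  rw [hasSum_iff_tendsto_nat_of_nonneg (fun j => (aa_pos D _).le)]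
  simp_rw [sum_aa]
  have h : Tendsto (fun n => LL D (k+n)) atTop (𝓝 0) := by
    have := (tendsto_add_atTop_iff_nat k).mpr (LL_tendsto D)
    simpa [add_comm] using this
  simpa using h.const_sub (LL D k)

noncomputable def tm (k : ℕ) (b : ℕ → Bool) (j : ℕ) : ℝ := if b j then aa D (k+j) else 0

lemma tm_nonneg (k : ℕ) (b : ℕ → Bool) (j : ℕ) : 0 ≤ tm D k b j := by
  unfold tm; split_ifs; exacts [(aa_pos D _).le, le_rfl]
lemma tm_le (k : ℕ) (b : ℕ → Bool) (j : ℕ) : tm D k b j ≤ aa D (k+j) := by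
  unfold tm; split_ifs; exacts [le_rfl, (aa_pos D _).le]

lemma summable_tm (k : ℕ) (b : ℕ → Bool) : Summable (tm D k b) :=
  Summable.of_nonneg_of_le (tm_nonneg D k b) (tm_le D k b) (hasSum_aa D k).summable

/-- points of the Cantor set with tail starting at level `k` -/
noncomputable def ee (k : ℕ) (b : ℕ → Bool) : ℝ := ∑' j, tm D k b j

lemma ee_nonneg (k : ℕ) (b : ℕ → Bool) : 0 ≤ ee D k b := tsum_nonneg (tm_nonneg D k b)
lemma ee_le (k : ℕ) (b : ℕ → Bool) : ee D k b ≤ LL D k := by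
  rw [← (hasSum_aa D k).tsum_eq]
  exact Summable.tsum_le_tsum (tm_le D k b) (summable_tm D k b) (hasSum_aa D k).summable

lemma ee_succ (k : ℕ) (b : ℕ → Bool) :
    ee D k b = (if b 0 then aa D k else 0) + ee D (k+1) (fun j => b (j+1)) := by
  unfold ee
  rw [(summable_tm D k b).tsum_eq_zero_add]
  congr 1
  apply tsum_congr
  intro j
  simp only [tm]
  rw [show k + (j+1) = k + 1 + j by ring]

lemma ee_continuous (k : ℕ) : Continuous (ee D k) := by
  refine continuous_tsum (fun j => ?_) (hasSum_aa D k).summable (fun j b => ?_)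
  · have h : (fun b : ℕ → Bool => tm D k b j) =
        (fun c : Bool => if c then aa D (k+j) else 0) ∘ (fun b : ℕ → Bool => b j) := rfl
    rw [h]
    exact continuous_of_discreteTopology.comp (continuous_apply j)
  · rw [Real.norm_of_nonneg (tm_nonneg D k b j)]
    exact tm_le D k b j

def EE (k : ℕ) : Set ℝ := range (ee D k)

lemma EE_compact (k : ℕ) : IsCompact (EE D k) := isCompact_range (ee_continuous D k)
lemma zero_mem_EE (k : ℕ) : (0:ℝ) ∈ EE D k := ⟨fun _ => false, by simp [ee, tm]⟩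
lemma LL_mem_EE (k : ℕ) : LL D k ∈ EE D k :=
  ⟨fun _ => true, by simp only [ee, tm, if_true]; exact (hasSum_aa D k).tsum_eq⟩
lemma EE_nonempty (k : ℕ) : (EE D k).Nonempty := ⟨0, zero_mem_EE D k⟩
lemma EE_subset (k : ℕ) : EE D k ⊆ Icc 0 (LL D k) := by
  rintro x ⟨b, rfl⟩; exact ⟨ee_nonneg D k b, ee_le D k b⟩

lemma EE_eq (k : ℕ) : EE D k = EE D (k+1) ∪ (fun x => aa D k + x) '' EE D (k+1) := by
  ext x
  constructor
  · rintro ⟨b, rfl⟩
    rw [ee_succ]
    by_cases hb : b 0 = true
    · right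
      simp only [hb, if_true]
      exact ⟨_, ⟨_, rfl⟩, rfl⟩
    · left
      simp only [hb]
      exact ⟨fun j => b (j+1), by simp⟩
  · rintro (⟨b, rfl⟩ | ⟨y, ⟨b, rfl⟩, rfl⟩)
    · refine ⟨fun j => Nat.casesOn j false b, ?_⟩
      rw [ee_succ]; simp
    · refine ⟨fun j => Nat.casesOn j true b, ?_⟩
      rw [ee_succ]; simp

/-- distance to the Cantor set -/
noncomputable def dd (k : ℕ) (t : ℝ) : ℝ := Metric.infDist t (EE D k)

lemma dd_nonneg (k : ℕ) (t : ℝ) : 0 ≤ dd D k t := Metric.infDist_nonneg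
lemma dd_continuous (k : ℕ) : Continuous (dd D k) := Metric.continuous_infDist_pt _
lemma dd_lip (k : ℕ) (x y : ℝ) : dd D k x ≤ dd D k y + |x - y| := by
  have := Metric.infDist_le_infDist_add_dist (s := EE D k) (x := x) (y := y)
  rwa [Real.dist_eq] at this

lemma le_dd {k : ℕ} {t c : ℝ} (h : ∀ z ∈ EE D k, c ≤ |t - z|) : c ≤ dd D k t := by
  unfold dd
  rw [Metric.le_infDist (EE_nonempty D k)]
  intro z hz
  rw [Real.dist_eq]; exact h z hz

lemma dd_le {k : ℕ} {t z : ℝ} (h : z ∈ EE D k) : dd D k t ≤ |t - z| := by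
  rw [← Real.dist_eq]; exact Metric.infDist_le_dist_of_mem h

lemma dd_left {k : ℕ} {t : ℝ} (h : t ≤ LL D (k+1)) : dd D k t = dd D (k+1) t := by
  apply le_antisymm
  · apply le_dd
    intro z hz
    apply dd_le
    rw [EE_eq]; exact Or.inl hz
  · apply le_dd
    intro z hz
    rw [EE_eq] at hz
    rcases hz with hz | ⟨w, hw, rfl⟩
    · exact dd_le D hz
    · refine (dd_le D (LL_mem_EE D (k+1))).trans ?_
      have h1 := aa_eq D k
      have h2 := D.hg k
      have h3 := (EE_subset D (k+1) hw).1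
      rw [abs_of_nonpos (by linarith), abs_of_nonpos (by simp only; linarith)]
      simp only; linarith

lemma dd_right {k : ℕ} {t : ℝ} (h : 0 ≤ t) : dd D k (aa D k + t) = dd D (k+1) t := by
  apply le_antisymm
  · apply le_dd
    intro z hz
    have : aa D k + z ∈ EE D k := by rw [EE_eq]; exact Or.inr ⟨z, hz, rfl⟩
    refine (dd_le D this).trans (le_of_eq ?_)
    congr 1; ring
  · apply le_dd
    intro z hz
    rw [EE_eq] at hz
    rcases hz with hz | ⟨w, hw, rfl⟩
    · refine (dd_le D (zero_mem_EE D (k+1))).trans ?_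
      have h1 := aa_eq D k
      have h2 := D.hg k
      have h3 := (EE_subset D (k+1) hz).2
      rw [sub_zero, abs_of_nonneg h, abs_of_nonneg (by linarith)]
      linarith
    · refine (dd_le D hw).trans (le_of_eq ?_)
      congr 1; ring

lemma dd_gap {k : ℕ} {t : ℝ} (h0 : 0 ≤ t) (h1 : t ≤ D.g k) :
    dd D k (LL D (k+1) + t) = min t (D.g k - t) := by
  have ha := aa_eq D k
  apply le_antisymm
  · apply le_min
    · have : LL D (k+1) ∈ EE D k := by rw [EE_eq]; exact Or.inl (LL_mem_EE D (k+1))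
      refine (dd_le D this).trans (le_of_eq ?_)
      rw [show LL D (k+1) + t - LL D (k+1) = t by ring, abs_of_nonneg h0]
    · have : aa D k + 0 ∈ EE D k := by
        rw [EE_eq]; exact Or.inr ⟨0, zero_mem_EE D (k+1), rfl⟩
      refine (dd_le D this).trans (le_of_eq ?_)
      rw [abs_of_nonpos (by linarith)]; linarith
  · apply le_dd
    intro z hz
    rw [EE_eq] at hz
    rcases hz with hz | ⟨w, hw, rfl⟩
    · have h3 := (EE_subset D (k+1) hz).2
      refine (min_le_left _ _).trans ?_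
      rw [abs_of_nonneg (by linarith)]; linarith
    · have h3 := (EE_subset D (k+1) hw).1
      refine (min_le_right _ _).trans ?_
      simp only
      rw [abs_of_nonpos (by linarith)]; linarith

lemma rd_continuous (k : ℕ) : Continuous (fun t => rho (dd D k t)) :=
  rho_continuous.comp (dd_continuous D k)

lemma rd_int (k : ℕ) (a b : ℝ) : IntervalIntegrable (fun t => rho (dd D k t)) volume a b :=
  (rd_continuous D k).intervalIntegrable a b

/-- mass of the level `k` interval -/
noncomputable def MM (k : ℕ) : ℝ := ∫ t in (0:ℝ)..(LL D k), rho (dd D k t)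

lemma mass_left (k : ℕ) : ∫ t in (0:ℝ)..(LL D (k+1)), rho (dd D k t) = MM D (k+1) := by
  unfold MM
  apply integral_congr
  intro t ht
  rw [uIcc_of_le (LL_pos D (k+1)).le] at ht
  simp only
  rw [dd_left D ht.2]

lemma mass_gap (k : ℕ) : ∫ t in (LL D (k+1))..(aa D k), rho (dd D k t) = Th (D.g k) := by
  have h := intervalIntegral.integral_comp_add_left (a := 0) (b := D.g k)
    (fun t => rho (dd D k t)) (LL D (k+1))
  rw [add_zero, ← aa_eq] at h
  rw [← h]
  unfold Th
  apply integral_congr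
  intro t ht
  rw [uIcc_of_le (D.hg k).le] at ht
  simp only
  rw [dd_gap D ht.1 ht.2]

lemma mass_right (k : ℕ) : ∫ t in (aa D k)..(LL D k), rho (dd D k t) = MM D (k+1) := by
  have h := intervalIntegral.integral_comp_add_left (a := 0) (b := LL D (k+1))
    (fun t => rho (dd D k t)) (aa D k)
  rw [add_zero, show aa D k + LL D (k+1) = LL D k by unfold aa; ring] at h
  rw [← h]
  unfold MM
  apply integral_congr
  intro t ht
  rw [uIcc_of_le (LL_pos D (k+1)).le] at ht
  simp only
  rw [dd_right D ht.1]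

lemma mass_aa (k : ℕ) : ∫ t in (0:ℝ)..(aa D k), rho (dd D k t) = MM D (k+1) + Th (D.g k) := by
  rw [← integral_add_adjacent_intervals (rd_int D k 0 (LL D (k+1))) (rd_int D k _ _),
    mass_left, mass_gap]

lemma MM_succ (k : ℕ) : MM D k = 2 * MM D (k+1) + Th (D.g k) := by
  have : MM D k = ∫ t in (0:ℝ)..(LL D k), rho (dd D k t) := rfl
  rw [this, ← integral_add_adjacent_intervals (rd_int D k 0 (aa D k)) (rd_int D k _ _),
    mass_aa, mass_right]
  ring

lemma MM_nonneg (k : ℕ) : 0 ≤ MM D k :=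
  integral_nonneg (LL_pos D k).le (fun _ _ => rho_nonneg _)

lemma MM_le (k : ℕ) : MM D k ≤ (1/2)^k * rho ((1/2)^k) := by
  have h : MM D k ≤ ∫ t in (0:ℝ)..(LL D k), rho ((1/2)^k) := by
    apply integral_mono_on (LL_pos D k).le (rd_int D k _ _) (by simp)
    intro t ht
    apply rho_mono
    refine (dd_le D (zero_mem_EE D k)).trans ?_
    rw [sub_zero, abs_of_nonneg ht.1]
    exact ht.2.trans (LL_le D k)
  rw [intervalIntegral.integral_const, smul_eq_mul, sub_zero] at h
  exact h.trans (mul_le_mul_of_nonneg_right (LL_le D k) (rho_nonneg _))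

lemma MM_diff (k m : ℕ) : D.B * MM D k - (1/3)^k = 2^m * (D.B * MM D (k+m) - (1/3)^(k+m)) := by
  induction m with
  | zero => simp
  | succ m ih =>
    rw [ih, MM_succ D (k+m)]
    have := D.hTh (k+m)
    rw [← add_assoc, pow_succ (1/3:ℝ) (k+m), pow_succ (2:ℝ) m]
    rw [pow_succ] at this
    linear_combination 2^m * this

lemma MM_eq (k : ℕ) : D.B * MM D k = (1/3)^k := by
  have hlim : Tendsto (fun m : ℕ => D.B * rho ((1/2)^(k+m)) + (2/3)^m) atTop (𝓝 0) := by
    have h1 : Tendsto (fun m : ℕ => ((1:ℝ)/2)^(k+m)) atTop (𝓝 0) := by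
      have := (tendsto_add_atTop_iff_nat k).mpr
        (tendsto_pow_atTop_nhds_zero_of_lt_one (r := (1/2:ℝ)) (by norm_num) (by norm_num))
      simpa [add_comm] using this
    have h2 : Tendsto (fun m : ℕ => rho (((1:ℝ)/2)^(k+m))) atTop (𝓝 0) := by
      have := (rho_continuous.tendsto 0).comp h1
      rwa [rho_zero] at this
    have h3 : Tendsto (fun m : ℕ => ((2:ℝ)/3)^m) atTop (𝓝 0) :=
      tendsto_pow_atTop_nhds_zero_of_lt_one (by norm_num) (by norm_num)
    simpa using (h2.const_mul D.B).add h3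
  have hb : ∀ m : ℕ, |D.B * MM D k - (1/3)^k| ≤ D.B * rho ((1/2)^(k+m)) + (2/3)^m := by
    intro m
    rw [MM_diff D k m, abs_mul, abs_of_pos (by positivity : (0:ℝ) < 2^m)]
    have hB := D.hB
    have h1 := MM_le D (k+m)
    have h2 := MM_nonneg D (k+m)
    have h3 : |D.B * MM D (k+m) - (1/3)^(k+m)| ≤
        D.B * ((1/2)^(k+m) * rho ((1/2)^(k+m))) + (1/3)^(k+m) := by
      rw [abs_le]
      have : (0:ℝ) ≤ (1/3)^(k+m) := by positivity
      have h4 := mul_le_mul_of_nonneg_left h1 hB.le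
      have h5 := mul_nonneg hB.le h2
      constructor <;> linarith
    have h6 : (2:ℝ)^m * (1/2)^(k+m) ≤ 1 := by
      rw [pow_add, mul_comm ((1/2:ℝ)^k), ← mul_assoc, ← mul_pow]
      have : ((1:ℝ)/2)^k ≤ 1 := pow_le_one₀ (by norm_num) (by norm_num)
      calc ((2:ℝ) * (1/2))^m * (1/2)^k ≤ (2 * (1/2))^m * 1 := by gcongr
        _ = 1 := by norm_num
    have h7 : (2:ℝ)^m * (1/3)^(k+m) ≤ (2/3)^m := by
      rw [pow_add, mul_comm ((1/3:ℝ)^k), ← mul_assoc, ← mul_pow]
      have : ((1:ℝ)/3)^k ≤ 1 := pow_le_one₀ (by norm_num) (by norm_num)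
      calc ((2:ℝ) * (1/3))^m * (1/3)^k ≤ (2 * (1/3))^m * 1 := by gcongr
        _ = _ := by norm_num
    have h8 := rho_nonneg ((1/2)^(k+m))
    calc 2^m * |D.B * MM D (k+m) - (1/3)^(k+m)|
        ≤ 2^m * (D.B * ((1/2)^(k+m) * rho ((1/2)^(k+m))) + (1/3)^(k+m)) := by gcongr
      _ = (2^m * (1/2)^(k+m)) * (D.B * rho ((1/2)^(k+m))) + 2^m * (1/3)^(k+m) := by ring
      _ ≤ 1 * (D.B * rho ((1/2)^(k+m))) + (2/3)^m := by gcongr
      _ = _ := by ring
  have := ge_of_tendsto' hlim hb
  have h0 := abs_nonneg (D.B * MM D k - (1/3)^k)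
  have : |D.B * MM D k - (1/3)^k| = 0 := le_antisymm this h0
  linarith [abs_eq_zero.mp this]

/-- left endpoints -/
noncomputable def PP (n : ℕ) (b : ℕ → Bool) : ℝ := ∑ j ∈ Finset.range n, (if b j then aa D j else 0)

lemma dd_prefix (n : ℕ) (b : ℕ → Bool) : ∀ t, 0 ≤ t → t ≤ LL D n →
    dd D 0 (PP D n b + t) = dd D n t := by
  induction n with
  | zero => intro t _ _; simp [PP]
  | succ n ih =>
    intro t h0 h1
    have hP : PP D (n+1) b + t = PP D n b + ((if b n then aa D n else 0) + t) := by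
      simp only [PP, Finset.sum_range_succ]; ring
    rw [hP]
    by_cases hb : b n = true
    · simp only [hb, if_true]
      rw [ih _ (by linarith [aa_pos D n]) (by unfold aa; linarith), dd_right D h0]
    · have hb' : b n = false := by simpa using hb
      simp only [hb']
      have h2 : LL D (n+1) ≤ LL D n := by have := aa_pos D n; unfold aa at this; linarith
      simp only [Bool.false_eq_true, if_false, zero_add]
      rw [ih _ h0 (h1.trans h2), dd_left D h1]

/-- the boundary homeomorphism -/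
noncomputable def hh (x : ℝ) : ℝ := D.B * ∫ t in (0:ℝ)..x, rho (dd D 0 t)

lemma hh_sub (x y : ℝ) : hh D y - hh D x = D.B * ∫ t in x..y, rho (dd D 0 t) := by
  unfold hh
  rw [← mul_sub, integral_interval_sub_left (rd_int D 0 _ _) (rd_int D 0 _ _)]

lemma hh_prefix (n : ℕ) (b : ℕ → Bool) {s : ℝ} (h0 : 0 ≤ s) (h1 : s ≤ LL D n) :
    hh D (PP D n b + s) - hh D (PP D n b) = D.B * ∫ t in (0:ℝ)..s, rho (dd D n t) := by
  rw [hh_sub]
  congr 1
  have h := intervalIntegral.integral_comp_add_left (a := 0) (b := s)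
    (fun t => rho (dd D 0 t)) (PP D n b)
  rw [add_zero] at h
  rw [← h]
  apply integral_congr
  intro t ht
  rw [uIcc_of_le h0] at ht
  simp only
  rw [dd_prefix D n b t ht.1 (ht.2.trans h1)]

lemma hh_interval (n : ℕ) (b : ℕ → Bool) :
    hh D (PP D n b + LL D n) - hh D (PP D n b) = (1/3)^n := by
  rw [hh_prefix D n b (LL_pos D n).le le_rfl, ← MM_eq D n]; rfl

lemma hh_PP (n : ℕ) (b : ℕ → Bool) :
    hh D (PP D n b) = ∑ j ∈ Finset.range n, (if b j then 2 * (1/3)^(j+1) else 0) := by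
  induction n with
  | zero => simp [PP, hh]
  | succ n ih =>
    rw [Finset.sum_range_succ, ← ih]
    have hP : PP D (n+1) b = PP D n b + (if b n then aa D n else 0) := by
      simp only [PP, Finset.sum_range_succ]
    rw [hP]
    by_cases hb : b n = true
    · simp only [hb, if_true]
      have h1 : aa D n ≤ LL D n := by unfold aa; linarith [LL_pos D (n+1)]
      have h := hh_prefix D n b (aa_pos D n).le h1
      rw [mass_aa, mul_add, MM_eq, D.hTh] at h
      linarith
    · have hb' : b n = false := by simpa using hb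
      simp [hb']

lemma hh_continuous : Continuous (hh D) := by
  unfold hh
  exact (intervalIntegral.continuous_primitive (fun a b => rd_int D 0 a b) 0).const_mul _

lemma PP_tendsto (b : ℕ → Bool) : Tendsto (fun n => PP D n b) atTop (𝓝 (ee D 0 b)) := by
  have h := (summable_tm D 0 b).hasSum.tendsto_sum_nat
  simpa [PP, ee, tm] using h

lemma hh_ee (b : ℕ → Bool) :
    HasSum (fun j => (if b j then 2 * (1/3:ℝ)^(j+1) else 0)) (hh D (ee D 0 b)) := by
  rw [hasSum_iff_tendsto_nat_of_nonneg (fun j => by split_ifs <;> positivity)]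
  simp_rw [← hh_PP D _ b]
  exact ((hh_continuous D).tendsto _).comp (PP_tendsto D b)

theorem hh_image : hh D '' EE D 0 = cantorSet := by
  have key : ∀ b : ℕ → Bool, hh D (ee D 0 b) =
      Real.ofDigits (b := 3) (fun i => cond (b i) 2 0) := by
    intro b
    rw [← (hh_ee D b).tsum_eq, Real.ofDigits]
    apply tsum_congr
    intro j
    simp only [Real.ofDigitsTerm]
    cases b j <;> simp
  rw [cantorSet_eq_zero_two_ofDigits]
  ext x
  constructor
  · rintro ⟨y, ⟨b, rfl⟩, rfl⟩
    refine ⟨fun i => cond (b i) 2 0, ?_, ?_⟩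
    · intro i
      simp only
      cases b i <;> simp
    · exact (key b).symm
  · rintro ⟨a, ha, rfl⟩
    refine ⟨ee D 0 (fun i => decide (a i = 2)), ⟨_, rfl⟩, ?_⟩
    rw [key]
    congr 1
    ext i
    have := ha i
    generalize a i = c at this ⊢
    fin_cases c <;> simp_all

end Pool.Agent.Helper930.Fbc
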