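import Mathlib
import Pool.Agent.Helper930.FbcC

set_option autoImplicit false

open Set Filter Topology MeasureTheory intervalIntegral

namespace Pool.Agent.Helper930.Fbc

/-- binary value -/
noncomputable def bin (b : ℕ → Bool) : ℝ := Real.ofDigits (b := 2) (fun i => cond (b i) 1 0)

lemma bin_nonneg (b : ℕ → Bool) : 0 ≤ bin b := Real.ofDigits_nonneg _
lemma bin_le (b : ℕ → Bool) : bin b ≤ 1 := Real.ofDigits_le_one _

lemma bin_term (b : ℕ → Bool) (j : ℕ) :
    Real.ofDigitsTerm (b := 2) (fun i => cond (b i) 1 0) j = if b j then (1/2)^(j+1) else 0 := by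
  simp only [Real.ofDigitsTerm]
  cases b j <;> simp

lemma bin_hasSum (b : ℕ → Bool) : HasSum (fun j => if b j then ((1:ℝ)/2)^(j+1) else 0) (bin b) := by
  have h := (Real.summable_ofDigitsTerm (b := 2) (digits := fun i => cond (b i) 1 0)).hasSum
  have h2 : (fun j => if b j then ((1:ℝ)/2)^(j+1) else 0) =
      Real.ofDigitsTerm (b := 2) (fun i => cond (b i) 1 0) := by
    funext j; rw [bin_term]
  rw [h2]; exact h

lemma bin_succ (b : ℕ → Bool) :
    bin b = (if b 0 then 1/2 else 0) + (1/2) * bin (fun j => b (j+1)) := by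
  have h := bin_hasSum b
  have h1 := (bin_hasSum (fun j => b (j+1))).mul_left (1/2)
  have h2 : HasSum (fun j => if b (j+1) then ((1:ℝ)/2)^(j+1+1) else 0)
      ((1/2) * bin (fun j => b (j+1))) := by
    have h5 : (fun j => if b (j+1) then ((1:ℝ)/2)^(j+1+1) else 0) =
        fun i => 1 / 2 * (if b (i+1) = true then ((1:ℝ)/2)^(i+1) else 0) := by
      funext j
      split_ifs
      · rw [pow_succ]; ring
      · simp
    rw [h5]; exact h1
  have h3 := (hasSum_nat_add_iff' 1).mp (by
    have : (1/2) * bin (fun j => b (j+1)) = (1/2) * bin (fun j => b (j+1)) +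
      ∑ i ∈ Finset.range 1, (if b i then ((1:ℝ)/2)^(i+1) else 0) -
      ∑ i ∈ Finset.range 1, (if b i then ((1:ℝ)/2)^(i+1) else 0) := by ring
    rw [this] at h2
    exact h2)
  have h4 := h.unique h3
  rw [h4]
  simp only [Finset.range_one, Finset.sum_singleton]
  split_ifs <;> norm_num <;> ring

variable (D : GapData)

lemma aa_ge (j : ℕ) : (1/2)^(j+2) ≤ aa D j := by
  have h1 := LL_ge D (j+1)
  have h2 := D.hg j
  rw [aa_eq]; linarith [show ((1:ℝ)/2)^(j+2) = (1/2)^(j+1+1) from rfl]

lemma bin_le_ee (k : ℕ) (b : ℕ → Bool) : (1/2)^(k+1) * bin b ≤ ee D k b := by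
  refine hasSum_le ?_ ((bin_hasSum b).mul_left ((1/2)^(k+1))) (summable_tm D k b).hasSum
  intro j
  simp only [tm]
  split_ifs
  · have := aa_ge D (k+j)
    calc ((1:ℝ)/2)^(k+1) * (1/2)^(j+1) = (1/2)^(k+j+2) := by rw [← pow_add]; congr 1; ring
      _ ≤ _ := this
  · simp

lemma bin_compl (b : ℕ → Bool) : bin (fun j => !b j) = 1 - bin b := by
  have h1 := (bin_hasSum b).add (bin_hasSum (fun j => !b j))
  have h2 : HasSum (fun j : ℕ => ((1:ℝ)/2)^(j+1)) 1 := by
    have := (hasSum_geometric_of_lt_one (r := (1/2:ℝ)) (by norm_num) (by norm_num)).mul_left (1/2)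
    have h5 : (fun j : ℕ => ((1:ℝ)/2)^(j+1)) = fun i : ℕ => 1/2 * ((1:ℝ)/2)^i := by
      funext j; rw [pow_succ]; ring
    rw [h5]
    have h6 : (1:ℝ)/2 * (1 - 1/2)⁻¹ = 1 := by norm_num
    rw [h6] at this
    exact this
  have h3 : (fun j => (if b j then ((1:ℝ)/2)^(j+1) else 0) +
      (if !b j then ((1:ℝ)/2)^(j+1) else 0)) = fun j : ℕ => ((1:ℝ)/2)^(j+1) := by
    funext j; cases b j <;> simp
  rw [h3] at h1
  linarith [h1.unique h2]

lemma ee_compl (k : ℕ) (b : ℕ → Bool) : ee D k (fun j => !b j) = LL D k - ee D k b := by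
  have h1 := (summable_tm D k b).hasSum.add (summable_tm D k (fun j => !b j)).hasSum
  have h3 : (fun j => tm D k b j + tm D k (fun j => !b j) j) = fun j => aa D (k+j) := by
    funext j; simp only [tm]; by_cases hb : b j = true <;> simp [hb]
  rw [h3] at h1
  have := h1.unique (hasSum_aa D k)
  unfold ee
  linarith

lemma compl_le_ee (k : ℕ) (b : ℕ → Bool) : (1/2)^(k+1) * (1 - bin b) ≤ LL D k - ee D k b := by
  rw [← bin_compl, ← ee_compl]; exact bin_le_ee D k _

lemma bin_lip_aux (n : ℕ) : ∀ (k : ℕ) (b b' : ℕ → Bool), (∀ j < n, b j = b' j) →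
    b n = true → b' n = false →
    0 ≤ bin b - bin b' ∧ (1/2)^(k+1) * (bin b - bin b') ≤ ee D k b - ee D k b' := by
  induction n with
  | zero =>
    intro k b b' _ h1 h2
    rw [bin_succ b, bin_succ b', ee_succ D k b, ee_succ D k b']
    simp only [h1, h2, if_true, Bool.false_eq_true, if_false]
    have hb := bin_nonneg (fun j => b (j+1))
    have hb' := bin_le (fun j => b' (j+1))
    refine ⟨by linarith, ?_⟩
    have h3 := bin_le_ee D (k+1) (fun j => b (j+1))
    have h4 := compl_le_ee D (k+1) (fun j => b' (j+1))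
    have h5 := aa_eq D k
    have h6 := D.hg k
    have h7 : ((1:ℝ)/2)^(k+1+1) = (1/2)^(k+1) * (1/2) := pow_succ _ _
    rw [h7] at h3 h4
    nlinarith
  | succ n ih =>
    intro k b b' h0 h1 h2
    have h00 := h0 0 (Nat.succ_pos n)
    obtain ⟨h3, h4⟩ := ih (k+1) (fun j => b (j+1)) (fun j => b' (j+1))
      (fun j hj => h0 (j+1) (by omega)) h1 h2
    rw [bin_succ b, bin_succ b', ee_succ D k b, ee_succ D k b', h00]
    have h7 : ((1:ℝ)/2)^(k+1+1) = (1/2)^(k+1) * (1/2) := pow_succ _ _
    rw [h7] at h4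
    constructor
    · linarith
    · nlinarith

lemma bin_lip (b b' : ℕ → Bool) : |bin b - bin b'| ≤ 2 * |ee D 0 b - ee D 0 b'| := by
  by_cases h : b = b'
  · subst h; simp
  · have hex : ∃ n, b n ≠ b' n := by
      by_contra hcon; push Not at hcon; exact h (funext hcon)
    classical
    set n := Nat.find hex
    have hn : b n ≠ b' n := Nat.find_spec hex
    have hlt : ∀ j < n, b j = b' j := fun j hj => by
      have := Nat.find_min hex hj; push Not at this; exact this
    rcases Bool.eq_false_or_eq_true (b n) with h1 | h1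
    · have h2 : b' n = false := by
        cases hb : b' n
        · rfl
        · rw [h1, hb] at hn; exact absurd rfl hn
      obtain ⟨h3, h4⟩ := bin_lip_aux D n 0 b b' hlt h1 h2
      norm_num at h4
      rw [abs_of_nonneg h3, abs_of_nonneg (by linarith)]
      linarith
    · have h2 : b' n = true := by
        cases hb : b' n
        · rw [h1, hb] at hn; exact absurd rfl hn
        · rfl
      obtain ⟨h3, h4⟩ := bin_lip_aux D n 0 b' b (fun j hj => (hlt j hj).symm) h2 h1
      norm_num at h4
      rw [abs_sub_comm, abs_sub_comm (ee D 0 b), abs_of_nonneg h3, abs_of_nonneg (by linarith)]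
      linarith

lemma bin_surj {y : ℝ} (hy : y ∈ Icc (0:ℝ) 1) : ∃ b, bin b = y := by
  obtain ⟨a, -, ha⟩ := Real.ofDigits_SurjOn (b := 2) (by norm_num) hy
  refine ⟨fun i => decide (a i = 1), ?_⟩
  rw [← ha, bin]
  congr 1
  ext i
  generalize a i = c
  fin_cases c <;> simp

/-- the Cantor set has positive length, also after embedding in the plane -/
theorem hausdorff_pos : 0 < Measure.hausdorffMeasure 1 ((fun t : ℝ => (t : ℂ)) '' EE D 0) := by
  classical
  have hch : ∀ z : ℂ, ∃ b : ℕ → Bool, z ∈ ((fun t : ℝ => (t : ℂ)) '' EE D 0) →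
      ((ee D 0 b : ℝ) : ℂ) = z := by
    intro z
    by_cases hz : z ∈ ((fun t : ℝ => (t : ℂ)) '' EE D 0)
    · obtain ⟨t, ⟨b, rfl⟩, rfl⟩ := hz
      exact ⟨b, fun _ => rfl⟩
    · exact ⟨fun _ => false, fun h => absurd h hz⟩
  choose β hβ using hch
  have hL : LipschitzOnWith 2 (fun z => bin (β z)) ((fun t : ℝ => (t : ℂ)) '' EE D 0) := by
    apply LipschitzOnWith.of_dist_le_mul
    intro z hz w hw
    rw [Real.dist_eq]
    refine (bin_lip D (β z) (β w)).trans ?_
    have h1 := hβ z hz
    have h2 := hβ w hw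
    conv_rhs => rw [← h1, ← h2]
    rw [Complex.dist_eq, ← Complex.ofReal_sub, Complex.norm_real, Real.norm_eq_abs]
    rfl
  have himg : Icc (0:ℝ) 1 ⊆ (fun z => bin (β z)) '' ((fun t : ℝ => (t : ℂ)) '' EE D 0) := by
    intro y hy
    obtain ⟨b, hb⟩ := bin_surj hy
    refine ⟨((ee D 0 b : ℝ) : ℂ), ⟨ee D 0 b, ⟨b, rfl⟩, rfl⟩, ?_⟩
    have h1 := hβ ((ee D 0 b : ℝ) : ℂ) ⟨ee D 0 b, ⟨b, rfl⟩, rfl⟩
    have h2 := bin_lip D (β ((ee D 0 b : ℝ) : ℂ)) b
    have h3 : ee D 0 (β ((ee D 0 b : ℝ) : ℂ)) = ee D 0 b := by exact_mod_cast h1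
    rw [h3, sub_self, abs_zero, mul_zero] at h2
    have h4 := abs_nonneg (bin (β ((ee D 0 b : ℝ) : ℂ)) - bin b)
    have h5 : bin (β ((ee D 0 b : ℝ) : ℂ)) - bin b = 0 := abs_eq_zero.mp (le_antisymm h2 h4)
    simp only
    linarith
  have h1 := hL.hausdorffMeasure_image_le (d := 1) zero_le_one
  have h2 : (1:ENNReal) ≤ Measure.hausdorffMeasure 1
      ((fun z => bin (β z)) '' ((fun t : ℝ => (t : ℂ)) '' EE D 0)) := by
    calc (1:ENNReal) = volume (Icc (0:ℝ) 1) := by simp
      _ = Measure.hausdorffMeasure 1 (Icc (0:ℝ) 1) := by rw [hausdorffMeasure_real]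
      _ ≤ _ := measure_mono himg
  by_contra h0
  have h0' : Measure.hausdorffMeasure 1 ((fun t : ℝ => (t : ℂ)) '' EE D 0) = 0 := by
    simpa using h0
  rw [h0', mul_zero] at h1
  exact absurd (h2.trans h1) (by simp)

/-! window estimates -/

lemma hh_mono : Monotone (hh D) := by
  intro x y hxy
  have h : 0 ≤ hh D y - hh D x := by
    rw [hh_sub]
    exact mul_nonneg D.hB.le (integral_nonneg hxy (fun _ _ => rho_nonneg _))
  linarith

lemma hh_upper (x : ℝ) {y : ℝ} (hy : 0 < y) :
    hh D (x+y) - hh D (x-y) ≤ D.B * (om (y + dd D 0 x) * ell y) * (2*y) := by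
  rw [hh_sub]
  have h : ∫ t in (x-y)..(x+y), rho (dd D 0 t) ≤ ∫ t in (x-y)..(x+y), rho (y + dd D 0 x) := by
    apply integral_mono_on (by linarith) (rd_int D 0 _ _) (by simp)
    intro t ht
    apply rho_mono
    have := dd_lip D 0 t x
    have h2 : |t - x| ≤ y := by rw [abs_le]; constructor <;> linarith [ht.1, ht.2]
    linarith
  rw [intervalIntegral.integral_const, smul_eq_mul] at h
  have h3 : rho (y + dd D 0 x) ≤ om (y + dd D 0 x) * ell y := by
    rw [rho_eq]
    have := ell_anti hy (by linarith [dd_nonneg D 0 x] : y ≤ y + dd D 0 x)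
    exact mul_le_mul_of_nonneg_left this (om_nonneg _)
  have hB := D.hB
  calc D.B * ∫ t in (x-y)..(x+y), rho (dd D 0 t)
      ≤ D.B * ((x + y - (x - y)) * rho (y + dd D 0 x)) := by gcongr
    _ = D.B * rho (y + dd D 0 x) * (2*y) := by ring
    _ ≤ _ := by gcongr

lemma ee_mem_interval (n : ℕ) (b : ℕ → Bool) :
    PP D n b ≤ ee D 0 b ∧ ee D 0 b ≤ PP D n b + LL D n := by
  have h : ∀ n k (b : ℕ → Bool), ee D k b =
      (∑ j ∈ Finset.range n, (if b j then aa D (k+j) else 0)) + ee D (k+n) (fun j => b (n+j)) := by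
    intro n
    induction n with
    | zero => intro k b; simp
    | succ n ih =>
      intro k b
      rw [ih k b, Finset.sum_range_succ, ee_succ D (k+n)]
      simp only [add_zero]
      have : (fun j => b (n + (j+1))) = fun j => b (n + 1 + j) := by
        funext j; congr 1; ring
      rw [this, ← add_assoc k n 1]
      ring
  have h1 := h n 0 b
  simp only [zero_add] at h1
  have h2 := ee_nonneg D n (fun j => b (n+j))
  have h3 := ee_le D n (fun j => b (n+j))
  unfold PP
  constructor <;> linarith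

noncomputable def cw : ℝ := min (D.B/6) (min (D.B * rho (1/4) / 32) (1/96))

lemma cw_pos : 0 < cw D := by
  have hB := D.hB
  have h := rho_pos (r := 1/4) (by norm_num)
  unfold cw; positivity

lemma hh_lower (x : ℝ) {y : ℝ} (hy : 0 < y) :
    cw D * om (y + dd D 0 x) * (2*y) ≤ ell y * (hh D (x+y) - hh D (x-y)) := by
  have hB := D.hB
  have hell := ell_ge y
  have hd := dd_nonneg D 0 x
  have hom := om_nonneg (y + dd D 0 x)
  have hcw := cw_pos D
  have hmono : ∀ a b : ℝ, x - y ≤ a → b ≤ x + y → hh D b - hh D a ≤ hh D (x+y) - hh D (x-y) := by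
    intro a b ha hb
    have h1 := hh_mono D ha
    have h2 := hh_mono D hb
    linarith
  have hnn : 0 ≤ hh D (x+y) - hh D (x-y) := by
    have := hh_mono D (by linarith : x - y ≤ x + y); linarith
  have hint : ∀ a b c : ℝ, a ≤ b → (∀ t ∈ Icc a b, c ≤ dd D 0 t) →
      D.B * (rho c * (b - a)) ≤ hh D b - hh D a := by
    intro a b c hab hc
    rw [hh_sub]
    have h : ∫ t in a..b, rho c ≤ ∫ t in a..b, rho (dd D 0 t) := by
      apply integral_mono_on hab (by simp) (rd_int D 0 _ _)
      intro t ht
      exact rho_mono (hc t ht)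
    rw [intervalIntegral.integral_const, smul_eq_mul] at h
    apply mul_le_mul_of_nonneg_left _ hB.le
    linarith
  rcases le_or_gt (y/2) (dd D 0 x) with hA | hA
  · -- far from the Cantor set
    have h1 := hint (x - y/4) (x + y/4) ((y + dd D 0 x)/6) (by linarith) (by
      intro t ht
      have h := dd_lip D 0 x t
      have h2 : |x - t| ≤ y/4 := by rw [abs_le]; constructor <;> linarith [ht.1, ht.2]
      linarith)
    have h2 := hmono (x - y/4) (x + y/4) (by linarith) (by linarith)
    have hr : 0 < (y + dd D 0 x)/6 := by linarith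
    have h3 := om_mul_le (c := 6) hr (by norm_num)
    rw [mul_div_cancel₀ _ (by norm_num : (6:ℝ) ≠ 0)] at h3
    have h4 : 4 * om ((y + dd D 0 x)/6) ≤ rho ((y + dd D 0 x)/6) := by
      rw [rho_eq]
      have := ell_ge ((y + dd D 0 x)/6)
      have := om_nonneg ((y + dd D 0 x)/6)
      nlinarith
    have hc : cw D ≤ D.B/6 := min_le_left _ _
    have h5 : D.B/6 * om (y + dd D 0 x) * (2*y) ≤ hh D (x+y) - hh D (x-y) := by
      refine le_trans ?_ (h1.trans h2)
      have h6 : om (y + dd D 0 x) ≤ 3/2 * rho ((y + dd D 0 x)/6) := by linarith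
      calc D.B/6 * om (y + dd D 0 x) * (2*y)
          ≤ D.B/6 * (3/2 * rho ((y + dd D 0 x)/6)) * (2*y) := by gcongr
        _ = D.B * (rho ((y + dd D 0 x)/6) * (x + y/4 - (x - y/4))) := by ring
    calc cw D * om (y + dd D 0 x) * (2*y) ≤ D.B/6 * om (y + dd D 0 x) * (2*y) := by gcongr
      _ ≤ 1 * (hh D (x+y) - hh D (x-y)) := by rw [one_mul]; exact h5
      _ ≤ _ := by gcongr; linarith
  · rcases le_or_gt 1 y with hy1 | hy1
    · -- large windows
      have hc : cw D ≤ D.B * rho (1/4) / 32 := (min_le_right _ _).trans (min_le_left _ _)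
      have h5 : D.B * rho (1/4) / 8 * (2*y) ≤ hh D (x+y) - hh D (x-y) := by
        rcases le_total (1/2) x with hx | hx
        · have h1 := hint (x + 3*y/4) (x + y) (1/4) (by linarith) (by
            intro t ht
            apply le_dd
            intro z hz
            have := (EE_subset D 0 hz).2
            simp only [LL] at this
            rw [abs_of_nonneg (by linarith [ht.1])]
            linarith [ht.1])
          have h2 := hmono (x + 3*y/4) (x + y) (by linarith) (by linarith)
          refine le_trans (le_of_eq ?_) (h1.trans h2)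
          ring
        · have h1 := hint (x - y) (x - 3*y/4) (1/4) (by linarith) (by
            intro t ht
            apply le_dd
            intro z hz
            have := (EE_subset D 0 hz).1
            rw [abs_of_nonpos (by linarith [ht.2])]
            linarith [ht.2])
          have h2 := hmono (x - y) (x - 3*y/4) (by linarith) (by linarith)
          refine le_trans (le_of_eq ?_) (h1.trans h2)
          ring
      have h6 := om_le (y + dd D 0 x)
      have h7 := rho_nonneg (1/4)
      calc cw D * om (y + dd D 0 x) * (2*y) ≤ (D.B * rho (1/4) / 32) * 4 * (2*y) := by gcongr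
        _ = D.B * rho (1/4) / 8 * (2*y) := by ring
        _ ≤ 1 * (hh D (x+y) - hh D (x-y)) := by rw [one_mul]; exact h5
        _ ≤ _ := by gcongr; linarith
    · -- small windows near the Cantor set
      obtain ⟨e, ⟨b, rfl⟩, he⟩ := (EE_compact D 0).exists_infDist_eq_dist (EE_nonempty D 0) x
      rw [Real.dist_eq] at he
      have hex : ∃ k, LL D k ≤ y/2 := by
        have := (LL_tendsto D).eventually (gt_mem_nhds (by linarith : (0:ℝ) < y/2))
        obtain ⟨k, hk⟩ := this.exists
        exact ⟨k, hk.le⟩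
      classical
      obtain ⟨m, hm⟩ : ∃ m, Nat.find hex = m + 1 := by
        apply Nat.exists_eq_succ_of_ne_zero
        intro h0
        have := Nat.find_spec hex
        rw [h0] at this
        simp only [LL] at this
        linarith
      have hk : LL D (m+1) ≤ y/2 := by rw [← hm]; exact Nat.find_spec hex
      have hm' : y/2 < LL D m := by
        have := Nat.find_min hex (m := m) (by omega)
        push Not at this; exact this
      obtain ⟨hi1, hi2⟩ := ee_mem_interval D (m+1) b
      have hdx : |x - ee D 0 b| < y/2 := by rw [← he]; exact hA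
      rw [abs_lt] at hdx
      have h1 := hmono (PP D (m+1) b) (PP D (m+1) b + LL D (m+1)) (by linarith) (by linarith)
      rw [hh_interval] at h1
      have hLm := LL_le D m
      have hp : ((1:ℝ)/2)^m = 2 * (1/2)^(m+1) := by rw [pow_succ]; ring
      have hy2 : y < 4 * (1/2)^(m+1) := by linarith
      have hr : y + dd D 0 x ≤ 6 * (1/2)^(m+1) := by linarith
      have h2 : om (y + dd D 0 x) ≤ 6 * ((2/3)^(m+1) * (4 + (m+1:ℕ) * Real.log 2)) := by
        rw [← om_half_pow]
        exact (om_mono hr).trans (om_mul_le (by positivity) (by norm_num))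
      have hely : ell y = 4 - Real.log y := by rw [ell, cl_eq hy.le hy1.le]
      have h3 : 4 + (m+1:ℕ) * Real.log 2 ≤ 2 * ell y := by
        rw [hely]
        have h4 : Real.log y ≤ Real.log (4 * (1/2)^(m+1)) := Real.log_le_log hy hy2.le
        rw [Real.log_mul (by norm_num) (by positivity), Real.log_pow, one_div, Real.log_inv,
          show (4:ℝ) = 2^2 by norm_num, Real.log_pow] at h4
        have h5 := Real.log_two_lt_d9
        have h6 : 0 ≤ ((m+1:ℕ):ℝ) * Real.log 2 := mul_nonneg (Nat.cast_nonneg _) log_two_pos.le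
        push_cast at h4 h6 ⊢
        nlinarith
      have hc : cw D ≤ 1/96 := (min_le_right _ _).trans (min_le_right _ _)
      have h23 : ((1:ℝ)/2)^(m+1) * (2/3)^(m+1) = (1/3)^(m+1) := by rw [← mul_pow]; norm_num
      calc cw D * om (y + dd D 0 x) * (2*y)
          ≤ (1/96) * (6 * ((2/3)^(m+1) * (2 * ell y))) * (2 * (4 * (1/2)^(m+1))) := by
            have : om (y + dd D 0 x) ≤ 6 * ((2/3)^(m+1) * (2 * ell y)) := by
              refine h2.trans ?_
              gcongr
            gcongr
        _ = ell y * ((1/2)^(m+1) * (2/3)^(m+1)) := by ring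
        _ = ell y * (1/3)^(m+1) := by rw [h23]
        _ ≤ _ := by gcongr

lemma hh_strictMono : StrictMono (hh D) := by
  intro x y hxy
  have h := hh_lower D ((x+y)/2) (y := (y-x)/2) (by linarith)
  rw [show (x+y)/2 + (y-x)/2 = y by ring, show (x+y)/2 - (y-x)/2 = x by ring] at h
  have h1 : 0 < om ((y-x)/2 + dd D 0 ((x+y)/2)) := om_pos (by
    have := dd_nonneg D 0 ((x+y)/2); linarith)
  have h2 := cw_pos D
  have h3 := ell_ge ((y-x)/2)
  have h4 : 0 < cw D * om ((y-x)/2 + dd D 0 ((x+y)/2)) * (2*((y-x)/2)) := by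
    have : 0 < y - x := by linarith
    positivity
  have h5 : 0 < ell ((y-x)/2) * (hh D y - hh D x) := h4.trans_le h
  have h6 : 0 < hh D y - hh D x := by
    rcases pos_and_pos_or_neg_and_neg_of_mul_pos h5 with h | h
    · exact h.2
    · linarith [h.1]
  linarith

lemma hh_lip (x y : ℝ) : |hh D x - hh D y| ≤ 16 * D.B * |x - y| := by
  have hB := D.hB
  have key : ∀ x y : ℝ, x ≤ y → hh D y - hh D x ≤ 16 * D.B * (y - x) := by
    intro x y hxy
    rw [hh_sub]
    have h : ∫ t in x..y, rho (dd D 0 t) ≤ ∫ t in x..y, (16:ℝ) := by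
      apply integral_mono_on hxy (rd_int D 0 _ _) (by simp)
      intro t _
      exact rho_le _
    rw [intervalIntegral.integral_const, smul_eq_mul] at h
    calc D.B * ∫ t in x..y, rho (dd D 0 t) ≤ D.B * ((y - x) * 16) := by gcongr
      _ = _ := by ring
  rcases le_total x y with h | h
  · have h1 := hh_mono D h
    rw [abs_of_nonpos (by linarith), abs_of_nonpos (by linarith)]
    linarith [key x y h]
  · have h1 := hh_mono D h
    rw [abs_of_nonneg (by linarith), abs_of_nonneg (by linarith)]
    linarith [key y x h]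

lemma hh_zero : hh D 0 = 0 := by simp [hh]
lemma hh_one : hh D 1 = 1 := by
  have h := hh_interval D 0 (fun _ => false)
  simpa [PP, LL, hh_zero] using h

lemma hh_large {x : ℝ} (hx : 2 ≤ x) : cw D * x ≤ hh D x ∧ hh D (-x) ≤ -(cw D * x) := by
  have hcw := cw_pos D
  have h1 := hh_lower D (x/2) (y := x/2) (by linarith)
  have h2 := hh_lower D (-(x/2)) (y := x/2) (by linarith)
  have he : ell (x/2) = 4 := by rw [ell, cl_eq_one (by linarith)]; simp
  rw [he, om_of_ge (by linarith [dd_nonneg D 0 (x/2)]), show x/2 + x/2 = x by ring, sub_self,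
    hh_zero] at h1
  rw [he, om_of_ge (by linarith [dd_nonneg D 0 (-(x/2))]), show -(x/2) + x/2 = 0 by ring,
    show -(x/2) - x/2 = -x by ring, hh_zero] at h2
  constructor <;> linarith

lemma hh_atTop : Tendsto (hh D) atTop atTop := by
  apply tendsto_atTop_mono' atTop (f₁ := fun x => cw D * x)
  · filter_upwards [eventually_ge_atTop 2] with x hx using (hh_large D hx).1
  · exact tendsto_id.const_mul_atTop (cw_pos D)

lemma hh_atBot : Tendsto (hh D) atBot atBot := by
  refine tendsto_atBot_mono' atBot ?_ ((tendsto_id (α := ℝ)).const_mul_atBot (cw_pos D))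
  filter_upwards [eventually_le_atBot (-2)] with x hx
  have h := (hh_large D (x := -x) (by linarith)).2
  rw [neg_neg] at h
  simp only [id]
  linarith

end Pool.Agent.Helper930.Fbc
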