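import Mathlib
import Pool.Agent.Helper930.FbcD

set_option autoImplicit false

open Set Filter Topology MeasureTheory intervalIntegral

namespace Pool.Agent.Helper930.Fbc

variable (D : GapData)

/-- first coordinate: window average of `hh` -/
noncomputable def uu (x s : ℝ) : ℝ := (1/2) * ∫ τ in (-1:ℝ)..1, hh D (x + s*τ)
/-- second coordinate -/
noncomputable def vv (x y : ℝ) : ℝ := y * om (|y| + dd D 0 x)
/-- the plane map -/
noncomputable def ff (z : ℂ) : ℂ := ⟨uu D z.re |z.im|, vv D z.re z.im⟩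

lemma uu_int (x s a b : ℝ) : IntervalIntegrable (fun τ => hh D (x + s*τ)) volume a b :=
  ((hh_continuous D).comp (by fun_prop)).intervalIntegrable _ _

lemma uu_zero (x : ℝ) : uu D x 0 = hh D x := by simp [uu]; ring

lemma uu_lip (x s x' s' : ℝ) : |uu D x s - uu D x' s'| ≤ 16 * D.B * (|x - x'| + |s - s'|) := by
  have hB := D.hB
  unfold uu
  rw [← mul_sub, ← intervalIntegral.integral_sub (uu_int D _ _ _ _) (uu_int D _ _ _ _), abs_mul]
  have h : ‖∫ τ in (-1:ℝ)..1, (hh D (x + s*τ) - hh D (x' + s'*τ))‖ ≤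
      (16 * D.B * (|x - x'| + |s - s'|)) * |1 - (-1:ℝ)| := by
    apply intervalIntegral.norm_integral_le_of_norm_le_const
    intro τ hτ
    rw [uIoc_of_le (by norm_num)] at hτ
    rw [Real.norm_eq_abs]
    refine (hh_lip D _ _).trans ?_
    have h1 : |τ| ≤ 1 := by rw [abs_le]; constructor <;> linarith [hτ.1, hτ.2]
    have h2 : |x + s*τ - (x' + s'*τ)| ≤ |x - x'| + |s - s'| := by
      calc |x + s*τ - (x' + s'*τ)| = |(x - x') + (s - s')*τ| := by congr 1; ring
        _ ≤ |x - x'| + |(s - s')*τ| := abs_add_le _ _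
        _ = |x - x'| + |s - s'| * |τ| := by rw [abs_mul]
        _ ≤ |x - x'| + |s - s'| * 1 := by gcongr
        _ = _ := by ring
    gcongr
  rw [Real.norm_eq_abs] at h
  norm_num at h ⊢
  linarith

lemma uu_mono {x s x' s' : ℝ} (h : |s' - s| ≤ x' - x) : uu D x s ≤ uu D x' s' := by
  unfold uu
  have h1 : ∫ τ in (-1:ℝ)..1, hh D (x + s*τ) ≤ ∫ τ in (-1:ℝ)..1, hh D (x' + s'*τ) := by
    apply integral_mono_on (by norm_num) (uu_int D _ _ _ _) (uu_int D _ _ _ _)
    intro τ hτ
    apply hh_mono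
    have h1 : |τ| ≤ 1 := abs_le.mpr hτ
    have h2 : |(s' - s) * τ| ≤ x' - x := by
      rw [abs_mul]
      calc |s' - s| * |τ| ≤ |s' - s| * 1 := by gcongr
        _ ≤ _ := by linarith
    have := (abs_le.mp h2).1
    linarith
  linarith

lemma uu_strict {x s x' s' : ℝ} (h : |s' - s| < x' - x) : uu D x s < uu D x' s' := by
  unfold uu
  have h1 : ∫ τ in (-1:ℝ)..1, hh D (x + s*τ) < ∫ τ in (-1:ℝ)..1, hh D (x' + s'*τ) := by
    apply integral_lt_integral_of_continuousOn_of_le_of_exists_lt (by norm_num)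
    · exact ((hh_continuous D).comp (by fun_prop)).continuousOn
    · exact ((hh_continuous D).comp (by fun_prop)).continuousOn
    · intro τ hτ
      apply hh_mono
      have h1 : |τ| ≤ 1 := abs_le.mpr ⟨hτ.1.le, hτ.2⟩
      have h2 : |(s' - s) * τ| ≤ x' - x := by
        rw [abs_mul]
        calc |s' - s| * |τ| ≤ |s' - s| * 1 := by gcongr
          _ ≤ _ := by linarith
      have := (abs_le.mp h2).1
      linarith
    · refine ⟨0, ⟨by norm_num, by norm_num⟩, ?_⟩
      apply hh_strictMono
      have := abs_nonneg (s' - s)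
      linarith
  linarith

lemma uu_bounds (x : ℝ) {s : ℝ} (hs : 0 ≤ s) : hh D (x - s) ≤ uu D x s ∧ uu D x s ≤ hh D (x + s) := by
  constructor
  · rw [← uu_zero]; apply uu_mono
    rw [sub_zero, abs_of_nonneg hs]; linarith
  · rw [← uu_zero]; apply uu_mono
    rw [zero_sub, abs_neg, abs_of_nonneg hs]; linarith

lemma uu_hasDerivAt (x : ℝ) {s : ℝ} (hs : 0 < s) :
    HasDerivAt (fun x => uu D x s) ((hh D (x+s) - hh D (x-s)) / (2*s)) x := by
  have h1 : (fun x => uu D x s) =
      fun x => (1/(2*s)) * ((∫ t in (0:ℝ)..(x+s), hh D t) - ∫ t in (0:ℝ)..(x-s), hh D t) := by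
    funext y
    unfold uu
    have h2 := intervalIntegral.integral_comp_add_mul (a := -1) (b := 1) (fun t => hh D t) hs.ne' y
    rw [h2, smul_eq_mul]
    have hi : ∀ a b : ℝ, IntervalIntegrable (hh D) volume a b := fun a b =>
      (hh_continuous D).intervalIntegrable a b
    rw [integral_interval_sub_left (hi _ _) (hi _ _)]
    rw [show y + s * -1 = y - s by ring, show y + s * 1 = y + s by ring]
    field_simp
  rw [h1]
  have hF : ∀ y : ℝ, HasDerivAt (fun y => ∫ t in (0:ℝ)..y, hh D t) (hh D y) y := fun y =>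
    integral_hasDerivAt_right ((hh_continuous D).intervalIntegrable _ _)
      ((hh_continuous D).stronglyMeasurableAtFilter _ _) (hh_continuous D).continuousAt
  have ha : HasDerivAt (fun y => ∫ t in (0:ℝ)..(y+s), hh D t) (hh D (x+s)) x := by
    exact HasDerivAt.comp_add_const x s (hF (x+s))
  have hb : HasDerivAt (fun y => ∫ t in (0:ℝ)..(y-s), hh D t) (hh D (x-s)) x := by
    exact HasDerivAt.comp_sub_const x s (hF (x-s))
  have h3 := (ha.sub hb).const_mul (1/(2*s))
  have h4 : 1/(2*s) * (hh D (x+s) - hh D (x-s)) = (hh D (x+s) - hh D (x-s)) / (2*s) := by ring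
  rw [h4] at h3
  exact h3

lemma vv_neg (x y : ℝ) : vv D x (-y) = - vv D x y := by simp [vv]
lemma vv_zero (x : ℝ) : vv D x 0 = 0 := by simp [vv]
lemma vv_pos (x : ℝ) {y : ℝ} (hy : 0 < y) : 0 < vv D x y := by
  unfold vv
  have := dd_nonneg D 0 x
  have h : 0 < om (|y| + dd D 0 x) := om_pos (by rw [abs_of_pos hy]; linarith)
  positivity

lemma vv_key {x x' y t : ℝ} (hy : 0 ≤ y) (ht : 0 ≤ t) (hx : |x' - x| ≤ t) :
    vv D x y + t * om (y + dd D 0 x) ≤ vv D x' (y + t) := by
  unfold vv
  rw [abs_of_nonneg hy, abs_of_nonneg (by linarith)]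
  have h1 := dd_lip D 0 x x'
  rw [abs_sub_comm] at h1
  have h2 : om (y + dd D 0 x) ≤ om (y + t + dd D 0 x') := om_mono (by linarith)
  have : 0 ≤ y + t := by linarith
  calc y * om (y + dd D 0 x) + t * om (y + dd D 0 x) = (y + t) * om (y + dd D 0 x) := by ring
    _ ≤ _ := by gcongr

lemma vv_strict {x x' y t : ℝ} (hy : 0 ≤ y) (ht : 0 < t) (hx : |x' - x| ≤ t) :
    vv D x y < vv D x' (y + t) := by
  unfold vv
  rw [abs_of_nonneg hy, abs_of_nonneg (by linarith)]
  have h1 := dd_lip D 0 x x'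
  rw [abs_sub_comm] at h1
  have h2 : om (y + dd D 0 x) ≤ om (y + t + dd D 0 x') := om_mono (by linarith)
  have h3 : 0 < om (y + t + dd D 0 x') := om_pos (by linarith [dd_nonneg D 0 x'])
  calc y * om (y + dd D 0 x) ≤ y * om (y + t + dd D 0 x') := by gcongr
    _ < (y + t) * om (y + t + dd D 0 x') := by gcongr; linarith

lemma om_lip_aux {r r' s : ℝ} (hr : 0 ≤ r) (hr' : 0 ≤ r') (hs : 0 ≤ s) (h : s ≤ max r r') :
    s * |om r - om r'| ≤ 4 * |r - r'| := by
  have key : ∀ a b : ℝ, 0 ≤ a → a ≤ b → s ≤ b → s * (om b - om a) ≤ 4 * (b - a) := by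
    intro a b ha hab hsb
    rcases (ha.trans hab).eq_or_lt with hb | hb
    · have h1 : s = 0 := le_antisymm (by linarith) hs
      rw [h1, zero_mul]; linarith
    · rcases ha.eq_or_lt with ha0 | ha0
      · rw [← ha0, om_zero, sub_zero, sub_zero]
        calc s * om b ≤ b * 4 := mul_le_mul hsb (om_le b) (om_nonneg b) hb.le
          _ = _ := by ring
      · have h1 := om_div ha0 hab
        have h2 : b * (om b - om a) ≤ om b * (b - a) := by linarith
        have h3 : 0 ≤ om b - om a := by linarith [om_mono hab]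
        calc s * (om b - om a) ≤ b * (om b - om a) := by gcongr
          _ ≤ om b * (b - a) := h2
          _ ≤ 4 * (b - a) := by
              have : 0 ≤ b - a := by linarith
              have := om_le b
              gcongr
  rcases le_total r r' with h1 | h1
  · have h2 := om_mono h1
    rw [abs_of_nonpos (by linarith), abs_of_nonpos (by linarith)]
    have := key r r' hr h1 (h.trans (max_le h1 le_rfl))
    linarith
  · have h2 := om_mono h1
    rw [abs_of_nonneg (by linarith), abs_of_nonneg (by linarith)]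
    exact key r' r hr' h1 (h.trans (max_le le_rfl h1))

lemma vv_lip (x y x' y' : ℝ) : |vv D x y - vv D x' y'| ≤ 8 * |y - y'| + 4 * |x - x'| := by
  unfold vv
  have hd := dd_nonneg D 0 x
  have hd' := dd_nonneg D 0 x'
  have h1 : y * om (|y| + dd D 0 x) - y' * om (|y'| + dd D 0 x') =
      (y - y') * om (|y| + dd D 0 x) + y' * (om (|y| + dd D 0 x) - om (|y'| + dd D 0 x')) := by ring
  rw [h1]
  have h2 : |y'| * |om (|y| + dd D 0 x) - om (|y'| + dd D 0 x')| ≤
      4 * |(|y| + dd D 0 x) - (|y'| + dd D 0 x')| := by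
    apply om_lip_aux
    · positivity
    · positivity
    · positivity
    · exact le_max_of_le_right (by linarith)
  have h3 : |(|y| + dd D 0 x) - (|y'| + dd D 0 x')| ≤ |y - y'| + |x - x'| := by
    have h4 := dd_lip D 0 x x'
    have h5 := dd_lip D 0 x' x
    have h6 := abs_sub_abs_le_abs_sub y y'
    have h7 := abs_sub_abs_le_abs_sub y' y
    rw [abs_sub_comm y' y] at h7
    rw [abs_sub_comm x' x] at h5
    rw [abs_le]; constructor <;> linarith
  calc |(y - y') * om (|y| + dd D 0 x) + y' * (om (|y| + dd D 0 x) - om (|y'| + dd D 0 x'))|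
      ≤ |(y - y') * om (|y| + dd D 0 x)| + |y' * (om (|y| + dd D 0 x) - om (|y'| + dd D 0 x'))| :=
        abs_add_le _ _
    _ = |y - y'| * om (|y| + dd D 0 x) + |y'| * |om (|y| + dd D 0 x) - om (|y'| + dd D 0 x')| := by
        rw [abs_mul, abs_mul, abs_of_nonneg (om_nonneg _)]
    _ ≤ |y - y'| * 4 + 4 * (|y - y'| + |x - x'|) := by
        have h5 := om_le (|y| + dd D 0 x)
        have h6 : 4 * |(|y| + dd D 0 x) - (|y'| + dd D 0 x')| ≤ 4 * (|y - y'| + |x - x'|) := by
          linarith
        exact add_le_add (mul_le_mul_of_nonneg_left h5 (abs_nonneg _)) (h2.trans h6)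
    _ = _ := by ring

/-- Lipschitz constant -/
noncomputable def CL : ℝ := 32 * D.B + 12

lemma ff_lip' (z w : ℂ) : ‖ff D z - ff D w‖ ≤ CL D * ‖z - w‖ := by
  have hB := D.hB
  refine (Complex.norm_le_abs_re_add_abs_im _).trans ?_
  rw [Complex.sub_re, Complex.sub_im]
  simp only [ff]
  have h1 := uu_lip D z.re |z.im| w.re |w.im|
  have h2 := vv_lip D z.re z.im w.re w.im
  have h3 : |z.re - w.re| ≤ ‖z - w‖ := by
    rw [← Complex.sub_re]; exact Complex.abs_re_le_norm _
  have h4 : |z.im - w.im| ≤ ‖z - w‖ := by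
    rw [← Complex.sub_im]; exact Complex.abs_im_le_norm _
  have h5 : |(|z.im| - |w.im|)| ≤ |z.im - w.im| := abs_abs_sub_abs_le_abs_sub _ _
  calc |uu D z.re (|z.im|) - uu D w.re (|w.im|)| + |vv D z.re z.im - vv D w.re w.im|
      ≤ 16 * D.B * (‖z - w‖ + ‖z - w‖) + (8 * ‖z - w‖ + 4 * ‖z - w‖) := by
        apply add_le_add
        · refine h1.trans ?_
          gcongr
          exact h5.trans h4
        · refine h2.trans ?_
          gcongr
    _ = _ := by unfold CL; ring

lemma CL_nonneg : 0 ≤ CL D := by have := D.hB; unfold CL; positivity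

lemma ff_lip : LipschitzWith (CL D).toNNReal (ff D) := by
  apply LipschitzWith.of_dist_le_mul
  intro z w
  rw [dist_eq_norm, dist_eq_norm, Real.coe_toNNReal _ (CL_nonneg D)]
  exact ff_lip' D z w

lemma ff_continuous : Continuous (ff D) := (ff_lip D).continuous

lemma inj_aux {x₁ x₂ s₁ s₂ : ℝ} (h₁ : 0 ≤ s₁) (h₂ : 0 ≤ s₂) (hu : uu D x₁ s₁ = uu D x₂ s₂)
    (hv : vv D x₁ s₁ = vv D x₂ s₂) : x₁ = x₂ ∧ s₁ = s₂ := by
  have key : ∀ x₁ x₂ s₁ s₂ : ℝ, 0 ≤ s₁ → 0 ≤ s₂ → uu D x₁ s₁ = uu D x₂ s₂ →
      vv D x₁ s₁ = vv D x₂ s₂ → ¬ (x₁ < x₂) := by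
    intro x₁ x₂ s₁ s₂ h₁ h₂ hu hv hlt
    rcases le_or_gt (s₁ + (x₂ - x₁)) s₂ with h | h
    · have := vv_strict D (x := x₁) (x' := x₂) (y := s₁) (t := s₂ - s₁) h₁ (by linarith)
        (by rw [abs_of_pos (by linarith)]; linarith)
      rw [show s₁ + (s₂ - s₁) = s₂ by ring] at this
      linarith
    · rcases le_or_gt (s₂ + (x₂ - x₁)) s₁ with h' | h'
      · have := vv_strict D (x := x₂) (x' := x₁) (y := s₂) (t := s₁ - s₂) h₂ (by linarith)
          (by rw [abs_of_neg (by linarith)]; linarith)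
        rw [show s₂ + (s₁ - s₂) = s₁ by ring] at this
        linarith
      · have := uu_strict D (x := x₁) (x' := x₂) (s := s₁) (s' := s₂)
          (by rw [abs_lt]; constructor <;> linarith)
        linarith
  have hx : x₁ = x₂ := by
    rcases lt_trichotomy x₁ x₂ with h | h | h
    · exact absurd h (key _ _ _ _ h₁ h₂ hu hv)
    · exact h
    · exact absurd h (key _ _ _ _ h₂ h₁ hu.symm hv.symm)
  refine ⟨hx, ?_⟩
  subst hx
  rcases lt_trichotomy s₁ s₂ with h | h | h
  · have := vv_strict D (x := x₁) (x' := x₁) (y := s₁) (t := s₂ - s₁) h₁ (by linarith)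
      (by rw [sub_self, abs_zero]; linarith)
    rw [show s₁ + (s₂ - s₁) = s₂ by ring] at this
    linarith
  · exact h
  · have := vv_strict D (x := x₁) (x' := x₁) (y := s₂) (t := s₁ - s₂) h₂ (by linarith)
      (by rw [sub_self, abs_zero]; linarith)
    rw [show s₂ + (s₁ - s₂) = s₁ by ring] at this
    linarith

lemma vv_abs (x y : ℝ) : |vv D x y| = vv D x |y| := by
  unfold vv
  rw [abs_mul, abs_of_nonneg (om_nonneg _), abs_abs]

lemma ff_injective : Function.Injective (ff D) := by
  intro z w h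
  have hu : uu D z.re |z.im| = uu D w.re |w.im| := congrArg Complex.re h
  have hv : vv D z.re z.im = vv D w.re w.im := congrArg Complex.im h
  have hv' : vv D z.re |z.im| = vv D w.re |w.im| := by rw [← vv_abs, ← vv_abs, hv]
  obtain ⟨h1, h2⟩ := inj_aux D (abs_nonneg _) (abs_nonneg _) hu hv'
  apply Complex.ext h1
  rcases abs_eq_abs.mp h2 with h3 | h3
  · exact h3
  · rw [h1, h3, vv_neg] at hv
    have h4 : vv D w.re w.im = 0 := by linarith
    rcases lt_trichotomy w.im 0 with h5 | h5 | h5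
    · have := vv_pos D w.re (y := -w.im) (by linarith)
      rw [vv_neg] at this; linarith
    · rw [h3, h5]; simp
    · have := vv_pos D w.re h5; linarith

lemma surj_aux (X : ℝ) {Y : ℝ} (hY : 0 ≤ Y) : ∃ x s : ℝ, 0 ≤ s ∧ uu D x s = X ∧ vv D x s = Y := by
  set S : ℝ := max 1 Y with hS
  have hS1 : 1 ≤ S := le_max_left _ _
  have hSY : Y ≤ S := le_max_right _ _
  have hvc : ∀ x, Continuous (vv D x) := by
    intro x
    unfold vv
    exact continuous_id.mul (om_continuous.comp (by fun_prop))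
  have hex : ∀ x : ℝ, ∃ s ∈ Icc (0:ℝ) S, vv D x s = Y := by
    intro x
    have h := intermediate_value_Icc (by linarith : (0:ℝ) ≤ S) (hvc x).continuousOn
    apply h
    rw [vv_zero]
    refine ⟨hY, ?_⟩
    unfold vv
    rw [abs_of_nonneg (by linarith), om_of_ge (by linarith [dd_nonneg D 0 x])]
    linarith
  choose s hs hs2 using hex
  have hLip : ∀ x x' : ℝ, s x' ≤ s x + |x' - x| := by
    intro x x'
    by_contra hcon
    push Not at hcon
    have h1 : 0 < s x' - s x := by have := abs_nonneg (x' - x); linarith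
    have := vv_strict D (x := x) (x' := x') (y := s x) (t := s x' - s x) (hs x).1 h1 (by linarith)
    rw [show s x + (s x' - s x) = s x' by ring, hs2, hs2] at this
    linarith
  have hcont : Continuous s := by
    have hL : LipschitzWith 1 s := by
      apply LipschitzWith.of_dist_le_mul
      intro a b
      rw [Real.dist_eq, Real.dist_eq, NNReal.coe_one, one_mul, abs_le]
      have h1 := hLip a b
      have h2 := hLip b a
      rw [abs_sub_comm] at h1
      constructor <;> linarith
    exact hL.continuous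
  have huc : Continuous (fun x => uu D x (s x)) := by
    have hL : ∀ a b : ℝ, |uu D a (s a) - uu D b (s b)| ≤ 32 * D.B * |a - b| := by
      intro a b
      refine (uu_lip D _ _ _ _).trans ?_
      have h1 := hLip a b
      have h2 := hLip b a
      rw [abs_sub_comm] at h1
      have h3 : |s a - s b| ≤ |a - b| := by rw [abs_le]; constructor <;> linarith
      have hB := D.hB
      calc 16 * D.B * (|a - b| + |s a - s b|) ≤ 16 * D.B * (|a - b| + |a - b|) := by gcongr
        _ = _ := by ring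
    have : LipschitzWith (32 * D.B).toNNReal (fun x => uu D x (s x)) := by
      apply LipschitzWith.of_dist_le_mul
      intro a b
      rw [Real.dist_eq, Real.dist_eq, Real.coe_toNNReal _ (by have := D.hB; positivity)]
      exact hL a b
    exact this.continuous
  have h1 : ∃ a, uu D a (s a) ≤ X := by
    obtain ⟨a, ha⟩ := ((hh_atBot D).eventually (eventually_le_atBot X)).exists
    refine ⟨a - S, ?_⟩
    refine (uu_bounds D _ (hs _).1).2.trans ?_
    refine le_trans (hh_mono D ?_) ha
    linarith [(hs (a - S)).2]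
  have h2 : ∃ b, X ≤ uu D b (s b) := by
    obtain ⟨a, ha⟩ := ((hh_atTop D).eventually (eventually_ge_atTop X)).exists
    refine ⟨a + S, ?_⟩
    refine le_trans ?_ (uu_bounds D _ (hs _).1).1
    refine le_trans ha (hh_mono D ?_)
    linarith [(hs (a + S)).2]
  obtain ⟨x, hx⟩ := mem_range_of_exists_le_of_exists_ge huc h1 h2
  exact ⟨x, s x, (hs x).1, hx, hs2 x⟩

lemma ff_surjective : Function.Surjective (ff D) := by
  intro w
  obtain ⟨x, s, hs, h1, h2⟩ := surj_aux D w.re (abs_nonneg w.im)
  rcases le_total 0 w.im with h | h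
  · refine ⟨⟨x, s⟩, Complex.ext ?_ ?_⟩
    · simp only [ff]; rw [abs_of_nonneg hs]; exact h1
    · simp only [ff]; rw [h2, abs_of_nonneg h]
  · refine ⟨⟨x, -s⟩, Complex.ext ?_ ?_⟩
    · simp only [ff]; rw [abs_neg, abs_of_nonneg hs]; exact h1
    · simp only [ff]; rw [vv_neg, h2, abs_of_nonpos h, neg_neg]

lemma ff_proper : IsProperMap (ff D) := by
  rw [isProperMap_iff_isCompact_preimage]
  refine ⟨ff_continuous D, ?_⟩
  intro K hK
  obtain ⟨R, hR⟩ := hK.isBounded.exists_norm_le
  set S : ℝ := max 1 R with hS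
  have hS1 : 1 ≤ S := le_max_left _ _
  have hSR : R ≤ S := le_max_right _ _
  obtain ⟨a, ha⟩ := ((hh_atBot D).eventually (eventually_lt_atBot (-R))).exists
  obtain ⟨b, hb⟩ := ((hh_atTop D).eventually (eventually_gt_atTop R)).exists
  apply Metric.isCompact_of_isClosed_isBounded (hK.isClosed.preimage (ff_continuous D))
  rw [isBounded_iff_forall_norm_le]
  refine ⟨|a| + |b| + 2 * S, ?_⟩
  intro z hz
  have h1 := hR _ hz
  have h2 : |uu D z.re (|z.im|)| ≤ R := (Complex.abs_re_le_norm (ff D z)).trans h1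
  have h3 : |vv D z.re z.im| ≤ R := (Complex.abs_im_le_norm (ff D z)).trans h1
  have h4 : |z.im| ≤ S := by
    rcases le_or_gt |z.im| 1 with h | h
    · linarith
    · rw [vv_abs] at h3
      unfold vv at h3
      rw [abs_abs, om_of_ge (by linarith [dd_nonneg D 0 z.re])] at h3
      linarith
  have h5 := uu_bounds D z.re (abs_nonneg z.im)
  have h6 := abs_le.mp h2
  have h7 : z.re - |z.im| < b := (hh_strictMono D).lt_iff_lt.mp (by linarith)
  have h8 : a < z.re + |z.im| := (hh_strictMono D).lt_iff_lt.mp (by linarith)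
  have h9 : |z.re| ≤ |a| + |b| + S := by
    rw [abs_le]
    have h10 := neg_abs_le a
    have h11 := le_abs_self b
    have h12 := abs_nonneg a
    have h13 := abs_nonneg b
    constructor <;> linarith
  have := Complex.norm_le_abs_re_add_abs_im z
  linarith

/-- the homeomorphism -/
noncomputable def fh : ℂ ≃ₜ ℂ :=
  (Equiv.ofBijective (ff D) ⟨ff_injective D, ff_surjective D⟩).toHomeomorphOfContinuousClosed
    (ff_continuous D) (ff_proper D).isClosedMap

lemma fh_apply (z : ℂ) : fh D z = ff D z := rfl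

lemma ff_real (x : ℝ) : ff D (x : ℂ) = (hh D x : ℝ) := by
  apply Complex.ext
  · simp only [ff, Complex.ofReal_re, Complex.ofReal_im, abs_zero, uu_zero]
  · simp only [ff, Complex.ofReal_re, Complex.ofReal_im, vv_zero]

end Pool.Agent.Helper930.Fbc
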