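import Mathlib
import Pool.Agent.Helper930.FbcE

set_option autoImplicit false

open Set Filter Topology MeasureTheory intervalIntegral

namespace Pool.Agent.Helper930.Fbc

variable (D : GapData)

lemma deriv_ge {φ : ℝ → ℝ} {φ' c : ℝ} (h : HasDerivAt φ φ' 0)
    (hge : ∀ t > 0, c * t ≤ φ t - φ 0) : c ≤ φ' := by
  have h1 := h.tendsto_slope_zero_right
  refine ge_of_tendsto h1 ?_
  filter_upwards [self_mem_nhdsWithin] with t (ht : 0 < t)
  rw [zero_add, smul_eq_mul, inv_mul_eq_div, le_div_iff₀ ht]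
  exact hge t ht

lemma deriv_le {φ : ℝ → ℝ} {φ' c k : ℝ} (h : HasDerivAt φ φ' 0)
    (hle : ∀ t > 0, φ t - φ 0 ≤ (c + k * t) * t) : φ' ≤ c := by
  have h1 := h.tendsto_slope_zero_right
  have h2 : Tendsto (fun t : ℝ => c + k * t) (𝓝[>] 0) (𝓝 c) := by
    have : Tendsto (fun t : ℝ => c + k * t) (𝓝 0) (𝓝 (c + k * 0)) :=
      (Continuous.tendsto (by fun_prop) 0)
    rw [mul_zero, add_zero] at this
    exact this.mono_left nhdsWithin_le_nhds
  refine le_of_tendsto_of_tendsto h1 h2 ?_
  filter_upwards [self_mem_nhdsWithin] with t (ht : 0 < t)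
  rw [zero_add, smul_eq_mul, inv_mul_eq_div, div_le_iff₀ ht]
  exact hle t ht

lemma vv_up (x : ℝ) {s t : ℝ} (hs : 0 < s) (ht : 0 < t) :
    vv D x (s + t) - vv D x s ≤ (2 * om (s + dd D 0 x) +
      (om (s + dd D 0 x) / (s + dd D 0 x)) * t) * t := by
  have hd := dd_nonneg D 0 x
  unfold vv
  rw [abs_of_pos hs, abs_of_pos (by linarith)]
  set r := s + dd D 0 x with hr
  have hr0 : 0 < r := by linarith
  have h1 := om_div hr0 (by linarith : r ≤ s + t + dd D 0 x)
  have h2 : om (s + t + dd D 0 x) ≤ om r * (r + t) / r := by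
    rw [le_div_iff₀ hr0]
    have : s + t + dd D 0 x = r + t := by linarith
    rw [this] at h1 ⊢
    exact h1
  have hsr : s ≤ r := by linarith
  have hst : 0 < s + t := by linarith
  have hom := om_nonneg r
  calc (s + t) * om (s + t + dd D 0 x) - s * om r
      ≤ (s + t) * (om r * (r + t) / r) - s * om r := by gcongr
    _ = (om r + (s/r) * om r + om r / r * t) * t := by field_simp; ring
    _ ≤ (om r + 1 * om r + om r / r * t) * t := by
        have : s / r ≤ 1 := by rw [div_le_one hr0]; exact hsr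
        gcongr
    _ = _ := by ring

/-- the window slope -/
noncomputable def De (x s : ℝ) : ℝ := (hh D (x+s) - hh D (x-s)) / (2*s)

lemma det_formula (A : ℂ →L[ℝ] ℂ) : LinearMap.det (A : ℂ →ₗ[ℝ] ℂ) =
    (A 1).re * (A Complex.I).im - (A Complex.I).re * (A 1).im := by
  rw [← LinearMap.det_toMatrix Complex.basisOneI, Matrix.det_fin_two]
  simp [LinearMap.toMatrix_apply]

lemma norm_sq_le (A : ℂ →L[ℝ] ℂ) : ‖A‖^2 ≤
    (A 1).re^2 + (A 1).im^2 + ((A Complex.I).re^2 + (A Complex.I).im^2) := by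
  set S := (A 1).re^2 + (A 1).im^2 + ((A Complex.I).re^2 + (A Complex.I).im^2) with hS
  have hS0 : 0 ≤ S := by positivity
  have h : ‖A‖ ≤ Real.sqrt S := by
    apply ContinuousLinearMap.opNorm_le_bound _ (Real.sqrt_nonneg _)
    intro w
    have hw : A w = (w.re : ℂ) * A 1 + (w.im : ℂ) * A Complex.I := by
      conv_lhs => rw [← Complex.re_add_im w]
      rw [show ((w.re : ℂ) + (w.im : ℂ) * Complex.I) = w.re • (1:ℂ) + w.im • Complex.I by
        simp [Complex.real_smul]]
      rw [map_add, map_smul, map_smul]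
      simp [Complex.real_smul]
    rw [← Real.sqrt_sq (norm_nonneg w), ← Real.sqrt_mul hS0]
    apply Real.le_sqrt_of_sq_le
    rw [← Complex.normSq_eq_norm_sq, ← Complex.normSq_eq_norm_sq, Complex.normSq_apply,
      Complex.normSq_apply, hw]
    simp only [Complex.add_re, Complex.mul_re, Complex.ofReal_re, Complex.ofReal_im, zero_mul,
      sub_zero, Complex.add_im, Complex.mul_im, add_zero]
    rw [hS]
    nlinarith [sq_nonneg (w.re * (A Complex.I).re - w.im * (A 1).re),
      sq_nonneg (w.re * (A Complex.I).im - w.im * (A 1).im)]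
  calc ‖A‖^2 ≤ (Real.sqrt S)^2 := by gcongr
    _ = S := Real.sq_sqrt hS0

lemma fderiv_bounds {z : ℂ} (hz : z.im ≠ 0) (hd : DifferentiableAt ℝ (ff D) z) :
    (fderiv ℝ (ff D) z 1).re = De D z.re |z.im| ∧
    |(fderiv ℝ (ff D) z Complex.I).re| ≤ De D z.re |z.im| ∧
    |(fderiv ℝ (ff D) z 1).im| + om (|z.im| + dd D 0 z.re) ≤ (fderiv ℝ (ff D) z Complex.I).im ∧
    (fderiv ℝ (ff D) z Complex.I).im ≤ 2 * om (|z.im| + dd D 0 z.re) := by
  set A := fderiv ℝ (ff D) z with hA
  have hs : 0 < |z.im| := abs_pos.mpr hz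
  have hline : ∀ w : ℂ, HasDerivAt (fun t : ℝ => ff D (z + t • w)) (A w) 0 := fun w =>
    hd.hasFDerivAt.hasLineDerivAt w
  have hre : ∀ w : ℂ, HasDerivAt (fun t : ℝ => (ff D (z + t • w)).re) (A w).re 0 := fun w =>
    Complex.reCLM.hasFDerivAt.comp_hasDerivAt 0 (hline w)
  have him : ∀ w : ℂ, HasDerivAt (fun t : ℝ => (ff D (z + t • w)).im) (A w).im 0 := fun w =>
    Complex.imCLM.hasFDerivAt.comp_hasDerivAt 0 (hline w)
  -- first
  have h1 : (A 1).re = De D z.re |z.im| := by
    have h := hre 1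
    have h2 : (fun t : ℝ => (ff D (z + t • (1:ℂ))).re) = fun t : ℝ => uu D (z.re + t) (|z.im|) := by
      funext t
      simp [ff]
    rw [h2] at h
    have h3 : HasDerivAt (fun t : ℝ => uu D (z.re + t) (|z.im|)) (De D z.re |z.im|) 0 := by
      have := uu_hasDerivAt D (z.re + 0) hs
      have h4 := HasDerivAt.comp_const_add z.re 0 this
      rw [add_zero] at h4
      exact h4
    exact h.unique h3
  -- second
  have h2 : ∀ c : ℝ, |c| = 1 → 0 ≤ (A 1).re + c * (A Complex.I).re := by
    intro c hc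
    have h := hre (1 + c * Complex.I)
    have h3 : (A (1 + c * Complex.I)).re = (A 1).re + c * (A Complex.I).re := by
      rw [show (1 + c * Complex.I : ℂ) = 1 + c • Complex.I by simp [Complex.real_smul], map_add,
        map_smul]
      simp [Complex.real_smul]
    rw [h3] at h
    refine deriv_ge h ?_
    intro t ht
    rw [zero_mul, zero_smul, add_zero]
    simp only [ff]
    have h5 : uu D z.re |z.im| ≤ uu D (z + t • (1 + c * Complex.I)).re
        |(z + t • (1 + c * Complex.I)).im| := by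
      apply uu_mono
      have e1 : (z + t • (1 + c * Complex.I) : ℂ).re = z.re + t := by
        simp [Complex.real_smul]
      have e2 : (z + t • (1 + c * Complex.I) : ℂ).im = z.im + t * c := by
        simp [Complex.real_smul]
      rw [e1, e2]
      refine (abs_abs_sub_abs_le_abs_sub _ _).trans ?_
      rw [show z.im + t * c - z.im = t * c by ring, abs_mul, hc, abs_of_pos ht]
      linarith
    linarith
  have h2' : |(A Complex.I).re| ≤ De D z.re |z.im| := by
    rw [← h1, abs_le]
    have ha := h2 1 (by norm_num)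
    have hb := h2 (-1) (by norm_num)
    constructor <;> linarith
  -- third
  obtain ⟨σ, hσ, hzσ⟩ : ∃ σ : ℝ, (σ = 1 ∨ σ = -1) ∧ z.im = σ * |z.im| := by
    rcases lt_or_gt_of_ne hz with h | h
    · exact ⟨-1, Or.inr rfl, by rw [abs_of_neg h]; ring⟩
    · exact ⟨1, Or.inl rfl, by rw [abs_of_pos h]; ring⟩
  have hσ2 : σ * σ = 1 := by rcases hσ with h | h <;> rw [h] <;> norm_num
  have hvσ : ∀ x y : ℝ, σ * vv D x (σ * y) = vv D x y := by
    intro x y
    rcases hσ with h | h
    · rw [h]; simp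
    · rw [h, neg_one_mul, neg_one_mul, vv_neg, neg_neg]
  have hphi : ∀ c : ℝ, HasDerivAt (fun t : ℝ => vv D (z.re + t * c) (|z.im| + t))
      (σ * c * (A 1).im + (A Complex.I).im) 0 := by
    intro c
    have h := (him (c + σ * Complex.I)).const_mul σ
    have h3 : σ * (A (c + σ * Complex.I)).im = σ * c * (A 1).im + (A Complex.I).im := by
      rw [show (c + σ * Complex.I : ℂ) = c • (1:ℂ) + σ • Complex.I by simp [Complex.real_smul],
        map_add, map_smul, map_smul]
      simp only [Complex.add_im, Complex.real_smul, Complex.mul_im, Complex.ofReal_re,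
        Complex.ofReal_im, zero_mul, add_zero]
      linear_combination (A Complex.I).im * hσ2
    rw [h3] at h
    have h4 : (fun t : ℝ => σ * (ff D (z + t • (c + σ * Complex.I))).im) =
        fun t : ℝ => vv D (z.re + t * c) (|z.im| + t) := by
      funext t
      simp only [ff]
      have e1 : (z + t • (c + σ * Complex.I) : ℂ).re = z.re + t * c := by
        simp [Complex.real_smul]
      have e2 : (z + t • (c + σ * Complex.I) : ℂ).im = σ * (|z.im| + t) := by
        simp only [Complex.add_im, Complex.real_smul, Complex.mul_im, Complex.ofReal_re,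
          Complex.ofReal_im, Complex.I_im, Complex.I_re, mul_one, mul_zero, zero_mul, add_zero,
          zero_add]
        linear_combination hzσ
      rw [e1, e2, hvσ]
    rw [h4] at h
    exact h
  have h3 : ∀ c : ℝ, |c| = 1 → om (|z.im| + dd D 0 z.re) ≤ σ * c * (A 1).im + (A Complex.I).im := by
    intro c hc
    refine deriv_ge (hphi c) ?_
    intro t ht
    have := vv_key D (x := z.re) (x' := z.re + t * c) (y := |z.im|) (t := t) hs.le ht.le
      (by rw [show z.re + t * c - z.re = t * c by ring, abs_mul, hc, abs_of_pos ht]; linarith)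
    rw [zero_mul, add_zero, add_zero]
    linarith
  have h3' : |(A 1).im| + om (|z.im| + dd D 0 z.re) ≤ (A Complex.I).im := by
    have ha := h3 1 (by norm_num)
    have hb := h3 (-1) (by norm_num)
    have : |(A 1).im| ≤ (A Complex.I).im - om (|z.im| + dd D 0 z.re) := by
      rw [abs_le]
      rcases hσ with h | h <;> rw [h] at ha hb <;> constructor <;> linarith
    linarith
  -- fourth
  have h4 : (A Complex.I).im ≤ 2 * om (|z.im| + dd D 0 z.re) := by
    have h := hphi 0
    simp only [mul_zero, zero_mul, zero_add, add_zero] at h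
    refine deriv_le (k := om (|z.im| + dd D 0 z.re) / (|z.im| + dd D 0 z.re)) h ?_
    intro t ht
    rw [add_zero]
    exact vv_up D z.re hs ht
  exact ⟨h1, h2', h3', h4⟩

noncomputable def CK : ℝ := 1 + 2 * D.B + 8 / cw D

lemma CK_ge : 1 ≤ CK D := by
  have := D.hB; have := cw_pos D; unfold CK
  have h : 0 ≤ 2 * D.B + 8 / cw D := by positivity
  linarith

noncomputable def KK (z : ℂ) : ℝ := CK D * ell |z.im|

lemma KK_ge (z : ℂ) : 1 ≤ KK D z := by
  have h1 := CK_ge D
  have h2 := ell_ge |z.im|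
  unfold KK; nlinarith

lemma distortion {z : ℂ} (hz : z.im ≠ 0) (hd : DifferentiableAt ℝ (ff D) z) :
    ‖fderiv ℝ (ff D) z‖^2 ≤ KK D z * LinearMap.det ((fderiv ℝ (ff D) z : ℂ →L[ℝ] ℂ) : ℂ →ₗ[ℝ] ℂ) := by
  obtain ⟨h1, h2, h3, h4⟩ := fderiv_bounds D hz hd
  have hs : 0 < |z.im| := abs_pos.mpr hz
  have hN := norm_sq_le (fderiv ℝ (ff D) z)
  rw [det_formula]
  set A := fderiv ℝ (ff D) z with hA
  set Δ := De D z.re |z.im| with hΔ
  set w := om (|z.im| + dd D 0 z.re) with hw
  set l := ell |z.im| with hl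
  have hB := D.hB
  have hc := cw_pos D
  have hl4 : 4 ≤ l := ell_ge _
  have hw0 : 0 < w := om_pos (by have := dd_nonneg D 0 z.re; linarith)
  have hlow := hh_lower D z.re hs
  have hup := hh_upper D z.re hs
  have hlow' : cw D * w ≤ l * Δ := by
    rw [hΔ, De, mul_div_assoc', le_div_iff₀ (by positivity)]; exact hlow
  have hup' : Δ ≤ D.B * (w * l) := by
    rw [hΔ, De, div_le_iff₀ (by positivity)]; exact hup
  have hΔ0 : 0 < Δ := by
    have : 0 < l * Δ := lt_of_lt_of_le (by positivity) hlow'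
    exact (pos_iff_pos_of_mul_pos this).mp (by linarith)
  have hvx := abs_nonneg (A 1).im
  have hdet : Δ * w ≤ (A 1).re * (A Complex.I).im - (A Complex.I).re * (A 1).im := by
    have h5 : (A Complex.I).re * (A 1).im ≤ Δ * |(A 1).im| := by
      refine (le_abs_self _).trans ?_
      rw [abs_mul]
      gcongr
    rw [h1]
    nlinarith
  have hnorm : ‖A‖^2 ≤ 2 * Δ^2 + 8 * w^2 := by
    have e1 : (A Complex.I).re^2 ≤ Δ^2 := sq_le_sq' (by linarith [(abs_le.mp h2).1]) (abs_le.mp h2).2
    have e2 : (A 1).im^2 ≤ (2*w)^2 := by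
      rw [← sq_abs]
      exact pow_le_pow_left₀ hvx (by linarith) 2
    have e3 : (A Complex.I).im^2 ≤ (2*w)^2 := pow_le_pow_left₀ (by linarith) h4 2
    rw [h1] at hN
    nlinarith
  have hk1 : 2 * Δ^2 ≤ 2 * D.B * l * (Δ * w) := by
    calc 2 * Δ^2 = 2 * Δ * Δ := by ring
      _ ≤ 2 * Δ * (D.B * (w * l)) := by gcongr
      _ = _ := by ring
  have hk2 : 8 * w^2 ≤ 8 / cw D * l * (Δ * w) := by
    have : w ≤ l * Δ / cw D := by rw [le_div_iff₀ hc]; linarith
    calc 8 * w^2 = 8 * w * w := by ring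
      _ ≤ 8 * w * (l * Δ / cw D) := by gcongr
      _ = _ := by ring
  have hk3 : 0 ≤ l * (Δ * w) := by positivity
  calc ‖A‖^2 ≤ 2 * Δ^2 + 8 * w^2 := hnorm
    _ ≤ 2 * D.B * l * (Δ * w) + 8 / cw D * l * (Δ * w) := add_le_add hk1 hk2
    _ ≤ KK D z * (Δ * w) := by unfold KK CK; rw [← hl]; nlinarith
    _ ≤ _ := by
        have := KK_ge D z
        gcongr

end Pool.Agent.Helper930.Fbc
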