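import Mathlib
import Pool.Agent.Helper930.FbcF

set_option autoImplicit false

open Set Filter Topology MeasureTheory intervalIntegral

namespace Pool.Agent.Helper930.Fbc

variable (D : GapData)

lemma real_line_null : ∀ᵐ z : ℂ ∂(volume : Measure ℂ), z.im ≠ 0 := by
  have h : volume ((Complex.imLm : ℂ →ₗ[ℝ] ℝ).ker : Set ℂ) = 0 := by
    apply Measure.addHaar_submodule
    intro htop
    have : Complex.I ∈ (Complex.imLm : ℂ →ₗ[ℝ] ℝ).ker := by rw [htop]; trivial
    rw [LinearMap.mem_ker] at this
    simp at this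
  rw [ae_iff]
  convert h using 2
  ext z
  simp

/-- singular weight on the line -/
noncomputable def gw (y : ℝ) : ℝ := Real.exp (ell |y| / 2)

lemma gw_le (y : ℝ) (hy : y ≠ 0) : gw y ≤ Real.exp 2 * (1 + |y| ^ (-(1/2) : ℝ)) := by
  have hy0 : 0 < |y| := abs_pos.mpr hy
  unfold gw
  rw [show ell |y| / 2 = 2 + (-(1/2)) * Real.log (cl |y|) by unfold ell; ring, Real.exp_add]
  have h0 := cl_pos hy0
  rw [mul_comm (-(1/2)) (Real.log _), ← Real.rpow_def_of_pos h0]
  gcongr
  rcases le_total |y| 1 with h | h
  · rw [cl_eq hy0.le h]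
    linarith
  · rw [cl_eq_one h, Real.one_rpow]
    have := Real.rpow_nonneg hy0.le (-(1/2) : ℝ)
    linarith

lemma abs_rpow_int (R : ℝ) : IntegrableOn (fun y : ℝ => |y| ^ (-(1/2) : ℝ)) (Icc (-R) R) := by
  rcases le_or_gt 0 R with hR | hR
  swap
  · rw [Icc_eq_empty (by linarith)]; exact integrableOn_empty
  have h1 : IntervalIntegrable (fun y : ℝ => |y| ^ (-(1/2) : ℝ)) volume 0 R := by
    have h := intervalIntegral.intervalIntegrable_rpow' (a := 0) (b := R) (r := -(1/2)) (by norm_num)
    refine h.congr ?_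
    rw [uIoc_of_le hR]
    intro y hy
    simp only
    rw [abs_of_pos hy.1]
  have h2 : IntervalIntegrable (fun y : ℝ => |y| ^ (-(1/2) : ℝ)) volume (-R) 0 := by
    have h := (IntervalIntegrable.iff_comp_neg (f := fun y : ℝ => |y| ^ (-(1/2) : ℝ))
      (a := 0) (b := R)).mp h1
    simp only [abs_neg, neg_zero] at h
    exact h.symm
  have h3 := h2.trans h1
  rw [intervalIntegrable_iff_integrableOn_Icc_of_le (by linarith)] at h3
  exact h3

lemma cl_meas : Measurable cl := cl_continuous.measurable
lemma ell_meas : Measurable ell := by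
  unfold ell
  exact measurable_const.sub (Real.measurable_log.comp cl_meas)

lemma gw_meas : Measurable gw := by
  unfold gw
  exact Real.measurable_exp.comp ((ell_meas.comp measurable_norm).div_const 2)

lemma gw_int (R : ℝ) : IntegrableOn gw (Icc (-R) R) := by
  have h1 : IntegrableOn (fun y : ℝ => Real.exp 2 * (1 + |y| ^ (-(1/2) : ℝ))) (Icc (-R) R) := by
    have : IntegrableOn (fun _ : ℝ => (1:ℝ)) (Icc (-R) R) := by
      exact integrableOn_const (by simp)
    exact (this.add (abs_rpow_int R)).const_mul (Real.exp 2)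
  refine Integrable.mono' h1 gw_meas.aestronglyMeasurable ?_
  have h2 : ∀ᵐ y : ℝ ∂(volume.restrict (Icc (-R) R)), y ≠ 0 :=
    ae_restrict_of_ae (by
      have : ({0} : Set ℝ)ᶜ ∈ ae (volume : Measure ℝ) := by
        rw [mem_ae_iff, compl_compl]; simp
      filter_upwards [this] with y hy using hy)
  filter_upwards [h2] with y hy
  rw [Real.norm_of_nonneg (by unfold gw; positivity)]
  exact gw_le y hy

lemma gw_locallyIntegrable : LocallyIntegrable (fun z : ℂ => gw z.im) volume := by
  rw [locallyIntegrable_iff]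
  intro K hK
  obtain ⟨R, hR⟩ := hK.isBounded.exists_norm_le
  have hbox : K ⊆ Complex.measurableEquivRealProd ⁻¹' (Icc (-R) R ×ˢ Icc (-R) R) := by
    intro z hz
    have h1 := hR z hz
    have h2 := (Complex.abs_re_le_norm z).trans h1
    have h3 := (Complex.abs_im_le_norm z).trans h1
    rw [abs_le] at h2 h3
    exact ⟨h2, h3⟩
  refine IntegrableOn.mono_set ?_ hbox
  have hmp := Complex.volume_preserving_equiv_real_prod
  have h1 : IntegrableOn (fun p : ℝ × ℝ => gw p.2) (Icc (-R) R ×ˢ Icc (-R) R)
      (volume : Measure (ℝ × ℝ)) := by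
    rw [IntegrableOn, Measure.volume_eq_prod, ← Measure.prod_restrict]
    have hone : Integrable (fun _ : ℝ => (1:ℝ)) (volume.restrict (Icc (-R) R)) :=
      integrableOn_const (by simp)
    have := Integrable.mul_prod hone (gw_int R)
    simpa using this
  have h2 := (hmp.integrableOn_comp_preimage
    (Complex.measurableEquivRealProd.measurableEmbedding)
    (f := fun p : ℝ × ℝ => gw p.2) (s := Icc (-R) R ×ˢ Icc (-R) R)).mpr h1
  exact h2

lemma Df_bound (z : ℂ) : ‖fderiv ℝ (ff D) z‖ ≤ CL D := by
  have := norm_fderiv_le_of_lipschitz ℝ (ff_lip D) (x₀ := z)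
  rwa [Real.coe_toNNReal _ (CL_nonneg D)] at this

lemma Df_locallyIntegrable : LocallyIntegrable (fderiv ℝ (ff D)) (volume : Measure ℂ) := by
  refine (locallyIntegrable_const (CL D)).mono
    (measurable_fderiv ℝ (ff D)).aestronglyMeasurable ?_
  filter_upwards with z
  exact (Df_bound D z).trans (le_abs_self _)

lemma det_locallyIntegrable : LocallyIntegrable
    (fun z => LinearMap.det ((fderiv ℝ (ff D) z : ℂ →L[ℝ] ℂ) : ℂ →ₗ[ℝ] ℂ))
    (volume : Measure ℂ) := by
  refine (locallyIntegrable_const (2 * (CL D)^2)).mono ?_ ?_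
  · have h : (fun z => LinearMap.det ((fderiv ℝ (ff D) z : ℂ →L[ℝ] ℂ) : ℂ →ₗ[ℝ] ℂ)) =
        fun z => (fderiv ℝ (ff D) z 1).re * (fderiv ℝ (ff D) z Complex.I).im -
          (fderiv ℝ (ff D) z Complex.I).re * (fderiv ℝ (ff D) z 1).im := by
      funext z; exact det_formula _
    rw [h]
    have h1 := measurable_fderiv_apply_const ℝ (ff D) 1
    have h2 := measurable_fderiv_apply_const ℝ (ff D) Complex.I
    exact (((Complex.measurable_re.comp h1).mul (Complex.measurable_im.comp h2)).sub
      ((Complex.measurable_re.comp h2).mul (Complex.measurable_im.comp h1))).aestronglyMeasurable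
  · filter_upwards with z
    rw [det_formula]
    set A := fderiv ℝ (ff D) z with hA
    have hb := Df_bound D z
    rw [← hA] at hb
    have h1 : ‖A 1‖ ≤ CL D := by
      have := A.le_opNorm 1; rw [norm_one, mul_one] at this; linarith
    have hI : ‖A Complex.I‖ ≤ CL D := by
      have := A.le_opNorm Complex.I; rw [Complex.norm_I, mul_one] at this; linarith
    have a1 := (Complex.abs_re_le_norm (A 1)).trans h1
    have a2 := (Complex.abs_im_le_norm (A 1)).trans h1
    have a3 := (Complex.abs_re_le_norm (A Complex.I)).trans hI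
    have a4 := (Complex.abs_im_le_norm (A Complex.I)).trans hI
    have hC := CL_nonneg D
    rw [Real.norm_eq_abs, Real.norm_eq_abs]
    refine le_trans ?_ (le_abs_self _)
    calc |(A 1).re * (A Complex.I).im - (A Complex.I).re * (A 1).im|
        ≤ |(A 1).re * (A Complex.I).im| + |(A Complex.I).re * (A 1).im| := abs_sub _ _
      _ = |(A 1).re| * |(A Complex.I).im| + |(A Complex.I).re| * |(A 1).im| := by
          rw [abs_mul, abs_mul]
      _ ≤ CL D * CL D + CL D * CL D := by gcongr
      _ = _ := by ring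

lemma ibp_real {f : ℂ → ℝ} {C : NNReal} (hf : LipschitzWith C f) {φ : ℂ → ℝ}
    (hφ : ContDiff ℝ 1 φ) (hc : HasCompactSupport φ) (v : ℂ) :
    ∫ x, (fderiv ℝ φ x v) * f x = - ∫ x, φ x * lineDeriv ℝ f x v := by
  obtain ⟨C', hL⟩ := ContDiff.lipschitzWith_of_hasCompactSupport hc hφ (by norm_num)
  have h := hf.integral_lineDeriv_mul_eq (μ := (volume : Measure ℂ)) hL hc v
  have h1 : ∀ x, lineDeriv ℝ φ x (-v) = - (fderiv ℝ φ x v) := by
    intro x
    rw [(hφ.differentiable (by norm_num) x).lineDeriv_eq_fderiv, map_neg]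
  simp_rw [h1] at h
  have h2 : ∫ x, φ x * lineDeriv ℝ f x v = ∫ x, lineDeriv ℝ f x v * φ x := by
    congr 1; funext x; ring
  rw [h2, h]
  simp only [neg_mul]
  rw [MeasureTheory.integral_neg, neg_neg]

lemma re_lip : LipschitzWith (CL D).toNNReal (fun z => (ff D z).re) := by
  apply LipschitzWith.of_dist_le_mul
  intro z w
  rw [Real.dist_eq, ← Complex.sub_re]
  refine (Complex.abs_re_le_norm _).trans ?_
  rw [Real.coe_toNNReal _ (CL_nonneg D), dist_eq_norm]
  exact ff_lip' D z w

lemma im_lip : LipschitzWith (CL D).toNNReal (fun z => (ff D z).im) := by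
  apply LipschitzWith.of_dist_le_mul
  intro z w
  rw [Real.dist_eq, ← Complex.sub_im]
  refine (Complex.abs_im_le_norm _).trans ?_
  rw [Real.coe_toNNReal _ (CL_nonneg D), dist_eq_norm]
  exact ff_lip' D z w

lemma weak_derivative (φ : ℂ → ℝ) (hφ : ContDiff ℝ 1 φ) (hc : HasCompactSupport φ) (v : ℂ) :
    ∫ x, (fderiv ℝ φ x v) • ff D x = - ∫ x, φ x • fderiv ℝ (ff D) x v := by
  have hdiff : ∀ᵐ z : ℂ, DifferentiableAt ℝ (ff D) z := (ff_lip D).ae_differentiableAt
  have hcf : Continuous (fun x => fderiv ℝ φ x v) :=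
    (hφ.continuous_fderiv (by norm_num)).clm_apply continuous_const
  have hcs : HasCompactSupport (fun x => fderiv ℝ φ x v) := by
    have := hc.fderiv (𝕜 := ℝ)
    exact this.comp_left (g := fun A : ℂ →L[ℝ] ℝ => A v) (by simp)
  have hi1 : Integrable (fun x => (fderiv ℝ φ x v) • ff D x) (volume : Measure ℂ) :=
    (hcf.smul (ff_continuous D)).integrable_of_hasCompactSupport hcs.smul_right
  have hi2 : Integrable (fun x => φ x • fderiv ℝ (ff D) x v) (volume : Measure ℂ) := by
    have hφi : Integrable (fun x => φ x) (volume : Measure ℂ) :=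
      hφ.continuous.integrable_of_hasCompactSupport hc
    refine Integrable.mono' (hφi.norm.mul_const (CL D * ‖v‖)) ?_ ?_
    · exact hφ.continuous.aestronglyMeasurable.smul
        (measurable_fderiv_apply_const ℝ (ff D) v).aestronglyMeasurable
    · filter_upwards with x
      rw [norm_smul]
      have := (fderiv ℝ (ff D) x).le_opNorm v
      have h2 := Df_bound D x
      gcongr
      exact this.trans (by gcongr)
  apply Complex.ext
  · have h1 : (∫ x, (fderiv ℝ φ x v) • ff D x).re = ∫ x, (fderiv ℝ φ x v) * (ff D x).re := by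
      have := Complex.reCLM.integral_comp_comm hi1
      simp only [Complex.reCLM_apply, Complex.smul_re, smul_eq_mul] at this
      exact this.symm
    have h2 : (∫ x, φ x • fderiv ℝ (ff D) x v).re = ∫ x, φ x * (fderiv ℝ (ff D) x v).re := by
      have := Complex.reCLM.integral_comp_comm hi2
      simp only [Complex.reCLM_apply, Complex.smul_re, smul_eq_mul] at this
      exact this.symm
    rw [Complex.neg_re, h1, h2, ibp_real (re_lip D) hφ hc v]
    congr 1
    apply MeasureTheory.integral_congr_ae
    filter_upwards [hdiff] with z hz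
    have : HasFDerivAt (fun z => (ff D z).re) (Complex.reCLM.comp (fderiv ℝ (ff D) z)) z :=
      Complex.reCLM.hasFDerivAt.comp z hz.hasFDerivAt
    rw [this.differentiableAt.lineDeriv_eq_fderiv, this.fderiv]
    rfl
  · have h1 : (∫ x, (fderiv ℝ φ x v) • ff D x).im = ∫ x, (fderiv ℝ φ x v) * (ff D x).im := by
      have := Complex.imCLM.integral_comp_comm hi1
      simp only [Complex.imCLM_apply, Complex.smul_im, smul_eq_mul] at this
      exact this.symm
    have h2 : (∫ x, φ x • fderiv ℝ (ff D) x v).im = ∫ x, φ x * (fderiv ℝ (ff D) x v).im := by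
      have := Complex.imCLM.integral_comp_comm hi2
      simp only [Complex.imCLM_apply, Complex.smul_im, smul_eq_mul] at this
      exact this.symm
    rw [Complex.neg_im, h1, h2, ibp_real (im_lip D) hφ hc v]
    congr 1
    apply MeasureTheory.integral_congr_ae
    filter_upwards [hdiff] with z hz
    have : HasFDerivAt (fun z => (ff D z).im) (Complex.imCLM.comp (fderiv ℝ (ff D) z)) z :=
      Complex.imCLM.hasFDerivAt.comp z hz.hasFDerivAt
    rw [this.differentiableAt.lineDeriv_eq_fderiv, this.fderiv]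
    rfl

lemma exp_locallyIntegrable : LocallyIntegrable
    (fun z => Real.exp ((1/(2*CK D)) * KK D z)) (volume : Measure ℂ) := by
  have h : (fun z : ℂ => Real.exp ((1/(2*CK D)) * KK D z)) = fun z : ℂ => gw z.im := by
    funext z
    unfold gw KK
    have := CK_ge D
    congr 1
    field_simp
  rw [h]
  exact gw_locallyIntegrable

end Pool.Agent.Helper930.Fbc
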