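import Mathlib

set_option autoImplicit false

open Set Filter Topology MeasureTheory Metric
open scoped ENNReal

namespace Pool.Agent.Helper930.Ln

lemma unit_pot {n : ℕ} (hn : 2 ≤ n) :
    ∫⁻ z in ball (0 : EuclideanSpace ℝ (Fin n)) 1, ENNReal.ofReal (1 / ‖z‖) ≠ ⊤ := by
  have hfin : Module.finrank ℝ (EuclideanSpace ℝ (Fin n)) = n := by simp
  have h : IntegrableOn (fun z : EuclideanSpace ℝ (Fin n) => 1 / ‖z‖) (ball 0 1) volume := by
    have hm : Measurable (fun z : EuclideanSpace ℝ (Fin n) => 1 / ‖z‖) := by fun_prop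
    refine integrableOn_ball_of_norm_le_rpow (C := 1) (α := 1) (by rw [hfin]; omega) ?_ ?_
      hm.aestronglyMeasurable
    · rw [hfin]
      exact_mod_cast hn
    · refine Eventually.of_forall fun x => ?_
      rw [Real.norm_of_nonneg (by positivity), one_mul, Real.rpow_neg_one, one_div]
  have h2 := h.2
  rw [hasFiniteIntegral_iff_enorm] at h2
  refine ne_of_lt (lt_of_le_of_lt (lintegral_mono fun z => ?_) h2)
  rw [← ofReal_norm, Real.norm_of_nonneg (by positivity)]

lemma ball_pot {n : ℕ} {R : ℝ} (hR : 0 < R) (p : EuclideanSpace ℝ (Fin n)) :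
    ∫⁻ z in ball p R, ENNReal.ofReal (1 / ‖z - p‖) =
      ENNReal.ofReal (R ^ n * (1 / R)) *
        ∫⁻ z in ball (0 : EuclideanSpace ℝ (Fin n)) 1, ENNReal.ofReal (1 / ‖z‖) := by
  have hfin : Module.finrank ℝ (EuclideanSpace ℝ (Fin n)) = n := by simp
  set F : EuclideanSpace ℝ (Fin n) → ℝ≥0∞ :=
    (ball (0 : EuclideanSpace ℝ (Fin n)) R).indicator fun z => ENNReal.ofReal (1 / ‖z‖) with hF
  have hFm : Measurable F := by
    apply Measurable.indicator _ measurableSet_ball
    fun_prop
  have h1 : ∫⁻ z in ball p R, ENNReal.ofReal (1 / ‖z - p‖) = ∫⁻ z, F z := by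
    rw [← lintegral_indicator measurableSet_ball, ← lintegral_sub_right_eq_self F p]
    apply lintegral_congr
    intro z
    have hz : z ∈ ball p R ↔ z - p ∈ ball (0 : EuclideanSpace ℝ (Fin n)) R := by
      rw [mem_ball, mem_ball_zero_iff, dist_eq_norm]
    by_cases h : z ∈ ball p R
    · rw [hF, Set.indicator_of_mem h, Set.indicator_of_mem (hz.1 h)]
    · rw [hF, Set.indicator_of_notMem h, Set.indicator_of_notMem (fun h' => h (hz.2 h'))]
  have h2 : ∫⁻ z, F z = ENNReal.ofReal (R ^ n) * ∫⁻ z, F (R • z) := by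
    have h3 := Measure.map_addHaar_smul (volume : Measure (EuclideanSpace ℝ (Fin n))) hR.ne'
    have h4 : ∫⁻ z, F (R • z) = ENNReal.ofReal |(R ^ n)⁻¹| * ∫⁻ z, F z := by
      rw [← lintegral_map hFm (measurable_const_smul R), h3, hfin, lintegral_smul_measure,
        smul_eq_mul]
    rw [h4, ← mul_assoc, abs_of_pos (by positivity), ← ENNReal.ofReal_mul (by positivity),
      mul_inv_cancel₀ (by positivity), ENNReal.ofReal_one, one_mul]
  have h5 : ∫⁻ z, F (R • z) = ENNReal.ofReal (1 / R) *
      ∫⁻ z in ball (0 : EuclideanSpace ℝ (Fin n)) 1, ENNReal.ofReal (1 / ‖z‖) := by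
    rw [← lintegral_const_mul _ (by fun_prop), ← lintegral_indicator measurableSet_ball]
    apply lintegral_congr
    intro z
    have hz : R • z ∈ ball (0 : EuclideanSpace ℝ (Fin n)) R ↔
        z ∈ ball (0 : EuclideanSpace ℝ (Fin n)) 1 := by
      rw [mem_ball_zero_iff, mem_ball_zero_iff, norm_smul, Real.norm_of_nonneg hR.le]
      constructor
      · intro h; nlinarith
      · intro h; nlinarith
    by_cases h : z ∈ ball (0 : EuclideanSpace ℝ (Fin n)) 1
    · rw [hF, Set.indicator_of_mem (hz.2 h), Set.indicator_of_mem h, norm_smul,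
        Real.norm_of_nonneg hR.le, ← ENNReal.ofReal_mul (by positivity)]
      congr 1
      rw [one_div_mul_one_div]
    · rw [hF, Set.indicator_of_notMem (fun h' => h (hz.1 h')), Set.indicator_of_notMem h]
  rw [h1, h2, h5, ← mul_assoc, ← ENNReal.ofReal_mul (by positivity)]

/-- JOB: potential of a set of given measure -/
theorem bathtub {n : ℕ} (hn : 2 ≤ n) :
    ∃ C : ℝ, 0 ≤ C ∧ ∀ (A : Set (EuclideanSpace ℝ (Fin n))), MeasurableSet A → volume A ≠ ⊤ →
      ∀ p : EuclideanSpace ℝ (Fin n),
      ∫⁻ z in A, ENNReal.ofReal (1 / ‖z - p‖) ≤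
        ENNReal.ofReal (C * (volume A).toReal ^ (((n:ℝ) - 1) / n)) := by
  set K := ∫⁻ z in ball (0 : EuclideanSpace ℝ (Fin n)) 1, ENNReal.ofReal (1 / ‖z‖) with hK
  have hKt : K ≠ ⊤ := unit_pot hn
  refine ⟨K.toReal + 1, by positivity, fun A hA hAt p => ?_⟩
  set m : ℝ := (volume A).toReal with hm
  have hm0 : 0 ≤ m := ENNReal.toReal_nonneg
  rcases eq_or_lt_of_le hm0 with h0 | hpos
  · have hv : volume A = 0 := by
      rcases (ENNReal.toReal_eq_zero_iff _).1 h0.symm with h | h
      · exact h
      · exact absurd h hAt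
    have : ∫⁻ z in A, ENNReal.ofReal (1 / ‖z - p‖) = 0 := by
      rw [Measure.restrict_eq_zero.2 hv, lintegral_zero_measure]
    rw [this]; exact bot_le
  · have hn0 : (0:ℝ) < n := by
      have : 0 < n := by omega
      exact_mod_cast this
    set R : ℝ := m ^ ((1:ℝ) / n) with hR
    have hR0 : 0 < R := Real.rpow_pos_of_pos hpos _
    have hRn : R ^ n = m := by
      rw [hR, ← Real.rpow_natCast, ← Real.rpow_mul hm0]
      have : (1:ℝ) / n * n = 1 := by field_simp
      rw [this, Real.rpow_one]
    have hmR : m * (1 / R) = m ^ (((n:ℝ) - 1) / n) := by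
      have e : ((n:ℝ) - 1) / n = 1 - 1 / n := by field_simp
      rw [e, Real.rpow_sub hpos, Real.rpow_one, ← hR]
      ring
    have hvol : volume A = ENNReal.ofReal m := (ENNReal.ofReal_toReal hAt).symm
    have hsplit : ∫⁻ z in A, ENNReal.ofReal (1 / ‖z - p‖) ≤
        (∫⁻ z in ball p R, ENNReal.ofReal (1 / ‖z - p‖)) + ENNReal.ofReal (1 / R) * volume A := by
      rw [← lintegral_inter_add_sdiff (fun z => ENNReal.ofReal (1 / ‖z - p‖)) A
        (measurableSet_ball : MeasurableSet (ball p R))]
      gcongr ?_ + ?_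
      · exact lintegral_mono_set inter_subset_right
      · calc ∫⁻ z in A \ ball p R, ENNReal.ofReal (1 / ‖z - p‖)
            ≤ ∫⁻ _z in A \ ball p R, ENNReal.ofReal (1 / R) := by
              apply setLIntegral_mono measurable_const
              intro z hz
              apply ENNReal.ofReal_le_ofReal
              apply one_div_le_one_div_of_le hR0
              have := hz.2
              rw [mem_ball, dist_eq_norm, not_lt] at this
              exact this
          _ = ENNReal.ofReal (1 / R) * volume (A \ ball p R) := by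
              rw [lintegral_const, Measure.restrict_apply_univ]
          _ ≤ ENNReal.ofReal (1 / R) * volume A := by
              gcongr
              exact sdiff_subset
    refine hsplit.trans ?_
    rw [ball_pot hR0 p, ← hK, hvol, hRn, ← ENNReal.ofReal_toReal hKt,
      ← ENNReal.ofReal_mul (by positivity), ← ENNReal.ofReal_mul (by positivity),
      ← ENNReal.ofReal_add (by positivity) (by positivity)]
    apply ENNReal.ofReal_le_ofReal
    rw [ENNReal.toReal_ofReal ENNReal.toReal_nonneg, ← hmR]
    apply le_of_eq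
    ring

end Pool.Agent.Helper930.Ln
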