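import Mathlib

set_option autoImplicit false

open Set Filter Topology MeasureTheory Metric
open scoped ENNReal ContDiff

namespace Pool.Agent.Helper930.Ln

/-- Euclidean space of dimension `n` -/
abbrev Eu (n : ℕ) := EuclideanSpace ℝ (Fin n)

/-- moduli of continuity: continuous nondecreasing functions on `[0, ∞)`, vanishing at zero and
positive on `(0, ∞)` (the values at negative numbers play no role) -/
structure IsModulus (w : ℝ → ℝ) : Prop where
  cont : ContinuousOn w (Ici 0)
  mono : MonotoneOn w (Ici 0)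
  zero : w 0 = 0
  pos : ∀ t, 0 < t → 0 < w t

/-- the map `f` has modulus `w` on `Ω`: on every compact subset of `Ω` the modulus of continuity
of `f` is at most a constant multiple of `w` -/
def HasModulus {n : ℕ} (w : ℝ → ℝ) (Ω : Set (Eu n)) (f : Eu n → Eu n) : Prop :=
  ∀ K ⊆ Ω, IsCompact K → ∃ C : ℝ, ∀ x ∈ K, ∀ y ∈ K, ‖f x - f y‖ ≤ C * w ‖x - y‖

/-- `f ∈ W^{1,p}(Ω)`: the map is in `L^p(Ω)` and has a weak derivative `Df` in `L^p(Ω)`, where
weak derivative means that integration by parts holds against all smooth test functions with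
compact support in `Ω` -/
def InSobolev {E F : Type} [NormedAddCommGroup E] [NormedSpace ℝ E] [MeasureSpace E]
    [NormedAddCommGroup F] [NormedSpace ℝ F] (p : ℝ≥0∞) (Ω : Set E) (f : E → F) : Prop :=
  MemLp f p (volume.restrict Ω) ∧ ∃ Df : E → E →L[ℝ] F, MemLp Df p (volume.restrict Ω) ∧
    ∀ φ : E → ℝ, ContDiff ℝ ∞ φ → HasCompactSupport φ → tsupport φ ⊆ Ω → ∀ v : E,
      ∫ x, (fderiv ℝ φ x v) • f x = - ∫ x, φ x • Df x v

/-- Lusin condition (N): null subsets of `Ω` have null images -/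
def LusinN {n : ℕ} (Ω : Set (Eu n)) (f : Eu n → Eu n) : Prop :=
  ∀ A ⊆ Ω, volume A = 0 → volume (f '' A) = 0

/-- property (P): for every open `Ω`, all continuous `W^{1,n}` maps on `Ω` with modulus `w`
satisfy condition (N) -/
def PropertyP (n : ℕ) (w : ℝ → ℝ) : Prop :=
  ∀ Ω : Set (Eu n), IsOpen Ω → ∀ f : Eu n → Eu n, ContinuousOn f Ω → InSobolev n Ω f →
    HasModulus w Ω f → LusinN Ω f

/-- `eta w t` is the supremum over `0 < s ≤ t` of the positive part of
`log (1/w(s)) / log (1/s)` -/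
noncomputable def eta (w : ℝ → ℝ) (t : ℝ) : ℝ≥0∞ :=
  ⨆ s ∈ Ioc (0:ℝ) t, ENNReal.ofReal (Real.log (1 / w s) / Real.log (1 / s))

end Pool.Agent.Helper930.Ln
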