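import Mathlib
import Pool.Agent.Helper930.LnDefs

set_option autoImplicit false

open Set Filter Topology MeasureTheory Metric
open scoped ENNReal

namespace Pool.Agent.Helper930.Ln

variable {n : ℕ}

/-- index of the dyadic cube of generation `j` containing `x` -/
noncomputable def idx (j : ℕ) (x : Eu n) : Fin n → ℤ := fun i => ⌊2^j * x i⌋

/-- the dyadic cube of generation `j` with index `k` -/
def Qk (j : ℕ) (k : Fin n → ℤ) : Set (Eu n) := {y | idx j y = k}

lemma mem_Qk {j : ℕ} {k : Fin n → ℤ} {y : Eu n} : y ∈ Qk j k ↔ idx j y = k := Iff.rfl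

lemma mem_Qk_self (j : ℕ) (x : Eu n) : x ∈ Qk j (idx j x) := rfl

lemma mem_Qk_iff {j : ℕ} {k : Fin n → ℤ} {y : Eu n} :
    y ∈ Qk j k ↔ ∀ i, (k i : ℝ) / 2^j ≤ y i ∧ y i < ((k i : ℝ) + 1) / 2^j := by
  rw [mem_Qk, funext_iff]
  refine forall_congr' (fun i => ?_)
  change ⌊2^j * y i⌋ = k i ↔ _
  rw [Int.floor_eq_iff, div_le_iff₀ (by positivity), lt_div_iff₀ (by positivity)]
  rw [mul_comm (y i)]

/-- parent index -/
def par (k : Fin n → ℤ) : Fin n → ℤ := fun i => k i / 2

lemma idx_succ (j : ℕ) (x : Eu n) : idx j x = par (idx (j+1) x) := by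
  funext i
  change ⌊2^j * x i⌋ = ⌊2^(j+1) * x i⌋ / 2
  have h := Int.floor_div_natCast (2^(j+1) * x i) 2
  have h2 : (2^(j+1) * x i) / ((2:ℕ):ℝ) = 2^j * x i := by
    rw [pow_succ]; push_cast; ring
  rw [h2] at h
  exact_mod_cast h

lemma idx_eq_of_le {j l : ℕ} (h : j ≤ l) {x y : Eu n} (hxy : idx l x = idx l y) :
    idx j x = idx j y := by
  induction l, h using Nat.le_induction with
  | base => exact hxy
  | succ l _ ih => exact ih (by rw [idx_succ l x, idx_succ l y, hxy])

lemma Qk_anti {j l : ℕ} (h : j ≤ l) (x : Eu n) : Qk l (idx l x) ⊆ Qk j (idx j x) :=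
  fun _ hy => idx_eq_of_le h hy

lemma measurable_idx (j : ℕ) : Measurable (idx j : Eu n → Fin n → ℤ) := by
  refine measurable_pi_lambda _ (fun i => ?_)
  apply Int.measurable_floor.comp
  exact measurable_const.mul (EuclideanSpace.proj (𝕜 := ℝ) i).continuous.measurable

lemma measurableSet_Qk (j : ℕ) (k : Fin n → ℤ) : MeasurableSet (Qk j k) :=
  measurable_idx j (measurableSet_singleton k)

lemma volume_Qk (j : ℕ) (k : Fin n → ℤ) : volume (Qk j k) = ENNReal.ofReal ((1/2)^j) ^ n := by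
  have h : Qk j k = (@WithLp.ofLp 2 (Fin n → ℝ)) ⁻¹'
      (pi univ fun i => Ico ((k i : ℝ) / 2^j) (((k i : ℝ) + 1) / 2^j)) := by
    ext y
    rw [mem_Qk_iff]
    simp [Set.mem_pi]
  rw [h, (PiLp.volume_preserving_ofLp (Fin n)).measure_preimage
    (MeasurableSet.univ_pi fun i => measurableSet_Ico).nullMeasurableSet, Real.volume_pi_Ico]
  have h2 : ∀ i : Fin n, ((k i : ℝ) + 1) / 2^j - (k i : ℝ) / 2^j = (1/2)^j := by
    intro i
    rw [← sub_div, add_sub_cancel_left, one_div, one_div, inv_pow]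
  simp [h2]

lemma dist_le_of_mem {j : ℕ} {k : Fin n → ℤ} {x y : Eu n} (hx : x ∈ Qk j k) (hy : y ∈ Qk j k) :
    ‖y - x‖ ≤ Real.sqrt n * (1/2)^j := by
  rw [mem_Qk_iff] at hx hy
  rw [EuclideanSpace.norm_eq]
  have h1 : ∀ i, ‖(y - x) i‖ ^ 2 ≤ ((1/2)^j)^2 := by
    intro i
    apply pow_le_pow_left₀ (norm_nonneg _)
    have h2 : ((k i : ℝ) + 1) / 2^j - (k i : ℝ) / 2^j = (1/2)^j := by
      rw [← sub_div, add_sub_cancel_left, one_div, one_div, inv_pow]
    have h3 := hx i
    have h4 := hy i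
    have h5 : (y - x) i = y i - x i := rfl
    rw [h5, Real.norm_eq_abs, abs_le]
    constructor <;> linarith
  calc Real.sqrt (∑ i, ‖(y - x) i‖ ^ 2) ≤ Real.sqrt (∑ _i : Fin n, ((1/2)^j)^2) :=
        Real.sqrt_le_sqrt (Finset.sum_le_sum (fun i _ => h1 i))
    _ = Real.sqrt (n * ((1/2)^j)^2) := by simp
    _ = _ := by rw [Real.sqrt_mul (by positivity), Real.sqrt_sq (by positivity)]

lemma dist_le_of_mem_closure {j : ℕ} {k : Fin n → ℤ} {x y : Eu n} (hx : x ∈ closure (Qk j k))
    (hy : y ∈ closure (Qk j k)) : ‖y - x‖ ≤ Real.sqrt n * (1/2)^j := by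
  have h1 : ∀ x ∈ Qk j k, ∀ y ∈ closure (Qk j k), ‖y - x‖ ≤ Real.sqrt n * (1/2)^j := by
    intro x hx y hy
    have : closure (Qk j k) ⊆ closedBall x (Real.sqrt n * (1/2)^j) := by
      apply closure_minimal _ isClosed_closedBall
      intro w hw
      rw [mem_closedBall, dist_eq_norm]
      exact dist_le_of_mem hx hw
    have := this hy
    rwa [mem_closedBall, dist_eq_norm] at this
  have : closure (Qk j k) ⊆ closedBall y (Real.sqrt n * (1/2)^j) := by
    apply closure_minimal _ isClosed_closedBall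
    intro w hw
    rw [mem_closedBall, dist_comm, dist_eq_norm]
    exact h1 w hw y hy
  have := this hx
  rwa [mem_closedBall, dist_comm, dist_eq_norm] at this

lemma convex_Qk (j : ℕ) (k : Fin n → ℤ) : Convex ℝ (Qk j k) := by
  intro x hx y hy a b ha hb hab
  rw [mem_Qk_iff] at hx hy ⊢
  intro i
  have h1 := hx i
  have h2 := hy i
  have e : (a • x + b • y) i = a * x i + b * y i := rfl
  rw [e]
  constructor
  · calc (k i : ℝ) / 2^j = a * ((k i : ℝ) / 2^j) + b * ((k i : ℝ) / 2^j) := by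
          rw [← add_mul, hab, one_mul]
      _ ≤ _ := by gcongr; exacts [h1.1, h2.1]
  · have e2 : ((k i : ℝ) + 1) / 2^j = a * (((k i : ℝ) + 1) / 2^j) + b * (((k i : ℝ) + 1) / 2^j) := by
      rw [← add_mul, hab, one_mul]
    rw [e2]
    rcases ha.eq_or_lt with h | h
    · have hb1 : b = 1 := by rw [← h] at hab; linarith
      rw [← h, hb1]; simp only [zero_mul, one_mul, zero_add]; exact h2.2
    · have h3 : a * x i < a * (((k i : ℝ) + 1) / 2^j) := by
        apply mul_lt_mul_of_pos_left h1.2 h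
      have h4 : b * y i ≤ b * (((k i : ℝ) + 1) / 2^j) := by
        apply mul_le_mul_of_nonneg_left h2.2.le hb
      linarith

lemma closure_Qk_ae (j : ℕ) (k : Fin n → ℤ) : (closure (Qk j k) : Set (Eu n)) =ᵐ[volume] Qk j k := by
  have h := (convex_Qk j k).addHaar_frontier (μ := (volume : Measure (Eu n)))
  rw [← measure_symmDiff_eq_zero_iff]
  refine measure_mono_null ?_ h
  rw [symmDiff_eq_sup_sdiff_inf]
  intro y hy
  have h1 : y ∈ closure (Qk j k) ∪ Qk j k := hy.1
  have h2 : ¬ y ∈ closure (Qk j k) ∩ Qk j k := hy.2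
  have h3 : y ∈ closure (Qk j k) := by
    rcases h1 with h1 | h1
    · exact h1
    · exact subset_closure h1
  refine ⟨h3, fun h4 => h2 ⟨h3, interior_subset h4⟩⟩

lemma isCompact_closure_Qk (j : ℕ) (x : Eu n) : IsCompact (closure (Qk j (idx j x))) := by
  have : closure (Qk j (idx j x)) ⊆ closedBall x (Real.sqrt n * (1/2)^j) := by
    intro w hw
    rw [mem_closedBall, dist_eq_norm]
    exact dist_le_of_mem_closure (subset_closure (mem_Qk_self j x)) hw
  exact (isCompact_closedBall x _).of_isClosed_subset isClosed_closure this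

/-- the centre of the homothety mapping a dyadic cube to a child -/
noncomputable def ctr (j : ℕ) (x : Eu n) : Eu n :=
  WithLp.toLp 2 (fun i => ((idx (j+1) x i : ℝ) - idx j x i) / 2^j)

lemma ctr_map (j : ℕ) (x y : Eu n) :
    (1/2:ℝ) • (y + ctr j x) ∈ Qk (j+1) (idx (j+1) x) ↔ y ∈ Qk j (idx j x) := by
  rw [mem_Qk_iff, mem_Qk_iff]
  refine forall_congr' (fun i => ?_)
  have e : ((1/2:ℝ) • (y + ctr j x)) i =
      (1/2) * (y i + ((idx (j+1) x i : ℝ) - idx j x i) / 2^j) := rfl
  have e2 : ((1/2:ℝ) • (y + ctr j x)) i =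
      (y i * 2^j + (idx (j+1) x i : ℝ) - idx j x i) / 2^(j+1) := by
    rw [e, pow_succ]; field_simp; ring
  rw [e2, div_le_div_iff_of_pos_right (by positivity), div_lt_div_iff_of_pos_right (by positivity),
    div_le_iff₀ (by positivity), lt_div_iff₀ (by positivity)]
  constructor
  · rintro ⟨h1, h2⟩; constructor <;> linarith
  · rintro ⟨h1, h2⟩; constructor <;> linarith

lemma ctr_mem (j : ℕ) (x : Eu n) : ctr j x ∈ closure (Qk j (idx j x)) := by
  have h : ∀ m : ℕ, ctr j x + (1/2:ℝ)^m • (x - ctr j x) ∈ Qk j (idx j x) := by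
    intro m
    induction m with
    | zero => simpa using mem_Qk_self j x
    | succ m ih =>
      have h1 := Qk_anti (Nat.le_succ j) x ((ctr_map j x _).mpr ih)
      have h2 : (1/2:ℝ) • (ctr j x + (1/2:ℝ)^m • (x - ctr j x) + ctr j x) =
          ctr j x + (1/2:ℝ)^(m+1) • (x - ctr j x) := by
        rw [pow_succ, mul_comm _ (1/2:ℝ), mul_smul]
        module
      rwa [h2] at h1
  have h2 : Tendsto (fun m : ℕ => ctr j x + (1/2:ℝ)^m • (x - ctr j x)) atTop (𝓝 (ctr j x)) := by
    have h3 := (tendsto_pow_atTop_nhds_zero_of_lt_one (r := (1/2:ℝ)) (by norm_num)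
      (by norm_num)).smul_const (x - ctr j x)
    have h4 := h3.const_add (ctr j x)
    rwa [zero_smul, add_zero] at h4
  exact mem_closure_of_tendsto h2 (Eventually.of_forall h)

/-- change of variables to the child cube -/
lemma integral_child {F : Type*} [NormedAddCommGroup F] [NormedSpace ℝ F] (f : Eu n → F) (j : ℕ)
    (x : Eu n) :
    ∫ y in Qk j (idx j x), f ((1/2:ℝ) • (y + ctr j x)) =
      (2:ℝ)^n • ∫ y in Qk (j+1) (idx (j+1) x), f y := by
  rw [← integral_indicator (measurableSet_Qk _ _), ← integral_indicator (measurableSet_Qk _ _)]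
  have h1 : (fun y => (Qk j (idx j x)).indicator (fun y => f ((1/2:ℝ) • (y + ctr j x))) y) =
      fun y => (fun w => (Qk (j+1) (idx (j+1) x)).indicator f ((1/2:ℝ) • w)) (y + ctr j x) := by
    funext y
    by_cases hy : y ∈ Qk j (idx j x)
    · rw [indicator_of_mem hy]
      simp only
      rw [indicator_of_mem ((ctr_map j x y).mpr hy)]
    · rw [indicator_of_notMem hy]
      simp only
      rw [indicator_of_notMem (fun h => hy ((ctr_map j x y).mp h))]
  have h2 : ∫ y, (Qk j (idx j x)).indicator (fun y => f ((1/2:ℝ) • (y + ctr j x))) y =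
      ∫ y, (fun w => (Qk (j+1) (idx (j+1) x)).indicator f ((1/2:ℝ) • w)) (y + ctr j x) := by
    rw [h1]
  rw [h2, integral_add_right_eq_self (fun w => (Qk (j+1) (idx (j+1) x)).indicator f ((1/2:ℝ) • w)),
    Measure.integral_comp_smul]
  congr 1
  rw [finrank_euclideanSpace_fin]
  rw [one_div, inv_pow, inv_inv, abs_of_pos (by positivity)]

end Pool.Agent.Helper930.Ln
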