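import Mathlib

set_option autoImplicit false

open Set Filter Topology Metric

namespace Pool.Agent.Helper930.Ln

/-- last stopping index not exceeding the given index -/
noncomputable def stp (G : ℕ → ℝ) : ℕ → ℕ
  | 0 => 0
  | i+1 => if 2 * (3/2)^(i+1 - stp G i) * G (stp G i) < G (i+1) then i+1 else stp G i

lemma stp_le (G : ℕ → ℝ) (i : ℕ) : stp G i ≤ i := by
  induction i with
  | zero => simp [stp]
  | succ i ih =>
    rw [stp]
    split_ifs
    · exact le_rfl
    · omega

lemma stp_stp (G : ℕ → ℝ) (i : ℕ) : stp G (stp G i) = stp G i := by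
  induction i with
  | zero => simp [stp]
  | succ i ih =>
    by_cases h : 2 * (3/2)^(i+1 - stp G i) * G (stp G i) < G (i+1)
    · have h1 : stp G (i+1) = i+1 := by rw [stp, if_pos h]
      rw [h1, h1]
    · have h1 : stp G (i+1) = stp G i := by rw [stp, if_neg h]
      rw [h1, ih]

lemma stp_bound {G : ℕ → ℝ} (hG : ∀ i, 0 ≤ G i) (i : ℕ) :
    ∀ l, stp G i ≤ l → l ≤ i → G l ≤ 2 * (3/2)^(l - stp G i) * G (stp G i) := by
  induction i with
  | zero =>
    intro l _ h2
    have : l = 0 := by omega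
    subst this
    simp only [stp]
    have := hG 0
    norm_num; linarith
  | succ i ih =>
    intro l h1 h2
    by_cases h : 2 * (3/2)^(i+1 - stp G i) * G (stp G i) < G (i+1)
    · have h3 : stp G (i+1) = i+1 := by rw [stp, if_pos h]
      rw [h3] at h1 ⊢
      have : l = i+1 := by omega
      subst this
      have := hG (i+1)
      simp; linarith
    · have h3 : stp G (i+1) = stp G i := by rw [stp, if_neg h]
      rw [h3] at h1 ⊢
      rcases Nat.lt_or_ge i l with h4 | h4
      · have : l = i+1 := by omega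
        subst this
        exact not_lt.mp h
      · exact ih l h1 h4

/-- the sum of powers over stopping indices is controlled by the last one -/
lemma stp_sum {G : ℕ → ℝ} (hG : ∀ i, 0 ≤ G i) {q : ℕ} (hq : 1 ≤ q) {M : ℝ} (hM : 0 ≤ M) (i : ℕ) :
    ∑ s ∈ (Finset.range (i+1)).filter (fun s => stp G s = s ∧ G s < M), G s ^ q ≤
      2 * (min (G (stp G i)) M) ^ q := by
  induction i with
  | zero =>
    rw [Finset.sum_filter]
    simp only [zero_add, Finset.range_one, Finset.sum_singleton, stp, true_and]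
    have h0 : 0 ≤ min (G 0) M := le_min (hG 0) hM
    split_ifs with h
    · rw [min_eq_left h.le]
      have : 0 ≤ G 0 ^ q := pow_nonneg (hG 0) q
      linarith
    · positivity
  | succ i ih =>
    rw [Finset.range_add_one, Finset.filter_insert]
    by_cases h : 2 * (3/2)^(i+1 - stp G i) * G (stp G i) < G (i+1)
    · have h3 : stp G (i+1) = i+1 := by rw [stp, if_pos h]
      have h4 : 2 * G (stp G i) ≤ G (i+1) := by
        refine le_trans ?_ h.le
        have h5 : (1:ℝ) ≤ (3/2)^(i+1 - stp G i) := one_le_pow₀ (by norm_num)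
        nlinarith [hG (stp G i)]
      rw [h3]
      by_cases h6 : G (i+1) < M
      · rw [if_pos ⟨rfl, h6⟩, Finset.sum_insert (by simp), min_eq_left h6.le]
        have h7 : 2 * (min (G (stp G i)) M) ^ q ≤ G (i+1) ^ q := by
          have h8 : min (G (stp G i)) M ≤ G (i+1) / 2 := by
            refine (min_le_left _ _).trans ?_
            linarith
          have h9 : 0 ≤ min (G (stp G i)) M := le_min (hG _) hM
          calc 2 * (min (G (stp G i)) M) ^ q ≤ 2 * (G (i+1) / 2)^q := by gcongr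
            _ = 2 * (1/2)^q * G (i+1)^q := by rw [div_eq_mul_inv, mul_pow, one_div]; ring
            _ ≤ 1 * G (i+1)^q := by
                apply mul_le_mul_of_nonneg_right _ (pow_nonneg (hG _) q)
                have : (1/2:ℝ)^q ≤ (1/2)^1 := pow_le_pow_of_le_one (by norm_num) (by norm_num) hq
                linarith
            _ = _ := one_mul _
        linarith
      · rw [if_neg (by tauto)]
        refine ih.trans ?_
        have h9 : 0 ≤ min (G (stp G i)) M := le_min (hG _) hM
        have h10 : min (G (stp G i)) M ≤ min (G (i+1)) M :=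
          (min_le_right _ _).trans (le_min (not_lt.mp h6) le_rfl)
        have h11 := pow_le_pow_left₀ h9 h10 q
        linarith
    · have h3 : stp G (i+1) = stp G i := by rw [stp, if_neg h]
      rw [h3]
      have h4 : stp G i ≠ i + 1 := by have := stp_le G i; omega
      rw [if_neg (by tauto)]
      exact ih

variable {V : Type*} [SeminormedAddCommGroup V]

/-- distance to the value at the last stop -/
lemma stp_dist {G : ℕ → ℝ} (hG : ∀ i, 0 ≤ G i) {F : ℕ → V} {κ : ℝ} (hκ : 0 ≤ κ)
    (hF : ∀ i, ‖F (i+1) - F i‖ ≤ κ * ((1/2)^i * G i)) (i : ℕ) :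
    ∀ l, stp G i ≤ l → l ≤ i + 1 → ‖F l - F (stp G i)‖ ≤
      8 * κ * ((1/2)^(stp G i) * G (stp G i)) * (1 - (3/4)^(l - stp G i)) := by
  intro l hl
  induction l, hl using Nat.le_induction with
  | base => intro _; simp
  | succ l hl ih =>
    intro h2
    set s := stp G i with hs
    have h3 := ih (by omega)
    have h4 := hF l
    have h5 := stp_bound hG i l hl (by omega)
    rw [← hs] at h5
    have h6 : ‖F (l+1) - F s‖ ≤ ‖F (l+1) - F l‖ + ‖F l - F s‖ := by
      have := norm_add_le (F (l+1) - F l) (F l - F s)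
      rwa [sub_add_sub_cancel] at this
    obtain ⟨m, rfl⟩ : ∃ m, l = s + m := ⟨l - s, by omega⟩
    have e1 : s + m - s = m := by omega
    have e2 : s + m + 1 - s = m + 1 := by omega
    rw [e1] at h3 h5
    rw [e2]
    have h7 : (1/2:ℝ)^(s+m) * G (s+m) ≤ 2 * ((1/2)^s * G s) * (3/4)^m := by
      calc (1/2:ℝ)^(s+m) * G (s+m) ≤ (1/2:ℝ)^(s+m) * (2 * (3/2)^m * G s) := by gcongr
        _ = 2 * ((1/2)^s * G s) * ((1/2)^m * (3/2)^m) := by rw [pow_add]; ring
        _ = _ := by rw [← mul_pow]; norm_num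
    calc ‖F (s+m+1) - F s‖ ≤ κ * ((1/2)^(s+m) * G (s+m)) + 8 * κ * ((1/2)^s * G s) * (1 - (3/4)^m) :=
          by linarith
      _ ≤ κ * (2 * ((1/2)^s * G s) * (3/4)^m) + 8 * κ * ((1/2)^s * G s) * (1 - (3/4)^m) := by
          gcongr
      _ = _ := by rw [pow_succ]; ring

lemma stp_dist' {G : ℕ → ℝ} (hG : ∀ i, 0 ≤ G i) {F : ℕ → V} {κ : ℝ} (hκ : 0 ≤ κ)
    (hF : ∀ i, ‖F (i+1) - F i‖ ≤ κ * ((1/2)^i * G i)) (i : ℕ) :
    ∀ l, stp G i ≤ l → l ≤ i + 1 → ‖F l - F (stp G i)‖ ≤
      8 * κ * ((1/2)^(stp G i) * G (stp G i)) := by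
  intro l h1 h2
  refine (stp_dist hG hκ hF i l h1 h2).trans ?_
  have h3 : 0 ≤ 8 * κ * ((1/2)^(stp G i) * G (stp G i)) := by
    have := hG (stp G i)
    positivity
  have h4 : (0:ℝ) ≤ (3/4)^(l - stp G i) := by positivity
  nlinarith

lemma neg_log_one_sub {u : ℝ} (h0 : 0 ≤ u) (h1 : u ≤ 1/2) : -Real.log (1 - u) ≤ 2 * u := by
  have h2 : 0 < 1 - u := by linarith
  rw [← Real.log_inv]
  refine (Real.log_le_sub_one_of_pos (inv_pos.mpr h2)).trans ?_
  rw [sub_le_iff_le_add, inv_le_iff_one_le_mul₀ h2]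
  nlinarith

/-- one step of the logarithmic estimate -/
lemma log_step {z p q : V} {a : ℝ} (ha : 0 ≤ a) (hz : 4 * a < ‖z - p‖) (hpq : ‖q - p‖ ≤ a) :
    -Real.log ‖z - q‖ ≤ -Real.log ‖z - p‖ + 2 * a / ‖z - p‖ := by
  have hD : 0 < ‖z - p‖ := by linarith
  have h1 : ‖z - p‖ * (1 - a / ‖z - p‖) ≤ ‖z - q‖ := by
    have h2 : ‖z - p‖ ≤ ‖z - q‖ + ‖q - p‖ := by
      have := norm_add_le (z - q) (q - p)
      rwa [sub_add_sub_cancel] at this
    rw [mul_sub, mul_one, mul_div_cancel₀ _ hD.ne']
    linarith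
  have hu : a / ‖z - p‖ ≤ 1/4 := by
    rw [div_le_iff₀ hD]; linarith
  have hu0 : 0 ≤ a / ‖z - p‖ := by positivity
  have h3 : 0 < 1 - a / ‖z - p‖ := by linarith
  have h4 := Real.log_le_log (mul_pos hD h3) h1
  rw [Real.log_mul hD.ne' h3.ne'] at h4
  have h5 := neg_log_one_sub hu0 (by linarith)
  have h6 : 2 * a / ‖z - p‖ = 2 * (a / ‖z - p‖) := by ring
  rw [h6]
  linarith

/-- the main logarithmic estimate along a chain of cubes -/
lemma log_chain {G : ℕ → ℝ} (hG : ∀ i, 0 ≤ G i) {F : ℕ → V} {κ : ℝ} (hκ : 0 ≤ κ)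
    (hF : ∀ i, ‖F (i+1) - F i‖ ≤ κ * ((1/2)^i * G i)) {z : V} {N : ℕ}
    (hz : ∀ s ≤ N, stp G s = s → 4 * (8 * κ * ((1/2)^s * G s)) < ‖z - F s‖) :
    ∀ i ≤ N, -Real.log ‖z - F i‖ ≤ -Real.log ‖z - F 0‖ +
      ∑ s ∈ (Finset.range (i+1)).filter (fun s => stp G s = s),
        2 * (8 * κ * ((1/2)^s * G s)) / ‖z - F s‖ := by
  set T : ℕ → ℝ := fun s => 2 * (8 * κ * ((1/2)^s * G s)) / ‖z - F s‖ with hT
  have hT0 : ∀ s, 0 ≤ T s := by
    intro s
    have := hG s
    simp only [hT]
    positivity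
  have hmono : ∀ {a b : ℕ}, a ≤ b → ∑ s ∈ (Finset.range a).filter (fun s => stp G s = s), T s ≤
      ∑ s ∈ (Finset.range b).filter (fun s => stp G s = s), T s := by
    intro a b hab
    apply Finset.sum_le_sum_of_subset_of_nonneg
    · apply Finset.filter_subset_filter
      exact Finset.range_mono hab
    · intro s _ _; exact hT0 s
  have key : ∀ i ≤ N, -Real.log ‖z - F (stp G i)‖ ≤ -Real.log ‖z - F 0‖ +
      ∑ s ∈ (Finset.range (stp G i)).filter (fun s => stp G s = s), T s := by
    intro i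
    induction i with
    | zero => intro _; simp [stp]
    | succ i ih =>
      intro hi
      by_cases h : 2 * (3/2)^(i+1 - stp G i) * G (stp G i) < G (i+1)
      · have h3 : stp G (i+1) = i+1 := by rw [stp, if_pos h]
        rw [h3]
        have h4 := ih (by omega)
        have hle := stp_le G i
        have h5 := stp_dist' hG hκ hF i (i+1) (by omega) le_rfl
        have hg := hG (stp G i)
        have h6 := log_step (z := z) (p := F (stp G i)) (q := F (i+1))
          (a := 8 * κ * ((1/2)^(stp G i) * G (stp G i))) (by positivity)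
          (hz (stp G i) (by omega) (stp_stp G i)) h5
        have h7 := hmono (a := stp G i + 1) (b := i + 1) (by omega)
        have h8 : ∑ s ∈ (Finset.range (stp G i + 1)).filter (fun s => stp G s = s), T s =
            ∑ s ∈ (Finset.range (stp G i)).filter (fun s => stp G s = s), T s + T (stp G i) := by
          rw [Finset.range_add_one, Finset.filter_insert, if_pos (stp_stp G i),
            Finset.sum_insert (by simp), add_comm]
        have h9 : T (stp G i) = 2 * (8 * κ * ((1/2)^(stp G i) * G (stp G i))) /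
          ‖z - F (stp G i)‖ := rfl
        linarith
      · have h3 : stp G (i+1) = stp G i := by rw [stp, if_neg h]
        rw [h3]
        exact ih (by omega)
  intro i hi
  have h4 := key i hi
  have hle := stp_le G i
  have h5 := stp_dist' hG hκ hF i i (by omega) (by omega)
  have hg := hG (stp G i)
  have h6 := log_step (z := z) (p := F (stp G i)) (q := F i)
    (a := 8 * κ * ((1/2)^(stp G i) * G (stp G i))) (by positivity)
    (hz (stp G i) (by omega) (stp_stp G i)) h5
  have h7 := hmono (a := stp G i + 1) (b := i + 1) (by omega)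
  have h8 : ∑ s ∈ (Finset.range (stp G i + 1)).filter (fun s => stp G s = s), T s =
      ∑ s ∈ (Finset.range (stp G i)).filter (fun s => stp G s = s), T s + T (stp G i) := by
    rw [Finset.range_add_one, Finset.filter_insert, if_pos (stp_stp G i),
      Finset.sum_insert (by simp), add_comm]
  have h9 : T (stp G i) = 2 * (8 * κ * ((1/2)^(stp G i) * G (stp G i))) /
    ‖z - F (stp G i)‖ := rfl
  linarith

/-- the last stop is at positive distance as well -/
lemma dist_pos_of_chain {G : ℕ → ℝ} (hG : ∀ i, 0 ≤ G i) {F : ℕ → V} {κ : ℝ} (hκ : 0 ≤ κ)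
    (hF : ∀ i, ‖F (i+1) - F i‖ ≤ κ * ((1/2)^i * G i)) {z : V} {N : ℕ}
    (hz : ∀ s ≤ N, stp G s = s → 4 * (8 * κ * ((1/2)^s * G s)) < ‖z - F s‖) :
    0 < ‖z - F N‖ := by
  have hle := stp_le G N
  have h5 := stp_dist' hG hκ hF N N (by omega) (by omega)
  have h6 := hz (stp G N) hle (stp_stp G N)
  have hg := hG (stp G N)
  have h0 : 0 ≤ 8 * κ * ((1/2)^(stp G N) * G (stp G N)) := by positivity
  have h2 : ‖z - F (stp G N)‖ ≤ ‖z - F N‖ + ‖F N - F (stp G N)‖ := by
    have := norm_add_le (z - F N) (F N - F (stp G N))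
    rwa [sub_add_sub_cancel] at this
  linarith

end Pool.Agent.Helper930.Ln
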