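import Mathlib
import Pool.Agent.Helper930.LnCube
import Pool.Agent.Helper930.LnStop

set_option autoImplicit false

open Set Filter Topology MeasureTheory Metric
open scoped ENNReal

namespace Pool.Agent.Helper930.Ln

variable {n : ℕ}

/-- average over the dyadic cube with given index -/
noncomputable def avg {F : Type*} [NormedAddCommGroup F] [NormedSpace ℝ F] (f : Eu n → F) (j : ℕ)
    (k : Fin n → ℤ) : F := ((2:ℝ)^j)^n • ∫ y in Qk j k, f y

lemma volReal_Qk (j : ℕ) (k : Fin n → ℤ) : (volume : Measure (Eu n)).real (Qk j k) = ((1/2)^j)^n := by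
  rw [Measure.real, volume_Qk, ENNReal.toReal_pow, ENNReal.toReal_ofReal (by positivity)]

lemma volume_Qk_ne_top (j : ℕ) (k : Fin n → ℤ) : volume (Qk j k : Set (Eu n)) ≠ ⊤ := by
  rw [volume_Qk]
  exact ENNReal.pow_ne_top ENNReal.ofReal_ne_top

lemma two_pow_mul (j n : ℕ) : ((2:ℝ)^j)^n * ((1/2)^j)^n = 1 := by
  rw [← mul_pow, ← mul_pow]; norm_num

lemma avg_dist {F : Type*} [NormedAddCommGroup F] [NormedSpace ℝ F] [CompleteSpace F]
    {f : Eu n → F} {j : ℕ}
    {k : Fin n → ℤ} (hf : IntegrableOn f (Qk j k)) {w : F} {M : ℝ}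
    (hM : ∀ y ∈ Qk j k, ‖f y - w‖ ≤ M) : ‖w - avg f j k‖ ≤ M := by
  have h0 : ∫ _y in Qk j k, w = ((1/2:ℝ)^j)^n • w := by
    rw [setIntegral_const, volReal_Qk]
  have h1 : avg f j k - w = ((2:ℝ)^j)^n • ∫ y in Qk j k, (f y - w) := by
    rw [integral_sub hf (integrableOn_const (volume_Qk_ne_top j k)), h0, smul_sub, smul_smul,
      two_pow_mul, one_smul]
    rfl
  rw [norm_sub_rev, h1, norm_smul, Real.norm_of_nonneg (by positivity)]
  have h2 : ‖∫ y in Qk j k, (f y - w)‖ ≤ M * ((1/2)^j)^n := by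
    have := norm_setIntegral_le_of_norm_le_const (μ := (volume : Measure (Eu n)))
      (lt_top_iff_ne_top.mpr (volume_Qk_ne_top j k)) hM
    rwa [volReal_Qk] at this
  calc ((2:ℝ)^j)^n * ‖∫ y in Qk j k, (f y - w)‖ ≤ ((2:ℝ)^j)^n * (M * ((1/2)^j)^n) := by gcongr
    _ = M * (((2:ℝ)^j)^n * ((1/2)^j)^n) := by ring
    _ = M := by rw [two_pow_mul, mul_one]

lemma avg_nonneg {h : Eu n → ℝ} (hh : ∀ y, 0 ≤ h y) (j : ℕ) (k : Fin n → ℤ) : 0 ≤ avg h j k := by
  unfold avg
  rw [smul_eq_mul]
  have : 0 ≤ ∫ y in Qk j k, h y := integral_nonneg hh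
  positivity

/-- comparison of the averages over a cube and its child -/
lemma avg_step {F : Type*} [NormedAddCommGroup F] [NormedSpace ℝ F] {f : Eu n → F}
    {h : Eu n → ℝ} {j : ℕ} {x : Eu n}
    (hP : ‖(∫ y in closure (Qk j (idx j x)), f ((1/2:ℝ) • (y + ctr j x))) -
      ∫ y in closure (Qk j (idx j x)), f y‖ ≤
      2^n * (Real.sqrt n * (1/2)^j) * ∫ y in closure (Qk j (idx j x)), h y) :
    ‖avg f (j+1) (idx (j+1) x) - avg f j (idx j x)‖ ≤
      2^n * Real.sqrt n * ((1/2)^j * avg h j (idx j x)) := by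
  rw [setIntegral_congr_set (closure_Qk_ae j (idx j x)),
    setIntegral_congr_set (closure_Qk_ae j (idx j x)),
    setIntegral_congr_set (closure_Qk_ae j (idx j x)), integral_child] at hP
  have h1 : avg f (j+1) (idx (j+1) x) - avg f j (idx j x) = ((2:ℝ)^j)^n •
      ((2:ℝ)^n • (∫ y in Qk (j+1) (idx (j+1) x), f y) - ∫ y in Qk j (idx j x), f y) := by
    unfold avg
    rw [smul_sub, smul_smul, pow_succ, mul_pow]
  rw [h1, norm_smul, Real.norm_of_nonneg (by positivity)]
  unfold avg
  rw [smul_eq_mul]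
  calc _ ≤ ((2:ℝ)^j)^n * (2^n * (Real.sqrt n * (1/2)^j) * ∫ y in Qk j (idx j x), h y) := by gcongr
    _ = _ := by ring

/-- the stopping sequence at a point -/
noncomputable def Gs (h : Eu n → ℝ) (j₀ : ℕ) (x : Eu n) (i : ℕ) : ℝ :=
  avg h (j₀ + i) (idx (j₀ + i) x)

lemma stp_congr {G G' : ℕ → ℝ} {i : ℕ} (h : ∀ l ≤ i, G l = G' l) : stp G i = stp G' i := by
  induction i with
  | zero => simp [stp]
  | succ i ih =>
    have h1 := ih (fun l hl => h l (by omega))
    rw [stp, stp, h1, h (i+1) le_rfl, h (stp G' i) (by have := stp_le G' i; omega)]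

lemma Gs_congr {h : Eu n → ℝ} {j₀ : ℕ} {x y : Eu n} {i : ℕ}
    (hxy : idx (j₀ + i) x = idx (j₀ + i) y) : ∀ l ≤ i, Gs h j₀ x l = Gs h j₀ y l := by
  intro l hl
  unfold Gs
  rw [idx_eq_of_le (by omega) hxy]

lemma stp_Gs_congr {h : Eu n → ℝ} {j₀ : ℕ} {x y : Eu n} {i : ℕ}
    (hxy : idx (j₀ + i) x = idx (j₀ + i) y) : stp (Gs h j₀ x) i = stp (Gs h j₀ y) i :=
  stp_congr (Gs_congr hxy)

lemma Gs_nonneg {h : Eu n → ℝ} (hh : ∀ y, 0 ≤ h y) (j₀ : ℕ) (x : Eu n) (i : ℕ) :
    0 ≤ Gs h j₀ x i := avg_nonneg hh _ _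

/-- estimate on one cube -/
lemma cube_energy {h : Eu n → ℝ} (hh : ∀ y, 0 ≤ h y) (hm : Measurable h) {j : ℕ}
    {k : Fin n → ℤ} (hi : IntegrableOn h (Qk j k)) (hn : 1 ≤ n) :
    ENNReal.ofReal (((1/2)^j * avg h j k)^n) ≤
      ∫⁻ y in Qk j k, ENNReal.ofReal (if avg h j k < 2 * h y then
        2 * (avg h j k)^(n-1) * h y else 0) := by
  set g := avg h j k with hg
  have hg0 : 0 ≤ g := avg_nonneg hh j k
  have hmset : MeasurableSet {y | g < 2 * h y} := measurableSet_lt measurable_const (hm.const_mul 2)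
  have hint : IntegrableOn (fun y => if g < 2 * h y then 2 * g^(n-1) * h y else 0) (Qk j k) := by
    have h1 : (fun y => if g < 2 * h y then 2 * g^(n-1) * h y else 0) =
        indicator {y | g < 2 * h y} (fun y => 2 * g^(n-1) * h y) := by
      funext y; rfl
    rw [h1]
    exact (Integrable.indicator (hi.const_mul _) hmset)
  rw [← ofReal_integral_eq_lintegral_ofReal hint]
  · apply ENNReal.ofReal_le_ofReal
    have e1 : ∫ y in Qk j k, h y = g * ((1/2)^j)^n := by
      rw [hg]; unfold avg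
      rw [smul_eq_mul, mul_comm (((2:ℝ)^j)^n), mul_assoc, two_pow_mul, mul_one]
    have e2 : ∫ _y in Qk j k, (g/2) = (g/2) * ((1/2)^j)^n := by
      rw [setIntegral_const, volReal_Qk, smul_eq_mul, mul_comm]
    have e3 : ∫ y in Qk j k, h y ≤
        ∫ y in Qk j k, ((if g < 2 * h y then h y else 0) + g/2) := by
      have hi2 : IntegrableOn (fun y => if g < 2 * h y then h y else 0) (Qk j k) := by
        have h1 : (fun y => if g < 2 * h y then h y else 0) =
            indicator {y | g < 2 * h y} (fun y => h y) := by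
          funext y; rfl
        rw [h1]
        exact hi.indicator hmset
      have hi3 : IntegrableOn (fun _ : Eu n => g/2) (Qk j k) :=
        integrableOn_const (volume_Qk_ne_top j k)
      refine integral_mono hi (hi2.add hi3) ?_
      intro y
      change h y ≤ (if g < 2 * h y then h y else 0) + g / 2
      split_ifs with h1
      · linarith
      · linarith
    have e4 : ∫ y in Qk j k, ((if g < 2 * h y then h y else 0) + g/2) =
        (∫ y in Qk j k, (if g < 2 * h y then h y else 0)) + (g/2) * ((1/2)^j)^n := by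
      rw [← e2]
      have hi3 : IntegrableOn (fun _ : Eu n => g/2) (Qk j k) :=
        integrableOn_const (volume_Qk_ne_top j k)
      refine integral_add ?_ hi3
      have h1 : (fun y => if g < 2 * h y then h y else 0) =
          indicator {y | g < 2 * h y} (fun y => h y) := by
        funext y; rfl
      rw [h1]
      exact hi.indicator hmset
    have e5 : ∫ y in Qk j k, (if g < 2 * h y then 2 * g^(n-1) * h y else 0) =
        2 * g^(n-1) * ∫ y in Qk j k, (if g < 2 * h y then h y else 0) := by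
      rw [← integral_const_mul]
      congr 1
      funext y
      split_ifs <;> simp
    rw [e5]
    have e6 : g * ((1/2)^j)^n ≤ 2 * ∫ y in Qk j k, (if g < 2 * h y then h y else 0) := by
      linarith
    calc ((1/2)^j * g)^n = g^(n-1) * (g * ((1/2)^j)^n) := by
          rw [mul_pow]
          have : g^n = g^(n-1) * g := by rw [← pow_succ]; congr 1; omega
          rw [this]; ring
      _ ≤ g^(n-1) * (2 * ∫ y in Qk j k, (if g < 2 * h y then h y else 0)) := by gcongr
      _ = _ := by ring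
  · filter_upwards with y
    simp only [Pi.zero_apply]
    split_ifs
    · have := hh y; positivity
    · exact le_rfl

lemma sum_lintegral_le {α ι : Type*} [MeasurableSpace α] {μ : Measure α} (s : Finset ι)
    (f : ι → α → ℝ≥0∞) : ∑ i ∈ s, ∫⁻ a, f i a ∂μ ≤ ∫⁻ a, ∑ i ∈ s, f i a ∂μ := by
  classical
  induction s using Finset.induction_on with
  | empty => simp
  | insert i s hi ih =>
    rw [Finset.sum_insert hi]
    calc _ ≤ (∫⁻ a, f i a ∂μ) + ∫⁻ a, ∑ i ∈ s, f i a ∂μ := by gcongr
      _ ≤ ∫⁻ a, (f i a + ∑ i ∈ s, f i a) ∂μ := le_lintegral_add _ _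
      _ = _ := by
        congr 1; funext a; rw [Finset.sum_insert hi]

/-- total energy of the stopping cubes -/
lemma stop_energy {h : Eu n → ℝ} (hh : ∀ y, 0 ≤ h y) (hm : Measurable h) (hn : 2 ≤ n)
    {U : Set (Eu n)} (j₀ N : ℕ) (S : ℕ → Finset (Fin n → ℤ))
    (hSU : ∀ i ≤ N, ∀ k ∈ S i, Qk (j₀ + i) k ⊆ U)
    (hSi : ∀ i ≤ N, ∀ k ∈ S i, IntegrableOn h (Qk (j₀ + i) k))
    (hstop : ∀ i ≤ N, ∀ k ∈ S i, ∀ y ∈ Qk (j₀ + i) k, stp (Gs h j₀ y) i = i) :
    ∑ i ∈ Finset.range (N+1), ∑ k ∈ S i,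
      ENNReal.ofReal (((1/2)^(j₀+i) * avg h (j₀+i) k)^n) ≤
      ∫⁻ y in U, ENNReal.ofReal (2^(n+1) * (h y)^n) := by
  classical
  set Φ : ℕ → Eu n → ℝ≥0∞ := fun i y => if stp (Gs h j₀ y) i = i then
    ENNReal.ofReal (if Gs h j₀ y i < 2 * h y then 2 * (Gs h j₀ y i)^(n-1) * h y else 0) else 0
    with hΦ
  calc ∑ i ∈ Finset.range (N+1), ∑ k ∈ S i,
      ENNReal.ofReal (((1/2)^(j₀+i) * avg h (j₀+i) k)^n)
      ≤ ∑ i ∈ Finset.range (N+1), ∑ k ∈ S i, ∫⁻ y in Qk (j₀+i) k, Φ i y := by
        refine Finset.sum_le_sum (fun i hi => Finset.sum_le_sum (fun k hk => ?_))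
        have hi' : i ≤ N := by rw [Finset.mem_range] at hi; omega
        refine (cube_energy hh hm (hSi i hi' k hk) (by omega)).trans (le_of_eq ?_)
        apply setLIntegral_congr_fun (measurableSet_Qk _ _)
        intro y hy
        have h1 : Gs h j₀ y i = avg h (j₀+i) k := by
          unfold Gs; rw [mem_Qk.mp hy]
        simp only [hΦ]
        rw [if_pos (hstop i hi' k hk y hy), h1]
    _ = ∑ i ∈ Finset.range (N+1), ∫⁻ y in ⋃ k ∈ S i, Qk (j₀+i) k, Φ i y := by
        refine Finset.sum_congr rfl (fun i _ => ?_)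
        rw [lintegral_biUnion_finset]
        · intro k _ l _ hkl
          exact Set.disjoint_left.mpr (fun y hy1 hy2 => hkl (by
            rw [← mem_Qk.mp hy1, ← mem_Qk.mp hy2]))
        · intro k _; exact measurableSet_Qk _ _
    _ ≤ ∑ i ∈ Finset.range (N+1), ∫⁻ y in U, Φ i y := by
        refine Finset.sum_le_sum (fun i hi => ?_)
        have hi' : i ≤ N := by rw [Finset.mem_range] at hi; omega
        apply lintegral_mono_set
        exact iUnion₂_subset (fun k hk => hSU i hi' k hk)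
    _ ≤ ∫⁻ y in U, ∑ i ∈ Finset.range (N+1), Φ i y := sum_lintegral_le _ _
    _ ≤ ∫⁻ y in U, ENNReal.ofReal (2^(n+1) * (h y)^n) := by
        apply lintegral_mono
        intro y
        simp only
        set G := Gs h j₀ y with hG
        have hG0 : ∀ i, 0 ≤ G i := Gs_nonneg hh j₀ y
        have hy := hh y
        have h1 : ∑ i ∈ Finset.range (N+1), Φ i y = ENNReal.ofReal
            (∑ s ∈ (Finset.range (N+1)).filter (fun s => stp G s = s ∧ G s < 2 * h y),
              2 * (G s)^(n-1) * h y) := by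
          rw [ENNReal.ofReal_sum_of_nonneg (fun s _ => by have := hG0 s; positivity),
            Finset.sum_filter]
          refine Finset.sum_congr rfl (fun i _ => ?_)
          simp only [hΦ]
          by_cases h2 : stp G i = i
          · rw [if_pos h2]
            by_cases h3 : G i < 2 * h y
            · rw [if_pos h3, if_pos ⟨h2, h3⟩]
            · rw [if_neg h3, if_neg (fun h => h3 h.2), ENNReal.ofReal_zero]
          · rw [if_neg h2, if_neg (fun h => h2 h.1)]
        rw [h1]
        apply ENNReal.ofReal_le_ofReal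
        have h2 := stp_sum hG0 (q := n-1) (by omega) (M := 2 * h y) (by positivity) N
        have h3 : ∑ s ∈ (Finset.range (N+1)).filter (fun s => stp G s = s ∧ G s < 2 * h y),
              2 * (G s)^(n-1) * h y = 2 * h y *
            ∑ s ∈ (Finset.range (N+1)).filter (fun s => stp G s = s ∧ G s < 2 * h y),
              (G s)^(n-1) := by
          rw [Finset.mul_sum]
          refine Finset.sum_congr rfl (fun i _ => ?_)
          ring
        rw [h3]
        have h4 : min (G (stp G N)) (2 * h y) ^ (n-1) ≤ (2 * h y)^(n-1) := by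
          apply pow_le_pow_left₀ (le_min (hG0 _) (by positivity)) (min_le_right _ _)
        calc 2 * h y * ∑ s ∈ (Finset.range (N+1)).filter (fun s => stp G s = s ∧ G s < 2 * h y),
              (G s)^(n-1) ≤ 2 * h y * (2 * (2 * h y)^(n-1)) := by
              gcongr
              exact h2.trans (by gcongr)
          _ = 2^(n+1) * (h y)^n := by
              have : n = (n-1) + 1 := by omega
              rw [this]
              simp only [Nat.add_sub_cancel]
              rw [mul_pow, pow_succ, pow_succ, pow_succ]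
              ring

end Pool.Agent.Helper930.Ln
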