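import Mathlib
import Pool.Agent.Helper930.LnAvg

set_option autoImplicit false

open Set Filter Topology MeasureTheory Metric
open scoped ENNReal

namespace Pool.Agent.Helper930.Ln

variable {n : ℕ}

/-- Hoelder inequality for finite sums in the form used below -/
lemma holder_sum {ι : Type*} (hn : 2 ≤ n) (S : Finset ι) {t V : ι → ℝ} (ht : ∀ k ∈ S, 0 ≤ t k)
    (hV : ∀ k ∈ S, 0 ≤ V k) {W : ℝ} (hW : ∑ k ∈ S, V k ≤ W) :
    ∑ k ∈ S, t k * (V k) ^ (((n:ℝ) - 1) / n) ≤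
      (∑ k ∈ S, (t k)^n) ^ (1 / (n:ℝ)) * W ^ (((n:ℝ) - 1) / n) := by
  have hn' : (1:ℝ) < n := by exact_mod_cast (by omega : 1 < n)
  have hn0 : (0:ℝ) < n := by linarith
  have hn1 : (0:ℝ) < (n:ℝ) - 1 := by linarith
  have hpq := Real.HolderConjugate.conjExponent hn'
  have h := Real.inner_le_Lp_mul_Lq_of_nonneg S hpq ht
    (g := fun k => (V k) ^ (((n:ℝ) - 1) / n)) (fun k hk => Real.rpow_nonneg (hV k hk) _)
  refine h.trans ?_
  have e1 : ∑ k ∈ S, (t k) ^ (n:ℝ) = ∑ k ∈ S, (t k)^n :=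
    Finset.sum_congr rfl (fun k _ => Real.rpow_natCast _ _)
  have e2 : ∑ k ∈ S, ((V k) ^ (((n:ℝ) - 1) / n)) ^ (Real.conjExponent n) = ∑ k ∈ S, V k := by
    refine Finset.sum_congr rfl (fun k hk => ?_)
    rw [← Real.rpow_mul (hV k hk)]
    have : ((n:ℝ) - 1) / n * Real.conjExponent n = 1 := by
      unfold Real.conjExponent
      field_simp
    rw [this, Real.rpow_one]
  have e3 : 1 / Real.conjExponent n = ((n:ℝ) - 1) / n := by
    unfold Real.conjExponent
    field_simp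
  rw [e1, e2, e3]
  have h0 : 0 ≤ ∑ k ∈ S, V k := Finset.sum_nonneg hV
  have h1 : 0 ≤ ∑ k ∈ S, (t k)^n := Finset.sum_nonneg (fun k hk => pow_nonneg (ht k hk) n)
  gcongr

/-- the integral over a partitioned set -/
lemma select_integral (hn : 2 ≤ n) {Cb : ℝ} (hCb : 0 ≤ Cb)
    (hbath : ∀ (A : Set (Eu n)), MeasurableSet A → volume A ≠ ⊤ → ∀ p : Eu n,
      ∫⁻ z in A, ENNReal.ofReal (1 / ‖z - p‖) ≤
        ENNReal.ofReal (Cb * (volume A).toReal ^ (((n:ℝ) - 1) / n)))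
    {Z : Set (Eu n)} (hZ : MeasurableSet Z) {W : ℝ} (hW0 : 0 ≤ W)
    (hW : volume Z ≤ ENNReal.ofReal W)
    {κ : Eu n → (Fin n → ℤ)} (hκ : Measurable κ) (S : Finset (Fin n → ℤ))
    (c : (Fin n → ℤ) → Eu n) {t : (Fin n → ℤ) → ℝ} (ht : ∀ k ∈ S, 0 ≤ t k) :
    ∫⁻ z in Z, (if κ z ∈ S then ENNReal.ofReal (t (κ z) / ‖z - c (κ z)‖) else 0) ≤
      ENNReal.ofReal (Cb * ((∑ k ∈ S, (t k)^n) ^ (1 / (n:ℝ)) * W ^ (((n:ℝ) - 1) / n))) := by
  classical
  set Zk : (Fin n → ℤ) → Set (Eu n) := fun k => Z ∩ κ ⁻¹' {k} with hZk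
  have hZkm : ∀ k, MeasurableSet (Zk k) := fun k => hZ.inter (hκ (measurableSet_singleton k))
  have hZtop : volume Z ≠ ⊤ := (hW.trans_lt ENNReal.ofReal_lt_top).ne
  have hZktop : ∀ k, volume (Zk k) ≠ ⊤ := fun k => measure_ne_top_of_subset inter_subset_left hZtop
  have hdisj : Set.PairwiseDisjoint (S : Set (Fin n → ℤ)) Zk := by
    intro k _ l _ hkl
    refine Set.disjoint_left.mpr (fun y hy1 hy2 => hkl ?_)
    have h1 : κ y = k := hy1.2
    have h2 : κ y = l := hy2.2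
    rw [← h1, ← h2]
  have h1 : ∫⁻ z in Z, (if κ z ∈ S then ENNReal.ofReal (t (κ z) / ‖z - c (κ z)‖) else 0) =
      ∫⁻ z in ⋃ k ∈ S, Zk k, ENNReal.ofReal (t (κ z) / ‖z - c (κ z)‖) := by
    have hmS : MeasurableSet {z : Eu n | κ z ∈ S} := hκ (S.measurableSet)
    have h2 : (⋃ k ∈ S, Zk k) = {z | κ z ∈ S} ∩ Z := by
      ext z
      simp only [hZk, mem_iUnion, mem_inter_iff, mem_preimage, mem_singleton_iff, exists_prop,
        Set.mem_ofPred_eq]
      constructor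
      · rintro ⟨k, hk, hz, rfl⟩; exact ⟨hk, hz⟩
      · rintro ⟨hk, hz⟩; exact ⟨κ z, hk, hz, rfl⟩
    rw [h2, ← Measure.restrict_restrict hmS, ← lintegral_indicator hmS]
    apply lintegral_congr
    intro z
    by_cases hz : κ z ∈ S
    · rw [if_pos hz, indicator_of_mem (show z ∈ {z | κ z ∈ S} from hz)]
    · rw [if_neg hz, indicator_of_notMem (show z ∉ {z | κ z ∈ S} from hz)]
  rw [h1, lintegral_biUnion_finset hdisj (fun k _ => hZkm k)]
  have h3 : ∀ k ∈ S, ∫⁻ z in Zk k, ENNReal.ofReal (t (κ z) / ‖z - c (κ z)‖) ≤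
      ENNReal.ofReal (Cb * (t k * (volume (Zk k)).toReal ^ (((n:ℝ) - 1) / n))) := by
    intro k hk
    have h4 : ∫⁻ z in Zk k, ENNReal.ofReal (t (κ z) / ‖z - c (κ z)‖) =
        ENNReal.ofReal (t k) * ∫⁻ z in Zk k, ENNReal.ofReal (1 / ‖z - c k‖) := by
      rw [← lintegral_const_mul' _ _ ENNReal.ofReal_ne_top]
      apply setLIntegral_congr_fun (hZkm k)
      intro z hz
      have h5 : κ z = k := hz.2
      simp only
      rw [h5, ← ENNReal.ofReal_mul (ht k hk), mul_one_div]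
    rw [h4]
    calc _ ≤ ENNReal.ofReal (t k) *
          ENNReal.ofReal (Cb * (volume (Zk k)).toReal ^ (((n:ℝ) - 1) / n)) := by
          gcongr
          exact hbath _ (hZkm k) (hZktop k) _
      _ = _ := by
          rw [← ENNReal.ofReal_mul (ht k hk)]
          congr 1; ring
  refine (Finset.sum_le_sum h3).trans ?_
  rw [← ENNReal.ofReal_sum_of_nonneg (fun k hk => by
    have := ht k hk; positivity)]
  apply ENNReal.ofReal_le_ofReal
  rw [← Finset.mul_sum]
  apply mul_le_mul_of_nonneg_left _ hCb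
  apply holder_sum hn S ht (fun k _ => ENNReal.toReal_nonneg)
  rw [← ENNReal.toReal_sum (fun k _ => hZktop k), ← measure_biUnion_finset hdisj
    (fun k _ => hZkm k)]
  have h6 : (⋃ k ∈ S, Zk k) ⊆ Z := iUnion₂_subset (fun k _ => inter_subset_left)
  calc (volume (⋃ k ∈ S, Zk k)).toReal ≤ (volume Z).toReal :=
        ENNReal.toReal_mono hZtop (measure_mono h6)
    _ ≤ (ENNReal.ofReal W).toReal := ENNReal.toReal_mono ENNReal.ofReal_ne_top hW
    _ = W := ENNReal.toReal_ofReal hW0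

/-- measurable selection from finitely many closed sets -/
lemma exists_selection {α ι : Type*} [MeasurableSpace α] [MeasurableSpace ι] [Nonempty ι]
    (H : ι → Set α) (s : Finset ι) (hH : ∀ k ∈ s, MeasurableSet (H k)) :
    ∃ κ : α → ι, Measurable κ ∧ ∀ z, (∃ k ∈ s, z ∈ H k) → κ z ∈ s ∧ z ∈ H (κ z) := by
  classical
  induction s using Finset.induction_on with
  | empty => exact ⟨fun _ => Classical.arbitrary ι, measurable_const, fun z h => by simp at h⟩
  | insert k s _ ih =>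
    obtain ⟨κ, hκ, hκ2⟩ := ih (fun l hl => hH l (Finset.mem_insert_of_mem hl))
    refine ⟨fun z => if z ∈ H k then k else κ z,
      Measurable.ite (hH k (Finset.mem_insert_self k s)) measurable_const hκ, ?_⟩
    rintro z ⟨l, hl, hz⟩
    simp only
    split_ifs with h
    · exact ⟨Finset.mem_insert_self k s, h⟩
    · rcases Finset.mem_insert.mp hl with rfl | hl
      · exact absurd hz h
      · obtain ⟨h1, h2⟩ := hκ2 z ⟨l, hl, hz⟩
        exact ⟨Finset.mem_insert_of_mem h1, h2⟩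

end Pool.Agent.Helper930.Ln
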