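import Mathlib
import Pool.Agent.Helper930.LnSel
import Pool.Agent.Helper930.LnJ6

set_option autoImplicit false

open Set Filter Topology MeasureTheory Metric
open scoped ENNReal

namespace Pool.Agent.Helper930.Ln

variable {n : ℕ}

theorem core (hn : 2 ≤ n) {f : Eu n → Eu n} {h : Eu n → ℝ} (hh : ∀ y, 0 ≤ h y)
    (hmh : Measurable h) {U A : Set (Eu n)} {j₀ : ℕ}
    (hAU : ∀ x ∈ A, Qk j₀ (idx j₀ x) ⊆ U)
    (hAi : ∀ x ∈ A, IntegrableOn h (Qk j₀ (idx j₀ x)))
    {C₀ : ℝ} (hC₀ : 0 ≤ C₀)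
    (hstep : ∀ x ∈ A, ∀ i, ‖avg f (j₀+i+1) (idx (j₀+i+1) x) - avg f (j₀+i) (idx (j₀+i) x)‖ ≤
      C₀ * ((1/2)^(j₀+i) * avg h (j₀+i) (idx (j₀+i) x)))
    {m : ℕ → ℝ} (hmod : ∀ x ∈ A, ∀ i, ‖f x - avg f (j₀+i) (idx (j₀+i) x)‖ ≤ m i)
    (hfin : ∀ i, (idx (j₀+i) '' A).Finite)
    (hfA : volume (closure (f '' A)) ≠ ⊤)
    (hUfin : ∫⁻ y in U, ENNReal.ofReal (2^(n+1) * (h y)^n) ≠ ⊤)
    (hsmall : ENNReal.ofReal ((32 * C₀)^n) * volume (ball (0:Eu n) 1) *
      ∫⁻ y in U, ENNReal.ofReal (2^(n+1) * (h y)^n) < volume (f '' A)) :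
    ∃ x : ℕ → ℝ, (∀ i, 0 ≤ x i) ∧ Summable (fun i => x i ^ n) ∧
      ∃ C₁ : ℝ, ∀ N, -Real.log (m N) ≤ C₁ + ∑ i ∈ Finset.range (N+1), x i := by
  classical
  obtain ⟨Cb, hCb, hbath⟩ := bathtub hn
  set β : ℝ := ((n:ℝ) - 1) / n with hβ
  have hn0 : (n:ℝ) ≠ 0 := by
    have : (0:ℝ) < n := by exact_mod_cast (by omega : 0 < n)
    exact this.ne'
  -- scaled energies
  set a : ℕ → (Fin n → ℤ) → ℝ := fun i k => (1/2)^(j₀+i) * avg h (j₀+i) k with ha
  have ha0 : ∀ i k, 0 ≤ a i k := fun i k => by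
    have := avg_nonneg hh (j₀+i) k
    simp only [ha]; positivity
  -- stopping cubes
  set S : ℕ → Finset (Fin n → ℤ) := fun i => (hfin i).toFinset.filter
    (fun k => ∃ x ∈ A, idx (j₀+i) x = k ∧ stp (Gs h j₀ x) i = i) with hS
  have hSmem : ∀ i, ∀ x ∈ A, stp (Gs h j₀ x) i = i → idx (j₀+i) x ∈ S i := by
    intro i x hx hst
    simp only [hS, Finset.mem_filter, Set.Finite.mem_toFinset]
    exact ⟨⟨x, hx, rfl⟩, x, hx, rfl, hst⟩
  set B : ℝ≥0∞ := ENNReal.ofReal ((32 * C₀)^n) * volume (ball (0:Eu n) 1) *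
      ∫⁻ y in U, ENNReal.ofReal (2^(n+1) * (h y)^n) with hB
  have hen : ∀ N, ∑ i ∈ Finset.range (N+1), ∑ k ∈ S i, ENNReal.ofReal ((a i k)^n) ≤
      ∫⁻ y in U, ENNReal.ofReal (2^(n+1) * (h y)^n) := by
    intro N
    apply stop_energy hh hmh hn j₀ N S
    · intro i _ k hk
      simp only [hS, Finset.mem_filter] at hk
      obtain ⟨_, x, hx, rfl, _⟩ := hk
      exact (Qk_anti (by omega) x).trans (hAU x hx)
    · intro i _ k hk
      simp only [hS, Finset.mem_filter] at hk
      obtain ⟨_, x, hx, rfl, _⟩ := hk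
      exact (hAi x hx).mono_set (Qk_anti (by omega) x)
    · intro i _ k hk y hy
      simp only [hS, Finset.mem_filter] at hk
      obtain ⟨_, x, hx, rfl, hst⟩ := hk
      exact (stp_Gs_congr (mem_Qk.mp hy)).trans hst
  set e : ℕ → ℝ := fun i => ∑ k ∈ S i, (a i k)^n with he
  have he0 : ∀ i, 0 ≤ e i := fun i => Finset.sum_nonneg (fun k _ => pow_nonneg (ha0 i k) n)
  have hesum : Summable e := by
    apply summable_of_sum_range_le he0 (c := (∫⁻ y in U, ENNReal.ofReal
      (2^(n+1) * (h y)^n)).toReal)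
    intro N
    have h1 : ∑ i ∈ Finset.range N, e i ≤ ∑ i ∈ Finset.range (N+1), e i :=
      Finset.sum_le_sum_of_subset_of_nonneg (Finset.range_mono (by omega)) (fun i _ _ => he0 i)
    refine h1.trans ?_
    rw [← ENNReal.ofReal_le_iff_le_toReal hUfin,
      ENNReal.ofReal_sum_of_nonneg (fun i _ => he0 i)]
    refine le_trans (le_of_eq ?_) (hen N)
    refine Finset.sum_congr rfl (fun i _ => ?_)
    simp only [he]
    rw [ENNReal.ofReal_sum_of_nonneg (fun k _ => pow_nonneg (ha0 i k) n)]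
  -- volumes
  have hVfin : volume (f '' A) ≠ ⊤ := measure_ne_top_of_subset subset_closure hfA
  set V : ℝ := (volume (closure (f '' A))).toReal with hV
  have hV0 : 0 ≤ V := ENNReal.toReal_nonneg
  set δ : ℝ := (volume (f '' A) - B).toReal with hδ
  have hδpos : 0 < δ := by
    apply ENNReal.toReal_pos
    · exact (tsub_pos_of_lt hsmall).ne'
    · exact (tsub_le_self.trans_lt (lt_top_iff_ne_top.mpr hVfin)).ne
  -- weights
  set t : ℕ → (Fin n → ℤ) → ℝ := fun i k => 16 * C₀ * a i k with ht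
  have ht0 : ∀ i k, 0 ≤ t i k := fun i k => by
    have := ha0 i k
    simp only [ht]; positivity
  set X : ℕ → ℝ := fun i => Cb * ((∑ k ∈ S i, (t i k)^n) ^ (1 / (n:ℝ)) * V ^ β) with hX
  have hX0 : ∀ i, 0 ≤ X i := by
    intro i
    have : 0 ≤ ∑ k ∈ S i, (t i k)^n := Finset.sum_nonneg (fun k _ => pow_nonneg (ht0 i k) n)
    simp only [hX]; positivity
  have hXn : ∀ i, (X i)^n = (Cb * V^β)^n * ((16 * C₀)^n * e i) := by
    intro i
    have h1 : ∑ k ∈ S i, (t i k)^n = (16 * C₀)^n * e i := by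
      simp only [ht, he, Finset.mul_sum, mul_pow]
    have h2 : 0 ≤ (16 * C₀)^n * e i := by have := he0 i; positivity
    simp only [hX]
    rw [h1]
    have h3 : (((16 * C₀)^n * e i) ^ (1 / (n:ℝ)))^n = (16 * C₀)^n * e i := by
      rw [← Real.rpow_natCast, ← Real.rpow_mul h2, one_div, inv_mul_cancel₀ hn0, Real.rpow_one]
    rw [mul_pow, mul_pow, h3, mul_pow Cb]
    ring
  set C₅ : ℝ := Cb * ((∑ k ∈ (hfin 0).toFinset, (1:ℝ)^n) ^ (1 / (n:ℝ)) * V ^ β) with hC5
  have hC50 : 0 ≤ C₅ := by simp only [hC5]; positivity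
  refine ⟨fun i => X i / δ, fun i => div_nonneg (hX0 i) hδpos.le, ?_, C₅ / δ, ?_⟩
  · simp only [div_pow, hXn]
    exact ((hesum.mul_left _).mul_left _).div_const _
  intro N
  -- the bad set
  set bad : Set (Eu n) := ⋃ i ∈ Finset.range (N+1), ⋃ k ∈ S i,
    closedBall (avg f (j₀+i) k) (32 * C₀ * a i k) with hbad
  have hbadm : MeasurableSet bad :=
    Finset.measurableSet_biUnion _ (fun i _ => Finset.measurableSet_biUnion _
      (fun k _ => isClosed_closedBall.measurableSet))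
  have hbadv : volume bad ≤ B := by
    calc volume bad ≤ ∑ i ∈ Finset.range (N+1), ∑ k ∈ S i,
          volume (closedBall (avg f (j₀+i) k) (32 * C₀ * a i k)) := by
          refine (measure_biUnion_finset_le _ _).trans ?_
          exact Finset.sum_le_sum (fun i _ => measure_biUnion_finset_le _ _)
      _ = ∑ i ∈ Finset.range (N+1), ∑ k ∈ S i,
          ENNReal.ofReal ((32 * C₀)^n) * volume (ball (0:Eu n) 1) * ENNReal.ofReal ((a i k)^n) := by
          refine Finset.sum_congr rfl (fun i _ => Finset.sum_congr rfl (fun k _ => ?_))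
          have h1 : 0 ≤ 32 * C₀ * a i k := by have := ha0 i k; positivity
          rw [Measure.addHaar_closedBall _ _ h1, finrank_euclideanSpace_fin, mul_pow,
            ENNReal.ofReal_mul (by positivity)]
          ring
      _ = ENNReal.ofReal ((32 * C₀)^n) * volume (ball (0:Eu n) 1) *
          ∑ i ∈ Finset.range (N+1), ∑ k ∈ S i, ENNReal.ofReal ((a i k)^n) := by
          simp only [Finset.mul_sum]
      _ ≤ B := by rw [hB]; gcongr; exact hen N
  set Z : Set (Eu n) := closure (f '' A) \ bad with hZdef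
  have hZm : MeasurableSet Z := isClosed_closure.measurableSet.diff hbadm
  have hZlow : ENNReal.ofReal δ ≤ volume Z := by
    rw [hδ, ENNReal.ofReal_toReal (tsub_le_self.trans_lt (lt_top_iff_ne_top.mpr hVfin)).ne]
    calc volume (f '' A) - B ≤ volume (closure (f '' A)) - volume bad :=
          tsub_le_tsub (measure_mono subset_closure) hbadv
      _ ≤ volume Z := le_measure_sdiff
  have hZup : volume Z ≤ ENNReal.ofReal V := by
    rw [hV, ENNReal.ofReal_toReal hfA]
    exact measure_mono sdiff_subset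
  -- selection
  obtain ⟨κ, hκm, hκ⟩ := exists_selection (fun k => closure (f '' (A ∩ Qk (j₀+N) k)))
    (hfin N).toFinset (fun k _ => isClosed_closure.measurableSet)
  have hcover : ∀ z ∈ closure (f '' A), ∃ k ∈ (hfin N).toFinset,
      z ∈ closure (f '' (A ∩ Qk (j₀+N) k)) := by
    intro z hz
    have h1 : f '' A ⊆ ⋃ k ∈ (hfin N).toFinset, f '' (A ∩ Qk (j₀+N) k) := by
      rintro _ ⟨x, hx, rfl⟩
      rw [mem_iUnion₂]
      exact ⟨idx (j₀+N) x, (Set.Finite.mem_toFinset _).mpr ⟨x, hx, rfl⟩, x, ⟨hx, mem_Qk_self _ _⟩, rfl⟩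
    have h2 := closure_mono h1 hz
    rw [Finset.closure_biUnion] at h2
    rw [mem_iUnion₂] at h2
    obtain ⟨k, hk, hz'⟩ := h2
    exact ⟨k, hk, hz'⟩
  have hrep : ∀ k : Fin n → ℤ, ∃ x : Eu n, k ∈ (hfin N).toFinset → x ∈ A ∧ idx (j₀+N) x = k := by
    intro k
    by_cases hk : k ∈ (hfin N).toFinset
    · obtain ⟨x, hx, hxk⟩ := (Set.Finite.mem_toFinset _).mp hk
      exact ⟨x, fun _ => ⟨hx, hxk⟩⟩
    · exact ⟨0, fun h => absurd h hk⟩
  choose rep hrep using hrep
  set ki : ℕ → Eu n → (Fin n → ℤ) := fun i z => idx (j₀+i) (rep (κ z)) with hki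
  have hkim : ∀ i, Measurable (ki i) := by
    intro i
    exact (measurable_of_countable (fun k : Fin n → ℤ => idx (j₀+i) (rep k))).comp hκm
  set T : ℕ → Eu n → ℝ≥0∞ := fun i z => if ki i z ∈ S i then
    ENNReal.ofReal (t i (ki i z) / ‖z - avg f (j₀+i) (ki i z)‖) else 0 with hT
  set T' : Eu n → ℝ≥0∞ := fun z => if ki 0 z ∈ (hfin 0).toFinset then
    ENNReal.ofReal (1 / ‖z - avg f (j₀+0) (ki 0 z)‖) else 0 with hT'
  have hTm : ∀ i, Measurable (T i) := by
    intro i
    apply Measurable.ite ((hkim i) (S i).measurableSet) _ measurable_const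
    apply Measurable.ennreal_ofReal
    apply Measurable.div
    · exact (measurable_of_countable (fun k : Fin n → ℤ => t i k)).comp (hkim i)
    · exact (measurable_id.sub ((measurable_of_countable
        (fun k : Fin n → ℤ => avg f (j₀+i) k)).comp (hkim i))).norm
  -- pointwise bound
  have hpt : ∀ z ∈ Z, ENNReal.ofReal (-Real.log (m N)) ≤
      T' z + ∑ i ∈ Finset.range (N+1), T i z := by
    rintro z ⟨hz, hzb⟩
    obtain ⟨h1, h2⟩ := hκ z (hcover z hz)
    obtain ⟨hxA, hxk⟩ := hrep _ h1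
    set x := rep (κ z) with hx
    set G := Gs h j₀ x with hG
    have hG0 : ∀ i, 0 ≤ G i := Gs_nonneg hh j₀ x
    set F : ℕ → Eu n := fun i => avg f (j₀+i) (idx (j₀+i) x) with hF
    have hκ' : 0 ≤ C₀ * (1/2)^j₀ := by positivity
    have hFs : ∀ i, ‖F (i+1) - F i‖ ≤ C₀ * (1/2)^j₀ * ((1/2)^i * G i) := by
      intro i
      refine (hstep x hxA i).trans (le_of_eq ?_)
      rw [pow_add]
      have : G i = avg h (j₀+i) (idx (j₀+i) x) := rfl
      rw [this]; ring
    have hfar : ∀ s ≤ N, stp G s = s → 4 * (8 * (C₀ * (1/2)^j₀) * ((1/2)^s * G s)) < ‖z - F s‖ := by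
      intro s hs hst
      by_contra hcon
      apply hzb
      rw [hbad, mem_iUnion₂]
      refine ⟨s, Finset.mem_range.mpr (by omega), ?_⟩
      rw [mem_iUnion₂]
      refine ⟨idx (j₀+s) x, hSmem s x hxA hst, ?_⟩
      rw [mem_closedBall, dist_eq_norm]
      refine (not_lt.mp hcon).trans (le_of_eq ?_)
      have : G s = avg h (j₀+s) (idx (j₀+s) x) := rfl
      simp only [ha]
      rw [this, pow_add]; ring
    have h3 := log_chain hG0 hκ' hFs hfar N le_rfl
    have h4 := dist_pos_of_chain hG0 hκ' hFs hfar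
    have h5 : ‖z - F N‖ ≤ m N := by
      have h6 : closure (f '' (A ∩ Qk (j₀+N) (κ z))) ⊆ closedBall (F N) (m N) := by
        apply closure_minimal _ isClosed_closedBall
        rintro _ ⟨y, ⟨hyA, hyk⟩, rfl⟩
        rw [mem_closedBall, dist_eq_norm]
        have h7 := hmod y hyA N
        rw [mem_Qk.mp hyk, ← hxk] at h7
        exact h7
      have h8 := h6 h2
      rwa [mem_closedBall, dist_eq_norm] at h8
    have h6 : -Real.log (m N) ≤ -Real.log ‖z - F N‖ := by
      have := Real.log_le_log h4 h5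
      linarith
    have h7 : -Real.log ‖z - F 0‖ ≤ 1 / ‖z - F 0‖ := by
      have h70 : 0 < ‖z - F 0‖ := by
        have h71 := hfar 0 (by omega) (by simp [stp])
        have := hG0 0
        have h72 : 0 ≤ 4 * (8 * (C₀ * (1/2)^j₀) * ((1/2)^0 * G 0)) := by positivity
        linarith
      rw [← Real.log_inv, one_div]
      have := Real.log_le_sub_one_of_pos (inv_pos.mpr h70)
      linarith
    have h8 : -Real.log (m N) ≤ 1 / ‖z - F 0‖ +
        ∑ s ∈ (Finset.range (N+1)).filter (fun s => stp G s = s),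
          t s (ki s z) / ‖z - avg f (j₀+s) (ki s z)‖ := by
      refine (h6.trans h3).trans ?_
      refine add_le_add h7 (le_of_eq ?_)
      refine Finset.sum_congr rfl (fun s _ => ?_)
      have : G s = avg h (j₀+s) (idx (j₀+s) x) := rfl
      simp only [ht, ha, hki, hF]
      rw [this, pow_add, ← hx]
      congr 1
      ring
    refine (ENNReal.ofReal_le_ofReal h8).trans ?_
    rw [ENNReal.ofReal_add (by positivity) (Finset.sum_nonneg (fun s _ =>
      div_nonneg (ht0 _ _) (norm_nonneg _)))]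
    refine add_le_add ?_ ?_
    · simp only [hT']
      rw [if_pos]
      exact (Set.Finite.mem_toFinset _).mpr ⟨x, hxA, rfl⟩
    · rw [ENNReal.ofReal_sum_of_nonneg (fun s _ => div_nonneg (ht0 _ _) (norm_nonneg _)),
        Finset.sum_filter]
      refine Finset.sum_le_sum (fun s _ => ?_)
      simp only [hT]
      split_ifs with h9 h10 h10
      · exact le_rfl
      · exact absurd (hSmem s x hxA h9) h10
      · exact zero_le
      · exact le_rfl
  -- integrate
  have hint : ENNReal.ofReal (-Real.log (m N)) * volume Z ≤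
      ENNReal.ofReal (C₅ + ∑ i ∈ Finset.range (N+1), X i) := by
    calc ENNReal.ofReal (-Real.log (m N)) * volume Z
        = ∫⁻ _z in Z, ENNReal.ofReal (-Real.log (m N)) := by rw [setLIntegral_const]
      _ ≤ ∫⁻ z in Z, (T' z + ∑ i ∈ Finset.range (N+1), T i z) := setLIntegral_mono' hZm hpt
      _ = (∫⁻ z in Z, T' z) + ∑ i ∈ Finset.range (N+1), ∫⁻ z in Z, T i z := by
          rw [lintegral_add_right _ (Finset.measurable_fun_sum _ (fun i _ => hTm i)),
            lintegral_finsetSum _ (fun i _ => hTm i)]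
      _ ≤ ENNReal.ofReal C₅ + ∑ i ∈ Finset.range (N+1), ENNReal.ofReal (X i) := by
          refine add_le_add ?_ (Finset.sum_le_sum (fun i _ => ?_))
          · exact select_integral hn hCb hbath hZm hV0 hZup (hkim 0) (hfin 0).toFinset
              (fun k => avg f (j₀+0) k) (t := fun _ => 1) (fun _ _ => zero_le_one)
          · exact select_integral hn hCb hbath hZm hV0 hZup (hkim i) (S i)
              (fun k => avg f (j₀+i) k) (t := t i) (fun k _ => ht0 i k)
      _ = _ := by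
          rw [ENNReal.ofReal_add hC50 (Finset.sum_nonneg (fun i _ => hX0 i)),
            ENNReal.ofReal_sum_of_nonneg (fun i _ => hX0 i)]
  have hsum0 : 0 ≤ C₅ + ∑ i ∈ Finset.range (N+1), X i :=
    add_nonneg hC50 (Finset.sum_nonneg (fun i _ => hX0 i))
  have hfinal : C₅ / δ + ∑ i ∈ Finset.range (N+1), X i / δ =
      (C₅ + ∑ i ∈ Finset.range (N+1), X i) / δ := by
    rw [add_div, Finset.sum_div]
  rw [hfinal, le_div_iff₀ hδpos]
  rcases le_or_gt (-Real.log (m N)) 0 with hL | hL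
  · exact (mul_nonpos_of_nonpos_of_nonneg hL hδpos.le).trans hsum0
  · rw [← ENNReal.ofReal_le_ofReal_iff hsum0, ENNReal.ofReal_mul hL.le]
    exact (mul_le_mul' le_rfl hZlow).trans hint

end Pool.Agent.Helper930.Ln
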