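import Mathlib

set_option autoImplicit false

open Set Filter Topology MeasureTheory Metric
open scoped ContDiff

namespace Pool.Agent.Helper930.Ln

variable {E F : Type*} [NormedAddCommGroup E] [InnerProductSpace ℝ E] [FiniteDimensional ℝ E]
  [MeasurableSpace E] [BorelSpace E] [NormedAddCommGroup F] [NormedSpace ℝ F]
  [FiniteDimensional ℝ F]

/-- `Df` is the weak derivative of `f` on the open set `Ω` -/
def WeakDerivOn (Ω : Set E) (f : E → F) (Df : E → E →L[ℝ] F) : Prop :=
  LocallyIntegrableOn f Ω ∧ LocallyIntegrableOn Df Ω ∧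
    ∀ φ : E → ℝ, ContDiff ℝ ∞ φ → HasCompactSupport φ → tsupport φ ⊆ Ω → ∀ v : E,
      ∫ x, (fderiv ℝ φ x v) • f x = - ∫ x, φ x • Df x v

/-- mollification at a point -/
noncomputable def moll (φ : E → ℝ) (f : E → F) (z : E) : F := ∫ w, φ (z - w) • f w

lemma convolution_eq_moll (φ : E → ℝ) (f : E → F) (z : E) :
    (MeasureTheory.convolution φ f (ContinuousLinearMap.lsmul ℝ ℝ) volume) z = moll φ f z := by
  rw [MeasureTheory.convolution_eq_swap]
  rfl

/-- derivative of the mollification -/
lemma moll_hasFDerivAt {φ : E → ℝ} (hφ : ContDiff ℝ ∞ φ) (hc : HasCompactSupport φ) {f : E → F}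
    (hf : LocallyIntegrable f volume) (z : E) :
    ∃ A : E →L[ℝ] F, HasFDerivAt (moll φ f) A z ∧
      ∀ v, A v = ∫ w, (fderiv ℝ φ (z - w) v) • f w := by
  have h := hc.hasFDerivAt_convolution_left (ContinuousLinearMap.lsmul ℝ ℝ : ℝ →L[ℝ] F →L[ℝ] F)
    (hφ.of_le (by norm_num)) hf z
  have h1 : (MeasureTheory.convolution φ f (ContinuousLinearMap.lsmul ℝ ℝ) volume) = moll φ f :=
    funext (convolution_eq_moll φ f)
  rw [h1] at h
  refine ⟨_, h, ?_⟩
  intro v
  have hci : HasCompactSupport (fderiv ℝ φ) := hc.fderiv (𝕜 := ℝ)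
  have hcont : Continuous (fderiv ℝ φ) := hφ.continuous_fderiv (by norm_num)
  have hex : MeasureTheory.ConvolutionExistsAt (fderiv ℝ φ) f z
      ((ContinuousLinearMap.lsmul ℝ ℝ : ℝ →L[ℝ] F →L[ℝ] F).precompL E) volume :=
    (hci.convolutionExists_left _ hcont hf) z
  rw [MeasureTheory.convolution_eq_swap]
  have hi : Integrable (fun t => ((ContinuousLinearMap.lsmul ℝ ℝ : ℝ →L[ℝ] F →L[ℝ] F).precompL E)
      (fderiv ℝ φ (z - t)) (f t)) volume := by
    have := hex.integrable_swap
    exact this
  rw [ContinuousLinearMap.integral_apply hi]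
  rfl

/-- if the mollifier is supported in a small ball, the derivative of the mollification is the
mollification of the weak derivative -/
lemma moll_weak {Ω : Set E} {f g : E → F} {Df : E → E →L[ℝ] F} (hD : WeakDerivOn Ω f Df)
    {φ : E → ℝ} (hφ : ContDiff ℝ ∞ φ) (hc : HasCompactSupport φ) {z : E} {r : ℝ}
    (hsupp : tsupport φ ⊆ closedBall 0 r) (hr : closedBall z r ⊆ Ω)
    (hg : ∀ w ∈ closedBall z r, g w = f w) (v : E) :
    ∫ w, (fderiv ℝ φ (z - w) v) • g w = ∫ w, φ (z - w) • Df w v := by
  have hψ : ContDiff ℝ ∞ (fun w => φ (z - w)) := hφ.comp (contDiff_const.sub contDiff_id)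
  have hψs : tsupport (fun w => φ (z - w)) ⊆ closedBall z r := by
    refine closure_minimal ?_ isClosed_closedBall
    intro w hw
    have : z - w ∈ closedBall (0:E) r := hsupp (subset_tsupport φ hw)
    rw [mem_closedBall, dist_zero_right] at this
    rw [mem_closedBall, dist_comm, dist_eq_norm]
    exact this
  have hψc : HasCompactSupport (fun w => φ (z - w)) :=
    IsCompact.of_isClosed_subset (isCompact_closedBall z r) (isClosed_tsupport _) hψs
  have h := hD.2.2 _ hψ hψc (hψs.trans hr) v
  have h1 : ∀ w, fderiv ℝ (fun w => φ (z - w)) w v = - fderiv ℝ φ (z - w) v := by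
    intro w
    have hd : HasFDerivAt φ (fderiv ℝ φ (z - w)) (z - w) :=
      (hφ.differentiable (by norm_num) (z - w)).hasFDerivAt
    have h2 : HasFDerivAt (fun w => z - w) (-(ContinuousLinearMap.id ℝ E)) w :=
      (hasFDerivAt_id w).const_sub z
    have h3 := hd.comp w h2
    have h4 : fderiv ℝ (fun w => φ (z - w)) w =
        (fderiv ℝ φ (z - w)).comp (-(ContinuousLinearMap.id ℝ E)) := h3.fderiv
    rw [h4]; simp
  simp_rw [h1, neg_smul] at h
  rw [integral_neg, neg_inj] at h
  rw [← h]
  congr 1
  funext w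
  by_cases hw : w ∈ closedBall z r
  · rw [hg w hw]
  · have h0 : fderiv ℝ φ (z - w) = 0 := by
      have : z - w ∉ tsupport φ := by
        intro hcon
        apply hw
        have := hsupp hcon
        rw [mem_closedBall, dist_zero_right] at this
        rw [mem_closedBall, dist_comm, dist_eq_norm]
        exact this
      by_contra hne
      exact this ((support_fderiv_subset ℝ) (Function.mem_support.mpr hne))
    rw [h0]; simp

/-- standard bumps -/
noncomputable def bmp {E : Type*} [NormedAddCommGroup E] (r : ℝ) (hr : 0 < r) :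
    ContDiffBump (0 : E) := ⟨r/2, r, by positivity, by linarith⟩


lemma step_jac {K : Set E} (hK : IsCompact K) (hKc : Convex ℝ K) {c : E} (hc : c ∈ K)
    {u : E → ℝ} (hu : Continuous u) (hu0 : ∀ x, 0 ≤ u x) {s : ℝ} (hs : 1/2 ≤ s) (hs1 : s ≤ 1) :
    ∫ y in K, u (s • y + (1 - s) • c) ≤ 2 ^ (Module.finrank ℝ E) * ∫ y in K, u y := by
  have hs0 : 0 < s := by linarith
  set U : E → ℝ := indicator K u with hU
  have hUi : Integrable U volume := by
    rw [hU, integrable_indicator_iff hK.measurableSet]
    exact hu.continuousOn.integrableOn_compact hK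
  have hU1 : Integrable (fun y => U (y + (1 - s) • c)) volume := hUi.comp_add_right _
  have hU2 : Integrable (fun y => U (s • y + (1 - s) • c)) volume := hU1.comp_smul hs0.ne'
  have hU0 : ∀ x, 0 ≤ U x := fun x => indicator_nonneg (fun x _ => hu0 x) x
  have h1 : ∫ y in K, u (s • y + (1 - s) • c) ≤ ∫ y, U (s • y + (1 - s) • c) := by
    rw [← integral_indicator hK.measurableSet]
    apply integral_mono_of_nonneg
    · exact Eventually.of_forall (fun x => indicator_nonneg (fun x _ => hu0 _) x)
    · exact hU2
    · refine Eventually.of_forall (fun x => ?_)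
      by_cases hx : x ∈ K
      · have hmem : s • x + (1 - s) • c ∈ K := hKc hx hc hs0.le (by linarith) (by ring)
        simp only [indicator_of_mem hx, hU, indicator_of_mem hmem, le_refl]
      · simp only [indicator_of_notMem hx]
        exact hU0 _
  have h2 : ∫ y, U (s • y + (1 - s) • c) = |(s ^ (Module.finrank ℝ E))⁻¹| * ∫ y, U y := by
    have := Measure.integral_comp_smul volume (fun y => U (y + (1 - s) • c)) s
    rw [this, smul_eq_mul, integral_add_right_eq_self]
  rw [h2] at h1
  refine h1.trans ?_
  rw [hU, integral_indicator hK.measurableSet]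
  apply mul_le_mul_of_nonneg_right
  · rw [abs_of_pos (by positivity), ← inv_pow]
    apply pow_le_pow_left₀ (by positivity)
    rw [inv_le_comm₀ hs0 (by norm_num)]
    linarith
  · exact setIntegral_nonneg hK.measurableSet (fun x _ => hu0 x)

lemma step_c1 {K : Set E} (hK : IsCompact K) (hKc : Convex ℝ K) {c : E} (hc : c ∈ K) {d : ℝ}
    (hd : ∀ y ∈ K, ‖y - c‖ ≤ d) {G : E → F} (hG : ContDiff ℝ 1 G) :
    ‖(∫ y in K, G ((1/2:ℝ) • (y + c))) - ∫ y in K, G y‖ ≤
      2 ^ (Module.finrank ℝ E) * (d/2) * ∫ y in K, ‖fderiv ℝ G y‖ := by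
  have hd0 : 0 ≤ d := (norm_nonneg _).trans (hd c hc)
  have hGd : Continuous (fderiv ℝ G) := hG.continuous_fderiv (by norm_num)
  have hGc : Continuous G := hG.continuous
  -- pointwise
  have hpt : ∀ y ∈ K, ‖G ((1/2:ℝ) • (y + c)) - G y‖ ≤
      ∫ t in Icc (0:ℝ) 1, (d/2) * ‖fderiv ℝ G ((1 - t/2) • y + (1 - (1 - t/2)) • c)‖ := by
    intro y hy
    have hder : ∀ t ∈ uIcc (0:ℝ) 1, HasDerivAt
        (fun t : ℝ => G ((1 - t/2) • y + (1 - (1 - t/2)) • c))
        (fderiv ℝ G ((1 - t/2) • y + (1 - (1 - t/2)) • c) ((1/2:ℝ) • (c - y))) t := by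
      intro t _
      have h1 : HasDerivAt (fun t : ℝ => (1 - t/2) • y + (1 - (1 - t/2)) • c)
          ((1/2:ℝ) • (c - y)) t := by
        have ha : HasDerivAt (fun t : ℝ => 1 - t/2) (-(1/2)) t := by
          simpa using ((hasDerivAt_id t).div_const 2).const_sub 1
        have hb : HasDerivAt (fun t : ℝ => 1 - (1 - t/2)) (1/2) t := by
          simpa using ha.const_sub 1
        have := (ha.smul_const y).add (hb.smul_const c)
        refine this.congr_deriv ?_
        module
      exact ((hG.differentiable (by norm_num)) _).hasFDerivAt.comp_hasDerivAt t h1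
    have hint : ∫ t in (0:ℝ)..1, (fderiv ℝ G ((1 - t/2) • y + (1 - (1 - t/2)) • c)
        ((1/2:ℝ) • (c - y))) = G ((1 - 1/2 : ℝ) • y + (1 - (1 - 1/2 : ℝ)) • c) -
          G ((1 - 0/2 : ℝ) • y + (1 - (1 - 0/2 : ℝ)) • c) := by
      apply intervalIntegral.integral_eq_sub_of_hasDerivAt hder
      apply Continuous.intervalIntegrable
      exact (hGd.comp (by fun_prop)).clm_apply continuous_const
    have e1 : (1 - 1/2 : ℝ) • y + (1 - (1 - 1/2 : ℝ)) • c = (1/2:ℝ) • (y + c) := by module
    have e2 : (1 - 0/2 : ℝ) • y + (1 - (1 - 0/2 : ℝ)) • c = y := by module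
    rw [e1, e2] at hint
    rw [← hint, intervalIntegral.integral_of_le (by norm_num), ← integral_Icc_eq_integral_Ioc]
    apply norm_integral_le_of_norm_le
    · apply Continuous.integrableOn_Icc
      exact continuous_const.mul (hGd.comp (by fun_prop)).norm
    · refine Eventually.of_forall (fun t => ?_)
      refine (ContinuousLinearMap.le_opNorm _ _).trans ?_
      rw [mul_comm]
      apply mul_le_mul_of_nonneg_right _ (norm_nonneg _)
      rw [norm_smul, norm_sub_rev]
      have := hd y hy
      norm_num
      linarith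
  have hprod : IntegrableOn (fun p : E × ℝ => (d/2) *
      ‖fderiv ℝ G ((1 - p.2/2) • p.1 + (1 - (1 - p.2/2)) • c)‖) (K ×ˢ Icc (0:ℝ) 1)
      ((volume : Measure E).prod (volume : Measure ℝ)) := by
    apply ContinuousOn.integrableOn_compact (hK.prod isCompact_Icc)
    apply Continuous.continuousOn
    exact continuous_const.mul (hGd.comp (by fun_prop)).norm
  have hprod' : Integrable (Function.uncurry (fun (y : E) (t : ℝ) => (d/2) *
      ‖fderiv ℝ G ((1 - t/2) • y + (1 - (1 - t/2)) • c)‖))
      ((volume.restrict K).prod (volume.restrict (Icc (0:ℝ) 1))) := by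
    rw [Measure.prod_restrict]
    exact hprod
  have hswap := integral_integral_swap hprod'
  have hi1 : IntegrableOn (fun y => G ((1/2:ℝ) • (y + c))) K volume :=
    (hGc.comp (by fun_prop)).continuousOn.integrableOn_compact hK
  have hi2 : IntegrableOn G K volume := hGc.continuousOn.integrableOn_compact hK
  rw [← integral_sub hi1 hi2]
  calc ‖∫ y in K, (G ((1/2:ℝ) • (y + c)) - G y)‖
      ≤ ∫ y in K, ∫ t in Icc (0:ℝ) 1,
          (d/2) * ‖fderiv ℝ G ((1 - t/2) • y + (1 - (1 - t/2)) • c)‖ := by
        apply norm_integral_le_of_norm_le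
        · exact hprod'.integral_prod_left
        · rw [ae_restrict_iff' hK.measurableSet]
          exact Eventually.of_forall hpt
    _ = ∫ t in Icc (0:ℝ) 1, ∫ y in K,
          (d/2) * ‖fderiv ℝ G ((1 - t/2) • y + (1 - (1 - t/2)) • c)‖ := hswap
    _ ≤ ∫ t in Icc (0:ℝ) 1, 2 ^ (Module.finrank ℝ E) * (d/2) * ∫ y in K, ‖fderiv ℝ G y‖ := by
        apply setIntegral_mono_on
        · exact hprod'.integral_prod_right
        · exact continuous_const.integrableOn_Icc
        · exact measurableSet_Icc
        · intro t ht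
          rw [integral_const_mul]
          have := step_jac hK hKc hc hGd.norm (fun x => norm_nonneg _) (s := 1 - t/2)
            (by linarith [ht.2]) (by linarith [ht.1])
          calc _ ≤ (d/2) * (2 ^ (Module.finrank ℝ E) * ∫ y in K, ‖fderiv ℝ G y‖) :=
                mul_le_mul_of_nonneg_left this (by positivity)
            _ = _ := by ring
    _ = _ := by simp

lemma tendsto_int_unif {K : Set E} (hK : IsCompact K) {F' : ℕ → E → F} {f : E → F}
    (hF : ∀ n, IntegrableOn (F' n) K volume) (hf : IntegrableOn f K volume)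
    (h : TendstoUniformlyOn F' f atTop K) :
    Tendsto (fun n => ∫ y in K, F' n y) atTop (𝓝 (∫ y in K, f y)) := by
  rw [Metric.tendsto_nhds]
  intro ε hε
  set M := (volume K).toReal with hM
  have hM0 : 0 ≤ M := ENNReal.toReal_nonneg
  rw [Metric.tendstoUniformlyOn_iff] at h
  filter_upwards [h (ε / (M + 1)) (by positivity)] with n hn
  rw [dist_eq_norm, ← integral_sub (hF n) hf]
  have h1 : ‖∫ y in K, (F' n y - f y)‖ ≤ (ε / (M + 1)) * M := by
    apply norm_setIntegral_le_of_norm_le_const hK.measure_lt_top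
    intro x hx
    rw [← dist_eq_norm, dist_comm]
    exact (hn x hx).le
  refine lt_of_le_of_lt h1 ?_
  rw [div_mul_eq_mul_div, div_lt_iff₀ (by positivity)]
  nlinarith

/-- JOB: Poincare type inequality for the half-size homothety towards a point `c` of a compact
convex set `K` -/
theorem homothety_poincare {Ω : Set E} (hΩ : IsOpen Ω) {f : E → F} (hf : ContinuousOn f Ω)
    {Df : E → E →L[ℝ] F} (hD : WeakDerivOn Ω f Df) {K : Set E} (hK : IsCompact K)
    (hKc : Convex ℝ K) (hKΩ : K ⊆ Ω) {c : E} (hc : c ∈ K) {d : ℝ} (hd : ∀ y ∈ K, ‖y - c‖ ≤ d) :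
    ‖(∫ y in K, f ((1/2:ℝ) • (y + c))) - ∫ y in K, f y‖ ≤
      2 ^ (Module.finrank ℝ E) * d * ∫ y in K, ‖Df y‖ := by
  have hd0 : 0 ≤ d := (norm_nonneg _).trans (hd c hc)
  obtain ⟨r, hr0, hrΩ⟩ := hK.exists_cthickening_subset_open hΩ hKΩ
  have hK' : ∀ δ, IsCompact (cthickening δ K) := fun δ => hK.cthickening
  have hfc : ContinuousOn f (cthickening r K) := hf.mono hrΩ
  set g : E → F := indicator (cthickening r K) f with hg
  have hgi : Integrable g volume := by
    rw [hg, integrable_indicator_iff (hK' r).measurableSet]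
    exact hfc.integrableOn_compact (hK' r)
  have hgeq : ∀ w ∈ cthickening r K, g w = f w := fun w hw => indicator_of_mem hw f
  let ρ : ℕ → E → ℝ := fun n => (bmp (E := E) (r/(n+1)) (by positivity)).normed volume
  have hρs : ∀ n, ContDiff ℝ ∞ (ρ n) := fun n => ContDiffBump.contDiff_normed _
  have hρc : ∀ n, HasCompactSupport (ρ n) := fun n => ContDiffBump.hasCompactSupport_normed _
  have hρ0 : ∀ n x, 0 ≤ ρ n x := fun n x => ContDiffBump.nonneg_normed _ x
  have hρ1 : ∀ n, ∫ x, ρ n x = 1 := fun n => ContDiffBump.integral_normed _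
  have hle : ∀ n : ℕ, r/(n+1) ≤ r := fun n => by
    apply div_le_self hr0.le
    linarith [Nat.cast_nonneg (α := ℝ) n]
  have hrn : ∀ n : ℕ, 0 < r/((n:ℝ)+1) := fun n => by positivity
  have hρt : ∀ n, tsupport (ρ n) ⊆ closedBall 0 (r/(n+1)) := by
    intro n
    have h1 := ContDiffBump.tsupport_normed_eq (bmp (E := E) (r/(n+1)) (by positivity))
      (μ := volume)
    exact h1.le
  have hball' : ∀ z ∈ K, ∀ n : ℕ, closedBall z (r/(n+1)) ⊆ cthickening (r/(n+1)) K :=
    fun z hz n => closedBall_subset_cthickening hz _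
  have hball : ∀ z ∈ K, ∀ n : ℕ, closedBall z (r/(n+1)) ⊆ cthickening r K :=
    fun z hz n => (hball' z hz n).trans (cthickening_mono (hle n) K)
  -- mollified functions
  have hsm : ∀ n, ContDiff ℝ 1 (moll (ρ n) g) := by
    intro n
    have h1 := (hρc n).contDiff_convolution_left
      (ContinuousLinearMap.lsmul ℝ ℝ : ℝ →L[ℝ] F →L[ℝ] F) ((hρs n).of_le (by norm_num) :
        ContDiff ℝ 1 (ρ n)) hgi.locallyIntegrable (μ := volume)
    have h2 : (MeasureTheory.convolution (ρ n) g (ContinuousLinearMap.lsmul ℝ ℝ) volume) =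
      moll (ρ n) g := funext (convolution_eq_moll (ρ n) g)
    rwa [h2] at h1
  have hunif : TendstoUniformlyOn (fun n => moll (ρ n) g) f atTop K := by
    rw [Metric.tendstoUniformlyOn_iff]
    intro ε hε
    have huc := (hK' r).uniformContinuousOn_of_continuous hfc
    rw [Metric.uniformContinuousOn_iff] at huc
    obtain ⟨δ, hδ, hδ'⟩ := huc (ε/2) (by positivity)
    have hlim : Tendsto (fun n : ℕ => r/((n:ℝ)+1)) atTop (𝓝 0) :=
      tendsto_const_div_atTop_nhds_zero_nat r |>.comp (tendsto_add_atTop_nat 1) |>.congr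
        (fun n => by simp)
    filter_upwards [hlim.eventually (gt_mem_nhds hδ)] with n hn z hz
    rw [dist_comm]
    have hb := hball z hz n
    have hzR : z ∈ cthickening r K := hb (mem_closedBall_self (by positivity))
    have h1 := ContDiffBump.dist_normed_convolution_le
      (φ := bmp (E := E) (r/(n+1)) (by positivity)) (μ := volume) (g := g) (x₀ := z) (ε := ε/2)
      hgi.aestronglyMeasurable (by
        intro x hx
        have hx' : x ∈ cthickening r K := hb (ball_subset_closedBall hx)
        rw [hgeq x hx', hgeq z hzR]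
        refine (hδ' x hx' z hzR ?_).le
        rw [mem_ball] at hx
        exact hx.trans hn)
    rw [hgeq z hzR, convolution_eq_moll] at h1
    exact lt_of_le_of_lt h1 (by linarith)
  -- the homothety maps K to K
  have hmap : ∀ y ∈ K, (1/2:ℝ) • (y + c) ∈ K := by
    intro y hy
    have := hKc hy hc (by norm_num : (0:ℝ) ≤ 1/2) (by norm_num : (0:ℝ) ≤ 1/2) (by norm_num)
    rwa [← smul_add] at this
  have hunif2 : TendstoUniformlyOn (fun n y => moll (ρ n) g ((1/2:ℝ) • (y + c)))
      (fun y => f ((1/2:ℝ) • (y + c))) atTop K := by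
    rw [Metric.tendstoUniformlyOn_iff] at hunif ⊢
    intro ε hε
    filter_upwards [hunif ε hε] with n hn y hy
    exact hn _ (hmap y hy)
  have hfK : ContinuousOn f K := hf.mono hKΩ
  have hlim1 := tendsto_int_unif hK (fun n => (hsm n).continuous.continuousOn.integrableOn_compact hK)
    (hfK.integrableOn_compact hK) hunif
  have hlim2 := tendsto_int_unif hK (fun n => ((hsm n).continuous.comp
    (by fun_prop : Continuous fun y : E => (1/2:ℝ) • (y + c))).continuousOn.integrableOn_compact hK)
    ((hfK.comp (by fun_prop : Continuous fun y : E => (1/2:ℝ) • (y + c)).continuousOn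
      hmap).integrableOn_compact hK) hunif2
  have hlim := (hlim2.sub hlim1).norm
  -- integrability of Df near K
  have hDi : ∀ δ ≤ r, IntegrableOn Df (cthickening δ K) volume := fun δ hδ =>
    hD.2.1.integrableOn_compact_subset ((cthickening_mono hδ K).trans hrΩ) (hK' δ)
  -- bound for derivative
  have hbound : ∀ n : ℕ, ∫ y in K, ‖fderiv ℝ (moll (ρ n) g) y‖ ≤
      ∫ w in cthickening (r/(n+1)) K, ‖Df w‖ := by
    intro n
    set D : E → ℝ := indicator (cthickening (r/(n+1)) K) (fun w => ‖Df w‖) with hDdef
    have hDint : Integrable D volume := by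
      rw [hDdef, integrable_indicator_iff (hK' _).measurableSet]
      exact (hDi _ (hle n)).norm
    have hD0 : ∀ w, 0 ≤ D w := fun w => indicator_nonneg (fun _ _ => norm_nonneg _) w
    have hρcont : Continuous (ρ n) := (hρs n).continuous
    have hρint : Integrable (ρ n) volume := hρcont.integrable_of_hasCompactSupport (hρc n)
    have hconv : Integrable (fun p : E × E => D p.2 * ρ n (p.1 - p.2))
        ((volume : Measure E).prod (volume : Measure E)) := by
      have := Integrable.convolution_integrand (ContinuousLinearMap.mul ℝ ℝ) hDint hρint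
      exact this
    have hpt : ∀ z ∈ K, ‖fderiv ℝ (moll (ρ n) g) z‖ ≤ ∫ w, D w * ρ n (z - w) := by
      intro z hz
      obtain ⟨A, hA, hAv⟩ := moll_hasFDerivAt (hρs n) (hρc n) hgi.locallyIntegrable z
      rw [hA.fderiv]
      have hnn : 0 ≤ ∫ w, D w * ρ n (z - w) :=
        integral_nonneg (fun w => mul_nonneg (hD0 w) (hρ0 n _))
      apply ContinuousLinearMap.opNorm_le_bound _ hnn
      intro v
      have hb := hball z hz n
      rw [hAv, moll_weak hD (hρs n) (hρc n) (hρt n) (hb.trans hrΩ) (fun w hw => hgeq w (hb hw)) v]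
      rw [← integral_mul_const]
      have hint : Integrable (fun w => D w * ρ n (z - w)) volume := by
        obtain ⟨C, hC⟩ := (hρc n).exists_bound_of_continuous hρcont
        refine hDint.mul_bdd (c := C) ?_ ?_
        · exact (hρcont.comp (by fun_prop)).aestronglyMeasurable
        · exact Eventually.of_forall (fun w => hC _)
      apply norm_integral_le_of_norm_le (hint.mul_const _)
      refine Eventually.of_forall (fun w => ?_)
      rw [norm_smul, Real.norm_of_nonneg (hρ0 n _)]
      by_cases hw : w ∈ closedBall z (r/(n+1))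
      · have : D w = ‖Df w‖ := indicator_of_mem (hball' z hz n hw) _
        rw [this]
        calc ρ n (z - w) * ‖Df w v‖ ≤ ρ n (z - w) * (‖Df w‖ * ‖v‖) :=
              mul_le_mul_of_nonneg_left (ContinuousLinearMap.le_opNorm _ _) (hρ0 n _)
          _ = _ := by ring
      · have h0 : ρ n (z - w) = 0 := by
          by_contra hne
          apply hw
          have h1 : z - w ∈ closedBall (0:E) (r/(n+1)) :=
            hρt n (subset_tsupport _ (Function.mem_support.mpr hne))
          rw [mem_closedBall, dist_zero_right] at h1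
          rw [mem_closedBall, dist_comm, dist_eq_norm]
          exact h1
        rw [h0]; simp
    calc ∫ y in K, ‖fderiv ℝ (moll (ρ n) g) y‖ ≤ ∫ z in K, ∫ w, D w * ρ n (z - w) := by
          apply setIntegral_mono_on
          · exact ((hsm n).continuous_fderiv (by norm_num)).norm.continuousOn.integrableOn_compact hK
          · exact hconv.integral_prod_left.integrableOn
          · exact hK.measurableSet
          · exact hpt
      _ ≤ ∫ z, ∫ w, D w * ρ n (z - w) := by
          apply setIntegral_le_integral hconv.integral_prod_left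
          exact Eventually.of_forall (fun z => integral_nonneg
            (fun w => mul_nonneg (hD0 w) (hρ0 n _)))
      _ = ∫ w, ∫ z, D w * ρ n (z - w) := integral_integral_swap hconv
      _ = ∫ w, D w := by
          congr 1
          funext w
          rw [integral_const_mul, integral_sub_right_eq_self (fun z => ρ n z) w, hρ1, mul_one]
      _ = _ := by rw [hDdef, integral_indicator (hK' _).measurableSet]
  have hKcl : (⋂ n : ℕ, cthickening (r/((n:ℝ)+1)) K) = K := by
    apply Subset.antisymm
    · intro x hx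
      rw [mem_iInter] at hx
      by_contra hxK
      have hpos : 0 < infDist x K :=
        (hK.isClosed.notMem_iff_infDist_pos ⟨c, hc⟩).mp hxK
      obtain ⟨n, hn⟩ := exists_nat_gt (r / infDist x K)
      have h1 : infDist x K ≤ r/((n:ℝ)+1) := by
        have := hx n
        rw [mem_cthickening_iff] at this
        exact ENNReal.toReal_le_of_le_ofReal (hrn n).le this
      rw [div_lt_iff₀ hpos] at hn
      rw [le_div_iff₀ (by positivity)] at h1
      nlinarith
    · exact subset_iInter (fun n => self_subset_cthickening K)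
  have hlimD : Tendsto (fun n : ℕ => ∫ w in cthickening (r/((n:ℝ)+1)) K, ‖Df w‖) atTop
      (𝓝 (∫ w in K, ‖Df w‖)) := by
    have h := tendsto_setIntegral_of_antitone (μ := volume) (f := fun w => ‖Df w‖)
      (s := fun n : ℕ => cthickening (r/((n:ℝ)+1)) K)
      (fun n => (hK' _).measurableSet) (by
        intro m n hmn
        apply cthickening_mono
        apply div_le_div_of_nonneg_left hr0.le (by positivity)
        have : (m:ℝ) ≤ n := by exact_mod_cast hmn
        linarith) ⟨0, (hDi _ (hle 0)).norm⟩
    rwa [hKcl] at h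
  have hfin := le_of_tendsto_of_tendsto' hlim
    (hlimD.const_mul (2 ^ (Module.finrank ℝ E) * (d/2))) (fun n =>
      (step_c1 hK hKc hc hd (hsm n)).trans
        (mul_le_mul_of_nonneg_left (hbound n) (by positivity)))
  refine hfin.trans ?_
  apply mul_le_mul_of_nonneg_right _ (setIntegral_nonneg hK.measurableSet (fun _ _ => norm_nonneg _))
  apply mul_le_mul_of_nonneg_left _ (by positivity)
  linarith

end Pool.Agent.Helper930.Ln
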