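import Mathlib
import Pool.Agent.Helper930.LnCore
import Pool.Agent.Helper930.LnJ4

set_option autoImplicit false

open Set Filter Topology MeasureTheory Metric
open scoped ENNReal

namespace Pool.Agent.Helper930.Ln

variable {n : ℕ}

lemma idx_finite (j : ℕ) (x₀ : Eu n) (R : ℝ) {A : Set (Eu n)} (hA : A ⊆ closedBall x₀ R) :
    (idx j '' A).Finite := by
  have h1 : ∃ M : ℤ, ∀ x ∈ A, ∀ i, |2^j * x i| ≤ M := by
    refine ⟨⌈2^j * (‖x₀‖ + R)⌉, fun x hx i => ?_⟩
    refine le_trans ?_ (Int.le_ceil _)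
    rw [abs_mul, abs_of_pos (by positivity : (0:ℝ) < 2^j)]
    gcongr
    have h2 : ‖x i‖ ≤ ‖x‖ := PiLp.norm_apply_le x i
    rw [Real.norm_eq_abs] at h2
    have h3 := hA hx
    rw [mem_closedBall, dist_eq_norm] at h3
    have h4 : ‖x‖ ≤ ‖x₀‖ + ‖x - x₀‖ := by
      have := norm_add_le x₀ (x - x₀)
      rwa [add_sub_cancel] at this
    linarith
  obtain ⟨M, hM⟩ := h1
  apply (Set.finite_Icc (fun _ : Fin n => -M - 1) (fun _ : Fin n => M)).subset
  rintro _ ⟨x, hx, rfl⟩
  constructor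
  · intro i
    have h2 := (abs_le.mp (hM x hx i)).1
    change -M - 1 ≤ ⌊2^j * x i⌋
    rw [Int.le_floor]
    push_cast
    linarith
  · intro i
    have h2 := (abs_le.mp (hM x hx i)).2
    change ⌊2^j * x i⌋ ≤ M
    have h3 := Int.floor_le (2^j * x i)
    have h4 : (⌊2^j * x i⌋ : ℝ) ≤ (M:ℝ) := h3.trans h2
    exact_mod_cast h4

/-- a map violating condition (N) does so inside a compact ball -/
lemma exists_local {Ω : Set (Eu n)} (hΩ : IsOpen Ω) {f : Eu n → Eu n} {A : Set (Eu n)}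
    (hAΩ : A ⊆ Ω) (hfA : volume (f '' A) ≠ 0) :
    ∃ (x₀ : Eu n) (r : ℝ), 0 < r ∧ closedBall x₀ (2*r) ⊆ Ω ∧
      volume (f '' (A ∩ closedBall x₀ r)) ≠ 0 := by
  by_contra hcon
  push Not at hcon
  apply hfA
  have h1 : ∀ x ∈ A, ∃ r : ℝ, 0 < r ∧ closedBall x (2*r) ⊆ Ω := by
    intro x hx
    obtain ⟨R, hR, hRΩ⟩ := Metric.nhds_basis_closedBall.mem_iff.mp (hΩ.mem_nhds (hAΩ hx))
    exact ⟨R/2, by positivity, by rwa [mul_div_cancel₀ _ (by norm_num : (2:ℝ) ≠ 0)]⟩
  choose! r hr hrΩ using h1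
  obtain ⟨t, htA, htc, ht⟩ := TopologicalSpace.countable_cover_nhdsWithin
    (s := A) (f := fun x => closedBall x (r x))
    (fun x hx => mem_nhdsWithin_of_mem_nhds (closedBall_mem_nhds x (hr x hx)))
  have h2 : f '' A ⊆ ⋃ x ∈ t, f '' (A ∩ closedBall x (r x)) := by
    rintro _ ⟨y, hy, rfl⟩
    obtain ⟨x, hx, hyx⟩ := mem_iUnion₂.mp (ht hy)
    exact mem_iUnion₂.mpr ⟨x, hx, y, ⟨hy, hyx⟩, rfl⟩
  refine measure_mono_null h2 ((measure_biUnion_null_iff htc).mpr (fun x hx => ?_))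
  exact hcon x (r x) (hr x (htA hx)) (hrΩ x (htA hx))

theorem dirB (hn : 2 ≤ n) {w : ℝ → ℝ} (hw : IsModulus w) (hP : ¬ PropertyP n w) :
    ∃ x : ℕ → ℝ, (∀ i, 0 ≤ x i) ∧ Summable (fun i => x i ^ n) ∧ ∃ c : ℝ, 0 < c ∧
      ∀ m : ℕ, c * Real.exp (-∑ i ∈ Finset.range m, x i) ≤ w ((1/2) ^ m) := by
  unfold PropertyP at hP
  push Not at hP
  obtain ⟨Ω, hΩ, f, hf, ⟨hfL, Df, hDf, hibp⟩, hmodf, hN⟩ := hP
  unfold LusinN at hN
  push Not at hN
  obtain ⟨A₀, hA₀Ω, hA₀, hfA₀⟩ := hN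
  obtain ⟨x₀, r, hr, hrΩ, hpos⟩ := exists_local hΩ hA₀Ω hfA₀
  set K : Set (Eu n) := closedBall x₀ (2*r) with hK
  have hKc : IsCompact K := isCompact_closedBall _ _
  set A₁ : Set (Eu n) := A₀ ∩ closedBall x₀ r with hA₁
  have hA₁v : volume A₁ = 0 := measure_mono_null inter_subset_left hA₀
  have hfKfin : volume (f '' K) ≠ ⊤ := (hKc.image_of_continuousOn (hf.mono hrΩ)).measure_lt_top.ne
  have hA₁K : A₁ ⊆ ball x₀ (2*r) := by
    intro y hy
    have := hy.2
    rw [mem_closedBall] at this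
    rw [mem_ball]; linarith
  set β : ℝ≥0∞ := volume (f '' A₁) with hβ
  have hβtop : β ≠ ⊤ := measure_ne_top_of_subset
    (image_mono (hA₁K.trans ball_subset_closedBall)) hfKfin
  -- modulus on K
  obtain ⟨CK, hCK⟩ := hmodf K hrΩ hKc
  set C : ℝ := max CK 1 with hC
  have hC0 : 0 < C := lt_max_of_lt_right one_pos
  have hwnn : ∀ t, 0 ≤ t → 0 ≤ w t := by
    intro t ht
    rcases ht.eq_or_lt with h | h
    · rw [← h, hw.zero]
    · exact (hw.pos t h).le
  have hCmod : ∀ x ∈ K, ∀ y ∈ K, ‖f x - f y‖ ≤ C * w ‖x - y‖ := by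
    intro x hx y hy
    refine (hCK x hx y hy).trans ?_
    have := hwnn ‖x - y‖ (norm_nonneg _)
    gcongr
    exact le_max_left _ _
  -- representative of the derivative
  set Dm := hDf.1.mk Df with hDm
  have hDmeas : StronglyMeasurable Dm := hDf.1.stronglyMeasurable_mk
  have hDae : Df =ᵐ[volume.restrict Ω] Dm := hDf.1.ae_eq_mk
  set h : Eu n → ℝ := fun y => ‖Dm y‖ with hh
  have hh0 : ∀ y, 0 ≤ h y := fun y => norm_nonneg _
  have hhm : Measurable h := hDmeas.norm.measurable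
  have hDmL : MemLp Dm n (volume.restrict Ω) := (memLp_congr_ae hDae).mp hDf
  have hhL : MemLp h n (volume.restrict Ω) := hDmL.norm
  have hn1 : (1:ℝ≥0∞) ≤ (n:ℝ≥0∞) := by exact_mod_cast (by omega : 1 ≤ n)
  have hhK : IntegrableOn h K := by
    have h1 : MemLp h n (volume.restrict K) := hhL.mono_measure (Measure.restrict_mono hrΩ le_rfl)
    haveI : IsFiniteMeasure (volume.restrict K) :=
      ⟨by rw [Measure.restrict_apply_univ]; exact hKc.measure_lt_top⟩
    exact h1.integrable hn1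
  have hlint : ∫⁻ y, ENNReal.ofReal (2^(n+1) * (h y)^n) ∂(volume.restrict Ω) ≠ ⊤ := by
    have h1 := (eLpNorm_lt_top_iff_lintegral_rpow_enorm_lt_top (p := (n:ℝ≥0∞)) (f := h)
      (μ := volume.restrict Ω) (by
        have : (n:ℝ≥0∞) ≠ 0 := by
          have : n ≠ 0 := by omega
          exact_mod_cast this
        exact this) (ENNReal.natCast_ne_top n)).mp hhL.2
    have h2 : ∀ y, ENNReal.ofReal (2^(n+1) * (h y)^n) =
        ENNReal.ofReal (2^(n+1)) * ‖h y‖ₑ ^ ((n:ℝ≥0∞).toReal) := by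
      intro y
      rw [ENNReal.ofReal_mul (by positivity), ENNReal.toReal_natCast, ENNReal.rpow_natCast,
        ENNReal.ofReal_pow (hh0 y), ← ofReal_norm, Real.norm_of_nonneg (hh0 y)]
    simp_rw [h2]
    rw [lintegral_const_mul' _ _ ENNReal.ofReal_ne_top]
    exact (ENNReal.mul_lt_top ENNReal.ofReal_lt_top h1).ne
  -- smallness
  set C₀ : ℝ := 2^n * Real.sqrt n with hC₀
  have hC₀0 : 0 ≤ C₀ := by positivity
  set Cst : ℝ≥0∞ := ENNReal.ofReal ((32 * C₀)^n) * volume (ball (0:Eu n) 1) with hCst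
  have hCsttop : Cst ≠ ⊤ := ENNReal.mul_ne_top ENNReal.ofReal_ne_top measure_ball_lt_top.ne
  set ε : ℝ≥0∞ := (β/2) / (Cst + 1) with hε
  have hε0 : ε ≠ 0 := by
    rw [hε]
    apply (ENNReal.div_pos _ _).ne'
    · exact (ENNReal.half_pos hpos).ne'
    · exact ENNReal.add_ne_top.mpr ⟨hCsttop, ENNReal.one_ne_top⟩
  have hCε : Cst * ε ≤ β/2 := by
    rw [hε]
    calc Cst * (β / 2 / (Cst + 1)) ≤ (Cst + 1) * (β / 2 / (Cst + 1)) := by
          gcongr; exact le_self_add
      _ = β/2 := ENNReal.mul_div_cancel (by simp)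
          (ENNReal.add_ne_top.mpr ⟨hCsttop, ENNReal.one_ne_top⟩)
  obtain ⟨δ, hδ, hδ2⟩ := exists_pos_setLIntegral_lt_of_measure_lt hlint hε0
  obtain ⟨V₀, hV₀A, hV₀o, hV₀δ⟩ := A₁.exists_isOpen_lt_of_lt δ (by rw [hA₁v]; exact hδ)
  set U : Set (Eu n) := V₀ ∩ ball x₀ (2*r) with hU
  have hUo : IsOpen U := hV₀o.inter isOpen_ball
  have hUK : U ⊆ K := inter_subset_right.trans ball_subset_closedBall
  have hUΩ : U ⊆ Ω := hUK.trans hrΩ
  have hA₁U : A₁ ⊆ U := subset_inter hV₀A hA₁K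
  have hUint : ∫⁻ y in U, ENNReal.ofReal (2^(n+1) * (h y)^n) < ε := by
    have h1 := hδ2 U (by
      refine lt_of_le_of_lt ?_ hV₀δ
      exact (Measure.restrict_apply_le _ _).trans (measure_mono inter_subset_left))
    rwa [Measure.restrict_restrict hUo.measurableSet, inter_eq_left.mpr hUΩ] at h1
  -- generation
  set Ej : ℕ → Set (Eu n) := fun j => {x ∈ A₁ | closure (Qk j (idx j x)) ⊆ U} with hEj
  have hmono : Monotone (fun j => f '' Ej j) := by
    apply monotone_nat_of_le_succ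
    intro j
    apply image_mono
    rintro x ⟨hx, hx2⟩
    exact ⟨hx, (closure_mono (Qk_anti (Nat.le_succ j) x)).trans hx2⟩
  have hunion : (⋃ j, f '' Ej j) = f '' A₁ := by
    rw [← image_iUnion]
    congr 1
    apply Subset.antisymm
    · exact iUnion_subset (fun j x hx => hx.1)
    · intro x hx
      obtain ⟨ρ, hρ, hρU⟩ := Metric.isOpen_iff.mp hUo x (hA₁U hx)
      have h1 : Tendsto (fun j : ℕ => Real.sqrt n * (1/2:ℝ)^j) atTop (𝓝 0) := by
        have := (tendsto_pow_atTop_nhds_zero_of_lt_one (r := (1/2:ℝ)) (by norm_num)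
          (by norm_num)).const_mul (Real.sqrt n)
        rwa [mul_zero] at this
      obtain ⟨j, hj⟩ := (h1.eventually (gt_mem_nhds hρ)).exists
      rw [mem_iUnion]
      refine ⟨j, hx, fun y hy => hρU ?_⟩
      rw [mem_ball, dist_eq_norm]
      exact (dist_le_of_mem_closure (subset_closure (mem_Qk_self j x)) hy).trans_lt hj
  have hhalf : β/2 < β := ENNReal.half_lt_self hpos hβtop
  obtain ⟨j₀, hj₀⟩ : ∃ j, β/2 < volume (f '' Ej j) := by
    rw [← lt_iSup_iff, ← hmono.measure_iUnion, hunion]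
    exact hhalf
  set A := Ej j₀ with hA
  have hAcl : ∀ x ∈ A, ∀ i, closure (Qk (j₀+i) (idx (j₀+i) x)) ⊆ U := fun x hx i =>
    (closure_mono (Qk_anti (by omega) x)).trans hx.2
  have hweak : WeakDerivOn Ω f Df := by
    refine ⟨hf.locallyIntegrableOn hΩ.measurableSet, ?_, hibp⟩
    intro x hx
    obtain ⟨R, hR, hRΩ⟩ := Metric.nhds_basis_closedBall.mem_iff.mp (hΩ.mem_nhds hx)
    refine ⟨closedBall x R, mem_nhdsWithin_of_mem_nhds (closedBall_mem_nhds x hR), ?_⟩
    have h1 : MemLp Df n (volume.restrict (closedBall x R)) :=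
      hDf.mono_measure (Measure.restrict_mono hRΩ le_rfl)
    haveI : IsFiniteMeasure (volume.restrict (closedBall x R)) :=
      ⟨by rw [Measure.restrict_apply_univ]; exact (isCompact_closedBall x R).measure_lt_top⟩
    exact h1.integrable hn1
  set m : ℕ → ℝ := fun i => C * w (Real.sqrt n * (1/2)^(j₀+i)) with hm
  have hsqrt : 0 < Real.sqrt n := Real.sqrt_pos.mpr (by exact_mod_cast (by omega : 0 < n))
  obtain ⟨x, hx0, hxs, C₁, hC₁⟩ := core hn hh0 hhm (f := f) (U := U) (A := A) (j₀ := j₀)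
    (fun x hx => subset_closure.trans hx.2)
    (fun x hx => hhK.mono_set ((subset_closure.trans hx.2).trans hUK))
    hC₀0
    (by
      intro x hx i
      have hcl := hAcl x hx i
      have hp := homothety_poincare hΩ hf hweak (isCompact_closure_Qk (j₀+i) x)
        (convex_Qk (j₀+i) (idx (j₀+i) x)).closure (hcl.trans hUΩ) (ctr_mem (j₀+i) x)
        (d := Real.sqrt n * (1/2)^(j₀+i))
        (fun y hy => dist_le_of_mem_closure (ctr_mem (j₀+i) x) hy)
      rw [finrank_euclideanSpace_fin] at hp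
      have he : ∫ y in closure (Qk (j₀+i) (idx (j₀+i) x)), ‖Df y‖ =
          ∫ y in closure (Qk (j₀+i) (idx (j₀+i) x)), h y := by
        apply integral_congr_ae
        have h1 := ae_restrict_of_ae_restrict_of_subset (hcl.trans hUΩ) hDae
        filter_upwards [h1] with y hy
        rw [hy]
      rw [he] at hp
      exact avg_step hp)
    (m := m)
    (by
      intro x hx i
      have hcl := subset_closure.trans (hAcl x hx i)
      apply avg_dist
      · exact ((hf.mono hrΩ).integrableOn_compact hKc).mono_set (hcl.trans hUK)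
      · intro y hy
        refine (hCmod y (hUK (hcl hy)) x (hUK (hcl (mem_Qk_self _ _)))).trans ?_
        simp only [hm]
        gcongr
        exact hw.mono (mem_Ici.mpr (norm_nonneg _)) (mem_Ici.mpr (by positivity))
          (dist_le_of_mem (mem_Qk_self _ _) hy))
    (fun i => idx_finite (j₀+i) x₀ (2*r) (fun x hx => hUK (hA₁U hx.1)))
    (by
      refine measure_ne_top_of_subset ?_ hfKfin
      apply closure_minimal _ (hKc.image_of_continuousOn (hf.mono hrΩ)).isClosed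
      exact image_mono (fun x hx => hUK (hA₁U hx.1)))
    (hUint.trans_le le_top).ne
    (by
      refine lt_of_le_of_lt ?_ hj₀
      refine le_trans ?_ hCε
      gcongr)
  -- final conversion
  set p : ℕ := n with hp
  have hsp : Real.sqrt n * (1/2)^p ≤ 1 := by
    have h1 : (n:ℝ) < 2^n := by exact_mod_cast Nat.lt_two_pow_self
    have h2 : Real.sqrt n ≤ 2^n := by
      rw [Real.sqrt_le_left (by positivity)]
      have h3 : (1:ℝ) ≤ 2^n := one_le_pow₀ (by norm_num)
      nlinarith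
    rw [one_div, inv_pow, ← div_eq_mul_inv, div_le_one (by positivity)]
    exact h2
  refine ⟨fun i => x (p+1+i), fun i => hx0 _, ?_, Real.exp (-C₁ - ∑ i ∈ Finset.range (p+1), x i) / C,
    by positivity, fun q => ?_⟩
  · have h1 := (summable_nat_add_iff (f := fun i => x i ^ n) (p+1)).mpr hxs
    refine h1.congr (fun i => ?_)
    rw [add_comm]
  · have h1 := hC₁ (q + p)
    have h2 : q + p + 1 = (p + 1) + q := by ring
    rw [h2, Finset.sum_range_add] at h1
    have hmpos : 0 < m (q+p) := mul_pos hC0 (hw.pos _ (by positivity))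
    have h3 : Real.exp (-C₁ - ∑ i ∈ Finset.range (p+1), x i) *
        Real.exp (-∑ i ∈ Finset.range q, x (p+1+i)) ≤ m (q+p) := by
      rw [← Real.exp_add]
      calc _ ≤ Real.exp (Real.log (m (q+p))) := by
            apply Real.exp_le_exp.mpr; linarith
        _ = _ := Real.exp_log hmpos
    have h4 : w (Real.sqrt n * (1/2)^(j₀+(q+p))) ≤ w ((1/2)^q) := by
      apply hw.mono (mem_Ici.mpr (by positivity)) (mem_Ici.mpr (by positivity))
      calc Real.sqrt n * (1/2)^(j₀+(q+p)) = (Real.sqrt n * (1/2)^p) * ((1/2)^j₀ * (1/2)^q) := by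
            rw [pow_add, pow_add]; ring
        _ ≤ 1 * (1 * (1/2)^q) := by
            gcongr
            exact pow_le_one₀ (by norm_num) (by norm_num)
        _ = _ := by ring
    rw [div_mul_eq_mul_div, div_le_iff₀ hC0]
    refine h3.trans ?_
    simp only [hm]
    rw [mul_comm]
    gcongr

end Pool.Agent.Helper930.Ln
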