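import Mathlib

set_option autoImplicit false

open Set Filter Topology

namespace Pool.Agent.Helper930.Ln

theorem exists_T_627 (y : ℕ → ℝ) (hy : ∀ i, 0 ≤ y i)
    (hY : Tendsto (fun m => ∑ i ∈ Finset.range m, y i) atTop atTop) (δ a : ℝ)
    (ha : 0 < a) (N : ℕ) (hN : ∀ i, N ≤ i → y i ≤ δ) :
    ∃ T : ℕ → ℕ, ∀ k, N ≤ T k ∧ T k < T (k+1) ∧
      a ≤ ∑ i ∈ Finset.Ico (T k) (T (k+1)), y i ∧ ∑ i ∈ Finset.Ico (T k) (T (k+1)), y i ≤ a + δ := by
  classical
  have step : ∀ m : ℕ, N ≤ m → ∃ m', m < m' ∧ a ≤ ∑ i ∈ Finset.Ico m m', y i ∧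
      ∑ i ∈ Finset.Ico m m', y i ≤ a + δ := by
    intro m hm
    have hex : ∃ m', (∑ i ∈ Finset.range m, y i) + a ≤ ∑ i ∈ Finset.range m', y i :=
      (hY.eventually_ge_atTop _).exists
    have hspec := Nat.find_spec hex
    have hmin := fun j => Nat.find_min hex (m := j)
    set m' := Nat.find hex with hm'
    have hlt : m < m' := by
      by_contra hcon
      push Not at hcon
      have : ∑ i ∈ Finset.range m', y i ≤ ∑ i ∈ Finset.range m, y i := by
        apply Finset.sum_le_sum_of_subset_of_nonneg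
        · exact Finset.range_mono hcon
        · intro i _ _; exact hy i
      linarith
    have h1 := hmin (m' - 1) (by omega)
    push Not at h1
    have h2 : ∑ i ∈ Finset.range m', y i = ∑ i ∈ Finset.range (m' - 1), y i + y (m' - 1) := by
      have : m' = (m' - 1) + 1 := by omega
      conv_lhs => rw [this]
      rw [Finset.sum_range_succ]
    have h3 : y (m' - 1) ≤ δ := hN _ (by omega)
    have h4 : ∑ i ∈ Finset.Ico m m', y i = ∑ i ∈ Finset.range m', y i - ∑ i ∈ Finset.range m, y i :=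
      Finset.sum_Ico_eq_sub _ hlt.le
    refine ⟨m', hlt, ?_, ?_⟩
    · rw [h4]; linarith
    · rw [h4]; linarith
  choose! g hg using step
  refine ⟨fun k => g^[k] N, ?_⟩
  have hT : ∀ k, N ≤ g^[k] N := by
    intro k
    induction k with
    | zero => simp
    | succ k ih =>
      rw [Function.iterate_succ_apply']
      exact ih.trans (hg _ ih).1.le
  intro k
  refine ⟨hT k, ?_, ?_, ?_⟩
  · show g^[k] N < g^[k+1] N
    rw [Function.iterate_succ_apply']
    exact (hg _ (hT k)).1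
  · show a ≤ ∑ i ∈ Finset.Ico (g^[k] N) (g^[k+1] N), y i
    rw [Function.iterate_succ_apply']
    exact (hg _ (hT k)).2.1
  · show ∑ i ∈ Finset.Ico (g^[k] N) (g^[k+1] N), y i ≤ a + δ
    rw [Function.iterate_succ_apply']
    exact (hg _ (hT k)).2.2

/-- JOB: choice of the radii -/
theorem exists_radii {n : ℕ} (hn : 2 ≤ n) {ω : ℝ → ℝ} (hmono : MonotoneOn ω (Ici 0))
    (hpos : ∀ t, 0 < t → 0 < ω t) {x : ℕ → ℝ} (hx : ∀ i, 0 ≤ x i)
    (hs : Summable (fun i => x i ^ n)) {c : ℝ} (hc : 0 < c)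
    (hω : ∀ m : ℕ, c * Real.exp (-∑ i ∈ Finset.range m, x i) ≤ ω ((1/2) ^ m))
    {M : ℝ} (hM : 1 < M) :
    ∃ ρ : ℕ → ℝ, (∀ k, 0 < ρ k) ∧ (∀ k, ρ (k+1) ≤ ρ k / M) ∧
      Summable (fun k => (1 / Real.log (ρ k / ρ (k+1))) ^ (n - 1)) ∧
      ∃ c' : ℝ, 0 < c' ∧ ∀ k : ℕ, c' * (1/2) ^ k ≤ ω (ρ k) := by
  set y : ℕ → ℝ := fun i => x i + 1 / ((i : ℝ) + 1) with hy
  have hy0 : ∀ i, 0 ≤ y i := fun i => add_nonneg (hx i) (by positivity)
  have hys : Summable (fun i => y i ^ n) := by
    have h1 : Summable (fun i : ℕ => (1 / ((i : ℝ) + 1)) ^ n) := by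
      have h2 : Summable (fun i : ℕ => 1 / ((i : ℝ)) ^ n) := Real.summable_one_div_nat_pow.mpr (by omega)
      have h3 := (summable_nat_add_iff 1).mpr h2
      refine h3.congr ?_
      intro i
      push_cast
      rw [div_pow, one_pow]
    refine Summable.of_nonneg_of_le (fun i => pow_nonneg (hy0 i) n) (fun i => ?_)
      ((hs.add h1).mul_left ((2:ℝ)^(n-1)))
    exact add_pow_le (hx i) (by positivity) n
  have hY : Tendsto (fun m => ∑ i ∈ Finset.range m, y i) atTop atTop := by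
    apply tendsto_atTop_mono _ Real.tendsto_sum_range_one_div_nat_succ_atTop
    intro m
    apply Finset.sum_le_sum
    intro i _
    show 1 / ((i : ℝ) + 1) ≤ x i + 1 / ((i : ℝ) + 1)
    linarith [hx i]
  have hy_lim : Tendsto y atTop (𝓝 0) := by
    have h1 : Tendsto (fun i => y i ^ n) atTop (𝓝 0) := hys.tendsto_atTop_zero
    have hn0 : n ≠ 0 := by omega
    rw [Metric.tendsto_atTop] at h1 ⊢
    intro ε hε
    obtain ⟨N, hN⟩ := h1 (ε ^ n) (by positivity)
    refine ⟨N, fun i hi => ?_⟩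
    have := hN i hi
    rw [Real.dist_eq, sub_zero, abs_of_nonneg (pow_nonneg (hy0 i) n)] at this
    rw [Real.dist_eq, sub_zero, abs_of_nonneg (hy0 i)]
    exact lt_of_pow_lt_pow_left₀ n hε.le this
  obtain ⟨K, hK⟩ : ∃ K : ℕ, M ≤ (2:ℝ) ^ K := by
    obtain ⟨K, hK⟩ := pow_unbounded_of_one_lt M (one_lt_two)
    exact ⟨K, hK.le⟩
  have hlog : 0 < Real.log 2 := Real.log_pos one_lt_two
  set a : ℝ := Real.log 2 / 2 with ha
  have ha0 : 0 < a := by positivity
  set δ : ℝ := a / (K + 1) with hδ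
  have hδ0 : 0 < δ := by positivity
  have hδa : δ ≤ a := by
    rw [hδ]; apply div_le_self ha0.le; linarith [(Nat.cast_nonneg K : (0:ℝ) ≤ K)]
  obtain ⟨N, hN⟩ : ∃ N : ℕ, ∀ i, N ≤ i → y i ≤ δ := by
    have := (hy_lim.eventually (gt_mem_nhds hδ0))
    rw [eventually_atTop] at this
    obtain ⟨N, hN⟩ := this
    exact ⟨N, fun i hi => (hN i hi).le⟩
  obtain ⟨T, hT⟩ := exists_T_627 y hy0 hY δ a ha0 N hN
  have hTK : ∀ k, T k + K + 1 ≤ T (k+1) := by
    intro k
    obtain ⟨h0, h1, h2, h3⟩ := hT k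
    have h4 : ∑ i ∈ Finset.Ico (T k) (T (k+1)), y i ≤ ((T (k+1) - T k : ℕ) : ℝ) * δ := by
      calc _ ≤ ∑ i ∈ Finset.Ico (T k) (T (k+1)), δ := by
            apply Finset.sum_le_sum
            intro i hi
            rw [Finset.mem_Ico] at hi
            exact hN i (h0.trans hi.1)
        _ = _ := by rw [Finset.sum_const, Nat.card_Ico, nsmul_eq_mul]
    have h5 : ((K:ℝ) + 1) * δ = a := by rw [hδ]; field_simp
    have h6 : ((K:ℝ) + 1) * δ ≤ ((T (k+1) - T k : ℕ) : ℝ) * δ := by rw [h5]; exact h2.trans h4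
    have h7 : ((K:ℝ) + 1) ≤ ((T (k+1) - T k : ℕ) : ℝ) := le_of_mul_le_mul_right h6 hδ0
    have h8 : K + 1 ≤ T (k+1) - T k := by exact_mod_cast h7
    omega
  have hmon : Monotone T := monotone_nat_of_le_succ (fun k => (hT k).2.1.le)
  refine ⟨fun k => (1/2) ^ T k, fun k => by positivity, ?_, ?_, ?_⟩
  · intro k
    show (1/2 : ℝ) ^ T (k+1) ≤ (1/2) ^ T k / M
    rw [le_div_iff₀ (by linarith)]
    have h1 : T (k+1) = T k + (T (k+1) - T k) := by have := hTK k; omega
    have h2 : (1/2 : ℝ) ^ (T (k+1) - T k) ≤ (1/2) ^ K := by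
      apply pow_le_pow_of_le_one (by norm_num) (by norm_num)
      have := hTK k; omega
    calc (1/2 : ℝ) ^ T (k+1) * M = (1/2)^T k * ((1/2 : ℝ) ^ (T (k+1) - T k) * M) := by
          conv_lhs => rw [h1]
          rw [pow_add]; ring
      _ ≤ (1/2)^T k * ((1/2) ^ K * 2 ^ K) := by
          gcongr
      _ = (1/2)^T k := by rw [← mul_pow]; norm_num
  · have hlogeq : ∀ k, Real.log ((1/2:ℝ) ^ T k / (1/2) ^ T (k+1)) = ((T (k+1) - T k : ℕ) : ℝ) * Real.log 2 := by
      intro k
      have h1 : T (k+1) = T k + (T (k+1) - T k) := by have := hTK k; omega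
      have h2 : (1/2:ℝ) ^ T k / (1/2) ^ T (k+1) = 2 ^ (T (k+1) - T k) := by
        conv_lhs => rw [h1]
        rw [pow_add, one_div, inv_pow, inv_pow]
        field_simp
      rw [h2, Real.log_pow]
    have hbound : ∀ k, (1 / Real.log ((1/2:ℝ) ^ T k / (1/2) ^ T (k+1))) ^ (n - 1) ≤
        (1 / Real.log 2) ^ (n-1) * (1 / a) ^ n * ∑ i ∈ Finset.Ico (T k) (T (k+1)), y i ^ n := by
      intro k
      rw [hlogeq]
      have hD : (0:ℝ) < ((T (k+1) - T k : ℕ) : ℝ) := by
        have := hTK k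
        exact_mod_cast (by omega : 0 < T (k+1) - T k)
      have h1 : a ^ n ≤ ((T (k+1) - T k : ℕ) : ℝ) ^ (n-1) * ∑ i ∈ Finset.Ico (T k) (T (k+1)), y i ^ n := by
        have hnn : n = (n - 1) + 1 := by omega
        have h2 := pow_sum_le_card_mul_sum_pow (s := Finset.Ico (T k) (T (k+1))) (f := y)
          (fun i _ => hy0 i) (n - 1)
        rw [← hnn, Nat.card_Ico] at h2
        refine le_trans ?_ h2
        exact pow_le_pow_left₀ ha0.le (hT k).2.2.1 n
      have h3 : (1 / (((T (k+1) - T k : ℕ) : ℝ) * Real.log 2)) ^ (n-1) =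
          (1 / Real.log 2) ^ (n-1) * (1 / a) ^ n * (a ^ n / ((T (k+1) - T k : ℕ) : ℝ) ^ (n-1)) := by
        rw [div_pow, div_pow, div_pow, mul_pow, one_pow, one_pow]
        field_simp
      rw [h3]
      apply mul_le_mul_of_nonneg_left _ (by positivity)
      rw [div_le_iff₀ (by positivity), mul_comm]
      exact h1
    have hsumm : Summable (fun k => ∑ i ∈ Finset.Ico (T k) (T (k+1)), y i ^ n) := by
      apply summable_of_sum_range_le (c := ∑' i, y i ^ n)
      · intro k; exact Finset.sum_nonneg (fun i _ => pow_nonneg (hy0 i) n)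
      · intro m
        have h1 : ∑ k ∈ Finset.range m, ∑ i ∈ Finset.Ico (T k) (T (k+1)), y i ^ n =
            ∑ i ∈ Finset.Ico (T 0) (T m), y i ^ n := by
          induction m with
          | zero => simp
          | succ m ih =>
            rw [Finset.sum_range_succ, ih, Finset.sum_Ico_consecutive _ (hmon (Nat.zero_le m)) (hmon (Nat.le_succ m))]
        rw [h1]
        exact hys.sum_le_tsum _ (fun i _ => pow_nonneg (hy0 i) n)
    refine Summable.of_nonneg_of_le (fun k => ?_) hbound (hsumm.mul_left _)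
    rw [hlogeq]; positivity
  · refine ⟨c * Real.exp (-∑ i ∈ Finset.range (T 0), y i), by positivity, ?_⟩
    intro k
    refine le_trans ?_ (hω (T k))
    have h1 : ∑ i ∈ Finset.range (T k), x i ≤ ∑ i ∈ Finset.range (T k), y i := by
      apply Finset.sum_le_sum
      intro i _
      show x i ≤ x i + 1 / ((i : ℝ) + 1)
      have : (0:ℝ) ≤ 1 / ((i : ℝ) + 1) := by positivity
      linarith
    have h2 : ∑ i ∈ Finset.range (T k), y i ≤ ∑ i ∈ Finset.range (T 0), y i + k * Real.log 2 := by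
      induction k with
      | zero => simp
      | succ k ih =>
        have h3 : ∑ i ∈ Finset.range (T (k+1)), y i =
            ∑ i ∈ Finset.range (T k), y i + ∑ i ∈ Finset.Ico (T k) (T (k+1)), y i :=
          (Finset.sum_range_add_sum_Ico _ (hmon (Nat.le_succ k))).symm
        have h4 := (hT k).2.2.2
        have h5 : ∑ i ∈ Finset.range (T k), x i ≤ ∑ i ∈ Finset.range (T k), y i := by
          apply Finset.sum_le_sum
          intro i _
          show x i ≤ x i + 1 / ((i : ℝ) + 1)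
          have : (0:ℝ) ≤ 1 / ((i : ℝ) + 1) := by positivity
          linarith
        have ih' := ih h5
        rw [h3]
        push_cast
        have : a + a = Real.log 2 := by rw [ha]; ring
        linarith
    have h3 : (1/2:ℝ)^k = Real.exp (-(k * Real.log 2)) := by
      rw [Real.exp_neg, mul_comm, Real.exp_mul, Real.exp_log two_pos, Real.rpow_natCast, one_div, inv_pow]
    rw [h3, mul_assoc, ← Real.exp_add]
    apply mul_le_mul_of_nonneg_left _ hc.le
    apply Real.exp_le_exp.mpr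
    linarith

end Pool.Agent.Helper930.Ln
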