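import Mathlib

set_option autoImplicit false

open Set Filter Topology MeasureTheory Metric
open scoped ENNReal NNReal

namespace Pool.Agent.Helper930.Ln

lemma abs_log_sub_log_le {a b ρ : ℝ} (hρ : 0 < ρ) (ha : ρ ≤ a) (hb : ρ ≤ b) :
    |Real.log a - Real.log b| ≤ |a - b| / ρ := by
  have key : ∀ a b : ℝ, ρ ≤ a → ρ ≤ b → Real.log a - Real.log b ≤ |a - b| / ρ := by
    intro a b ha hb
    have ha0 : 0 < a := by linarith
    have hb0 : 0 < b := by linarith
    rw [← Real.log_div ha0.ne' hb0.ne']
    have h1 := Real.log_le_sub_one_of_pos (div_pos ha0 hb0)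
    have h2 : a / b - 1 = (a - b) / b := by field_simp
    rw [h2] at h1
    refine h1.trans ?_
    calc (a - b) / b ≤ |a - b| / b := by gcongr; exact le_abs_self _
      _ ≤ |a - b| / ρ := by gcongr
  rw [abs_le]
  constructor
  · have := key b a hb ha
    rw [abs_sub_comm] at this
    linarith
  · exact key a b ha hb

/-- JOB: logarithmic cutoff function with small n-energy in dimension n -/
theorem log_cutoff {n : ℕ} (hn : 2 ≤ n) {ρ R : ℝ} (hρ : 0 < ρ) (hR : ρ < R) :
    ∃ η : EuclideanSpace ℝ (Fin n) → ℝ,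
      (∀ y, 0 ≤ η y ∧ η y ≤ 1) ∧ (∀ y, ‖y‖ ≤ ρ → η y = 1) ∧ (∀ y, R ≤ ‖y‖ → η y = 0) ∧
      LipschitzWith (Real.toNNReal (1 / (ρ * Real.log (R / ρ)))) η ∧
      ∫⁻ y, ‖fderiv ℝ η y‖ₑ ^ n ≤
        ENNReal.ofReal (n * (volume (ball (0 : EuclideanSpace ℝ (Fin n)) 1)).toReal *
          (1 / Real.log (R / ρ)) ^ (n - 1)) := by
  have hR0 : 0 < R := hρ.trans hR
  have hfin : Module.finrank ℝ (EuclideanSpace ℝ (Fin n)) = n := by simp
  have hnt : Nontrivial (EuclideanSpace ℝ (Fin n)) :=
    Module.nontrivial_of_finrank_pos (R := ℝ) (by rw [hfin]; omega)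
  set L := Real.log (R / ρ) with hL
  have hLpos : 0 < L := Real.log_pos (by rw [lt_div_iff₀ hρ]; linarith)
  set η : EuclideanSpace ℝ (Fin n) → ℝ := fun y => max 0 (Real.log (R / max ‖y‖ ρ) / L) with hη
  have hmax : ∀ y : EuclideanSpace ℝ (Fin n), 0 < max ‖y‖ ρ := fun y => lt_max_of_lt_right hρ
  have h01 : ∀ y, 0 ≤ η y ∧ η y ≤ 1 := by
    intro y
    refine ⟨le_max_left _ _, max_le zero_le_one ?_⟩
    rw [div_le_one hLpos, hL]
    apply Real.log_le_log (div_pos hR0 (hmax y))
    exact div_le_div_of_nonneg_left hR0.le hρ (le_max_right _ _)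
  have hone : ∀ y, ‖y‖ ≤ ρ → η y = 1 := by
    intro y hy
    simp only [hη]
    rw [max_eq_right hy, ← hL, div_self hLpos.ne', max_eq_right zero_le_one]
  have hzero : ∀ y, R ≤ ‖y‖ → η y = 0 := by
    intro y hy
    simp only [hη]
    rw [max_eq_left (hR.le.trans hy)]
    apply max_eq_left
    apply div_nonpos_of_nonpos_of_nonneg _ hLpos.le
    apply Real.log_nonpos
    · exact div_nonneg hR0.le (norm_nonneg _)
    · rw [div_le_one (hR0.trans_le hy)]; exact hy
  have hlip : LipschitzWith (Real.toNNReal (1 / (ρ * L))) η := by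
    apply LipschitzWith.of_dist_le_mul
    intro x y
    rw [Real.coe_toNNReal _ (by positivity), Real.dist_eq]
    calc |η x - η y| ≤ |Real.log (R / max ‖x‖ ρ) / L - Real.log (R / max ‖y‖ ρ) / L| := by
          have := abs_max_sub_max_le_abs (Real.log (R / max ‖x‖ ρ) / L)
            (Real.log (R / max ‖y‖ ρ) / L) 0
          simp only [hη]
          rw [max_comm (0 : ℝ), max_comm (0 : ℝ)]
          exact this
      _ = |Real.log (max ‖x‖ ρ) - Real.log (max ‖y‖ ρ)| / L := by
          rw [Real.log_div hR0.ne' (hmax x).ne', Real.log_div hR0.ne' (hmax y).ne', ← sub_div,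
            abs_div, abs_of_pos hLpos, abs_sub_comm]
          congr 2
          ring
      _ ≤ (|max ‖x‖ ρ - max ‖y‖ ρ| / ρ) / L := by
          gcongr
          exact abs_log_sub_log_le hρ (le_max_right _ _) (le_max_right _ _)
      _ ≤ (|‖x‖ - ‖y‖| / ρ) / L := by
          exact div_le_div_of_nonneg_right (div_le_div_of_nonneg_right
            (abs_max_sub_max_le_abs ‖x‖ ‖y‖ ρ) hρ.le) hLpos.le
      _ ≤ (dist x y / ρ) / L := by
          gcongr
          rw [dist_eq_norm]
          exact abs_norm_sub_norm_le x y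
      _ = 1 / (ρ * L) * dist x y := by field_simp
  refine ⟨η, h01, hone, hzero, hlip, ?_⟩
  -- the radial majorant
  set h : ℝ → ℝ := (Ioo ρ R).indicator (fun r => (1 / (r * L)) ^ n) with hh
  have hmaj : ∀ᵐ y : EuclideanSpace ℝ (Fin n), ‖fderiv ℝ η y‖ₑ ^ n ≤ ENNReal.ofReal (h ‖y‖) := by
    have hsph : ∀ r : ℝ, 0 < r → ∀ᵐ y : EuclideanSpace ℝ (Fin n), ‖y‖ ≠ r := by
      intro r hr
      have : Nonempty (Fin n) := ⟨⟨0, by omega⟩⟩
      have h1 := Measure.addHaar_sphere (volume : Measure (EuclideanSpace ℝ (Fin n))) 0 r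
      rw [measure_eq_zero_iff_ae_notMem] at h1
      filter_upwards [h1] with y hy hyr
      exact hy (mem_sphere_zero_iff_norm.mpr hyr)
    filter_upwards [hsph ρ hρ, hsph R hR0] with y hy1 hy2
    rcases lt_or_gt_of_ne hy1 with h1 | h1
    · -- constant one
      have : η =ᶠ[𝓝 y] fun _ => (1 : ℝ) := by
        have : ∀ᶠ z in 𝓝 y, ‖z‖ < ρ := continuous_norm.continuousAt.eventually_lt continuousAt_const h1
        filter_upwards [this] with z hz
        exact hone z hz.le
      rw [this.fderiv_eq, fderiv_const_apply, ← ofReal_norm, norm_zero, ENNReal.ofReal_zero,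
        zero_pow (by omega)]
      exact zero_le
    · rcases lt_or_gt_of_ne hy2 with h2 | h2
      · have hy0 : y ≠ 0 := by
          intro h; rw [h, norm_zero] at h1; linarith
        have hypos : 0 < ‖y‖ := norm_pos_iff.mpr hy0
        have heq : η =ᶠ[𝓝 y] fun z => (Real.log R - Real.log ‖z‖) * (1 / L) := by
          have e1 : ∀ᶠ z in 𝓝 y, ρ < ‖z‖ := continuousAt_const.eventually_lt continuous_norm.continuousAt h1
          have e2 : ∀ᶠ z in 𝓝 y, ‖z‖ < R := continuous_norm.continuousAt.eventually_lt continuousAt_const h2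
          filter_upwards [e1, e2] with z hz1 hz2
          have hz0 : 0 < ‖z‖ := hρ.trans hz1
          simp only [hη]
          rw [max_eq_left hz1.le, max_eq_right, Real.log_div hR0.ne' hz0.ne', mul_one_div]
          apply div_nonneg _ hLpos.le
          apply Real.log_nonneg
          rw [le_div_iff₀ hz0]; linarith
        have hnd : DifferentiableAt ℝ (fun z : EuclideanSpace ℝ (Fin n) => ‖z‖) y :=
          (contDiffAt_norm ℝ hy0).differentiableAt (n := 1) one_ne_zero
        have h3 := (hnd.hasFDerivAt.log hypos.ne')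
        have hfd := (h3.const_sub (Real.log R)).mul_const (1 / L)
        rw [heq.fderiv_eq, hfd.fderiv]
        have hbn : ‖fderiv ℝ (fun z : EuclideanSpace ℝ (Fin n) => ‖z‖) y‖ ≤ 1 := by
          have := norm_fderiv_le_of_lipschitz ℝ (x₀ := y) (lipschitzWith_one_norm (E := EuclideanSpace ℝ (Fin n)))
          simpa using this
        have hn1 : ‖(1 / L) • -(‖y‖⁻¹ • fderiv ℝ (fun z : EuclideanSpace ℝ (Fin n) => ‖z‖) y)‖ ≤ 1 / (‖y‖ * L) := by
          rw [norm_smul, norm_neg, norm_smul, Real.norm_eq_abs, Real.norm_eq_abs,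
            abs_of_pos (by positivity), abs_of_pos (by positivity)]
          calc _ ≤ 1 / L * (‖y‖⁻¹ * 1) := by gcongr
            _ = _ := by field_simp
        rw [hh, indicator_of_mem (show ‖y‖ ∈ Ioo ρ R from ⟨h1, h2⟩)]
        rw [ENNReal.ofReal_pow (by positivity)]
        gcongr
        rw [← ofReal_norm]
        exact ENNReal.ofReal_le_ofReal hn1
      · have : η =ᶠ[𝓝 y] fun _ => (0 : ℝ) := by
          have : ∀ᶠ z in 𝓝 y, R < ‖z‖ := continuousAt_const.eventually_lt continuous_norm.continuousAt h2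
          filter_upwards [this] with z hz
          exact hzero z hz.le
        rw [this.fderiv_eq, fderiv_const_apply, ← ofReal_norm, norm_zero, ENNReal.ofReal_zero,
        zero_pow (by omega)]
        exact zero_le
  refine (lintegral_mono_ae hmaj).trans ?_
  have hintOn : IntegrableOn (fun y : ℝ => y ^ (n - 1) • h y) (Ioi 0) := by
    have : (fun y : ℝ => y ^ (n - 1) • h y) = (Ioo ρ R).indicator (fun r => r ^ (n - 1) * (1 / (r * L)) ^ n) := by
      funext r
      rw [hh]
      by_cases hr : r ∈ Ioo ρ R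
      · rw [indicator_of_mem hr, indicator_of_mem hr, smul_eq_mul]
      · rw [indicator_of_notMem hr, indicator_of_notMem hr, smul_zero]
    rw [this]
    apply Integrable.integrableOn
    rw [integrable_indicator_iff measurableSet_Ioo]
    apply IntegrableOn.mono_set (t := Icc ρ R) _ Ioo_subset_Icc_self
    apply ContinuousOn.integrableOn_Icc
    intro r hr
    have hr0 : r ≠ 0 := by have := hr.1; linarith
    apply ContinuousAt.continuousWithinAt
    have : r * L ≠ 0 := mul_ne_zero hr0 hLpos.ne'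
    fun_prop (disch := assumption)
  have hint : Integrable (fun y : EuclideanSpace ℝ (Fin n) => h ‖y‖) := by
    rw [integrable_fun_norm_addHaar (volume : Measure (EuclideanSpace ℝ (Fin n))), hfin]
    exact hintOn
  have hnn : ∀ r, 0 ≤ h r := by
    intro r
    rw [hh]
    apply indicator_nonneg
    intro r hr
    have : 0 < r := hρ.trans hr.1
    positivity
  rw [← ofReal_integral_eq_lintegral_ofReal hint (Eventually.of_forall fun y => hnn _)]
  apply ENNReal.ofReal_le_ofReal
  rw [integral_fun_norm_addHaar (volume : Measure (EuclideanSpace ℝ (Fin n))), hfin]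
  have hval : ∫ y in Ioi (0 : ℝ), y ^ (n - 1) • h y = (1 / L) ^ (n - 1) := by
    have e1 : ∀ y : ℝ, y ^ (n - 1) • h y = (Ioo ρ R).indicator (fun r => (1 / L) ^ n * r⁻¹) y := by
      intro r
      rw [hh]
      by_cases hr : r ∈ Ioo ρ R
      · rw [indicator_of_mem hr, indicator_of_mem hr, smul_eq_mul]
        have hr0 : r ≠ 0 := by have := hr.1; linarith
        obtain ⟨m, rfl⟩ : ∃ m, n = m + 1 := ⟨n - 1, by omega⟩
        simp only [Nat.add_sub_cancel]
        have e3 : (1 / (r * L)) ^ (m + 1) = (1 / L) ^ (m + 1) * (r⁻¹ ^ m * r⁻¹) := by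
          rw [← pow_succ, ← mul_pow]
          congr 1
          field_simp
        rw [e3]
        calc r ^ m * ((1 / L) ^ (m + 1) * (r⁻¹ ^ m * r⁻¹))
            = (r * r⁻¹) ^ m * ((1 / L) ^ (m + 1) * r⁻¹) := by rw [mul_pow]; ring
          _ = _ := by rw [mul_inv_cancel₀ hr0, one_pow, one_mul]
      · rw [indicator_of_notMem hr, indicator_of_notMem hr, smul_zero]
    simp_rw [e1]
    rw [setIntegral_indicator measurableSet_Ioo]
    have e2 : Ioi (0 : ℝ) ∩ Ioo ρ R = Ioo ρ R := by
      apply inter_eq_right.mpr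
      intro r hr
      exact hρ.trans hr.1
    rw [e2, ← integral_Ioc_eq_integral_Ioo, ← intervalIntegral.integral_of_le hR.le,
      intervalIntegral.integral_const_mul, integral_inv_of_pos hρ hR0, ← hL]
    obtain ⟨m, rfl⟩ : ∃ m, n = m + 1 := ⟨n - 1, by omega⟩
    simp only [Nat.add_sub_cancel]
    rw [pow_succ, mul_assoc, one_div_mul_cancel hLpos.ne', mul_one]
  rw [hval]
  simp only [nsmul_eq_mul, smul_eq_mul, Measure.real]
  rw [mul_assoc]

end Pool.Agent.Helper930.Ln

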