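import Mathlib
import Pool.Agent.Helper930.LnJ2

set_option autoImplicit false

open Set Filter Topology MeasureTheory Metric
open scoped ENNReal NNReal ContDiff

namespace Pool.Agent.Helper930.LnC

section ibp
variable {E F : Type*} [NormedAddCommGroup E] [InnerProductSpace ℝ E] [FiniteDimensional ℝ E]
  [MeasurableSpace E] [BorelSpace E] [NormedAddCommGroup F] [NormedSpace ℝ F]
  [FiniteDimensional ℝ F]

lemma ibp_lip_real {f : E → ℝ} {C : ℝ≥0} (hf : LipschitzWith C f) {φ : E → ℝ}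
    (hφ : ContDiff ℝ 1 φ) (hc : HasCompactSupport φ) (v : E) :
    ∫ x, (fderiv ℝ φ x v) * f x = - ∫ x, φ x * lineDeriv ℝ f x v := by
  obtain ⟨C', hL⟩ := ContDiff.lipschitzWith_of_hasCompactSupport hc hφ (by norm_num)
  have h := hf.integral_lineDeriv_mul_eq (μ := (volume : Measure E)) hL hc v
  have h1 : ∀ x, lineDeriv ℝ φ x (-v) = - (fderiv ℝ φ x v) := by
    intro x
    rw [(hφ.differentiable (by norm_num) x).lineDeriv_eq_fderiv, map_neg]
  simp_rw [h1] at h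
  have h2 : ∫ x, φ x * lineDeriv ℝ f x v = ∫ x, lineDeriv ℝ f x v * φ x := by
    congr 1; funext x; ring
  rw [h2, h]
  simp only [neg_mul]
  rw [MeasureTheory.integral_neg, neg_neg]

lemma ibp_lip {f : E → F} {C : ℝ≥0} (hf : LipschitzWith C f) {φ : E → ℝ}
    (hφ : ContDiff ℝ 1 φ) (hc : HasCompactSupport φ) (v : E) :
    ∫ x, (fderiv ℝ φ x v) • f x = - ∫ x, φ x • fderiv ℝ f x v := by
  borelize F
  haveI : CompleteSpace F := FiniteDimensional.complete ℝ F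
  have hdiff : ∀ᵐ z : E, DifferentiableAt ℝ f z := hf.ae_differentiableAt
  have hcf : Continuous (fun x => fderiv ℝ φ x v) :=
    (hφ.continuous_fderiv (by norm_num)).clm_apply continuous_const
  have hcs : HasCompactSupport (fun x => fderiv ℝ φ x v) := by
    have := hc.fderiv (𝕜 := ℝ)
    exact this.comp_left (g := fun A : E →L[ℝ] ℝ => A v) (by simp)
  have hi1 : Integrable (fun x => (fderiv ℝ φ x v) • f x) (volume : Measure E) :=
    (hcf.smul hf.continuous).integrable_of_hasCompactSupport hcs.smul_right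
  have hi2 : Integrable (fun x => φ x • fderiv ℝ f x v) (volume : Measure E) := by
    have hφi : Integrable (fun x => φ x) (volume : Measure E) :=
      hφ.continuous.integrable_of_hasCompactSupport hc
    refine Integrable.mono' (hφi.norm.mul_const (C * ‖v‖)) ?_ ?_
    · exact hφ.continuous.aestronglyMeasurable.smul
        (measurable_fderiv_apply_const ℝ f v).aestronglyMeasurable
    · filter_upwards with x
      rw [norm_smul]
      gcongr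
      exact (ContinuousLinearMap.le_opNorm _ _).trans
        (by gcongr; exact norm_fderiv_le_of_lipschitz ℝ hf)
  rw [SeparatingDual.eq_iff_forall_dual_eq (R := ℝ)]
  intro g
  have hg : LipschitzWith (‖g‖₊ * C) (fun x => g (f x)) := g.lipschitz.comp hf
  rw [map_neg, ← g.integral_comp_comm hi1, ← g.integral_comp_comm hi2]
  simp only [map_smul, smul_eq_mul]
  rw [ibp_lip_real hg hφ hc v]
  congr 1
  apply integral_congr_ae
  filter_upwards [hdiff] with x hx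
  have h1 : HasFDerivAt (fun x => g (f x)) (g.comp (fderiv ℝ f x)) x :=
    g.hasFDerivAt.comp x hx.hasFDerivAt
  rw [h1.differentiableAt.lineDeriv_eq_fderiv, h1.fderiv]
  rfl

end ibp


noncomputable section

namespace Cant

/-- sign vector -/
def sv {n : ℕ} (s : Fin n → Bool) : EuclideanSpace ℝ (Fin n) :=
  WithLp.toLp 2 (fun i => if s i then (1:ℝ) else -1)

lemma sv_apply {n : ℕ} (s : Fin n → Bool) (i : Fin n) :
    sv s i = if s i then (1:ℝ) else -1 := rfl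

lemma norm_sv {n : ℕ} (s : Fin n → Bool) : ‖sv s‖ = √n := by
  rw [EuclideanSpace.norm_eq]
  congr 1
  have : ∀ i ∈ (Finset.univ : Finset (Fin n)), ‖sv s i‖ ^ 2 = 1 := by
    intro i _
    rw [sv_apply]
    split <;> simp
  rw [Finset.sum_congr rfl this]
  simp

lemma sv_sep {n : ℕ} {s t : Fin n → Bool} (h : s ≠ t) : 2 ≤ ‖sv s - sv t‖ := by
  obtain ⟨i, hi⟩ := Function.ne_iff.mp h
  refine le_trans ?_ (PiLp.norm_apply_le (sv s - sv t) i)
  have : (sv s - sv t) i = sv s i - sv t i := rfl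
  rw [this, sv_apply, sv_apply]
  cases hs : s i <;> cases ht : t i <;> simp_all <;> norm_num

section bump

variable {E : Type*} [NormedAddCommGroup E] [InnerProductSpace ℝ E] [FiniteDimensional ℝ E]
  [MeasurableSpace E] [BorelSpace E] {ι : Type*}

/-- finite sum of vector valued bumps -/
def bs (P : Finset ι) (c : ι → E) (v : ι → E) (η : E → ℝ) (x : E) : E :=
  ∑ p ∈ P, η (x - c p) • v p

variable {P : Finset ι} {c : ι → E} {v : ι → E} {η : E → ℝ} {R D ρ : ℝ}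

lemma bs_single (hR : 0 < R) (hsep : ∀ p ∈ P, ∀ q ∈ P, p ≠ q → 4 * R ≤ ‖c p - c q‖)
    (h0 : ∀ y, R ≤ ‖y‖ → η y = 0) {p : ι} (hp : p ∈ P) {x : E} (hx : ‖x - c p‖ < 3 * R) :
    bs P c v η x = η (x - c p) • v p := by
  unfold bs
  refine Finset.sum_eq_single p ?_ (fun h => absurd hp h)
  intro q hq hqp
  have h1 := hsep p hp q hq (Ne.symm hqp)
  have h2 : ‖c p - c q‖ ≤ ‖x - c q‖ + ‖x - c p‖ := by
    have : c p - c q = (x - c q) - (x - c p) := by abel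
    rw [this]; exact norm_sub_le _ _
  rw [h0 _ (by linarith), zero_smul]

lemma bs_zero (h0 : ∀ y, R ≤ ‖y‖ → η y = 0) {x : E} (hx : ∀ p ∈ P, R ≤ ‖x - c p‖) :
    bs P c v η x = 0 := by
  unfold bs
  refine Finset.sum_eq_zero ?_
  intro q hq
  rw [h0 _ (hx q hq), zero_smul]

lemma bs_norm (hR : 0 < R) (hsep : ∀ p ∈ P, ∀ q ∈ P, p ≠ q → 4 * R ≤ ‖c p - c q‖)
    (h0 : ∀ y, R ≤ ‖y‖ → η y = 0) (h1 : ∀ y, 0 ≤ η y ∧ η y ≤ 1) (hD : 0 ≤ D)
    (hv : ∀ p, ‖v p‖ = D) (x : E) : ‖bs P c v η x‖ ≤ D := by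
  by_cases h : ∃ p ∈ P, ‖x - c p‖ < R
  · obtain ⟨p, hp, hx⟩ := h
    rw [bs_single hR hsep h0 hp (by linarith), norm_smul, hv p, Real.norm_eq_abs,
      abs_of_nonneg (h1 _).1]
    calc η (x - c p) * D ≤ 1 * D := by gcongr; exact (h1 _).2
      _ = D := one_mul D
  · push Not at h
    rw [bs_zero h0 h, norm_zero]; exact hD

lemma bs_lip (hR : 0 < R) (hρ : 0 < ρ) (hρR : ρ ≤ R)
    (hsep : ∀ p ∈ P, ∀ q ∈ P, p ≠ q → 4 * R ≤ ‖c p - c q‖)
    (h0 : ∀ y, R ≤ ‖y‖ → η y = 0) (h1 : ∀ y, 0 ≤ η y ∧ η y ≤ 1) (hD : 0 ≤ D)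
    (hv : ∀ p, ‖v p‖ = D) (hL : ∀ y z, |η y - η z| ≤ 1 / ρ * ‖y - z‖) (x y : E) :
    ‖bs P c v η x - bs P c v η y‖ ≤ D / ρ * ‖x - y‖ := by
  have key : ∀ x y : E, (∃ p ∈ P, ‖x - c p‖ < R) →
      ‖bs P c v η x - bs P c v η y‖ ≤ D / ρ * ‖x - y‖ := by
    rintro x y ⟨p, hp, hx⟩
    by_cases hy : ‖y - c p‖ < 3 * R
    · rw [bs_single hR hsep h0 hp (by linarith : ‖x - c p‖ < 3 * R),
        bs_single hR hsep h0 hp hy, ← sub_smul, norm_smul, hv p, Real.norm_eq_abs]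
      have := hL (x - c p) (y - c p)
      have e : x - c p - (y - c p) = x - y := by abel
      rw [e] at this
      calc |η (x - c p) - η (y - c p)| * D ≤ (1 / ρ * ‖x - y‖) * D := by gcongr
        _ = D / ρ * ‖x - y‖ := by ring
    · push Not at hy
      have h2 : 2 * R ≤ ‖x - y‖ := by
        have : ‖y - c p‖ ≤ ‖x - c p‖ + ‖x - y‖ := by
          have : y - c p = (x - c p) - (x - y) := by abel
          rw [this]; exact norm_sub_le _ _
        linarith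
      have h3 : ‖bs P c v η x - bs P c v η y‖ ≤ D + D :=
        (norm_sub_le _ _).trans (add_le_add (bs_norm hR hsep h0 h1 hD hv x)
          (bs_norm hR hsep h0 h1 hD hv y))
      have h4 : D + D ≤ D / ρ * (2 * R) := by
        rw [div_mul_eq_mul_div, le_div_iff₀ hρ]
        nlinarith
      refine h3.trans (h4.trans ?_)
      gcongr
  by_cases hx : ∃ p ∈ P, ‖x - c p‖ < R
  · exact key x y hx
  by_cases hy : ∃ p ∈ P, ‖y - c p‖ < R
  · rw [norm_sub_rev, norm_sub_rev x y]; exact key y x hy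
  · push Not at hx hy
    rw [bs_zero h0 hx, bs_zero h0 hy, sub_zero, norm_zero]
    positivity

lemma bs_fderiv_single (hR : 0 < R)
    (hsep : ∀ p ∈ P, ∀ q ∈ P, p ≠ q → 4 * R ≤ ‖c p - c q‖)
    (h0 : ∀ y, R ≤ ‖y‖ → η y = 0) {p : ι} (hp : p ∈ P) {x : E} (hx : ‖x - c p‖ < 3 * R) :
    fderiv ℝ (bs P c v η) x = fderiv ℝ (fun y => η (y - c p) • v p) x := by
  apply Filter.EventuallyEq.fderiv_eq
  have : ball (c p) (3 * R) ∈ 𝓝 x := isOpen_ball.mem_nhds (by rwa [mem_ball_iff_norm])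
  filter_upwards [this] with y hy
  exact bs_single hR hsep h0 hp (by rwa [mem_ball_iff_norm] at hy)

lemma bs_fderiv_zero (h0 : ∀ y, R ≤ ‖y‖ → η y = 0) {x : E} (hx : ∀ p ∈ P, R < ‖x - c p‖) :
    fderiv ℝ (bs P c v η) x = 0 := by
  have : bs P c v η =ᶠ[𝓝 x] fun _ => 0 := by
    have h : ∀ p ∈ P, ∀ᶠ y in 𝓝 x, R < ‖y - c p‖ := by
      intro p hp
      have hc : Continuous fun y : E => ‖y - c p‖ := by fun_prop
      exact hc.continuousAt.eventually (lt_mem_nhds (hx p hp))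
    have h2 := (Finset.eventually_all P).2 h
    filter_upwards [h2] with y hy
    exact bs_zero h0 (fun p hp => (hy p hp).le)
  rw [this.fderiv_eq]
  simp

lemma bs_energy [Nontrivial E] {n : ℕ} (hR : 0 < R)
    (hsep : ∀ p ∈ P, ∀ q ∈ P, p ≠ q → 4 * R ≤ ‖c p - c q‖)
    (h0 : ∀ y, R ≤ ‖y‖ → η y = 0) (hD : 0 ≤ D) (hn : n ≠ 0)
    (hv : ∀ p, ‖v p‖ = D) {C : ℝ≥0} (hL : LipschitzWith C η) :
    ∫⁻ x, ‖fderiv ℝ (bs P c v η) x‖ₑ ^ n ≤
      P.card * (ENNReal.ofReal (D ^ n) * ∫⁻ y, ‖fderiv ℝ η y‖ₑ ^ n) := by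
  have hm : Measurable (fun y => ‖fderiv ℝ η y‖ₑ ^ n) :=
    (measurable_fderiv ℝ η).enorm.pow_const n
  have hpt : ∀ᵐ x : E, ‖fderiv ℝ (bs P c v η) x‖ₑ ^ n ≤
      ∑ p ∈ P, ENNReal.ofReal (D ^ n) * ‖fderiv ℝ η (x - c p)‖ₑ ^ n := by
    have hd : ∀ p ∈ P, ∀ᵐ x : E, DifferentiableAt ℝ (fun y => η (y - c p)) x := by
      intro p _
      have : LipschitzWith (C * 1) (fun y => η (y - c p)) := by
        have h2 : LipschitzWith 1 (fun y : E => y - c p) := by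
          refine LipschitzWith.of_dist_le_mul ?_
          intro a b; simp
        exact hL.comp h2
      exact this.ae_differentiableAt
    have hd2 := (Finset.eventually_all P).2 hd
    filter_upwards [hd2] with x hx
    by_cases h : ∃ p ∈ P, ‖x - c p‖ < 3 * R
    · obtain ⟨p, hp, hxp⟩ := h
      rw [bs_fderiv_single hR hsep h0 hp hxp]
      have h3 : fderiv ℝ (fun y => η (y - c p) • v p) x =
          (fderiv ℝ η (x - c p)).smulRight (v p) := by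
        rw [fderiv_smul_const (hx p hp), fderiv_comp_sub]
      rw [h3]
      refine le_trans ?_ (Finset.single_le_sum (f := fun p => ENNReal.ofReal (D ^ n) *
        ‖fderiv ℝ η (x - c p)‖ₑ ^ n) (fun _ _ => bot_le) hp)
      have h4 : ‖(fderiv ℝ η (x - c p)).smulRight (v p)‖ₑ =
          ‖fderiv ℝ η (x - c p)‖ₑ * ENNReal.ofReal D := by
        rw [← ofReal_norm, ContinuousLinearMap.norm_smulRight_apply,
          ENNReal.ofReal_mul (norm_nonneg _), ofReal_norm, hv p]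
      rw [h4, mul_pow, ENNReal.ofReal_pow hD, mul_comm]
    · push Not at h
      rw [bs_fderiv_zero (R := R) h0 (fun p hp => by have := h p hp; linarith)]
      simp [hn]
  calc ∫⁻ x, ‖fderiv ℝ (bs P c v η) x‖ₑ ^ n
      ≤ ∫⁻ x, ∑ p ∈ P, ENNReal.ofReal (D ^ n) * ‖fderiv ℝ η (x - c p)‖ₑ ^ n :=
        lintegral_mono_ae hpt
    _ = ∑ p ∈ P, ∫⁻ x, ENNReal.ofReal (D ^ n) * ‖fderiv ℝ η (x - c p)‖ₑ ^ n := by
        refine lintegral_finsetSum _ ?_
        intro p _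
        exact (hm.comp (measurable_id.sub_const _)).const_mul _
    _ = ∑ p ∈ P, ENNReal.ofReal (D ^ n) * ∫⁻ y, ‖fderiv ℝ η y‖ₑ ^ n := by
        refine Finset.sum_congr rfl ?_
        intro p _
        have hm2 : Measurable (fun x => ‖fderiv ℝ η (x - c p)‖ₑ ^ n) :=
          hm.comp (measurable_id.sub_const _)
        rw [lintegral_const_mul _ hm2]
        congr 1
        exact lintegral_sub_right_eq_self (fun y => ‖fderiv ℝ η y‖ₑ ^ n) (c p)
    _ = _ := by rw [Finset.sum_const, nsmul_eq_mul]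

end bump

section cantor

/-- child centre -/
def ctr {n : ℕ} (ρ : ℕ → ℝ) (k : ℕ) (p : EuclideanSpace ℝ (Fin n) × (Fin n → Bool)) :
    EuclideanSpace ℝ (Fin n) := p.1 + (ρ k / (2 * √n)) • sv p.2

open Classical in
/-- centres of generation k -/
def Cs (n : ℕ) (ρ : ℕ → ℝ) : ℕ → Finset (EuclideanSpace ℝ (Fin n))
  | 0 => {0}
  | k+1 => (Cs n ρ k ×ˢ (Finset.univ : Finset (Fin n → Bool))).image (ctr ρ k)

/-- index set of generation k -/
def Ps (n : ℕ) (ρ : ℕ → ℝ) (k : ℕ) : Finset (EuclideanSpace ℝ (Fin n) × (Fin n → Bool)) :=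
  Cs n ρ k ×ˢ Finset.univ

lemma Cs_succ (n : ℕ) (ρ : ℕ → ℝ) (k : ℕ) {c : EuclideanSpace ℝ (Fin n)} :
    c ∈ Cs n ρ (k+1) ↔ ∃ p ∈ Ps n ρ k, ctr ρ k p = c := by
  simp only [Cs, Finset.mem_image, Ps]

lemma mem_Ps {n : ℕ} {ρ : ℕ → ℝ} {k : ℕ} {p : EuclideanSpace ℝ (Fin n) × (Fin n → Bool)} :
    p ∈ Ps n ρ k ↔ p.1 ∈ Cs n ρ k := by
  simp [Ps]

lemma card_Cs (n : ℕ) (ρ : ℕ → ℝ) (k : ℕ) : (Cs n ρ k).card ≤ 2 ^ (n * k) := by
  induction k with
  | zero => simp [Cs]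
  | succ k ih =>
    have h1 : (Cs n ρ (k+1)).card ≤ (Cs n ρ k ×ˢ (Finset.univ : Finset (Fin n → Bool))).card := by
      simp only [Cs]
      exact Finset.card_image_le
    rw [Finset.card_product] at h1
    have h2 : (Finset.univ : Finset (Fin n → Bool)).card = 2 ^ n := by
      simp
    rw [h2] at h1
    calc _ ≤ _ := h1
      _ ≤ 2 ^ (n * k) * 2 ^ n := Nat.mul_le_mul_right _ ih
      _ = 2 ^ (n * (k+1)) := by rw [mul_add, mul_one, pow_add]

lemma card_Ps (n : ℕ) (ρ : ℕ → ℝ) (k : ℕ) : (Ps n ρ k).card ≤ 2 ^ (n * (k+1)) := by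
  unfold Ps
  rw [Finset.card_product]
  have h2 : (Finset.univ : Finset (Fin n → Bool)).card = 2 ^ n := by
    simp
  rw [h2, mul_add, mul_one, pow_add]
  exact Nat.mul_le_mul_right _ (card_Cs n ρ k)

variable {n : ℕ} {ρ : ℕ → ℝ}

lemma one_le_D (hn : 2 ≤ n) : 1 ≤ √(n:ℝ) := by
  rw [Real.one_le_sqrt]
  exact_mod_cast (by omega : 1 ≤ n)

lemma D_sq : √(n:ℝ) * √(n:ℝ) = n := Real.mul_self_sqrt (Nat.cast_nonneg n)

lemma rho32 (hn : 2 ≤ n) (hρ : ∀ k, 0 < ρ k) (hr : ∀ k, ρ (k+1) ≤ ρ k / (16 * n)) (k : ℕ) :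
    32 * ρ (k+1) ≤ ρ k := by
  have h1 := hr k
  have h2 : (2:ℝ) ≤ n := by exact_mod_cast hn
  rw [le_div_iff₀ (by positivity)] at h1
  nlinarith [hρ (k+1)]

lemma rhoD (hn : 2 ≤ n) (hρ : ∀ k, 0 < ρ k) (hr : ∀ k, ρ (k+1) ≤ ρ k / (16 * n)) (k : ℕ) :
    16 * ρ (k+1) ≤ ρ k / √n := by
  have h1 := hr k
  have h2 := one_le_D hn
  have h3 := D_sq (n := n)
  rw [le_div_iff₀ (by positivity)] at h1 ⊢
  have h4 : ρ (k+1) * (16 * n) = 16 * ρ (k+1) * √n * √n := by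
    linear_combination (-16 * ρ (k+1)) * h3
  have h5 : 0 ≤ 16 * ρ (k+1) * √n := by have := hρ (k+1); positivity
  nlinarith

lemma ctr_sub (hn : 2 ≤ n) (hρ : ∀ k, 0 < ρ k) (k : ℕ)
    (p : EuclideanSpace ℝ (Fin n) × (Fin n → Bool)) : ‖ctr ρ k p - p.1‖ = ρ k / 2 := by
  have h2 := one_le_D hn
  have h3 := hρ k
  have : ctr ρ k p - p.1 = (ρ k / (2 * √n)) • sv p.2 := by
    unfold ctr; abel
  rw [this, norm_smul, norm_sv, Real.norm_eq_abs, abs_of_pos (by positivity)]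
  field_simp

lemma sepP_of_sep (hn : 2 ≤ n) (hρ : ∀ k, 0 < ρ k) (k : ℕ)
    (h : ∀ a ∈ Cs n ρ k, ∀ b ∈ Cs n ρ k, a ≠ b → 8 * ρ k ≤ ‖a - b‖) :
    ∀ p ∈ Ps n ρ k, ∀ q ∈ Ps n ρ k, p ≠ q → ρ k / √n ≤ ‖ctr ρ k p - ctr ρ k q‖ := by
  intro p hp q hq hpq
  have h2 := one_le_D hn
  have h3 := hρ k
  rw [mem_Ps] at hp hq
  by_cases he : p.1 = q.1
  · have hne : p.2 ≠ q.2 := fun h' => hpq (Prod.ext he h')
    have : ctr ρ k p - ctr ρ k q = (ρ k / (2 * √n)) • (sv p.2 - sv q.2) := by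
      unfold ctr; rw [he, smul_sub]; abel
    rw [this, norm_smul, Real.norm_eq_abs, abs_of_pos (by positivity)]
    calc ρ k / √n = ρ k / (2 * √n) * 2 := by field_simp
      _ ≤ _ := by gcongr; exact sv_sep hne
  · have h4 := h _ hp _ hq he
    have h5 := ctr_sub hn hρ k p
    have h6 := ctr_sub hn hρ k q
    have h7 : ‖p.1 - q.1‖ ≤ ‖ctr ρ k p - ctr ρ k q‖ + ‖ctr ρ k p - p.1‖ + ‖ctr ρ k q - q.1‖ := by
      have : p.1 - q.1 = (ctr ρ k p - ctr ρ k q) - (ctr ρ k p - p.1) + (ctr ρ k q - q.1) := by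
        abel
      rw [this]
      exact (norm_add_le _ _).trans (by gcongr; exact norm_sub_le _ _)
    have h8 : ρ k / √n ≤ ρ k := div_le_self h3.le h2
    linarith

lemma sep (hn : 2 ≤ n) (hρ : ∀ k, 0 < ρ k) (hr : ∀ k, ρ (k+1) ≤ ρ k / (16 * n)) (k : ℕ) :
    ∀ a ∈ Cs n ρ k, ∀ b ∈ Cs n ρ k, a ≠ b → 8 * ρ k ≤ ‖a - b‖ := by
  induction k with
  | zero =>
    intro a ha b hb hab
    simp only [Cs, Finset.mem_singleton] at ha hb
    exact absurd (ha.trans hb.symm) hab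
  | succ k ih =>
    intro a ha b hb hab
    obtain ⟨p, hp, rfl⟩ := (Cs_succ n ρ k).1 ha
    obtain ⟨q, hq, rfl⟩ := (Cs_succ n ρ k).1 hb
    have hpq : p ≠ q := fun h => hab (by rw [h])
    have h1 := sepP_of_sep hn hρ k ih p hp q hq hpq
    have h2 := rhoD hn hρ hr k
    have := hρ (k+1)
    linarith

lemma sepP (hn : 2 ≤ n) (hρ : ∀ k, 0 < ρ k) (hr : ∀ k, ρ (k+1) ≤ ρ k / (16 * n)) (k : ℕ) :
    ∀ p ∈ Ps n ρ k, ∀ q ∈ Ps n ρ k, p ≠ q →
      4 * (ρ k / (4 * √n)) ≤ ‖ctr ρ k p - ctr ρ k q‖ := by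
  intro p hp q hq hpq
  have h1 := sepP_of_sep hn hρ k (sep hn hρ hr k) p hp q hq hpq
  have h2 := one_le_D hn
  have : 4 * (ρ k / (4 * √n)) = ρ k / √n := by field_simp
  rw [this]; exact h1

/-- open neighbourhoods -/
def V (n : ℕ) (ρ : ℕ → ℝ) (k : ℕ) : Set (EuclideanSpace ℝ (Fin n)) :=
  {x | ∃ c ∈ Cs n ρ k, ‖x - c‖ < ρ k}

lemma V_succ (hn : 2 ≤ n) (hρ : ∀ k, 0 < ρ k) (hr : ∀ k, ρ (k+1) ≤ ρ k / (16 * n)) (k : ℕ) :
    V n ρ (k+1) ⊆ V n ρ k := by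
  rintro x ⟨c, hc, hx⟩
  obtain ⟨p, hp, rfl⟩ := (Cs_succ n ρ k).1 hc
  refine ⟨p.1, mem_Ps.1 hp, ?_⟩
  have h1 := ctr_sub hn hρ k p
  have h2 : ‖x - p.1‖ ≤ ‖x - ctr ρ k p‖ + ‖ctr ρ k p - p.1‖ := by
    have : x - p.1 = (x - ctr ρ k p) + (ctr ρ k p - p.1) := by abel
    rw [this]; exact norm_add_le _ _
  have h3 := rho32 hn hρ hr k
  have h4 := hρ (k+1)
  linarith

lemma V_anti (hn : 2 ≤ n) (hρ : ∀ k, 0 < ρ k) (hr : ∀ k, ρ (k+1) ≤ ρ k / (16 * n)) :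
    Antitone (V n ρ) := antitone_nat_of_succ_le (V_succ hn hρ hr)

/-- the pieces -/
def g (n : ℕ) (ρ : ℕ → ℝ) (η : ℕ → EuclideanSpace ℝ (Fin n) → ℝ) (k : ℕ) :
    EuclideanSpace ℝ (Fin n) → EuclideanSpace ℝ (Fin n) :=
  bs (Ps n ρ k) (ctr ρ k) (fun p => ((1/2:ℝ)^(k+1)) • sv p.2) (η k)

/-- assumptions on the cutoffs -/
structure Cut (n : ℕ) (ρ : ℕ → ℝ) (η : ℕ → EuclideanSpace ℝ (Fin n) → ℝ) : Prop where
  h1 : ∀ k y, 0 ≤ η k y ∧ η k y ≤ 1
  hone : ∀ k y, ‖y‖ ≤ ρ (k+1) → η k y = 1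
  hzero : ∀ k y, ρ k / (4 * √n) ≤ ‖y‖ → η k y = 0
  hlip : ∀ k y z, |η k y - η k z| ≤ 1 / ρ (k+1) * ‖y - z‖
  hL : ∀ k, ∃ C : ℝ≥0, LipschitzWith C (η k)

variable {η : ℕ → EuclideanSpace ℝ (Fin n) → ℝ}

lemma hv_norm (k : ℕ) (p : EuclideanSpace ℝ (Fin n) × (Fin n → Bool)) :
    ‖((1/2:ℝ)^(k+1)) • sv p.2‖ = (1/2:ℝ)^(k+1) * √n := by
  rw [norm_smul, norm_sv, Real.norm_eq_abs, abs_of_pos (by positivity)]

lemma Rpos (hn : 2 ≤ n) (hρ : ∀ k, 0 < ρ k) (k : ℕ) : 0 < ρ k / (4 * √n) := by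
  have := one_le_D hn
  have := hρ k
  positivity

lemma rho_lt_R (hn : 2 ≤ n) (hρ : ∀ k, 0 < ρ k) (hr : ∀ k, ρ (k+1) ≤ ρ k / (16 * n)) (k : ℕ) :
    4 * ρ (k+1) ≤ ρ k / (4 * √n) := by
  have h1 := rhoD hn hρ hr k
  have h2 := one_le_D hn
  have : ρ k / (4 * √n) = ρ k / √n / 4 := by field_simp
  rw [this]; linarith

lemma g_norm (hn : 2 ≤ n) (hρ : ∀ k, 0 < ρ k) (hr : ∀ k, ρ (k+1) ≤ ρ k / (16 * n))
    (hc : Cut n ρ η) (k : ℕ) (x : EuclideanSpace ℝ (Fin n)) :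
    ‖g n ρ η k x‖ ≤ (1/2:ℝ)^(k+1) * √n :=
  bs_norm (Rpos hn hρ k) (sepP hn hρ hr k) (hc.hzero k) (hc.h1 k) (by positivity)
    (hv_norm k) x

lemma g_lip (hn : 2 ≤ n) (hρ : ∀ k, 0 < ρ k) (hr : ∀ k, ρ (k+1) ≤ ρ k / (16 * n))
    (hc : Cut n ρ η) (k : ℕ) (x y : EuclideanSpace ℝ (Fin n)) :
    ‖g n ρ η k x - g n ρ η k y‖ ≤ (1/2:ℝ)^(k+1) * √n / ρ (k+1) * ‖x - y‖ :=
  bs_lip (Rpos hn hρ k) (hρ (k+1)) (by linarith [rho_lt_R hn hρ hr k, hρ (k+1)])
    (sepP hn hρ hr k) (hc.hzero k) (hc.h1 k) (by positivity)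
    (hv_norm k) (hc.hlip k) x y

lemma far_of_not_V (hn : 2 ≤ n) (hρ : ∀ k, 0 < ρ k) {k : ℕ} {x : EuclideanSpace ℝ (Fin n)}
    (hx : x ∉ V n ρ k) : ∀ p ∈ Ps n ρ k, ρ k / (4 * √n) < ‖x - ctr ρ k p‖ := by
  intro p hp
  have h1 : ρ k ≤ ‖x - p.1‖ := by
    by_contra h
    push Not at h
    exact hx ⟨p.1, mem_Ps.1 hp, h⟩
  have h2 := ctr_sub hn hρ k p
  have h3 : ‖x - p.1‖ ≤ ‖x - ctr ρ k p‖ + ‖ctr ρ k p - p.1‖ := by
    have : x - p.1 = (x - ctr ρ k p) + (ctr ρ k p - p.1) := by abel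
    rw [this]; exact norm_add_le _ _
  have h4 := one_le_D hn
  have h5 := hρ k
  have h6 : ρ k / (4 * √n) ≤ ρ k / 4 := by
    apply div_le_div_of_nonneg_left h5.le (by norm_num) (by linarith)
  linarith

lemma g_zero (hn : 2 ≤ n) (hρ : ∀ k, 0 < ρ k) (hc : Cut n ρ η) {k : ℕ}
    {x : EuclideanSpace ℝ (Fin n)} (hx : x ∉ V n ρ k) : g n ρ η k x = 0 :=
  bs_zero (hc.hzero k) (fun p hp => (far_of_not_V hn hρ hx p hp).le)

lemma g_fderiv_out (hn : 2 ≤ n) (hρ : ∀ k, 0 < ρ k) (hc : Cut n ρ η) {k : ℕ}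
    {x : EuclideanSpace ℝ (Fin n)} (hx : x ∉ V n ρ k) : fderiv ℝ (g n ρ η k) x = 0 :=
  bs_fderiv_zero (hc.hzero k) (far_of_not_V hn hρ hx)

lemma g_const (hn : 2 ≤ n) (hρ : ∀ k, 0 < ρ k) (hr : ∀ k, ρ (k+1) ≤ ρ k / (16 * n))
    (hc : Cut n ρ η) {k : ℕ} {p : EuclideanSpace ℝ (Fin n) × (Fin n → Bool)}
    (hp : p ∈ Ps n ρ k) {x : EuclideanSpace ℝ (Fin n)} (hx : ‖x - ctr ρ k p‖ ≤ ρ (k+1)) :
    g n ρ η k x = ((1/2:ℝ)^(k+1)) • sv p.2 := by
  unfold g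
  rw [bs_single (Rpos hn hρ k) (sepP hn hρ hr k) (hc.hzero k) hp, hc.hone k _ hx, one_smul]
  have := rho_lt_R hn hρ hr k
  have := hρ (k+1)
  linarith

lemma g_fderiv_in (hn : 2 ≤ n) (hρ : ∀ k, 0 < ρ k) (hr : ∀ k, ρ (k+1) ≤ ρ k / (16 * n))
    (hc : Cut n ρ η) {k : ℕ} {x : EuclideanSpace ℝ (Fin n)} (hx : x ∈ V n ρ (k+1)) :
    fderiv ℝ (g n ρ η k) x = 0 := by
  obtain ⟨c, hcm, hx⟩ := hx
  obtain ⟨p, hp, rfl⟩ := (Cs_succ n ρ k).1 hcm
  have : g n ρ η k =ᶠ[𝓝 x] fun _ => ((1/2:ℝ)^(k+1)) • sv p.2 := by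
    have : ball (ctr ρ k p) (ρ (k+1)) ∈ 𝓝 x := isOpen_ball.mem_nhds (by rwa [mem_ball_iff_norm])
    filter_upwards [this] with y hy
    rw [mem_ball_iff_norm] at hy
    exact g_const hn hρ hr hc hp hy.le
  rw [this.fderiv_eq]
  simp

lemma unique_piece (hn : 2 ≤ n) (hρ : ∀ k, 0 < ρ k) (hr : ∀ k, ρ (k+1) ≤ ρ k / (16 * n))
    (hc : Cut n ρ η) (x : EuclideanSpace ℝ (Fin n)) :
    ∃ k₀, ∀ k, k ≠ k₀ → fderiv ℝ (g n ρ η k) x = 0 := by
  by_cases h : ∃ k, fderiv ℝ (g n ρ η k) x ≠ 0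
  · obtain ⟨k₀, h₀⟩ := h
    have hV : x ∈ V n ρ k₀ := by
      by_contra h'
      exact h₀ (g_fderiv_out hn hρ hc h')
    refine ⟨k₀, fun k hk => ?_⟩
    rcases lt_or_gt_of_ne hk with hlt | hgt
    · exact g_fderiv_in hn hρ hr hc (V_anti hn hρ hr (by omega : k + 1 ≤ k₀) hV)
    · by_contra h'
      have hV' : x ∈ V n ρ k := by
        by_contra h''
        exact h' (g_fderiv_out hn hρ hc h'')
      exact h₀ (g_fderiv_in hn hρ hr hc (V_anti hn hρ hr (by omega : k₀ + 1 ≤ k) hV'))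
  · push Not at h
    exact ⟨0, fun k _ => h k⟩

end cantor

section assembly

variable {n : ℕ} {ρ : ℕ → ℝ} {η : ℕ → EuclideanSpace ℝ (Fin n) → ℝ}

/-- the map -/
def fmap (n : ℕ) (ρ : ℕ → ℝ) (η : ℕ → EuclideanSpace ℝ (Fin n) → ℝ)
    (x : EuclideanSpace ℝ (Fin n)) : EuclideanSpace ℝ (Fin n) := ∑' k, g n ρ η k x

lemma hasSum_half (D : ℝ) (K : ℕ) :
    HasSum (fun j : ℕ => (1/2:ℝ)^(j+K+1) * D) ((1/2:ℝ)^K * D) := by
  have h := (hasSum_geometric_two.mul_left ((1/2:ℝ)^(K+1) * D))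
  have e : (1/2:ℝ)^(K+1) * D * 2 = (1/2:ℝ)^K * D := by rw [pow_succ]; ring
  rw [e] at h
  have e2 : (fun j : ℕ => (1/2:ℝ)^(j+K+1) * D) =
      fun j : ℕ => (1/2:ℝ)^(K+1) * D * (1/2:ℝ)^j := by
    funext j
    rw [add_assoc, pow_add]; ring
  rw [e2]
  exact h

lemma summable_half (D : ℝ) : Summable (fun j : ℕ => (1/2:ℝ)^(j+1) * D) := by
  have := (hasSum_half D 0).summable
  simpa using this

lemma g_cont (hn : 2 ≤ n) (hρ : ∀ k, 0 < ρ k) (hr : ∀ k, ρ (k+1) ≤ ρ k / (16 * n))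
    (hc : Cut n ρ η) (k : ℕ) :
    LipschitzWith (Real.toNNReal ((1/2:ℝ)^(k+1) * √n / ρ (k+1))) (g n ρ η k) := by
  refine LipschitzWith.of_dist_le_mul ?_
  intro x y
  rw [dist_eq_norm, dist_eq_norm, Real.coe_toNNReal _ (by have := hρ (k+1); positivity)]
  exact g_lip hn hρ hr hc k x y

lemma g_summable (hn : 2 ≤ n) (hρ : ∀ k, 0 < ρ k) (hr : ∀ k, ρ (k+1) ≤ ρ k / (16 * n))
    (hc : Cut n ρ η) (x : EuclideanSpace ℝ (Fin n)) : Summable (fun k => g n ρ η k x) :=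
  Summable.of_norm_bounded (summable_half (√n)) (fun k => g_norm hn hρ hr hc k x)

lemma f_cont (hn : 2 ≤ n) (hρ : ∀ k, 0 < ρ k) (hr : ∀ k, ρ (k+1) ≤ ρ k / (16 * n))
    (hc : Cut n ρ η) : Continuous (fmap n ρ η) :=
  continuous_tsum (fun k => (g_cont hn hρ hr hc k).continuous) (summable_half (√n))
    (fun k x => g_norm hn hρ hr hc k x)

lemma V_sub_ball (hn : 2 ≤ n) (hρ : ∀ k, 0 < ρ k) (hr : ∀ k, ρ (k+1) ≤ ρ k / (16 * n))
    (k : ℕ) {x : EuclideanSpace ℝ (Fin n)} (hx : x ∈ V n ρ k) : ‖x‖ < ρ 0 := by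
  have h := V_anti hn hρ hr (Nat.zero_le k) hx
  obtain ⟨c, hc, hx⟩ := h
  simp only [Cs, Finset.mem_singleton] at hc
  rw [hc, sub_zero] at hx
  exact hx

lemma f_zero (hn : 2 ≤ n) (hρ : ∀ k, 0 < ρ k) (hr : ∀ k, ρ (k+1) ≤ ρ k / (16 * n))
    (hc : Cut n ρ η) {x : EuclideanSpace ℝ (Fin n)} (hx : ρ 0 ≤ ‖x‖) : fmap n ρ η x = 0 := by
  unfold fmap
  have : ∀ k, g n ρ η k x = 0 := by
    intro k
    refine g_zero hn hρ hc ?_
    intro h
    have := V_sub_ball hn hρ hr k h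
    linarith
  simp [this]

lemma f_compact (hn : 2 ≤ n) (hρ : ∀ k, 0 < ρ k) (hr : ∀ k, ρ (k+1) ≤ ρ k / (16 * n))
    (hc : Cut n ρ η) : HasCompactSupport (fmap n ρ η) := by
  refine HasCompactSupport.intro (isCompact_closedBall (0 : EuclideanSpace ℝ (Fin n)) (ρ 0)) ?_
  intro x hx
  rw [mem_closedBall_iff_norm, sub_zero, not_le] at hx
  exact f_zero hn hρ hr hc hx.le

lemma g_compact (hn : 2 ≤ n) (hρ : ∀ k, 0 < ρ k) (hr : ∀ k, ρ (k+1) ≤ ρ k / (16 * n))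
    (hc : Cut n ρ η) (k : ℕ) : HasCompactSupport (g n ρ η k) := by
  refine HasCompactSupport.intro (isCompact_closedBall (0 : EuclideanSpace ℝ (Fin n)) (ρ 0)) ?_
  intro x hx
  rw [mem_closedBall_iff_norm, sub_zero, not_le] at hx
  refine g_zero hn hρ hc ?_
  intro h
  have := V_sub_ball hn hρ hr k h
  linarith

lemma partial_lip (hn : 2 ≤ n) (hρ : ∀ k, 0 < ρ k) (hr : ∀ k, ρ (k+1) ≤ ρ k / (16 * n))
    (hc : Cut n ρ η) (K : ℕ) (x y : EuclideanSpace ℝ (Fin n)) :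
    ‖∑ k ∈ Finset.range K, g n ρ η k x - ∑ k ∈ Finset.range K, g n ρ η k y‖ ≤
      4 * √n * (1/2:ℝ)^K / ρ K * ‖x - y‖ := by
  induction K with
  | zero =>
    simp only [Finset.range_zero, Finset.sum_empty, sub_zero, norm_zero]
    have := hρ 0
    positivity
  | succ K ih =>
    rw [Finset.sum_range_succ, Finset.sum_range_succ]
    have h1 := g_lip hn hρ hr hc K x y
    have h2 : ∑ k ∈ Finset.range K, g n ρ η k x + g n ρ η K x -
        (∑ k ∈ Finset.range K, g n ρ η k y + g n ρ η K y) =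
        (∑ k ∈ Finset.range K, g n ρ η k x - ∑ k ∈ Finset.range K, g n ρ η k y) +
        (g n ρ η K x - g n ρ η K y) := by abel
    rw [h2]
    refine (norm_add_le _ _).trans ((add_le_add ih h1).trans ?_)
    rw [← add_mul]
    refine mul_le_mul_of_nonneg_right ?_ (norm_nonneg _)
    have h3 := rho32 hn hρ hr K
    have h4 := hρ K
    have h5 := hρ (K+1)
    have h6 : 4 * √n * (1/2:ℝ)^K / ρ K ≤ 4 * √n * (1/2:ℝ)^K / (32 * ρ (K+1)) := by
      gcongr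
    have h7 : 4 * √n * (1/2:ℝ)^K / (32 * ρ (K+1)) = 1/4 * (√n * (1/2:ℝ)^(K+1) / ρ (K+1)) := by
      rw [pow_succ]; field_simp; norm_num
    have h8 : (1/2:ℝ)^(K+1) * √n / ρ (K+1) = √n * (1/2:ℝ)^(K+1) / ρ (K+1) := by ring
    have h9 : 4 * √n * (1/2:ℝ)^(K+1) / ρ (K+1) = 4 * (√n * (1/2:ℝ)^(K+1) / ρ (K+1)) := by ring
    have h10 : 0 ≤ √n * (1/2:ℝ)^(K+1) / ρ (K+1) := by positivity
    rw [h8, h9]
    linarith

lemma f_tail (hn : 2 ≤ n) (hρ : ∀ k, 0 < ρ k) (hr : ∀ k, ρ (k+1) ≤ ρ k / (16 * n))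
    (hc : Cut n ρ η) (K : ℕ) (x : EuclideanSpace ℝ (Fin n)) :
    ‖fmap n ρ η x - ∑ k ∈ Finset.range K, g n ρ η k x‖ ≤ (1/2:ℝ)^K * √n := by
  have h := (g_summable hn hρ hr hc x).sum_add_tsum_nat_add K
  have e : fmap n ρ η x - ∑ k ∈ Finset.range K, g n ρ η k x = ∑' k, g n ρ η (k + K) x := by
    unfold fmap; rw [← h]; abel
  rw [e]
  exact tsum_of_norm_bounded (hasSum_half (√n) K) (fun k => g_norm hn hρ hr hc (k+K) x)

lemma f_modulus (hn : 2 ≤ n) (hρ : ∀ k, 0 < ρ k) (hr : ∀ k, ρ (k+1) ≤ ρ k / (16 * n))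
    (hc : Cut n ρ η) (K : ℕ) (x y : EuclideanSpace ℝ (Fin n)) (h : ‖x - y‖ ≤ ρ K) :
    ‖fmap n ρ η x - fmap n ρ η y‖ ≤ 6 * √n * (1/2:ℝ)^K := by
  have h1 := f_tail hn hρ hr hc K x
  have h2 := f_tail hn hρ hr hc K y
  have h3 := partial_lip hn hρ hr hc K x y
  have h4 : 4 * √n * (1/2:ℝ)^K / ρ K * ‖x - y‖ ≤ 4 * √n * (1/2:ℝ)^K := by
    have := hρ K
    calc 4 * √n * (1/2:ℝ)^K / ρ K * ‖x - y‖ ≤ 4 * √n * (1/2:ℝ)^K / ρ K * ρ K := by gcongr
      _ = _ := by field_simp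
  have e : fmap n ρ η x - fmap n ρ η y =
      (fmap n ρ η x - ∑ k ∈ Finset.range K, g n ρ η k x) +
      (∑ k ∈ Finset.range K, g n ρ η k x - ∑ k ∈ Finset.range K, g n ρ η k y) -
      (fmap n ρ η y - ∑ k ∈ Finset.range K, g n ρ η k y) := by abel
  rw [e]
  refine (norm_sub_le _ _).trans ?_
  have := norm_add_le (fmap n ρ η x - ∑ k ∈ Finset.range K, g n ρ η k x)
    (∑ k ∈ Finset.range K, g n ρ η k x - ∑ k ∈ Finset.range K, g n ρ η k y)
  linarith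

lemma f_osc (hn : 2 ≤ n) (hρ : ∀ k, 0 < ρ k) (hr : ∀ k, ρ (k+1) ≤ ρ k / (16 * n))
    (hc : Cut n ρ η) (x y : EuclideanSpace ℝ (Fin n)) :
    ‖fmap n ρ η x - fmap n ρ η y‖ ≤ 6 * √n := by
  have h1 := f_tail hn hρ hr hc 0 x
  have h2 := f_tail hn hρ hr hc 0 y
  simp only [Finset.range_zero, Finset.sum_empty, sub_zero, pow_zero, one_mul] at h1 h2
  refine (norm_sub_le _ _).trans ?_
  have := one_le_D hn
  linarith

/-! ### the null set -/

/-- the Cantor set -/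
def A (n : ℕ) (ρ : ℕ → ℝ) : Set (EuclideanSpace ℝ (Fin n)) :=
  {x | ∀ K, ∃ c ∈ Cs n ρ K, ‖x - c‖ ≤ ρ K}

lemma rho_pow (hn : 2 ≤ n) (hρ : ∀ k, 0 < ρ k) (hr : ∀ k, ρ (k+1) ≤ ρ k / (16 * n)) (K : ℕ) :
    2 ^ K * ρ K ≤ ρ 0 * (1/16:ℝ)^K := by
  induction K with
  | zero => simp
  | succ K ih =>
    have h1 := rho32 hn hρ hr K
    have h2 : (0:ℝ) < 2 ^ K := by positivity
    calc 2 ^ (K+1) * ρ (K+1) = 2 ^ K * (32 * ρ (K+1)) / 16 := by rw [pow_succ]; ring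
      _ ≤ 2 ^ K * ρ K / 16 := by gcongr
      _ ≤ ρ 0 * (1/16:ℝ)^K / 16 := by gcongr
      _ = ρ 0 * (1/16:ℝ)^(K+1) := by rw [pow_succ]; ring

lemma vol_A (hn : 2 ≤ n) (hρ : ∀ k, 0 < ρ k) (hr : ∀ k, ρ (k+1) ≤ ρ k / (16 * n)) :
    volume (A n ρ) = 0 := by
  set v := volume (ball (0 : EuclideanSpace ℝ (Fin n)) 1) with hv
  have hvt : v ≠ ⊤ := measure_ball_lt_top.ne
  have key : ∀ K, volume (A n ρ) ≤ ENNReal.ofReal ((ρ 0 * (1/16:ℝ)^K)^n) * v := by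
    intro K
    have hsub : A n ρ ⊆ ⋃ c ∈ Cs n ρ K, closedBall c (ρ K) := by
      intro x hx
      obtain ⟨c, hc, h⟩ := hx K
      simp only [mem_iUnion]
      exact ⟨c, hc, by rwa [mem_closedBall_iff_norm]⟩
    have hK := hρ K
    calc volume (A n ρ) ≤ volume (⋃ c ∈ Cs n ρ K, closedBall c (ρ K)) := measure_mono hsub
      _ ≤ ∑ c ∈ Cs n ρ K, volume (closedBall c (ρ K)) := measure_biUnion_finset_le _ _
      _ = ∑ c ∈ Cs n ρ K, ENNReal.ofReal (ρ K ^ n) * v := by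
          refine Finset.sum_congr rfl ?_
          intro c _
          rw [Measure.addHaar_closedBall _ _ hK.le, finrank_euclideanSpace_fin]
      _ = (Cs n ρ K).card * (ENNReal.ofReal (ρ K ^ n) * v) := by
          rw [Finset.sum_const, nsmul_eq_mul]
      _ ≤ ENNReal.ofReal (2 ^ (n * K)) * (ENNReal.ofReal (ρ K ^ n) * v) := by
          gcongr
          rw [← ENNReal.ofReal_natCast]
          apply ENNReal.ofReal_le_ofReal
          exact_mod_cast card_Cs n ρ K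
      _ = ENNReal.ofReal ((2 ^ K * ρ K) ^ n) * v := by
          rw [← mul_assoc, ← ENNReal.ofReal_mul (by positivity), mul_pow, ← pow_mul,
            mul_comm n K]
      _ ≤ _ := by
          refine mul_le_mul_left ?_ v
          exact ENNReal.ofReal_le_ofReal
            (pow_le_pow_left₀ (by positivity) (rho_pow hn hρ hr K) n)
  have hlim : Tendsto (fun K : ℕ => ENNReal.ofReal ((ρ 0 * (1/16:ℝ)^K)^n) * v) atTop (𝓝 0) := by
    have h1 : Tendsto (fun K : ℕ => (ρ 0 * (1/16:ℝ)^K)^n) atTop (𝓝 ((ρ 0 * 0)^n)) :=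
      (tendsto_const_nhds.mul (tendsto_pow_atTop_nhds_zero_of_lt_one (by norm_num)
        (by norm_num))).pow n
    have h2 : (ρ 0 * 0)^n = 0 := by rw [mul_zero]; exact zero_pow (by omega)
    rw [h2] at h1
    have h3 := (ENNReal.tendsto_ofReal h1)
    rw [ENNReal.ofReal_zero] at h3
    have h4 := ENNReal.Tendsto.mul_const h3 (Or.inr hvt)
    rwa [zero_mul] at h4
  exact le_antisymm (ge_of_tendsto' hlim key) bot_le

/-- digits -/
def dig {n : ℕ} (z : EuclideanSpace ℝ (Fin n)) : Fin n → Bool := fun i => decide (0 ≤ z i)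

/-- remainders of the greedy expansion -/
def rem {n : ℕ} (y : EuclideanSpace ℝ (Fin n)) : ℕ → EuclideanSpace ℝ (Fin n)
  | 0 => y
  | k+1 => (2:ℝ) • rem y k - sv (dig (rem y k))

lemma rem_bound {y : EuclideanSpace ℝ (Fin n)} (hy : ∀ i, |y i| ≤ 1) (k : ℕ) (i : Fin n) :
    |rem y k i| ≤ 1 := by
  induction k with
  | zero => exact hy i
  | succ k ih =>
    have e : rem y (k+1) i = 2 * rem y k i - sv (dig (rem y k)) i := rfl
    rw [e, sv_apply]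
    rw [abs_le] at ih ⊢
    by_cases h : 0 ≤ rem y k i
    · have : dig (rem y k) i = true := by simp [dig, h]
      rw [this, if_pos rfl]
      constructor <;> linarith
    · have : dig (rem y k) i = false := by simp [dig]; linarith
      rw [this, if_neg (by simp)]
      push Not at h
      constructor <;> linarith

lemma rem_sum (y : EuclideanSpace ℝ (Fin n)) (K : ℕ) :
    ∑ k ∈ Finset.range K, ((1/2:ℝ)^(k+1)) • sv (dig (rem y k)) + ((1/2:ℝ)^K) • rem y K = y := by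
  induction K with
  | zero => simp [rem]
  | succ K ih =>
    rw [Finset.sum_range_succ]
    have e : rem y (K+1) = (2:ℝ) • rem y K - sv (dig (rem y K)) := rfl
    rw [e, smul_sub, smul_smul]
    have : (1/2:ℝ)^(K+1) * 2 = (1/2:ℝ)^K := by rw [pow_succ]; ring
    rw [this]
    calc _ = ∑ k ∈ Finset.range K, ((1/2:ℝ)^(k+1)) • sv (dig (rem y k)) +
          ((1/2:ℝ)^K) • rem y K := by abel
      _ = y := ih

lemma rem_norm {y : EuclideanSpace ℝ (Fin n)} (hy : ∀ i, |y i| ≤ 1) (k : ℕ) :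
    ‖rem y k‖ ≤ √n := by
  rw [EuclideanSpace.norm_eq]
  apply Real.sqrt_le_sqrt
  calc ∑ i, ‖rem y k i‖ ^ 2 ≤ ∑ i : Fin n, (1:ℝ) := by
        refine Finset.sum_le_sum ?_
        intro i _
        have := rem_bound hy k i
        rw [Real.norm_eq_abs]
        calc |rem y k i| ^ 2 ≤ 1 ^ 2 := by gcongr
          _ = 1 := one_pow 2
    _ = n := by simp

lemma hasSum_digits {y : EuclideanSpace ℝ (Fin n)} (hy : ∀ i, |y i| ≤ 1) :
    HasSum (fun k => ((1/2:ℝ)^(k+1)) • sv (dig (rem y k))) y := by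
  have hs : Summable (fun k => ‖((1/2:ℝ)^(k+1)) • sv (dig (rem y k))‖) := by
    refine (summable_half (√n)).congr ?_
    intro k
    rw [norm_smul, norm_sv, Real.norm_eq_abs, abs_of_pos (by positivity)]
  refine (hasSum_iff_tendsto_nat_of_summable_norm hs).2 ?_
  have h1 : Tendsto (fun K : ℕ => ((1/2:ℝ)^K) • rem y K) atTop (𝓝 0) := by
    rw [tendsto_zero_iff_norm_tendsto_zero]
    have h2 : Tendsto (fun K : ℕ => (1/2:ℝ)^K * √n) atTop (𝓝 (0 * √n)) :=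
      (tendsto_pow_atTop_nhds_zero_of_lt_one (by norm_num) (by norm_num)).mul_const _
    rw [zero_mul] at h2
    refine squeeze_zero (fun _ => norm_nonneg _) ?_ h2
    intro K
    rw [norm_smul, Real.norm_eq_abs, abs_of_pos (by positivity)]
    gcongr
    exact rem_norm hy K
  have h3 : (fun K => ∑ k ∈ Finset.range K, ((1/2:ℝ)^(k+1)) • sv (dig (rem y k))) =
      fun K => y - ((1/2:ℝ)^K) • rem y K := by
    funext K
    rw [eq_sub_iff_add_eq]
    exact rem_sum y K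
  rw [h3]
  simpa using (tendsto_const_nhds (x := y)).sub h1

/-- partial centres -/
def cK {n : ℕ} (ρ : ℕ → ℝ) (e : ℕ → Fin n → Bool) (K : ℕ) : EuclideanSpace ℝ (Fin n) :=
  ∑ k ∈ Finset.range K, (ρ k / (2 * √n)) • sv (e k)

lemma cK_mem (e : ℕ → Fin n → Bool) (K : ℕ) : cK ρ e K ∈ Cs n ρ K := by
  induction K with
  | zero => simp [cK, Cs]
  | succ K ih =>
    rw [Cs_succ]
    refine ⟨(cK ρ e K, e K), mem_Ps.2 ih, ?_⟩
    unfold cK ctr
    rw [Finset.sum_range_succ]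

lemma rho_half (hn : 2 ≤ n) (hρ : ∀ k, 0 < ρ k) (hr : ∀ k, ρ (k+1) ≤ ρ k / (16 * n))
    (K j : ℕ) : ρ (j + K) ≤ (1/2:ℝ)^j * ρ K := by
  induction j with
  | zero => simp
  | succ j ih =>
    have h1 := rho32 hn hρ hr (j + K)
    have h2 := hρ (j + K)
    have e : j + 1 + K = (j + K) + 1 := by ring
    rw [e, pow_succ]
    linarith

lemma f_image (hn : 2 ≤ n) (hρ : ∀ k, 0 < ρ k) (hr : ∀ k, ρ (k+1) ≤ ρ k / (16 * n))
    (hc : Cut n ρ η) {y : EuclideanSpace ℝ (Fin n)} (hy : ∀ i, |y i| ≤ 1) :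
    y ∈ fmap n ρ η '' A n ρ := by
  set e : ℕ → Fin n → Bool := fun k => dig (rem y k) with he
  have hD := one_le_D hn
  have hnorm : ∀ k, ‖(ρ k / (2 * √n)) • sv (e k)‖ = ρ k / 2 := by
    intro k
    have := hρ k
    rw [norm_smul, norm_sv, Real.norm_eq_abs, abs_of_pos (by positivity)]
    field_simp
  have hb : ∀ K j, ‖(ρ (j+K) / (2 * √n)) • sv (e (j+K))‖ ≤ (1/2:ℝ)^(j+0+1) * ρ K := by
    intro K j
    rw [hnorm, pow_succ]
    have := rho_half hn hρ hr K j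
    linarith
  have hsum : Summable (fun k => (ρ k / (2 * √n)) • sv (e k)) := by
    refine Summable.of_norm_bounded (g := fun j => (1/2:ℝ)^(j+0+1) * ρ 0)
      (hasSum_half (ρ 0) 0).summable ?_
    intro j
    exact hb 0 j
  set x := ∑' k, (ρ k / (2 * √n)) • sv (e k) with hx
  have hxc : ∀ K, ‖x - cK ρ e K‖ ≤ ρ K := by
    intro K
    have h := hsum.sum_add_tsum_nat_add K
    have e1 : x - cK ρ e K = ∑' k, (ρ (k+K) / (2 * √n)) • sv (e (k+K)) := by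
      rw [hx, ← h]; unfold cK; abel
    rw [e1]
    have h2 := hasSum_half (ρ K) 0
    rw [pow_zero, one_mul] at h2
    exact tsum_of_norm_bounded h2 (fun j => hb K j)
  refine ⟨x, fun K => ⟨cK ρ e K, cK_mem e K, hxc K⟩, ?_⟩
  have hg : ∀ k, g n ρ η k x = ((1/2:ℝ)^(k+1)) • sv (e k) := by
    intro k
    have h1 : (cK ρ e k, e k) ∈ Ps n ρ k := mem_Ps.2 (cK_mem e k)
    have h2 : ctr ρ k (cK ρ e k, e k) = cK ρ e (k+1) := by
      unfold cK ctr
      rw [Finset.sum_range_succ]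
    exact g_const hn hρ hr hc h1 (by rw [h2]; exact hxc (k+1))
  unfold fmap
  simp_rw [hg]
  exact (hasSum_digits hy).tsum_eq

end assembly

section weak

variable {n : ℕ} {ρ : ℕ → ℝ} {η : ℕ → EuclideanSpace ℝ (Fin n) → ℝ}

lemma enorm_clm_zero :
    ‖(0 : EuclideanSpace ℝ (Fin n) →L[ℝ] EuclideanSpace ℝ (Fin n))‖ₑ = 0 := by
  rw [← ofReal_norm, norm_zero, ENNReal.ofReal_zero]

/-- the weak derivative -/
def Dmap (n : ℕ) (ρ : ℕ → ℝ) (η : ℕ → EuclideanSpace ℝ (Fin n) → ℝ)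
    (x : EuclideanSpace ℝ (Fin n)) : EuclideanSpace ℝ (Fin n) →L[ℝ] EuclideanSpace ℝ (Fin n) :=
  ∑' k, fderiv ℝ (g n ρ η k) x

lemma Dmap_meas (hn : 2 ≤ n) (hρ : ∀ k, 0 < ρ k) (hr : ∀ k, ρ (k+1) ≤ ρ k / (16 * n))
    (hc : Cut n ρ η) : Measurable (Dmap n ρ η) := by
  refine measurable_of_tendsto_metrizable
    (f := fun K x => ∑ k ∈ Finset.range K, fderiv ℝ (g n ρ η k) x) ?_ ?_
  · intro K
    exact Finset.measurable_fun_sum _ (fun k _ => measurable_fderiv ℝ _)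
  · rw [tendsto_pi_nhds]
    intro x
    obtain ⟨k₀, h₀⟩ := unique_piece hn hρ hr hc x
    have h1 : HasSum (fun k => fderiv ℝ (g n ρ η k) x) (fderiv ℝ (g n ρ η k₀) x) :=
      hasSum_single k₀ h₀
    have h2 : Dmap n ρ η x = fderiv ℝ (g n ρ η k₀) x := h1.tsum_eq
    rw [h2]
    exact h1.tendsto_sum_nat

lemma Dmap_pow (hn : 2 ≤ n) (hρ : ∀ k, 0 < ρ k) (hr : ∀ k, ρ (k+1) ≤ ρ k / (16 * n))
    (hc : Cut n ρ η) {m : ℕ} (hm : m ≠ 0) (x : EuclideanSpace ℝ (Fin n)) :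
    ‖Dmap n ρ η x‖ₑ ^ m = ∑' k, ‖fderiv ℝ (g n ρ η k) x‖ₑ ^ m := by
  obtain ⟨k₀, h₀⟩ := unique_piece hn hρ hr hc x
  have h1 : Dmap n ρ η x = fderiv ℝ (g n ρ η k₀) x := tsum_eq_single k₀ h₀
  rw [h1, tsum_eq_single k₀]
  intro k hk
  rw [h₀ k hk, enorm_clm_zero, zero_pow hm]

lemma Dmap_zero (hn : 2 ≤ n) (hρ : ∀ k, 0 < ρ k) (hr : ∀ k, ρ (k+1) ≤ ρ k / (16 * n))
    (hc : Cut n ρ η) {x : EuclideanSpace ℝ (Fin n)} (hx : ρ 0 ≤ ‖x‖) : Dmap n ρ η x = 0 := by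
  unfold Dmap
  have : ∀ k, fderiv ℝ (g n ρ η k) x = 0 := by
    intro k
    refine g_fderiv_out hn hρ hc ?_
    intro h
    have := V_sub_ball hn hρ hr k h
    linarith
  simp [this]

lemma Dmap_lint (hn : 2 ≤ n) (hρ : ∀ k, 0 < ρ k) (hr : ∀ k, ρ (k+1) ≤ ρ k / (16 * n))
    (hc : Cut n ρ η) {a : ℕ → ℝ} (ha : Summable a)
    (he : ∀ k, ∫⁻ x, ‖fderiv ℝ (g n ρ η k) x‖ₑ ^ n ≤ ENNReal.ofReal (a k)) :
    ∫⁻ x, ‖Dmap n ρ η x‖ₑ ^ n < ⊤ := by
  have hn0 : n ≠ 0 := by omega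
  simp_rw [Dmap_pow hn hρ hr hc hn0]
  rw [lintegral_tsum (fun k => ((measurable_fderiv ℝ _).enorm.pow_const n).aemeasurable)]
  exact (ENNReal.tsum_le_tsum he).trans_lt ha.tsum_ofReal_lt_top

lemma Dmap_lint1 (hn : 2 ≤ n) (hρ : ∀ k, 0 < ρ k) (hr : ∀ k, ρ (k+1) ≤ ρ k / (16 * n))
    (hc : Cut n ρ η) (h : ∫⁻ x, ‖Dmap n ρ η x‖ₑ ^ n < ⊤) :
    ∫⁻ x, ‖Dmap n ρ η x‖ₑ < ⊤ := by
  have hn0 : n ≠ 0 := by omega
  have hle : ∀ x, ‖Dmap n ρ η x‖ₑ ≤
      (closedBall (0 : EuclideanSpace ℝ (Fin n)) (ρ 0)).indicator (fun _ => 1) x +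
        ‖Dmap n ρ η x‖ₑ ^ n := by
    intro x
    by_cases hx : x ∈ closedBall (0 : EuclideanSpace ℝ (Fin n)) (ρ 0)
    · rw [indicator_of_mem hx]
      rcases le_total (‖Dmap n ρ η x‖ₑ) 1 with h1 | h1
      · exact h1.trans le_self_add
      · exact (le_self_pow₀ h1 hn0).trans le_add_self
    · rw [mem_closedBall_iff_norm, sub_zero, not_le] at hx
      rw [Dmap_zero hn hρ hr hc hx.le, enorm_clm_zero]
      exact bot_le
  refine (lintegral_mono hle).trans_lt ?_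
  rw [lintegral_add_left (measurable_const.indicator measurableSet_closedBall),
    lintegral_indicator_const measurableSet_closedBall, one_mul]
  exact ENNReal.add_lt_top.2 ⟨measure_closedBall_lt_top, h⟩

lemma weak_formula (hn : 2 ≤ n) (hρ : ∀ k, 0 < ρ k) (hr : ∀ k, ρ (k+1) ≤ ρ k / (16 * n))
    (hc : Cut n ρ η) (h : ∫⁻ x, ‖Dmap n ρ η x‖ₑ < ⊤)
    {φ : EuclideanSpace ℝ (Fin n) → ℝ} (hφ : ContDiff ℝ ∞ φ) (hφc : HasCompactSupport φ)
    (v : EuclideanSpace ℝ (Fin n)) :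
    ∫ x, (fderiv ℝ φ x v) • fmap n ρ η x = - ∫ x, φ x • Dmap n ρ η x v := by
  have hφ1 : ContDiff ℝ 1 φ := hφ.of_le (by norm_cast)
  have hcf : Continuous (fun x => fderiv ℝ φ x v) :=
    (hφ1.continuous_fderiv (by norm_num)).clm_apply continuous_const
  have hcs : HasCompactSupport (fun x => fderiv ℝ φ x v) := by
    have := hφc.fderiv (𝕜 := ℝ)
    exact this.comp_left (g := fun A : EuclideanSpace ℝ (Fin n) →L[ℝ] ℝ => A v) (by simp)
  have hi : Integrable (fun x => fderiv ℝ φ x v) (volume : Measure (EuclideanSpace ℝ (Fin n))) :=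
    hcf.integrable_of_hasCompactSupport hcs
  -- left side as a sum
  have hL : ∑' k, ∫ x, (fderiv ℝ φ x v) • g n ρ η k x =
      ∫ x, ∑' k, (fderiv ℝ φ x v) • g n ρ η k x := by
    refine integral_tsum_of_summable_integral_norm ?_ ?_
    · intro k
      exact (hcf.smul (g_cont hn hρ hr hc k).continuous).integrable_of_hasCompactSupport
        hcs.smul_right
    · refine Summable.of_nonneg_of_le (fun _ => integral_nonneg (fun _ => norm_nonneg _)) ?_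
        ((summable_half (√n)).mul_right (∫ x, ‖fderiv ℝ φ x v‖))
      intro k
      rw [← integral_const_mul]
      refine integral_mono_of_nonneg (Eventually.of_forall (fun _ => norm_nonneg _))
        (hi.norm.const_mul _) (Eventually.of_forall (fun x => ?_))
      show ‖(fderiv ℝ φ x v) • g n ρ η k x‖ ≤ (1/2:ℝ)^(k+1) * √n * ‖fderiv ℝ φ x v‖
      rw [norm_smul, mul_comm]
      gcongr
      exact g_norm hn hρ hr hc k x
  have hL2 : ∀ x, ∑' k, (fderiv ℝ φ x v) • g n ρ η k x = (fderiv ℝ φ x v) • fmap n ρ η x := by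
    intro x
    exact (g_summable hn hρ hr hc x).tsum_const_smul _
  simp_rw [hL2] at hL
  rw [← hL]
  -- right side as a sum
  have hR2 : ∀ x, ∑' k, φ x • fderiv ℝ (g n ρ η k) x v = φ x • Dmap n ρ η x v := by
    intro x
    obtain ⟨k₀, h₀⟩ := unique_piece hn hρ hr hc x
    have h1 : Dmap n ρ η x = fderiv ℝ (g n ρ η k₀) x := tsum_eq_single k₀ h₀
    rw [h1, tsum_eq_single k₀]
    intro k hk
    rw [h₀ k hk]; simp
  obtain ⟨M, hM⟩ : ∃ M : ℝ, ∀ x, ‖φ x‖ ≤ M := by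
    obtain ⟨M, hM⟩ := hφc.exists_bound_of_continuous hφ.continuous
    exact ⟨M, hM⟩
  have hR : ∫ x, ∑' k, φ x • fderiv ℝ (g n ρ η k) x v =
      ∑' k, ∫ x, φ x • fderiv ℝ (g n ρ η k) x v := by
    refine integral_tsum ?_ ?_
    · intro k
      exact hφ.continuous.aestronglyMeasurable.smul
        (measurable_fderiv_apply_const ℝ _ v).aestronglyMeasurable
    · have hb : ∀ k, ∫⁻ x, ‖φ x • fderiv ℝ (g n ρ η k) x v‖ₑ ≤
          ENNReal.ofReal (M * ‖v‖) * ∫⁻ x, ‖fderiv ℝ (g n ρ η k) x‖ₑ := by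
        intro k
        rw [← lintegral_const_mul _ (measurable_fderiv ℝ _).enorm]
        refine lintegral_mono (fun x => ?_)
        have hM0 : 0 ≤ M := (norm_nonneg _).trans (hM x)
        rw [← ofReal_norm, ← ofReal_norm, ← ENNReal.ofReal_mul (by positivity)]
        apply ENNReal.ofReal_le_ofReal
        rw [norm_smul]
        calc ‖φ x‖ * ‖fderiv ℝ (g n ρ η k) x v‖ ≤ M * (‖fderiv ℝ (g n ρ η k) x‖ * ‖v‖) := by
              gcongr
              · exact hM x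
              · exact ContinuousLinearMap.le_opNorm _ _
          _ = _ := by ring
      have hs : ∑' k, ∫⁻ x, ‖fderiv ℝ (g n ρ η k) x‖ₑ = ∫⁻ x, ‖Dmap n ρ η x‖ₑ := by
        rw [← lintegral_tsum (fun k => (measurable_fderiv ℝ _).enorm.aemeasurable)]
        congr 1
        funext x
        have := Dmap_pow hn hρ hr hc one_ne_zero x
        simp only [pow_one] at this
        exact this.symm
      refine ne_of_lt ((ENNReal.tsum_le_tsum hb).trans_lt ?_)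
      rw [ENNReal.tsum_mul_left, hs]
      exact ENNReal.mul_lt_top ENNReal.ofReal_lt_top h
  simp_rw [hR2] at hR
  rw [hR, ← tsum_neg]
  refine tsum_congr ?_
  intro k
  exact ibp_lip (g_cont hn hρ hr hc k) hφ1 hφc v

end weak

end Cant

open Cant in
/-- JOB: the Cantor type map with logarithmic spikes -/
theorem cantor_map {n : ℕ} (hn : 2 ≤ n) {ρ : ℕ → ℝ} (hρ : ∀ k, 0 < ρ k)
    (hr : ∀ k, ρ (k+1) ≤ ρ k / (16 * n))
    (hs : Summable (fun k => (1 / Real.log (ρ k / ρ (k+1))) ^ (n - 1))) :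
    ∃ f : EuclideanSpace ℝ (Fin n) → EuclideanSpace ℝ (Fin n), Continuous f ∧ HasCompactSupport f ∧
      (∃ Df : EuclideanSpace ℝ (Fin n) → EuclideanSpace ℝ (Fin n) →L[ℝ] EuclideanSpace ℝ (Fin n),
        MemLp Df n volume ∧
        ∀ φ : EuclideanSpace ℝ (Fin n) → ℝ, ContDiff ℝ ∞ φ → HasCompactSupport φ →
          ∀ v : EuclideanSpace ℝ (Fin n), ∫ x, (fderiv ℝ φ x v) • f x = - ∫ x, φ x • Df x v) ∧
      (∃ C : ℝ, (∀ x y, ‖f x - f y‖ ≤ C) ∧ ∀ k x y, ‖x - y‖ ≤ ρ k → ‖f x - f y‖ ≤ C * (1/2) ^ k) ∧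
      ∃ A : Set (EuclideanSpace ℝ (Fin n)), volume A = 0 ∧ volume (f '' A) ≠ 0 := by
  have hn0 : n ≠ 0 := by omega
  have hD := one_le_D hn
  have : NeZero n := ⟨hn0⟩
  have : Nontrivial (EuclideanSpace ℝ (Fin n)) := inferInstance
  have hRR : ∀ k, ρ (k+1) < ρ k / (4 * √n) := by
    intro k
    have := rho_lt_R hn hρ hr k
    have := hρ (k+1)
    linarith
  choose η h1 hone hzero hL hE using fun k => Pool.Agent.Helper930.Ln.log_cutoff hn (hρ (k+1)) (hRR k)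
  -- logarithms
  have hq : ∀ k, 32 ≤ ρ k / ρ (k+1) := by
    intro k
    rw [le_div_iff₀ (hρ (k+1))]
    exact rho32 hn hρ hr k
  have hlogq : ∀ k, 2 < Real.log (ρ k / ρ (k+1)) := by
    intro k
    have h2 : Real.exp 1 < 2.7182818286 := Real.exp_one_lt_d9
    have h3 : Real.exp 2 < 32 := by
      have : Real.exp 2 = Real.exp 1 * Real.exp 1 := by rw [← Real.exp_add]; norm_num
      rw [this]
      nlinarith [Real.exp_pos 1]
    rw [Real.lt_log_iff_exp_lt (by have := hq k; linarith)]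
    exact h3.trans_le (hq k)
  have hlogR : ∀ k, 1/2 * Real.log (ρ k / ρ (k+1)) ≤ Real.log (ρ k / (4 * √n) / ρ (k+1)) := by
    intro k
    have h4 := hρ k
    have h5 := hρ (k+1)
    have h6 : 0 < ρ k / ρ (k+1) := by positivity
    have h7 : (4 * √n) * (4 * √n) ≤ ρ k / ρ (k+1) := by
      have : (4 * √n) * (4 * √n) = 16 * n := by
        have := D_sq (n := n)
        linear_combination 16 * this
      rw [this, le_div_iff₀ h5]
      have := hr k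
      rw [le_div_iff₀ (by positivity)] at this
      linarith
    have h8 : Real.log ((4 * √n) * (4 * √n)) ≤ Real.log (ρ k / ρ (k+1)) :=
      Real.log_le_log (by positivity) h7
    rw [Real.log_mul (by positivity) (by positivity)] at h8
    have h9 : ρ k / (4 * √n) / ρ (k+1) = (ρ k / ρ (k+1)) / (4 * √n) := by field_simp
    rw [h9, Real.log_div h6.ne' (by positivity)]
    linarith
  have hlogR1 : ∀ k, 1 ≤ Real.log (ρ k / (4 * √n) / ρ (k+1)) := by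
    intro k
    have := hlogR k
    have := hlogq k
    linarith
  have hc : Cut n ρ η := by
    refine ⟨h1, hone, hzero, ?_, fun k => ⟨_, hL k⟩⟩
    intro k y z
    have h5 := hρ (k+1)
    have h6 := hlogR1 k
    have h7 := (hL k).dist_le_mul y z
    rw [Real.dist_eq, dist_eq_norm, Real.coe_toNNReal _ (by positivity)] at h7
    refine h7.trans ?_
    refine mul_le_mul_of_nonneg_right ?_ (norm_nonneg _)
    apply one_div_le_one_div_of_le h5
    nlinarith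
  -- energy
  set v := (volume (ball (0 : EuclideanSpace ℝ (Fin n)) 1)).toReal with hv
  have hv0 : 0 ≤ v := ENNReal.toReal_nonneg
  have hen : ∀ k, ∫⁻ x, ‖fderiv ℝ (g n ρ η k) x‖ₑ ^ n ≤
      ENNReal.ofReal (√n ^ n * (n * v * 2 ^ (n-1)) *
        (1 / Real.log (ρ k / ρ (k+1))) ^ (n - 1)) := by
    intro k
    have h2 := bs_energy (P := Ps n ρ k) (c := ctr ρ k) (v := fun p => ((1/2:ℝ)^(k+1)) • sv p.2)
      (η := η k) (Rpos hn hρ k) (sepP hn hρ hr k) (hc.hzero k)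
      (D := (1/2:ℝ)^(k+1) * √n) (by positivity) hn0 (hv_norm k) (hL k)
    refine h2.trans ?_
    have h3 : ((Ps n ρ k).card : ℝ≥0∞) ≤ ENNReal.ofReal (2 ^ (n * (k+1))) := by
      rw [← ENNReal.ofReal_natCast]
      apply ENNReal.ofReal_le_ofReal
      exact_mod_cast card_Ps n ρ k
    have h4 := hE k
    have h6 := hlogR1 k
    have h7 := hlogR k
    have h8 := hlogq k
    have h9 : (1 / Real.log (ρ k / (4 * √n) / ρ (k+1))) ^ (n - 1) ≤
        2 ^ (n-1) * (1 / Real.log (ρ k / ρ (k+1))) ^ (n - 1) := by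
      rw [← mul_pow]
      apply pow_le_pow_left₀ (by positivity)
      rw [mul_one_div, div_le_div_iff₀ (by linarith) (by linarith)]
      linarith
    calc _ ≤ ENNReal.ofReal (2 ^ (n * (k+1))) * (ENNReal.ofReal (((1/2:ℝ)^(k+1) * √n) ^ n) *
          ENNReal.ofReal (n * v * (1 / Real.log (ρ k / (4 * √n) / ρ (k+1))) ^ (n - 1))) := by
          gcongr
      _ = ENNReal.ofReal (2 ^ (n * (k+1)) * (((1/2:ℝ)^(k+1) * √n) ^ n *
          (n * v * (1 / Real.log (ρ k / (4 * √n) / ρ (k+1))) ^ (n - 1)))) := by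
          rw [← ENNReal.ofReal_mul (by positivity), ← ENNReal.ofReal_mul (by positivity)]
      _ ≤ _ := by
          apply ENNReal.ofReal_le_ofReal
          have h10 : (2:ℝ) ^ (n * (k+1)) * (((1/2:ℝ)^(k+1) * √n) ^ n *
              (n * v * (1 / Real.log (ρ k / (4 * √n) / ρ (k+1))) ^ (n - 1))) =
              √n ^ n * (n * v * (1 / Real.log (ρ k / (4 * √n) / ρ (k+1))) ^ (n - 1)) := by
            have h11 : (2:ℝ) ^ (n * (k+1)) * ((1/2:ℝ)^(k+1)) ^ n = 1 := by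
              rw [← pow_mul, mul_comm n (k+1), ← mul_pow]
              norm_num
            rw [mul_pow]
            linear_combination (√n ^ n * (n * v *
              (1 / Real.log (ρ k / (4 * √n) / ρ (k+1))) ^ (n - 1))) * h11
          rw [h10]
          calc √n ^ n * (n * v * (1 / Real.log (ρ k / (4 * √n) / ρ (k+1))) ^ (n - 1))
              ≤ √n ^ n * (n * v * (2 ^ (n-1) * (1 / Real.log (ρ k / ρ (k+1))) ^ (n - 1))) := by
                gcongr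
            _ = _ := by ring
  have hlint := Dmap_lint hn hρ hr hc (hs.mul_left (√n ^ n * (n * v * 2 ^ (n-1)))) hen
  refine ⟨fmap n ρ η, f_cont hn hρ hr hc, f_compact hn hρ hr hc, ⟨Dmap n ρ η, ?_, ?_⟩,
    ⟨6 * √n, f_osc hn hρ hr hc, f_modulus hn hρ hr hc⟩, A n ρ, vol_A hn hρ hr, ?_⟩
  · refine ⟨(Dmap_meas hn hρ hr hc).aestronglyMeasurable, ?_⟩
    rw [eLpNorm_lt_top_iff_lintegral_rpow_enorm_lt_top (by exact_mod_cast hn0)
      (ENNReal.natCast_ne_top n)]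
    simpa using hlint
  · intro φ hφ hφc w
    exact weak_formula hn hρ hr hc (Dmap_lint1 hn hρ hr hc hlint) hφ hφc w
  · have hsub : ball (0 : EuclideanSpace ℝ (Fin n)) 1 ⊆ fmap n ρ η '' A n ρ := by
      intro y hy
      refine f_image hn hρ hr hc ?_
      intro i
      rw [mem_ball_iff_norm, sub_zero] at hy
      have := PiLp.norm_apply_le y i
      rw [Real.norm_eq_abs] at this
      linarith
    have h2 := measure_mono (μ := (volume : Measure (EuclideanSpace ℝ (Fin n)))) hsub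
    have h3 : 0 < volume (ball (0 : EuclideanSpace ℝ (Fin n)) 1) :=
      measure_ball_pos _ _ one_pos
    exact (h3.trans_le h2).ne'

end

end Pool.Agent.Helper930.LnC
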