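import Mathlib
import Pool.Agent.Helper930.LnB
import Pool.Agent.Helper930.LnJ3
import Pool.Agent.Helper930.LnJ5

set_option autoImplicit false

open Set Filter Topology MeasureTheory Metric
open scoped ENNReal NNReal ContDiff

namespace Pool.Agent.Helper930.Ln

variable {n : ℕ}

theorem dirA (hn : 2 ≤ n) {w : ℝ → ℝ} (hw : IsModulus w)
    (hx : ∃ x : ℕ → ℝ, (∀ i, 0 ≤ x i) ∧ Summable (fun i => x i ^ n) ∧ ∃ c : ℝ, 0 < c ∧
      ∀ m : ℕ, c * Real.exp (-∑ i ∈ Finset.range m, x i) ≤ w ((1/2) ^ m)) :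
    ¬ PropertyP n w := by
  obtain ⟨x, hx0, hxs, c, hc, hcw⟩ := hx
  have hn' : (2:ℝ) ≤ n := by exact_mod_cast hn
  obtain ⟨ρ, hρ, hρr, hρs, c', hc', hc'w⟩ := exists_radii hn hw.mono hw.pos hx0 hxs hc hcw
    (M := 16 * n) (by linarith)
  obtain ⟨f, hfc, hfs, ⟨Df, hDf, hibp⟩, ⟨C, hC, hCk⟩, A, hA, hfA⟩ := LnC.cantor_map hn hρ hρr hρs
  intro hP
  apply hfA
  refine hP univ isOpen_univ f hfc.continuousOn ⟨?_, Df, ?_, ?_⟩ ?_ A (subset_univ _) hA
  · rw [Measure.restrict_univ]
    exact hfc.memLp_of_hasCompactSupport hfs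
  · rw [Measure.restrict_univ]; exact hDf
  · intro φ hφ hc _ v
    exact hibp φ hφ hc v
  · intro K _ _
    have hC0 : 0 ≤ C := (norm_nonneg _).trans (hC 0 0)
    have hρt : Tendsto ρ atTop (𝓝 0) := by
      have h1 : ∀ k, ρ k ≤ ρ 0 * (1/2)^k := by
        intro k
        induction k with
        | zero => simp
        | succ k ih =>
          have h2 := hρr k
          have h3 : ρ k / (16 * n) ≤ ρ k / 2 := by
            apply div_le_div_of_nonneg_left (hρ k).le (by norm_num) (by linarith)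
          calc ρ (k+1) ≤ ρ k / 2 := h2.trans h3
            _ ≤ ρ 0 * (1/2)^k / 2 := by gcongr
            _ = _ := by rw [pow_succ]; ring
      have h4 : Tendsto (fun k : ℕ => ρ 0 * (1/2:ℝ)^k) atTop (𝓝 0) := by
        have := (tendsto_pow_atTop_nhds_zero_of_lt_one (r := (1/2:ℝ)) (by norm_num)
          (by norm_num)).const_mul (ρ 0)
        rwa [mul_zero] at this
      exact squeeze_zero (fun k => (hρ k).le) h1 h4
    have hw0 : 0 < w (ρ 0) := hw.pos _ (hρ 0)
    refine ⟨C / w (ρ 0) + 2 * C / c', fun x _ y _ => ?_⟩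
    have hA0 : 0 ≤ C / w (ρ 0) := by positivity
    have hB0 : 0 ≤ 2 * C / c' := by positivity
    rcases eq_or_ne x y with h | h
    · rw [h]; simp [hw.zero]
    have ht : 0 < ‖x - y‖ := norm_pos_iff.mpr (sub_ne_zero.mpr h)
    have hwt := hw.pos _ ht
    rcases lt_or_ge (ρ 0) ‖x - y‖ with h1 | h1
    · have h2 : w (ρ 0) ≤ w ‖x - y‖ := hw.mono (mem_Ici.mpr (hρ 0).le) (mem_Ici.mpr ht.le) h1.le
      calc ‖f x - f y‖ ≤ C := hC x y
        _ = C / w (ρ 0) * w (ρ 0) := by field_simp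
        _ ≤ C / w (ρ 0) * w ‖x - y‖ := by gcongr
        _ ≤ _ := by
          rw [add_mul]
          have : 0 ≤ 2 * C / c' * w ‖x - y‖ := by positivity
          linarith
    · have hex : ∃ k, ρ (k+1) < ‖x - y‖ := by
        have := (hρt.comp (tendsto_add_atTop_nat 1)).eventually (gt_mem_nhds ht)
        obtain ⟨k, hk⟩ := this.exists
        exact ⟨k, hk⟩
      classical
      set k := Nat.find hex with hk
      have hk1 : ρ (k+1) < ‖x - y‖ := Nat.find_spec hex
      have hk2 : ‖x - y‖ ≤ ρ k := by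
        rcases Nat.eq_zero_or_pos k with h2 | h2
        · rw [h2]; exact h1
        · have h3 := Nat.find_min hex (m := k - 1) (by omega)
          rw [not_lt] at h3
          have : k - 1 + 1 = k := by omega
          rwa [this] at h3
      have h3 : c' * (1/2)^(k+1) ≤ w ‖x - y‖ :=
        (hc'w (k+1)).trans (hw.mono (mem_Ici.mpr (hρ _).le) (mem_Ici.mpr ht.le) hk1.le)
      calc ‖f x - f y‖ ≤ C * (1/2)^k := hCk k x y hk2
        _ = 2 * C / c' * (c' * (1/2)^(k+1)) := by rw [pow_succ]; field_simp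
        _ ≤ 2 * C / c' * w ‖x - y‖ := by gcongr
        _ ≤ _ := by
          rw [add_mul]
          have : 0 ≤ C / w (ρ 0) * w ‖x - y‖ := by positivity
          linarith

end Pool.Agent.Helper930.Ln
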