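import Mathlib
import Pool.Agent.Helper930.LnDefs

set_option autoImplicit false

open Set Filter Topology MeasureTheory
open scoped ENNReal

namespace Pool.Agent.Helper930.Ln

theorem eta_mono {ω : ℝ → ℝ} {s t : ℝ} (h : s ≤ t) : eta ω s ≤ eta ω t := by
  unfold eta
  apply iSup_mono
  intro u
  apply iSup_le
  intro hu
  exact le_iSup_of_le ⟨hu.1, hu.2.trans h⟩ le_rfl

theorem hardy {n : ℕ} (hn : 2 ≤ n) {x : ℕ → ℝ} (hx : ∀ i, 0 ≤ x i)
    (hs : Summable fun i => x i ^ n) :
    Summable fun j : ℕ => (2:ℝ)^j * ((∑ k ∈ Finset.range (2^j), x k) / 2^j)^n := by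
  set A : ℕ → ℝ := fun j => (∑ k ∈ Finset.range (2^j), x k) / 2^j with hA
  have hA0 : ∀ j, 0 ≤ A j := by
    intro j
    exact div_nonneg (Finset.sum_nonneg fun i _ => hx i) (by positivity)
  set s : ℕ → ℝ := fun j => 2^j * A j ^ n with hs'
  have hs0 : ∀ j, 0 ≤ s j := fun j => mul_nonneg (by positivity) (pow_nonneg (hA0 j) _)
  set B : ℕ → ℝ := fun j => ∑ k ∈ Finset.Ico (2^j) (2^(j+1)), x k ^ n with hB
  have hmono : ∀ j : ℕ, 2^j ≤ 2^(j+1) := fun j => Nat.pow_le_pow_right (by norm_num) (by omega)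
  have hcard : ∀ j : ℕ, (Finset.Ico (2^j) (2^(j+1))).card = 2^j := by
    intro j
    rw [Nat.card_Ico, pow_succ]; omega
  have hrec : ∀ j, s (j+1) ≤ 2/3 * s j + 2^n/2 * B j := by
    intro j
    set β : ℝ := (∑ k ∈ Finset.Ico (2^j) (2^(j+1)), x k) / 2^j with hβ
    have hβ0 : 0 ≤ β := div_nonneg (Finset.sum_nonneg fun i _ => hx i) (by positivity)
    have h2 : (0:ℝ) < 2^j := by positivity
    have hA1 : A (j+1) = 3/4 * (2/3 * A j) + 1/4 * (2 * β) := by
      have := Finset.sum_range_add_sum_Ico x (hmono j)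
      simp only [hA, hβ]
      rw [← this, pow_succ]
      field_simp
      ring
    have hconv : A (j+1) ^ n ≤ 3/4 * (2/3 * A j)^n + 1/4 * (2*β)^n := by
      rw [hA1]
      have h6 : (2/3 * A j) ∈ Ici (0:ℝ) := mul_nonneg (by norm_num) (hA0 j)
      have h7 : (2 * β) ∈ Ici (0:ℝ) := mul_nonneg (by norm_num) hβ0
      have := (convexOn_pow (𝕜 := ℝ) n).2 h6 h7
        (show (0:ℝ) ≤ 3/4 by norm_num) (show (0:ℝ) ≤ 1/4 by norm_num) (by norm_num)
      simpa only [smul_eq_mul] using this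
    have hpm : 2^j * β ^ n ≤ B j := by
      obtain ⟨m, rfl⟩ : ∃ m, n = m + 1 := ⟨n - 1, by omega⟩
      have := pow_sum_div_card_le_sum_pow (s := Finset.Ico (2^j) (2^(j+1))) (f := x)
        (fun i _ => hx i) m
      rw [hcard j] at this
      refine le_trans (le_of_eq ?_) this
      rw [hβ, div_pow, pow_succ ((2:ℝ)^j) m]
      push_cast
      field_simp
    have h23 : (2/3:ℝ)^n ≤ 4/9 := by
      calc (2/3:ℝ)^n ≤ (2/3)^2 := pow_le_pow_of_le_one (by norm_num) (by norm_num) hn
        _ = 4/9 := by norm_num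
    have hAn : 0 ≤ A j ^ n := pow_nonneg (hA0 j) _
    calc s (j+1) = 2^(j+1) * A (j+1)^n := rfl
      _ ≤ 2^(j+1) * (3/4 * (2/3 * A j)^n + 1/4 * (2*β)^n) :=
          mul_le_mul_of_nonneg_left hconv (by positivity)
      _ = (3/2 * (2/3)^n) * (2^j * A j ^ n) + 2^n/2 * (2^j * β^n) := by
          rw [mul_pow, mul_pow]; ring
      _ ≤ 2/3 * (2^j * A j ^ n) + 2^n/2 * B j := by
          apply add_le_add
          · apply mul_le_mul_of_nonneg_right _ (by positivity)
            linarith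
          · exact mul_le_mul_of_nonneg_left hpm (by positivity)
  have hBsum : ∀ N, ∑ j ∈ Finset.range N, B j ≤ ∑' i, x i ^ n := by
    intro N
    have h1 : ∑ j ∈ Finset.range N, B j = ∑ k ∈ Finset.Ico 1 (2^N), x k ^ n := by
      induction N with
      | zero => simp
      | succ N ih =>
        rw [Finset.sum_range_succ, ih]
        exact Finset.sum_Ico_consecutive _ Nat.one_le_two_pow (hmono N)
    rw [h1]
    exact hs.sum_le_tsum _ (fun i _ => pow_nonneg (hx i) _)
  apply summable_of_sum_range_le (c := 3 * (s 0 + 2^n/2 * ∑' i, x i ^ n)) hs0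
  intro N
  have h2 : ∀ N, ∑ j ∈ Finset.range (N+1), s j
      ≤ s 0 + 2/3 * ∑ j ∈ Finset.range N, s j + 2^n/2 * ∑ j ∈ Finset.range N, B j := by
    intro N
    rw [Finset.sum_range_succ', Finset.mul_sum, Finset.mul_sum]
    have : ∑ k ∈ Finset.range N, s (k+1) ≤ ∑ k ∈ Finset.range N, (2/3 * s k + 2^n/2 * B k) :=
      Finset.sum_le_sum fun k _ => hrec k
    rw [Finset.sum_add_distrib] at this
    linarith
  have h3 := h2 N
  have h4 : ∑ j ∈ Finset.range N, s j ≤ ∑ j ∈ Finset.range (N+1), s j := by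
    rw [Finset.sum_range_succ]; linarith [hs0 N]
  have h5 := mul_le_mul_of_nonneg_left (hBsum N) (show (0:ℝ) ≤ 2^n/2 by positivity)
  linarith

theorem etaBound {n : ℕ} (hn : 2 ≤ n) {ω : ℝ → ℝ} (hmono : MonotoneOn ω (Ici 0))
    (hpos : ∀ t, 0 < t → 0 < ω t) {x : ℕ → ℝ} (hx : ∀ i, 0 ≤ x i)
    (hX : ∀ m : ℕ, 1 ≤ m → -Real.log (ω ((1/2)^m)) ≤ ∑ k ∈ Finset.range m, x k) (i : ℕ) :
    eta ω ((1/2)^(2^i)) ^ n ≤ ENNReal.ofReal (2 / Real.log 2) ^ n *
      ∑' j : ℕ, if i < j then ENNReal.ofReal ((∑ k ∈ Finset.range (2^j), x k) / 2^j) ^ n else 0 := by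
  set A : ℕ → ℝ := fun j => (∑ k ∈ Finset.range (2^j), x k) / 2^j with hA
  have hl2 : 0 < Real.log 2 := Real.log_pos (by norm_num)
  set R : ℝ≥0∞ := ENNReal.ofReal (2 / Real.log 2) ^ n *
      ∑' j : ℕ, if i < j then ENNReal.ofReal (A j) ^ n else 0 with hR
  have hn0 : (0:ℝ) < n := by exact_mod_cast (by omega : 0 < n)
  rw [← ENNReal.rpow_natCast, ← ENNReal.le_rpow_inv_iff hn0]
  unfold eta
  apply iSup₂_le
  intro s hs
  rw [ENNReal.le_rpow_inv_iff hn0, ENNReal.rpow_natCast]
  obtain ⟨hs0, hs1⟩ := hs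
  have hs1' : s ≤ 1 := hs1.trans (pow_le_one₀ (by norm_num) (by norm_num))
  obtain ⟨k, hk1, hk2⟩ := exists_nat_pow_near_of_lt_one (K := ℝ) hs0 hs1'
    (show (0:ℝ) < 1/2 by norm_num) (by norm_num)
  have hk : 2^i ≤ k := by
    by_contra h
    push Not at h
    have : ((1:ℝ)/2)^(2^i) ≤ (1/2)^(k+1) :=
      pow_le_pow_of_le_one (by norm_num) (by norm_num) (by omega)
    linarith
  have hk0 : k ≠ 0 := by
    have : 0 < 2^i := by positivity
    omega
  have hi1 : 2^(Nat.log 2 k) ≤ k := Nat.pow_log_le_self 2 hk0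
  have hi2 : k < 2^(Nat.log 2 k + 1) := Nat.lt_pow_succ_log_self (by norm_num) k
  have hi3 : i ≤ Nat.log 2 k := Nat.le_log_of_pow_le (by norm_num) hk
  set l := Nat.log 2 k with hl
  have hA0 : 0 ≤ A (l+1) := div_nonneg (Finset.sum_nonneg fun i _ => hx i) (by positivity)
  have hratio : Real.log (1 / ω s) / Real.log (1 / s) ≤ 2 / Real.log 2 * A (l+1) := by
    have h1 : Real.log (1 / ω s) ≤ 2^(l+1) * A (l+1) := by
      rw [one_div, Real.log_inv]
      have h2 : Real.log (ω ((1/2)^(k+1))) ≤ Real.log (ω s) := by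
        apply Real.log_le_log (hpos _ (by positivity))
        apply hmono _ _ hk1.le
        · exact mem_Ici.2 (by positivity)
        · exact mem_Ici.2 hs0.le
      have h3 := hX (k+1) (by omega)
      have h4 : ∑ i ∈ Finset.range (k+1), x i ≤ ∑ i ∈ Finset.range (2^(l+1)), x i := by
        apply Finset.sum_le_sum_of_subset_of_nonneg
        · intro a ha
          rw [Finset.mem_range] at ha ⊢
          omega
        · intro a _ _
          exact hx a
      have h5 : 2^(l+1) * A (l+1) = ∑ i ∈ Finset.range (2^(l+1)), x i := by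
        simp only [hA]
        field_simp
      rw [h5]
      linarith
    have h6 : 2^l * Real.log 2 ≤ Real.log (1 / s) := by
      have h7 : ((2:ℝ)^k) ≤ 1 / s := by
        rw [le_div_iff₀ hs0]
        calc (2:ℝ)^k * s ≤ 2^k * (1/2)^k := mul_le_mul_of_nonneg_left hk2 (by positivity)
          _ = 1 := by rw [← mul_pow]; norm_num
      have h8 : Real.log ((2:ℝ)^k) ≤ Real.log (1/s) := Real.log_le_log (by positivity) h7
      rw [Real.log_pow] at h8
      have h9 : ((2:ℝ)^l) ≤ k := by exact_mod_cast hi1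
      calc 2^l * Real.log 2 ≤ k * Real.log 2 := mul_le_mul_of_nonneg_right h9 hl2.le
        _ ≤ _ := h8
    have h10 : 0 < 2^l * Real.log 2 := by positivity
    rw [div_le_iff₀ (lt_of_lt_of_le h10 h6)]
    calc Real.log (1 / ω s) ≤ 2^(l+1) * A (l+1) := h1
      _ = (2 / Real.log 2 * A (l+1)) * (2^l * Real.log 2) := by
          rw [pow_succ]; field_simp
      _ ≤ _ := mul_le_mul_of_nonneg_left h6 (by positivity)
  calc ENNReal.ofReal (Real.log (1 / ω s) / Real.log (1 / s)) ^ n
      ≤ ENNReal.ofReal (2 / Real.log 2 * A (l+1)) ^ n := by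
        gcongr
    _ = ENNReal.ofReal (2 / Real.log 2) ^ n * ENNReal.ofReal (A (l+1)) ^ n := by
        rw [ENNReal.ofReal_mul (by positivity), mul_pow]
    _ ≤ R := by
        rw [hR]
        apply mul_le_mul_right
        have := ENNReal.le_tsum (f := fun j : ℕ =>
          if i < j then ENNReal.ofReal (A j) ^ n else 0) (l+1)
        simp only [show i < l + 1 by omega, if_true] at this
        exact this

theorem sum_fin {n : ℕ} (hn : 2 ≤ n) {ω : ℝ → ℝ} (hmono : MonotoneOn ω (Ici 0))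
    (hpos : ∀ t, 0 < t → 0 < ω t) {x : ℕ → ℝ} (hx : ∀ i, 0 ≤ x i)
    (hs : Summable fun i => x i ^ n)
    (hX : ∀ m : ℕ, 1 ≤ m → -Real.log (ω ((1/2)^m)) ≤ ∑ k ∈ Finset.range m, x k) :
    ∑' m : ℕ, eta ω ((1/2)^(m+1)) ^ n ≠ ⊤ := by
  set A : ℕ → ℝ := fun j => (∑ k ∈ Finset.range (2^j), x k) / 2^j with hA
  have hA0 : ∀ j, 0 ≤ A j := by
    intro j
    exact div_nonneg (Finset.sum_nonneg fun i _ => hx i) (by positivity)
  have hsum : Summable fun j : ℕ => (2:ℝ)^j * A j ^ n := hardy hn hx hs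
  have hfin : ∑' j : ℕ, (2:ℝ≥0∞)^j * ENNReal.ofReal (A j) ^ n ≠ ⊤ := by
    have h1 := hsum.tsum_ofReal_ne_top
    convert h1 using 3 with j
    rw [ENNReal.ofReal_mul (by positivity), ENNReal.ofReal_pow (hA0 j),
      ENNReal.ofReal_pow (by norm_num)]
    norm_num
  let f : ℕ → ℝ≥0∞ := fun m => if m = 0 then 0 else eta ω ((1/2)^m) ^ n
  have hf : ∀ ⦃m n : ℕ⦄, 0 < m → m ≤ n → f n ≤ f m := by
    intro m k hm hmk
    simp only [f, if_neg hm.ne', if_neg (show k ≠ 0 by omega)]
    gcongr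
    apply eta_mono
    exact pow_le_pow_of_le_one (by norm_num) (by norm_num) hmk
  have h2 := ENNReal.le_tsum_condensed hf
  have h3 : ∑' m : ℕ, eta ω ((1/2)^(m+1)) ^ n ≤ ∑' k, f k := by
    have : ∀ m : ℕ, eta ω ((1/2)^(m+1)) ^ n = f (m+1) := by
      intro m
      simp [f]
    simp_rw [this]
    exact ENNReal.tsum_comp_le_tsum_of_injective (add_left_injective 1) f
  have h4 : f 0 = 0 := by simp [f]
  rw [h4, zero_add] at h2
  have h5 : ∑' k : ℕ, (2:ℝ≥0∞) ^ k * f (2 ^ k) ≤ ENNReal.ofReal (2 / Real.log 2) ^ n *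
      ∑' j : ℕ, (2:ℝ≥0∞)^j * ENNReal.ofReal (A j) ^ n := by
    calc ∑' k : ℕ, (2:ℝ≥0∞) ^ k * f (2 ^ k)
        ≤ ∑' k : ℕ, (2:ℝ≥0∞) ^ k * (ENNReal.ofReal (2 / Real.log 2) ^ n *
            ∑' j : ℕ, if k < j then ENNReal.ofReal (A j) ^ n else 0) := by
          apply ENNReal.tsum_le_tsum
          intro k
          gcongr
          have : f (2^k) = eta ω ((1/2)^(2^k)) ^ n := by
            simp [f]
          rw [this]
          exact etaBound hn hmono hpos hx hX k
      _ = ENNReal.ofReal (2 / Real.log 2) ^ n * ∑' k : ℕ, ∑' j : ℕ,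
            (2:ℝ≥0∞)^k * (if k < j then ENNReal.ofReal (A j) ^ n else 0) := by
          rw [← ENNReal.tsum_mul_left]
          apply tsum_congr
          intro k
          rw [ENNReal.tsum_mul_left]
          ring
      _ = ENNReal.ofReal (2 / Real.log 2) ^ n * ∑' j : ℕ, ∑' k : ℕ,
            (2:ℝ≥0∞)^k * (if k < j then ENNReal.ofReal (A j) ^ n else 0) := by
          rw [ENNReal.tsum_comm]
      _ ≤ _ := by
          gcongr with j
          have h6 : ∑' k : ℕ, (2:ℝ≥0∞)^k * (if k < j then ENNReal.ofReal (A j) ^ n else 0)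
              = ∑ k ∈ Finset.range j, (2:ℝ≥0∞)^k * ENNReal.ofReal (A j) ^ n := by
            rw [tsum_eq_sum (s := Finset.range j)]
            · apply Finset.sum_congr rfl
              intro k hk
              rw [if_pos (Finset.mem_range.1 hk)]
            · intro k hk
              rw [if_neg (by simpa using hk), mul_zero]
          rw [h6, ← Finset.sum_mul]
          gcongr
          have h7 : ∀ j : ℕ, ∑ k ∈ Finset.range j, (2:ℕ)^k ≤ 2^j := by
            intro j
            rw [Nat.geomSum_eq (le_refl 2)]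
            simp
          exact_mod_cast h7 j
  intro htop
  have h8 := (h3.trans h2).trans h5
  rw [htop, top_le_iff] at h8
  exact ENNReal.mul_ne_top (ENNReal.pow_ne_top ENNReal.ofReal_ne_top) hfin h8

theorem int_le {n : ℕ} (ω : ℝ → ℝ) :
    ∫⁻ t in Ioo (0:ℝ) (1/2), (eta ω t) ^ n / ENNReal.ofReal t
      ≤ ∑' m : ℕ, eta ω ((1/2)^(m+1)) ^ n := by
  have hcov : Ioo (0:ℝ) (1/2) ⊆ ⋃ m : ℕ, Ioc (((1:ℝ)/2)^(m+2)) ((1/2)^(m+1)) := by
    intro t ht
    obtain ⟨k, hk1, hk2⟩ := exists_nat_pow_near_of_lt_one (K := ℝ) ht.1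
      (by linarith [ht.2] : t ≤ 1) (show (0:ℝ) < 1/2 by norm_num) (by norm_num)
    have hk : k ≠ 0 := by
      rintro rfl
      rw [zero_add, pow_one] at hk1
      linarith [ht.2]
    obtain ⟨m, rfl⟩ := Nat.exists_eq_succ_of_ne_zero hk
    exact mem_iUnion.2 ⟨m, hk1, hk2⟩
  calc ∫⁻ t in Ioo (0:ℝ) (1/2), (eta ω t) ^ n / ENNReal.ofReal t
      ≤ ∫⁻ t in ⋃ m : ℕ, Ioc (((1:ℝ)/2)^(m+2)) ((1/2)^(m+1)),
          (eta ω t) ^ n / ENNReal.ofReal t := lintegral_mono_set hcov
    _ ≤ ∑' m : ℕ, ∫⁻ t in Ioc (((1:ℝ)/2)^(m+2)) ((1/2)^(m+1)),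
          (eta ω t) ^ n / ENNReal.ofReal t := lintegral_iUnion_le _ _
    _ ≤ _ := by
      apply ENNReal.tsum_le_tsum
      intro m
      have hp : (0:ℝ) < (1/2)^(m+2) := by positivity
      calc ∫⁻ t in Ioc (((1:ℝ)/2)^(m+2)) ((1/2)^(m+1)), (eta ω t) ^ n / ENNReal.ofReal t
          ≤ ∫⁻ _ in Ioc (((1:ℝ)/2)^(m+2)) ((1/2)^(m+1)),
              (eta ω ((1/2)^(m+1))) ^ n / ENNReal.ofReal ((1/2)^(m+2)) := by
            apply setLIntegral_mono' measurableSet_Ioc
            intro t ht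
            apply ENNReal.div_le_div
            · gcongr
              exact eta_mono ht.2
            · exact ENNReal.ofReal_le_ofReal ht.1.le
        _ = eta ω ((1/2)^(m+1)) ^ n := by
            rw [setLIntegral_const, Real.volume_Ioc]
            have : ((1:ℝ)/2)^(m+1) - (1/2)^(m+2) = (1/2)^(m+2) := by ring
            rw [this]
            exact ENNReal.div_mul_cancel (by simp) ENNReal.ofReal_ne_top
        _ ≤ _ := le_rfl

theorem le_int {n : ℕ} (ω : ℝ → ℝ) :
    ∑' m : ℕ, eta ω ((1/2)^(m+2)) ^ n * ENNReal.ofReal (1/2)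
      ≤ ∫⁻ t in Ioo (0:ℝ) (1/2), (eta ω t) ^ n / ENNReal.ofReal t := by
  have hsub : (⋃ m : ℕ, Ioo (((1:ℝ)/2)^(m+2)) ((1/2)^(m+1))) ⊆ Ioo (0:ℝ) (1/2) := by
    apply iUnion_subset
    intro m t ht
    refine ⟨lt_trans (by positivity) ht.1, lt_of_lt_of_le ht.2 ?_⟩
    calc ((1:ℝ)/2)^(m+1) ≤ (1/2)^1 := pow_le_pow_of_le_one (by norm_num) (by norm_num) (by omega)
      _ = 1/2 := by norm_num
  have hdisj : Pairwise (Function.onFun Disjoint
      (fun m : ℕ => Ioo (((1:ℝ)/2)^(m+2)) ((1/2)^(m+1)))) := by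
    have key : ∀ m k : ℕ, m < k → Disjoint (Ioo (((1:ℝ)/2)^(m+2)) ((1/2)^(m+1)))
        (Ioo (((1:ℝ)/2)^(k+2)) ((1/2)^(k+1))) := by
      intro m k hmk
      rw [Set.disjoint_left]
      intro t ht ht'
      have : ((1:ℝ)/2)^(k+1) ≤ (1/2)^(m+2) :=
        pow_le_pow_of_le_one (by norm_num) (by norm_num) (by omega)
      linarith [ht.1, ht'.2]
    intro m k hmk
    rcases lt_or_gt_of_ne hmk with h | h
    · exact key m k h
    · exact (key k m h).symm
  calc ∑' m : ℕ, eta ω ((1/2)^(m+2)) ^ n * ENNReal.ofReal (1/2)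
      ≤ ∑' m : ℕ, ∫⁻ t in Ioo (((1:ℝ)/2)^(m+2)) ((1/2)^(m+1)),
          (eta ω t) ^ n / ENNReal.ofReal t := by
        apply ENNReal.tsum_le_tsum
        intro m
        have hp : (0:ℝ) < (1/2)^(m+1) := by positivity
        calc eta ω ((1/2)^(m+2)) ^ n * ENNReal.ofReal (1/2)
            = ∫⁻ _ in Ioo (((1:ℝ)/2)^(m+2)) ((1/2)^(m+1)),
                (eta ω ((1/2)^(m+2))) ^ n / ENNReal.ofReal ((1/2)^(m+1)) := by
              rw [setLIntegral_const, Real.volume_Ioo]
              have : ((1:ℝ)/2)^(m+1) - (1/2)^(m+2) = (1/2) * (1/2)^(m+1) := by ring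
              rw [this, ENNReal.ofReal_mul (by norm_num), mul_comm (ENNReal.ofReal (1/2)),
                ← mul_assoc, ENNReal.div_mul_cancel (by simp) ENNReal.ofReal_ne_top]
          _ ≤ _ := by
              apply setLIntegral_mono' measurableSet_Ioo
              intro t ht
              apply ENNReal.div_le_div
              · gcongr
                exact eta_mono ht.1.le
              · exact ENNReal.ofReal_le_ofReal ht.2.le
    _ = ∫⁻ t in ⋃ m : ℕ, Ioo (((1:ℝ)/2)^(m+2)) ((1/2)^(m+1)),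
          (eta ω t) ^ n / ENNReal.ofReal t :=
        (lintegral_iUnion (fun m => measurableSet_Ioo) hdisj _).symm
    _ ≤ _ := lintegral_mono_set hsub

/-- JOB: the two criteria are equivalent -/
theorem crit {n : ℕ} (hn : 2 ≤ n) {ω : ℝ → ℝ} (hmono : MonotoneOn ω (Ici 0))
    (hpos : ∀ t, 0 < t → 0 < ω t) :
    (∃ x : ℕ → ℝ, (∀ i, 0 ≤ x i) ∧ Summable (fun i => x i ^ n) ∧ ∃ c : ℝ, 0 < c ∧
      ∀ m : ℕ, c * Real.exp (-∑ i ∈ Finset.range m, x i) ≤ ω ((1/2) ^ m)) ↔
    ∫⁻ t in Ioo (0:ℝ) (1/2), (eta ω t) ^ n / ENNReal.ofReal t ≠ ⊤ := by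
  constructor
  · rintro ⟨x, hx, hs, c, hc, hω⟩
    set b : ℝ := max 0 (-Real.log c) with hb
    let x' : ℕ → ℝ := fun i => if i = 0 then x 0 + b else x i
    have hb0 : 0 ≤ b := le_max_left _ _
    have hb1 : -Real.log c ≤ b := le_max_right _ _
    have hx' : ∀ i, 0 ≤ x' i := by
      intro i
      simp only [x']
      split_ifs
      · linarith [hx 0]
      · exact hx i
    have hs' : Summable fun i => x' i ^ n := by
      rw [← summable_nat_add_iff 1]
      have h1 := (summable_nat_add_iff 1).2 hs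
      convert h1 using 2 with i
      simp [x']
    have hX : ∀ m : ℕ, 1 ≤ m → -Real.log (ω ((1/2)^m)) ≤ ∑ k ∈ Finset.range m, x' k := by
      intro m hm
      obtain ⟨k, rfl⟩ : ∃ k, m = k + 1 := ⟨m - 1, by omega⟩
      have h1 := hω (k+1)
      have h2 : ∑ i ∈ Finset.range (k+1), x' i = ∑ i ∈ Finset.range (k+1), x i + b := by
        rw [Finset.sum_range_succ', Finset.sum_range_succ']
        simp only [x', Nat.add_eq_zero_iff, one_ne_zero, and_false, if_false, if_true]
        ring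
      have h3 := Real.log_le_log (by positivity) h1
      rw [Real.log_mul hc.ne' (Real.exp_pos _).ne', Real.log_exp] at h3
      rw [h2]
      linarith
    exact ne_top_of_le_ne_top (sum_fin hn hmono hpos hx' hs' hX) (int_le ω)
  · intro hint
    have h1 : ∑' m : ℕ, eta ω ((1/2)^(m+2)) ^ n ≠ ⊤ := by
      have h2 := ne_top_of_le_ne_top hint (le_int (n := n) ω)
      rw [ENNReal.tsum_mul_right] at h2
      intro h3
      rw [h3] at h2
      apply h2
      rw [ENNReal.top_mul]
      simp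
    set y : ℕ → ℝ≥0∞ := fun m => eta ω ((1/2)^m) with hy
    have hyanti : ∀ m k, m ≤ k → y k ≤ y m := by
      intro m k hmk
      apply eta_mono
      exact pow_le_pow_of_le_one (by norm_num) (by norm_num) hmk
    have hyfin : ∀ m, y (m+2) ≠ ⊤ := by
      intro m h
      apply ENNReal.ne_top_of_tsum_ne_top h1 m
      have : eta ω ((1/2)^(m+2)) = ⊤ := h
      rw [this, ENNReal.top_pow (by omega)]
    have hyfin' : ∀ m, 2 ≤ m → y m ≠ ⊤ := by
      intro m hm
      obtain ⟨k, rfl⟩ : ∃ k, m = k + 2 := ⟨m - 2, by omega⟩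
      exact hyfin k
    have hl2 : 0 < Real.log 2 := Real.log_pos (by norm_num)
    let x : ℕ → ℝ := fun i => Real.log 2 * (y (max (i+1) 2)).toReal
    refine ⟨x, fun i => mul_nonneg hl2.le ENNReal.toReal_nonneg, ?_, ?_⟩
    · rw [← summable_nat_add_iff 1]
      have h2 : ∀ i : ℕ, x (i+1) ^ n = Real.log 2 ^ n * (y (i+2) ^ n).toReal := by
        intro i
        simp only [x]
        rw [show max (i+1+1) 2 = i + 2 by omega, mul_pow, ENNReal.toReal_pow]
      simp_rw [h2]
      exact (ENNReal.summable_toReal h1).mul_left _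
    · set c : ℝ := min 1 (min (ω 1) (ω (1/2))) with hc
      have hc0 : 0 < c := lt_min one_pos (lt_min (hpos 1 one_pos) (hpos _ (by norm_num)))
      have hc1 : c ≤ 1 := min_le_left _ _
      have hc2 : c ≤ ω 1 := (min_le_right _ _).trans (min_le_left _ _)
      have hc3 : c ≤ ω (1/2) := (min_le_right _ _).trans (min_le_right _ _)
      have hx0 : ∀ i, 0 ≤ x i := fun i => mul_nonneg hl2.le ENNReal.toReal_nonneg
      have hexp : ∀ m, Real.exp (-∑ i ∈ Finset.range m, x i) ≤ 1 := by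
        intro m
        rw [Real.exp_le_one_iff]
        linarith [Finset.sum_nonneg (fun i (_ : i ∈ Finset.range m) => hx0 i)]
      refine ⟨c, hc0, ?_⟩
      intro m
      rcases Nat.lt_or_ge m 2 with hm | hm
      · have h3 : c * Real.exp (-∑ i ∈ Finset.range m, x i) ≤ c := by
          have := hexp m
          nlinarith
        refine h3.trans ?_
        interval_cases m
        · simpa using hc2
        · simpa using hc3
      · have hp : (0:ℝ) < (1/2)^m := by positivity
        have h4 : ENNReal.ofReal (Real.log (1 / ω ((1/2)^m)) / Real.log (1 / (1/2)^m)) ≤ y m := by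
          simp only [hy]
          unfold eta
          exact le_iSup₂ (f := fun s (_ : s ∈ Ioc (0:ℝ) ((1/2)^m)) =>
            ENNReal.ofReal (Real.log (1 / ω s) / Real.log (1 / s))) ((1/2)^m) ⟨hp, le_rfl⟩
        have h5 : Real.log (1 / ω ((1/2)^m)) / Real.log (1 / (1/2)^m) ≤ (y m).toReal := by
          rw [← ENNReal.ofReal_le_iff_le_toReal (hyfin' m hm)]
          exact h4
        have h6 : Real.log (1 / (1/2)^m) = m * Real.log 2 := by
          rw [one_div, Real.log_inv, Real.log_pow, one_div, Real.log_inv]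
          ring
        have hm0 : (0:ℝ) < m := by exact_mod_cast (by omega : 0 < m)
        rw [h6, one_div, Real.log_inv, div_le_iff₀ (by positivity)] at h5
        have h7 : (m:ℝ) * (Real.log 2 * (y m).toReal) ≤ ∑ i ∈ Finset.range m, x i := by
          have : (m:ℝ) * (Real.log 2 * (y m).toReal)
              = ∑ i ∈ Finset.range m, Real.log 2 * (y m).toReal := by
            rw [Finset.sum_const, Finset.card_range, nsmul_eq_mul]
          rw [this]
          apply Finset.sum_le_sum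
          intro i hi
          rw [Finset.mem_range] at hi
          apply mul_le_mul_of_nonneg_left _ hl2.le
          apply ENNReal.toReal_mono (hyfin' _ (by omega))
          exact hyanti _ _ (by omega)
        calc c * Real.exp (-∑ i ∈ Finset.range m, x i)
            ≤ 1 * Real.exp (-∑ i ∈ Finset.range m, x i) :=
              mul_le_mul_of_nonneg_right hc1 (Real.exp_pos _).le
          _ = Real.exp (-∑ i ∈ Finset.range m, x i) := one_mul _
          _ ≤ Real.exp (Real.log (ω ((1/2)^m))) := by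
              apply Real.exp_le_exp.2
              have : (y m).toReal * (m * Real.log 2) = m * (Real.log 2 * (y m).toReal) := by ring
              linarith
          _ = ω ((1/2)^m) := Real.exp_log (hpos _ hp)

end Pool.Agent.Helper930.Ln
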