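import Mathlib

set_option autoImplicit false

open Set Filter Topology MeasureTheory Metric
open scoped NNReal RealInnerProductSpace

namespace Pool.Agent.Helper930.Pic

variable {E : Type*} [NormedAddCommGroup E] [InnerProductSpace ℝ E]

/-- radial projection onto the ball of radius `ρ` -/
noncomputable def pr (ρ : ℝ) (y : E) : E := (ρ / max ρ ‖y‖) • y

lemma pr_of_le {ρ : ℝ} (hρ : 0 < ρ) {y : E} (h : ‖y‖ ≤ ρ) : pr ρ y = y := by
  unfold pr
  rw [max_eq_left h, div_self hρ.ne', one_smul]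

lemma pr_of_ge {ρ : ℝ} {y : E} (h : ρ ≤ ‖y‖) : pr ρ y = (ρ / ‖y‖) • y := by
  unfold pr
  rw [max_eq_right h]

lemma pr_norm_le {ρ : ℝ} (hρ : 0 < ρ) (y : E) : ‖pr ρ y‖ ≤ ρ := by
  unfold pr
  have hm : 0 < max ρ ‖y‖ := lt_max_of_lt_left hρ
  rw [norm_smul, Real.norm_of_nonneg (by positivity), div_mul_eq_mul_div, div_le_iff₀ hm]
  gcongr
  exact le_max_right _ _

lemma pr_lip {ρ : ℝ} (hρ : 0 < ρ) (x y : E) : ‖pr ρ x - pr ρ y‖ ≤ 2 * ‖x - y‖ := by
  unfold pr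
  set a := max ρ ‖x‖ with ha
  set b := max ρ ‖y‖ with hb
  have ha0 : 0 < a := lt_max_of_lt_left hρ
  have hb0 : 0 < b := lt_max_of_lt_left hρ
  have haρ : ρ ≤ a := le_max_left _ _
  have hby : ‖y‖ ≤ b := le_max_right _ _
  have hab : |a - b| ≤ ‖x - y‖ := by
    refine (abs_max_sub_max_le_max _ _ _ _).trans ?_
    rw [sub_self, abs_zero, max_eq_right (abs_nonneg _)]
    exact abs_norm_sub_norm_le x y
  have h1 : (ρ / a) • x - (ρ / b) • y = (ρ / a) • (x - y) + (ρ / a - ρ / b) • y := by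
    rw [smul_sub, sub_smul]; abel
  rw [h1]
  have h2 : ‖(ρ / a) • (x - y)‖ ≤ ‖x - y‖ := by
    rw [norm_smul, Real.norm_of_nonneg (by positivity)]
    have : ρ / a ≤ 1 := (div_le_one ha0).mpr haρ
    nlinarith [norm_nonneg (x - y)]
  have h3 : ‖(ρ / a - ρ / b) • y‖ ≤ ‖x - y‖ := by
    rw [norm_smul, Real.norm_eq_abs]
    have h4 : ρ / a - ρ / b = (ρ / a) * ((b - a) / b) := by
      field_simp
    rw [h4, abs_mul, abs_div (b - a) b, abs_of_pos hb0, abs_of_pos (by positivity : 0 < ρ / a)]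
    have h5 : ρ / a ≤ 1 := (div_le_one ha0).mpr haρ
    have h6 : |b - a| / b * ‖y‖ ≤ |b - a| := by
      rw [div_mul_eq_mul_div, div_le_iff₀ hb0]
      gcongr
    calc ρ / a * (|b - a| / b) * ‖y‖ = ρ / a * (|b - a| / b * ‖y‖) := by ring
      _ ≤ 1 * |b - a| := by gcongr
      _ = |a - b| := by rw [one_mul, abs_sub_comm]
      _ ≤ ‖x - y‖ := hab
  calc _ ≤ ‖(ρ / a) • (x - y)‖ + ‖(ρ / a - ρ / b) • y‖ := norm_add_le _ _
    _ ≤ _ := by linarith

/-- the elementary modification -/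
noncomputable def bump (κ r : ℝ) (y : E) : E := (1 + κ) • ((2:ℝ) • pr (r/2) y - pr r y)

lemma bump_out {κ r : ℝ} (hr : 0 < r) {y : E} (h : r ≤ ‖y‖) : bump κ r y = 0 := by
  unfold bump
  rw [pr_of_ge h, pr_of_ge (by linarith), smul_smul, ← sub_smul]
  have : 2 * (r / 2 / ‖y‖) - r / ‖y‖ = 0 := by ring
  rw [this, zero_smul, smul_zero]

lemma bump_in {κ r : ℝ} (hr : 0 < r) {y : E} (h : ‖y‖ ≤ r/2) : bump κ r y = (1 + κ) • y := by
  unfold bump
  rw [pr_of_le (by linarith) h, pr_of_le hr (by linarith), two_smul, add_sub_cancel_right]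

lemma bump_mid {κ r : ℝ} (hr : 0 < r) {y : E} (h : r/2 ≤ ‖y‖) (h2 : ‖y‖ ≤ r) :
    bump κ r y = (1 + κ) • ((r / ‖y‖) • y - y) := by
  unfold bump
  rw [pr_of_ge h, pr_of_le hr h2, smul_smul]
  congr 3
  ring

lemma bump_norm {κ r : ℝ} (hκ : 0 < κ) (hκ1 : κ ≤ 1) (hr : 0 < r) (y : E) :
    ‖bump κ r y‖ ≤ 4 * r := by
  unfold bump
  rw [norm_smul, Real.norm_of_nonneg (by linarith)]
  have h1 : ‖(2:ℝ) • pr (r/2) y - pr r y‖ ≤ 2 * r := by
    refine (norm_sub_le _ _).trans ?_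
    rw [norm_smul, Real.norm_of_nonneg (by norm_num)]
    have := pr_norm_le (by linarith : 0 < r/2) y
    have := pr_norm_le hr y
    linarith
  calc (1 + κ) * ‖(2:ℝ) • pr (r/2) y - pr r y‖ ≤ 2 * (2 * r) := by
        gcongr
        linarith
    _ = _ := by ring

lemma bump_lip {κ r : ℝ} (hκ : 0 < κ) (hκ1 : κ ≤ 1) (hr : 0 < r) (x y : E) :
    ‖bump κ r x - bump κ r y‖ ≤ 12 * ‖x - y‖ := by
  unfold bump
  rw [← smul_sub, norm_smul, Real.norm_of_nonneg (by linarith)]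
  have h0 : (2:ℝ) • pr (r/2) x - pr r x - ((2:ℝ) • pr (r/2) y - pr r y) =
      (2:ℝ) • (pr (r/2) x - pr (r/2) y) - (pr r x - pr r y) := by
    rw [smul_sub]; abel
  have h1 : ‖(2:ℝ) • pr (r/2) x - pr r x - ((2:ℝ) • pr (r/2) y - pr r y)‖ ≤ 6 * ‖x - y‖ := by
    rw [h0]
    refine (norm_sub_le _ _).trans ?_
    rw [norm_smul, Real.norm_of_nonneg (by norm_num)]
    have := pr_lip (by linarith : 0 < r/2) x y
    have := pr_lip hr x y
    linarith
  calc (1 + κ) * _ ≤ 2 * (6 * ‖x - y‖) := by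
        gcongr
        linarith
    _ = _ := by ring

/-- derivative of the radial map `y ↦ (r/‖y‖) y` -/
lemma hasFDerivAt_radial (r : ℝ) {y : E} (hy : y ≠ 0) :
    ∃ A : E →L[ℝ] E, HasFDerivAt (fun y : E => (r / ‖y‖) • y) A y ∧
      ∀ v, A v = (r/‖y‖) • v - (r/‖y‖^3 * ⟪y, v⟫) • y := by
  have hn : 0 < ‖y‖ := norm_pos_iff.mpr hy
  have h1 : HasFDerivAt (fun y : E => ‖y‖^2) ((2:ℕ) • (innerSL ℝ y)) y :=
    (hasStrictFDerivAt_norm_sq y).hasFDerivAt
  have h2 : HasFDerivAt (fun y : E => Real.sqrt (‖y‖^2))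
      ((1 / (2 * Real.sqrt (‖y‖^2))) • ((2:ℕ) • (innerSL ℝ y))) y :=
    h1.sqrt (by positivity)
  have h3 : (fun y : E => Real.sqrt (‖y‖^2)) = fun y => ‖y‖ := by
    funext z; exact Real.sqrt_sq (norm_nonneg z)
  rw [h3, Real.sqrt_sq hn.le] at h2
  have h4 : HasDerivAt (fun t : ℝ => r / t) (-(r / ‖y‖^2)) ‖y‖ := by
    have := (hasDerivAt_inv hn.ne').const_mul r
    rw [mul_neg] at this
    exact this
  have h5 := h4.comp_hasFDerivAt y h2
  have h6 := h5.smul (hasFDerivAt_id y)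
  refine ⟨_, h6, ?_⟩
  intro v
  simp only [Function.comp_apply, id, _root_.add_apply, _root_.smul_apply,
    ContinuousLinearMap.id_apply, ContinuousLinearMap.smulRight_apply, innerSL_apply_apply]
  simp only [smul_eq_mul, two_nsmul]
  rw [sub_eq_add_neg, ← neg_smul]
  congr 2
  field_simp
  ring

section mat

lemma mat_norm {A : E →L[ℝ] E} {R : E ≃ₗᵢ[ℝ] E} {s τ κ : ℝ} {u : E} (hs : 0 < s) (hκ : 0 < κ)
    (hτ : κ ≤ τ) (hu : ‖u‖ = 1)
    (hA : ∀ v, A v = s • R (τ • v - ((τ + κ) * ⟪u, v⟫) • u)) : ‖A‖ ≤ s * τ := by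
  apply ContinuousLinearMap.opNorm_le_bound _ (by nlinarith)
  intro v
  rw [hA, norm_smul, R.norm_map, Real.norm_of_nonneg hs.le, mul_assoc]
  gcongr
  apply le_of_sq_le_sq _ (by nlinarith [norm_nonneg v])
  rw [← real_inner_self_eq_norm_sq, inner_sub_left, inner_sub_right, inner_sub_right]
  simp only [inner_smul_left, inner_smul_right, real_inner_self_eq_norm_sq, hu]
  rw [real_inner_comm u v]
  simp only [conj_trivial]
  have : 0 ≤ (τ + κ) * (τ - κ) * ⟪u, v⟫^2 := by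
    apply mul_nonneg (mul_nonneg (by linarith) (by linarith)) (sq_nonneg _)
  nlinarith

lemma mat_det [FiniteDimensional ℝ E] {A : E →L[ℝ] E} {R : E ≃ₗᵢ[ℝ] E} {s τ κ : ℝ} {u : E} (hs : 0 < s) (hκ : 0 < κ)
    (hτ : κ ≤ τ) (hu : ‖u‖ = 1) (hR : LinearMap.det (R.toLinearEquiv : E →ₗ[ℝ] E) = -1)
    (hA : ∀ v, A v = s • R (τ • v - ((τ + κ) * ⟪u, v⟫) • u)) :
    A.det = s ^ Module.finrank ℝ E * τ ^ (Module.finrank ℝ E - 1) * κ := by
  have hτ0 : 0 < τ := by linarith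
  let f : Module.Dual ℝ E := (-(1 + κ/τ)) • (innerSL ℝ u : E →L[ℝ] ℝ).toLinearMap
  have h1 : (A : E →ₗ[ℝ] E) = (s*τ) • ((R.toLinearEquiv : E →ₗ[ℝ] E) ∘ₗ
      (LinearMap.transvection f u)) := by
    ext v
    simp only [ContinuousLinearMap.coe_coe, LinearMap.smul_apply, LinearMap.comp_apply,
      LinearMap.transvection.apply]
    rw [hA]
    change _ = (s*τ) • R (v + f v • u)
    have hf : f v = -(1 + κ/τ) * ⟪u, v⟫ := by
      change (-(1 + κ/τ)) • ⟪u, v⟫ = _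
      rw [smul_eq_mul]
    have key : τ • v - ((τ + κ) * ⟪u, v⟫) • u = τ • (v + (-(1 + κ/τ) * ⟪u, v⟫) • u) := by
      rw [smul_add, smul_smul, sub_eq_add_neg, ← neg_smul]
      congr 2
      field_simp
    rw [hf, key, map_smul, smul_smul]
  have hne : 0 < Module.finrank ℝ E := by
    apply Module.finrank_pos_iff_exists_ne_zero.mpr
    exact ⟨u, fun h => by rw [h, norm_zero] at hu; exact zero_ne_one hu⟩
  rw [ContinuousLinearMap.det, h1, LinearMap.det_smul, LinearMap.det_comp,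
    LinearMap.transvection.det, hR]
  have hf : f u = -(1 + κ/τ) := by
    change (-(1 + κ/τ)) • ⟪u, u⟫ = _
    rw [real_inner_self_eq_norm_sq, hu]
    simp
  rw [hf]
  obtain ⟨d, hd⟩ := Nat.exists_eq_succ_of_ne_zero hne.ne'
  rw [hd, Nat.succ_sub_one, mul_pow, pow_succ τ]
  field_simp
  ring

end mat

end Pool.Agent.Helper930.Pic
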