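import Mathlib
import Pool.Agent.Helper930.PicA

set_option autoImplicit false

open Set Filter Topology MeasureTheory Metric
open scoped NNReal RealInnerProductSpace ENNReal

namespace Pool.Agent.Helper930.Pic

variable {E : Type*} [NormedAddCommGroup E] [InnerProductSpace ℝ E]

open Classical in
/-- sum of disjointly supported bumps -/
noncomputable def SB (t : Set E) (r : E → ℝ) (κ : ℝ) (z : E) : E :=
  if h : ∃ a ∈ t, z ∈ closedBall a (r a) then bump κ (r h.choose) (z - h.choose) else 0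

variable {t : Set E} {r : E → ℝ} {κ : ℝ}

lemma SB_eq (hd : t.PairwiseDisjoint (fun a => closedBall a (r a))) {a : E} (ha : a ∈ t) {z : E}
    (hz : z ∈ closedBall a (r a)) : SB t r κ z = bump κ (r a) (z - a) := by
  have h : ∃ a ∈ t, z ∈ closedBall a (r a) := ⟨a, ha, hz⟩
  unfold SB
  rw [dif_pos h]
  have h1 : h.choose = a := by
    by_contra hne
    exact Set.disjoint_left.mp (hd h.choose_spec.1 ha hne) h.choose_spec.2 hz
  rw [h1]

lemma SB_zero {z : E} (h : ∀ a ∈ t, z ∉ closedBall a (r a)) : SB t r κ z = 0 := by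
  unfold SB
  rw [dif_neg]
  rintro ⟨a, ha, hz⟩
  exact h a ha hz

lemma bump_zero_of_notMem {a z : E} (hr : 0 < r a) (hz : z ∉ closedBall a (r a)) :
    bump κ (r a) (z - a) = 0 := by
  apply bump_out hr
  rw [mem_closedBall, dist_eq_norm, not_le] at hz
  exact hz.le

lemma SB_norm (hκ : 0 < κ) (hκ1 : κ ≤ 1) (hr : ∀ a ∈ t, 0 < r a)
    (hd : t.PairwiseDisjoint (fun a => closedBall a (r a))) {ε : ℝ} (hε : ∀ a ∈ t, r a ≤ ε)
    (hε0 : 0 ≤ ε) (z : E) : ‖SB t r κ z‖ ≤ 4 * ε := by
  by_cases h : ∃ a ∈ t, z ∈ closedBall a (r a)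
  · obtain ⟨a, ha, hz⟩ := h
    rw [SB_eq hd ha hz]
    refine (bump_norm hκ hκ1 (hr a ha) _).trans ?_
    have := hε a ha
    linarith
  · push Not at h
    rw [SB_zero h, norm_zero]
    linarith

lemma SB_lip (hκ : 0 < κ) (hκ1 : κ ≤ 1) (hr : ∀ a ∈ t, 0 < r a)
    (hd : t.PairwiseDisjoint (fun a => closedBall a (r a))) (z w : E) :
    ‖SB t r κ z - SB t r κ w‖ ≤ 24 * ‖z - w‖ := by
  have key : ∀ a ∈ t, ∀ z w : E, ‖bump κ (r a) (z - a) - bump κ (r a) (w - a)‖ ≤ 12 * ‖z - w‖ := by
    intro a ha z w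
    have := bump_lip hκ hκ1 (hr a ha) (z - a) (w - a)
    rwa [sub_sub_sub_cancel_right] at this
  have hzw := norm_nonneg (z - w)
  by_cases h : ∃ a ∈ t, z ∈ closedBall a (r a)
  · obtain ⟨a, ha, hz⟩ := h
    by_cases h' : ∃ b ∈ t, w ∈ closedBall b (r b)
    · obtain ⟨b, hb, hw⟩ := h'
      rw [SB_eq hd ha hz, SB_eq hd hb hw]
      by_cases hab : a = b
      · subst hab
        have := key a ha z w
        linarith
      · have h1 : w ∉ closedBall a (r a) := fun h => Set.disjoint_left.mp (hd ha hb hab) h hw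
        have h2 : z ∉ closedBall b (r b) := fun h => Set.disjoint_left.mp (hd ha hb hab) hz h
        have h3 := key a ha z w
        have h4 := key b hb z w
        rw [bump_zero_of_notMem (hr a ha) h1, sub_zero] at h3
        rw [bump_zero_of_notMem (hr b hb) h2, zero_sub, norm_neg] at h4
        refine (norm_sub_le _ _).trans ?_
        linarith
    · push Not at h'
      rw [SB_eq hd ha hz, SB_zero h', sub_zero]
      have h3 := key a ha z w
      rw [bump_zero_of_notMem (hr a ha) (h' a ha), sub_zero] at h3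
      linarith
  · push Not at h
    rw [SB_zero h, zero_sub, norm_neg]
    by_cases h' : ∃ b ∈ t, w ∈ closedBall b (r b)
    · obtain ⟨b, hb, hw⟩ := h'
      rw [SB_eq hd hb hw]
      have h4 := key b hb z w
      rw [bump_zero_of_notMem (hr b hb) (h b hb), zero_sub, norm_neg] at h4
      linarith
    · push Not at h'
      rw [SB_zero h', norm_zero]
      positivity

/-- a stage of the construction -/
structure Stage (R : E ≃ₗᵢ[ℝ] E) where
  f : E → E
  U : Set E
  s : ℝ
  open_U : IsOpen U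
  s_pos : 0 < s
  lip : ∃ C : ℝ≥0, LipschitzWith C f
  aff : ∀ x ∈ U, ∀ᶠ y in 𝓝 x, f y = f x + s • R (y - x)

variable [FiniteDimensional ℝ E] [MeasurableSpace E] [BorelSpace E]

/-- the good points of a stage -/
def Good (R : E ≃ₗᵢ[ℝ] E) (S : Stage R) (κ s : ℝ) (z : E) : Prop :=
  (∀ᶠ y in 𝓝 z, y ∉ S.U) ∧ ∃ D : E →L[ℝ] E, HasFDerivAt S.f D z ∧ 0 < D.det ∧
    ‖D‖ ^ Module.finrank ℝ E ≤ (3/κ) * D.det ∧
    D.det ≤ s ^ Module.finrank ℝ E * 3 ^ (Module.finrank ℝ E - 1) * κ ∧ ‖D‖ ≤ 3 * s

theorem step {R : E ≃ₗᵢ[ℝ] E} (hR : LinearMap.det (R.toLinearEquiv : E →ₗ[ℝ] E) = -1)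
    (S : Stage R) {κ ε : ℝ} (hκ : 0 < κ) (hκ1 : κ ≤ 1) (hε : 0 < ε) :
    ∃ S' : Stage R, S'.U ⊆ S.U ∧ S'.s = (2 + κ) * S.s ∧ (∀ z, z ∉ S.U → S'.f z = S.f z) ∧
      (∀ z, ‖S'.f z - S.f z‖ ≤ S.s * (4 * ε)) ∧
      volume S'.U ≤ ENNReal.ofReal ((1/2) ^ Module.finrank ℝ E) * volume S.U ∧
      ∀ᵐ z, z ∈ S.U → z ∉ S'.U → Good R S' κ S.s z := by
  classical
  have hE : Nontrivial E := by
    by_contra hcon
    rw [not_nontrivial_iff_subsingleton] at hcon
    have : LinearMap.det (R.toLinearEquiv : E →ₗ[ℝ] E) = 1 := by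
      have h1 : (R.toLinearEquiv : E →ₗ[ℝ] E) = LinearMap.id := by
        ext v; exact Subsingleton.elim _ _
      rw [h1, LinearMap.det_id]
    rw [this] at hR
    norm_num at hR
  obtain ⟨t, r, htc, htU, htr, htcov, htd⟩ :=
    Besicovitch.exists_disjoint_closedBall_covering_ae (volume : Measure E)
    (fun x => {ρ | closedBall x ρ ⊆ S.U ∧ ∀ y ∈ closedBall x ρ, S.f y = S.f x + S.s • R (y - x)})
    S.U (by
      intro x hx δ hδ
      have h1 := S.aff x hx
      have h2 : ∀ᶠ y in 𝓝 x, y ∈ S.U := S.open_U.mem_nhds hx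
      obtain ⟨ρ, hρ, hρ2⟩ := Metric.nhds_basis_closedBall.eventually_iff.mp (h1.and h2)
      refine ⟨min ρ (δ/2), ⟨?_, ?_⟩, ?_, ?_⟩
      · intro y hy
        exact (hρ2 (closedBall_subset_closedBall (min_le_left _ _) hy)).2
      · intro y hy
        exact (hρ2 (closedBall_subset_closedBall (min_le_left _ _) hy)).1
      · exact lt_min hρ (by positivity)
      · exact (min_le_right _ _).trans_lt (by linarith)) (fun _ => ε) (fun _ _ => hε)
  have hr0 : ∀ a ∈ t, 0 < r a := fun a ha => (htr a ha).2.1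
  have hrε : ∀ a ∈ t, r a ≤ ε := fun a ha => (htr a ha).2.2.le
  have hsub : ∀ a ∈ t, closedBall a (r a) ⊆ S.U := fun a ha => (htr a ha).1.1
  have hform : ∀ a ∈ t, ∀ y ∈ closedBall a (r a), S.f y = S.f a + S.s • R (y - a) :=
    fun a ha => (htr a ha).1.2
  -- the new map on a half ball
  have hin : ∀ a ∈ t, ∀ y ∈ ball a (r a / 2), S.f y + S.s • R (SB t r κ y) =
      S.f a + ((2 + κ) * S.s) • R (y - a) := by
    intro a ha y hy
    have hra := hr0 a ha
    have hy1 : y ∈ closedBall a (r a) := by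
      rw [mem_closedBall]; rw [mem_ball] at hy; linarith
    rw [hform a ha y hy1, SB_eq htd ha hy1, bump_in hra (by
      rw [mem_ball, dist_eq_norm] at hy; exact hy.le), map_smul, smul_smul, add_assoc, ← add_smul]
    congr 2
    ring
  let S' : Stage R :=
    { f := fun z => S.f z + S.s • R (SB t r κ z)
      U := ⋃ a ∈ t, ball a (r a / 2)
      s := (2 + κ) * S.s
      open_U := isOpen_biUnion (fun a _ => isOpen_ball)
      s_pos := mul_pos (by linarith) S.s_pos
      lip := by
        obtain ⟨C, hC⟩ := S.lip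
        refine ⟨C + ⟨S.s * 24, by have := S.s_pos; positivity⟩, ?_⟩
        apply LipschitzWith.add hC
        apply LipschitzWith.of_dist_le_mul
        intro z w
        rw [dist_eq_norm, dist_eq_norm, ← smul_sub, ← map_sub, norm_smul, R.norm_map,
          Real.norm_of_nonneg S.s_pos.le]
        change _ ≤ S.s * 24 * _
        rw [mul_assoc]
        have := S.s_pos
        gcongr
        exact SB_lip hκ hκ1 hr0 htd z w
      aff := by
        intro x hx
        obtain ⟨a, ha, hxa⟩ := mem_iUnion₂.mp hx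
        filter_upwards [isOpen_ball.mem_nhds hxa] with y hy
        rw [hin a ha y hy, hin a ha x hxa, add_assoc, ← smul_add, ← map_add]
        congr 3
        abel }
  refine ⟨S', ?_, rfl, ?_, ?_, ?_, ?_⟩
  · intro z hz
    obtain ⟨a, ha, hza⟩ := mem_iUnion₂.mp hz
    apply hsub a ha
    rw [mem_closedBall]; rw [mem_ball] at hza
    have := hr0 a ha
    linarith
  · intro z hz
    change S.f z + S.s • R (SB t r κ z) = S.f z
    rw [SB_zero (fun a ha h => hz (hsub a ha h)), map_zero, smul_zero, add_zero]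
  · intro z
    change ‖S.f z + S.s • R (SB t r κ z) - S.f z‖ ≤ _
    rw [add_sub_cancel_left, norm_smul, R.norm_map, Real.norm_of_nonneg S.s_pos.le]
    have := S.s_pos
    gcongr
    exact SB_norm hκ hκ1 hr0 htd hrε hε.le z
  · change volume (⋃ a ∈ t, ball a (r a / 2)) ≤ _
    calc volume (⋃ a ∈ t, ball a (r a / 2)) ≤ ∑' a : t, volume (ball (a:E) (r a / 2)) :=
          measure_biUnion_le _ htc _
      _ = ∑' a : t, ENNReal.ofReal ((1/2) ^ Module.finrank ℝ E) * volume (closedBall (a:E) (r a)) := by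
          congr 1
          funext a
          have hra := hr0 a a.2
          rw [Measure.addHaar_ball _ _ (by linarith), Measure.addHaar_closedBall _ _ hra.le,
            ← mul_assoc, ← ENNReal.ofReal_mul (by positivity), ← mul_pow]
          congr 3
          ring
      _ = ENNReal.ofReal ((1/2) ^ Module.finrank ℝ E) * volume (⋃ a ∈ t, closedBall a (r a)) := by
          rw [ENNReal.tsum_mul_left, measure_biUnion htc htd
            (fun a _ => isClosed_closedBall.measurableSet)]
      _ ≤ _ := by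
          gcongr
          exact iUnion₂_subset hsub
  · -- almost every point
    have hs1 : volume (⋃ a ∈ t, sphere a (r a)) = 0 := by
      rw [measure_biUnion_null_iff htc]
      intro a _
      exact Measure.addHaar_sphere _ _ _
    have hs2 : volume (⋃ a ∈ t, sphere a (r a / 2)) = 0 := by
      rw [measure_biUnion_null_iff htc]
      intro a _
      exact Measure.addHaar_sphere _ _ _
    rw [measure_eq_zero_iff_ae_notMem] at htcov hs1 hs2
    filter_upwards [htcov, hs1, hs2] with z hz1 hz2 hz3 hzU hzU'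
    have h1 : z ∈ ⋃ x ∈ t, closedBall x (r x) := by
      by_contra hcon
      exact hz1 ⟨hzU, hcon⟩
    obtain ⟨a, ha, hza⟩ := mem_iUnion₂.mp h1
    have hra := hr0 a ha
    have hlt : ‖z - a‖ < r a := by
      rw [mem_closedBall, dist_eq_norm] at hza
      refine lt_of_le_of_ne hza (fun h => hz2 (mem_iUnion₂.mpr ⟨a, ha, ?_⟩))
      rw [mem_sphere, dist_eq_norm, h]
    have hgt : r a / 2 < ‖z - a‖ := by
      have h2 : r a / 2 ≤ ‖z - a‖ := by
        by_contra hcon
        push Not at hcon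
        exact hzU' (mem_iUnion₂.mpr ⟨a, ha, by rw [mem_ball, dist_eq_norm]; exact hcon⟩)
      refine lt_of_le_of_ne h2 (fun h => hz3 (mem_iUnion₂.mpr ⟨a, ha, ?_⟩))
      rw [mem_sphere, dist_eq_norm, ← h]
    have hev : ∀ᶠ y in 𝓝 z, r a / 2 < ‖y - a‖ ∧ ‖y - a‖ < r a := by
      have hcont : ContinuousAt (fun y : E => ‖y - a‖) z := by fun_prop
      exact (hcont.eventually (lt_mem_nhds hgt)).and (hcont.eventually (gt_mem_nhds hlt))
    have hne : z - a ≠ 0 := by
      intro h
      rw [h, norm_zero] at hgt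
      linarith
    refine ⟨?_, ?_⟩
    · filter_upwards [hev] with y hy hyU
      obtain ⟨b, hb, hyb⟩ := mem_iUnion₂.mp hyU
      have hrb := hr0 b hb
      by_cases hab : a = b
      · subst hab
        rw [mem_ball, dist_eq_norm] at hyb
        linarith [hy.1]
      · have g1 : y ∈ closedBall a (r a) := by
          rw [mem_closedBall, dist_eq_norm]; exact hy.2.le
        have g2 : y ∈ closedBall b (r b) := by
          rw [mem_closedBall]; rw [mem_ball] at hyb; linarith
        exact Set.disjoint_left.mp (htd ha hb hab) g1 g2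
    · -- derivative
      have hfeq : ∀ᶠ y in 𝓝 z, S'.f y =
          S.f a + S.s • R ((1 + κ) • ((r a / ‖y - a‖) • (y - a)) - κ • (y - a)) := by
        filter_upwards [hev] with y hy
        have hy1 : y ∈ closedBall a (r a) := by
          rw [mem_closedBall, dist_eq_norm]; exact hy.2.le
        change S.f y + S.s • R (SB t r κ y) = _
        rw [hform a ha y hy1, SB_eq htd ha hy1, bump_mid hra hy.1.le hy.2.le, add_assoc,
          ← smul_add, ← map_add]
        congr 3
        rw [smul_sub, add_smul 1 κ (y - a), one_smul]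
        abel
      obtain ⟨A, hA, hAv⟩ := hasFDerivAt_radial (r a) hne
      have hsubc : HasFDerivAt (fun y : E => y - a) (ContinuousLinearMap.id ℝ E) z :=
        (hasFDerivAt_id z).sub_const a
      have e1 : HasFDerivAt (fun y : E => (r a / ‖y - a‖) • (y - a))
          (A.comp (ContinuousLinearMap.id ℝ E)) z :=
        HasFDerivAt.comp (g := fun y : E => (r a / ‖y‖) • y) z hA hsubc
      have e2 := (e1.const_smul (1 + κ)).sub (hsubc.const_smul κ)
      have e3 := (R.toContinuousLinearEquiv : E →L[ℝ] E).hasFDerivAt.comp z e2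
      have e4 := (e3.const_smul S.s).const_add (S.f a)
      have e5 : HasFDerivAt S'.f _ z := e4.congr_of_eventuallyEq hfeq
      set D : E →L[ℝ] E := _ with hD
      have e6 : HasFDerivAt S'.f D z := e5
      set y := z - a with hy
      have hn : 0 < ‖y‖ := by linarith
      set τ := (1 + κ) * (r a / ‖y‖) - κ with hτ
      have hq1 : 1 ≤ r a / ‖y‖ := (one_le_div hn).mpr hlt.le
      have hq2 : r a / ‖y‖ ≤ 2 := by rw [div_le_iff₀ hn]; linarith
      have hτ1 : 1 ≤ τ := by rw [hτ]; nlinarith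
      have hτ3 : τ ≤ 3 := by rw [hτ]; nlinarith
      have hu : ‖(‖y‖⁻¹ • y)‖ = 1 := by
        rw [norm_smul, norm_inv, norm_norm, inv_mul_cancel₀ hn.ne']
      have hDv : ∀ v, D v = S.s • R (τ • v - ((τ + κ) * ⟪‖y‖⁻¹ • y, v⟫) • (‖y‖⁻¹ • y)) := by
        intro v
        rw [hD]
        change S.s • R ((1 + κ) • A v - κ • v) = _
        rw [hAv, inner_smul_left, smul_sub, smul_smul, smul_smul, smul_smul]
        congr 2
        have e7 : ((1 + κ) * (r a / ‖y‖)) • v - ((1 + κ) * (r a / ‖y‖ ^ 3 * ⟪y, v⟫)) • y - κ • v =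
            τ • v - ((1 + κ) * (r a / ‖y‖ ^ 3 * ⟪y, v⟫)) • y := by
          rw [hτ, sub_smul]; abel
        rw [e7]
        congr 2
        have e8 : τ + κ = (1 + κ) * (r a / ‖y‖) := by rw [hτ]; ring
        rw [e8]
        simp only [conj_trivial]
        field_simp
      have hdet := mat_det S.s_pos hκ (by linarith) hu hR hDv
      have hnorm := mat_norm S.s_pos hκ (by linarith) hu hDv
      have hs := S.s_pos
      have hd0 : 0 < Module.finrank ℝ E := Module.finrank_pos
      obtain ⟨d, hd⟩ := Nat.exists_eq_succ_of_ne_zero hd0.ne'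
      refine ⟨D, e6, ?_, ?_, ?_, ?_⟩
      · rw [hdet]; positivity
      · rw [hdet, hd, Nat.succ_sub_one]
        calc ‖D‖ ^ (d+1) ≤ (S.s * τ) ^ (d+1) := by gcongr
          _ = S.s ^ (d+1) * τ ^ d * τ := by ring
          _ ≤ S.s ^ (d+1) * τ ^ d * 3 := by gcongr
          _ = 3/κ * (S.s ^ (d+1) * τ ^ d * κ) := by field_simp
      · rw [hdet]; gcongr
      · refine hnorm.trans ?_
        nlinarith

end Pool.Agent.Helper930.Pic
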