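import Mathlib
import Pool.Agent.Helper930.PicB

set_option autoImplicit false

open Set Filter Topology MeasureTheory Metric
open scoped NNReal RealInnerProductSpace ENNReal

namespace Pool.Agent.Helper930.Pic

variable {E : Type*} [NormedAddCommGroup E] [InnerProductSpace ℝ E]

/-- identity in the ball, inversion outside -/
noncomputable def G0 (z : E) : E := (max 1 (‖z‖^2))⁻¹ • z

lemma G0_lip (x y : E) : ‖G0 x - G0 y‖ ≤ 3 * ‖x - y‖ := by
  unfold G0
  set a := max 1 (‖x‖^2) with ha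
  set b := max 1 (‖y‖^2) with hb
  have ha1 : 1 ≤ a := le_max_left _ _
  have hb1 : 1 ≤ b := le_max_left _ _
  have ha0 : 0 < a := by linarith
  have hb0 : 0 < b := by linarith
  have hxa2 : ‖x‖^2 ≤ a := le_max_right _ _
  have hyb2 : ‖y‖^2 ≤ b := le_max_right _ _
  have hxa : ‖x‖ ≤ a := by
    rcases le_total ‖x‖ 1 with h | h
    · linarith
    · nlinarith
  have hyb : ‖y‖ ≤ b := by
    rcases le_total ‖y‖ 1 with h | h
    · linarith
    · nlinarith
  have hnx := norm_nonneg x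
  have hny := norm_nonneg y
  have hab : |b - a| ≤ (‖x‖ + ‖y‖) * ‖x - y‖ := by
    refine (abs_max_sub_max_le_max _ _ _ _).trans ?_
    rw [sub_self, abs_zero, max_eq_right (abs_nonneg _)]
    have h1 : ‖y‖^2 - ‖x‖^2 = (‖x‖ + ‖y‖) * (‖y‖ - ‖x‖) := by ring
    rw [h1, abs_mul, abs_of_nonneg (by positivity)]
    gcongr
    rw [norm_sub_rev]
    exact abs_norm_sub_norm_le y x
  have h1 : a⁻¹ • x - b⁻¹ • y = a⁻¹ • (x - y) + (a⁻¹ - b⁻¹) • y := by
    rw [smul_sub, sub_smul]; abel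
  rw [h1]
  have h2 : ‖a⁻¹ • (x - y)‖ ≤ ‖x - y‖ := by
    rw [norm_smul, Real.norm_of_nonneg (by positivity)]
    have : a⁻¹ ≤ 1 := inv_le_one_of_one_le₀ ha1
    nlinarith [norm_nonneg (x - y)]
  have h3 : ‖(a⁻¹ - b⁻¹) • y‖ ≤ 2 * ‖x - y‖ := by
    rw [norm_smul, Real.norm_eq_abs]
    have h4 : a⁻¹ - b⁻¹ = (b - a) / (a * b) := by field_simp
    rw [h4, abs_div, abs_of_pos (mul_pos ha0 hb0), div_mul_eq_mul_div, div_le_iff₀ (by positivity)]
    calc |b - a| * ‖y‖ ≤ ((‖x‖ + ‖y‖) * ‖x - y‖) * ‖y‖ := by gcongr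
      _ = (‖x‖ * ‖y‖ + ‖y‖^2) * ‖x - y‖ := by ring
      _ ≤ (a * b + a * b) * ‖x - y‖ := by
          gcongr
          nlinarith
      _ = _ := by ring
  calc _ ≤ ‖a⁻¹ • (x - y)‖ + ‖(a⁻¹ - b⁻¹) • y‖ := norm_add_le _ _
    _ ≤ _ := by linarith

lemma G0_norm (z : E) : ‖G0 z‖ ≤ 1 := by
  unfold G0
  have h1 : 1 ≤ max 1 (‖z‖^2) := le_max_left _ _
  have h0 : 0 < max 1 (‖z‖^2) := by linarith
  rw [norm_smul, norm_inv, Real.norm_of_nonneg h0.le, inv_mul_le_iff₀ h0, mul_one]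
  have h2 : ‖z‖^2 ≤ max 1 (‖z‖^2) := le_max_right _ _
  rcases le_total ‖z‖ 1 with h | h
  · linarith
  · nlinarith

lemma G0_in {z : E} (hz : ‖z‖ ≤ 1) : G0 z = z := by
  unfold G0
  rw [max_eq_left (by nlinarith [norm_nonneg z]), inv_one, one_smul]

lemma G0_out {z : E} (hz : 1 ≤ ‖z‖) : G0 z = EuclideanGeometry.inversion 0 1 z := by
  unfold G0 EuclideanGeometry.inversion
  rw [max_eq_right (by nlinarith)]
  simp

/-- the first stage -/
noncomputable def S0 (R : E ≃ₗᵢ[ℝ] E) : Stage R where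
  f := fun z => R (G0 z)
  U := ball 0 1
  s := 1
  open_U := isOpen_ball
  s_pos := one_pos
  lip := ⟨3, by
    apply LipschitzWith.of_dist_le_mul
    intro x y
    rw [R.dist_map, dist_eq_norm, dist_eq_norm]
    exact G0_lip x y⟩
  aff := by
    intro x hx
    filter_upwards [isOpen_ball.mem_nhds hx] with y hy
    rw [mem_ball_zero_iff] at hx hy
    rw [G0_in hx.le, G0_in hy.le, one_smul, ← map_add, add_sub_cancel]

lemma outer [FiniteDimensional ℝ E] {R : E ≃ₗᵢ[ℝ] E}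
    (hR : LinearMap.det (R.toLinearEquiv : E →ₗ[ℝ] E) = -1) {z : E} (hz : 1 < ‖z‖) :
    ∃ D : E →L[ℝ] E, HasFDerivAt (fun z => R (G0 z)) D z ∧ 0 < D.det ∧
      ‖D‖ ^ Module.finrank ℝ E ≤ D.det ∧ D.det ≤ 1 ∧ ‖D‖ ≤ 1 := by
  have hz0 : z ≠ 0 := by
    intro h; rw [h, norm_zero] at hz; linarith
  have h1 := EuclideanGeometry.hasFDerivAt_inversion (c := (0:E)) (R := 1) (x := z) hz0
  have h2 := (R.toContinuousLinearEquiv : E →L[ℝ] E).hasFDerivAt.comp z h1
  have h3 : HasFDerivAt (fun z => R (G0 z)) ((R.toContinuousLinearEquiv : E →L[ℝ] E).comp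
      ((1 / dist z 0)^2 • (((Submodule.span ℝ {z - 0})ᗮ).reflection.toContinuousLinearEquiv :
        E →L[ℝ] E))) z := by
    refine h2.congr_of_eventuallyEq ?_
    have : ∀ᶠ y in 𝓝 z, 1 < ‖y‖ := continuous_norm.continuousAt.eventually (lt_mem_nhds hz)
    filter_upwards [this] with y hy
    change R (G0 y) = R (EuclideanGeometry.inversion 0 1 y)
    rw [G0_out hy.le]
  set c : ℝ := (1 / dist z 0)^2 with hc
  have hn : 0 < ‖z‖ := by linarith
  have hcz : c = (‖z‖^2)⁻¹ := by rw [hc, dist_zero_right]; simp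
  have hc0 : 0 < c := by rw [hcz]; positivity
  have hc1 : c ≤ 1 := by
    rw [hcz]; apply inv_le_one_of_one_le₀; nlinarith
  set T : E ≃ₗᵢ[ℝ] E := ((Submodule.span ℝ {z - 0})ᗮ).reflection with hT
  set D : E →L[ℝ] E := (R.toContinuousLinearEquiv : E →L[ℝ] E).comp
    (c • (T.toContinuousLinearEquiv : E →L[ℝ] E)) with hD
  have h4 : HasFDerivAt (fun z => R (G0 z)) D z := h3
  have hDv : ∀ v, D v = c • R (T v) := by
    intro v
    rw [hD]
    change R (c • T v) = _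
    rw [map_smul]
  have hnorm : ‖D‖ ≤ c := by
    apply ContinuousLinearMap.opNorm_le_bound _ hc0.le
    intro v
    rw [hDv, norm_smul, R.norm_map, T.norm_map, Real.norm_of_nonneg hc0.le]
  have hdet : D.det = c ^ Module.finrank ℝ E := by
    have e1 : (D : E →ₗ[ℝ] E) = c • ((R.toLinearEquiv : E →ₗ[ℝ] E) ∘ₗ
        (T.toLinearEquiv : E →ₗ[ℝ] E)) := by
      ext v
      exact hDv v
    have e2 : LinearMap.det (T.toLinearEquiv : E →ₗ[ℝ] E) = -1 := by
      have e3 := ((Submodule.span ℝ {z - 0})ᗮ).det_reflection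
      rw [Submodule.orthogonal_orthogonal, finrank_span_singleton (by simpa using hz0), pow_one] at e3
      exact e3
    rw [ContinuousLinearMap.det, e1, LinearMap.det_smul, LinearMap.det_comp, hR, e2]
    ring
  refine ⟨D, h4, ?_, ?_, ?_, ?_⟩
  · rw [hdet]; positivity
  · rw [hdet]; gcongr
  · rw [hdet]; exact pow_le_one₀ hc0.le hc1
  · exact hnorm.trans hc1

end Pool.Agent.Helper930.Pic
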