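import Mathlib
import Pool.Agent.Helper930.PicC

set_option autoImplicit false

open Set Filter Topology MeasureTheory Metric
open scoped NNReal RealInnerProductSpace ENNReal

namespace Pool.Agent.Helper930.Pic

variable {E : Type*} [NormedAddCommGroup E] [InnerProductSpace ℝ E]
  [FiniteDimensional ℝ E] [MeasurableSpace E] [BorelSpace E]

/-- the parameters -/
noncomputable def kap (k : ℕ) : ℝ := 1 / ((k + 1) * (k + 2))

lemma kap_pos (k : ℕ) : 0 < kap k := by unfold kap; positivity
lemma kap_le (k : ℕ) : kap k ≤ 1 := by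
  unfold kap
  rw [div_le_one (by positivity)]
  have : (0:ℝ) ≤ k := Nat.cast_nonneg k
  nlinarith

section
variable {R : E ≃ₗᵢ[ℝ] E} (hR : LinearMap.det (R.toLinearEquiv : E →ₗ[ℝ] E) = -1)

/-- the sequence of stages -/
noncomputable def St : ℕ → Stage R
  | 0 => S0 R
  | k + 1 => (step hR (St k) (kap_pos k) (kap_le k)
      (ε := (1/2)^k / (4 * (St k).s)) (by have := (St k).s_pos; positivity)).choose

lemma St_spec (k : ℕ) : (St hR (k+1)).U ⊆ (St hR k).U ∧
    (St hR (k+1)).s = (2 + kap k) * (St hR k).s ∧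
    (∀ z, z ∉ (St hR k).U → (St hR (k+1)).f z = (St hR k).f z) ∧
    (∀ z, ‖(St hR (k+1)).f z - (St hR k).f z‖ ≤ (1/2)^k) ∧
    volume (St hR (k+1)).U ≤ ENNReal.ofReal ((1/2) ^ Module.finrank ℝ E) * volume (St hR k).U ∧
    ∀ᵐ z, z ∈ (St hR k).U → z ∉ (St hR (k+1)).U → Good R (St hR (k+1)) (kap k) (St hR k).s z := by
  have h := (step hR (St hR k) (kap_pos k) (kap_le k)
      (ε := (1/2)^k / (4 * (St hR k).s)) (by have := (St hR k).s_pos; positivity)).choose_spec
  refine ⟨h.1, h.2.1, h.2.2.1, ?_, h.2.2.2.2.1, h.2.2.2.2.2⟩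
  intro z
  refine (h.2.2.2.1 z).trans (le_of_eq ?_)
  have := (St hR k).s_pos
  field_simp

lemma U_anti : Antitone (fun k => (St hR k).U) :=
  antitone_nat_of_succ_le (fun k => (St_spec hR k).1)

lemma s_bound (k : ℕ) : (St hR k).s ≤ 2^k * (2 - 1/(k+1)) := by
  induction k with
  | zero =>
    change (1:ℝ) ≤ _
    norm_num
  | succ k ih =>
    rw [(St_spec hR k).2.1]
    have hk : (0:ℝ) ≤ k := Nat.cast_nonneg k
    calc (2 + kap k) * (St hR k).s ≤ (2 + kap k) * (2^k * (2 - 1/(k+1))) := by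
          gcongr
          have := kap_pos k
          linarith
      _ = 2^(k+1) * ((1 + kap k / 2) * (2 - 1/(k+1))) := by ring
      _ ≤ 2^(k+1) * (2 - 1/((k+1 : ℕ)+1)) := by
          gcongr
          have h1 : (2:ℝ) - 1/((k+1:ℕ)+1) = (2 - 1/(k+1)) + kap k := by
            unfold kap
            push_cast
            field_simp
            ring
          rw [h1]
          have h2 : (0:ℝ) < 1/(k+1) := by positivity
          have := kap_pos k
          nlinarith

lemma s_bound' (k : ℕ) : (St hR k).s ≤ 2 * 2^k := by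
  refine (s_bound hR k).trans ?_
  have : (0:ℝ) < 1/(k+1) := by positivity
  have : (0:ℝ) < 2^k := by positivity
  nlinarith

lemma vol_bound (k : ℕ) : volume (St hR k).U ≤
    ENNReal.ofReal (((1/2) ^ Module.finrank ℝ E)^k) * volume (ball (0:E) 1) := by
  induction k with
  | zero =>
    simp only [pow_zero, ENNReal.ofReal_one, one_mul]
    exact le_refl _
  | succ k ih =>
    refine (St_spec hR k).2.2.2.2.1.trans ?_
    rw [pow_succ' _ k, ENNReal.ofReal_mul (by positivity), mul_assoc]
    gcongr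

/-- the limit map -/
noncomputable def FL (z : E) : E := limUnder atTop (fun k => (St hR k).f z)

lemma FL_tendsto (z : E) : Tendsto (fun k => (St hR k).f z) atTop (𝓝 (FL hR z)) := by
  have : CompleteSpace E := FiniteDimensional.complete ℝ E
  have hc : CauchySeq (fun k => (St hR k).f z) := by
    apply cauchySeq_of_le_geometric (1/2) 1 (by norm_num)
    intro k
    rw [dist_comm, dist_eq_norm, one_mul]
    exact (St_spec hR k).2.2.2.1 z
  exact hc.tendsto_limUnder

lemma FL_dist (k : ℕ) (z : E) : ‖(St hR k).f z - FL hR z‖ ≤ 2 * (1/2)^k := by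
  have h := dist_le_of_le_geometric_of_tendsto (r := 1/2) (C := 1) (by norm_num)
    (f := fun k => (St hR k).f z) (by
      intro k
      rw [dist_comm, dist_eq_norm, one_mul]
      exact (St_spec hR k).2.2.2.1 z) (FL_tendsto hR z) k
  rw [dist_eq_norm] at h
  refine h.trans (le_of_eq ?_)
  norm_num
  ring

lemma FL_uniform : TendstoUniformly (fun k => (St hR k).f) (FL hR) atTop := by
  rw [Metric.tendstoUniformly_iff]
  intro ε hε
  have h1 : Tendsto (fun k : ℕ => 2 * (1/2:ℝ)^k) atTop (𝓝 0) := by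
    have := (tendsto_pow_atTop_nhds_zero_of_lt_one (r := (1/2:ℝ)) (by norm_num) (by norm_num)).const_mul 2
    rwa [mul_zero] at this
  filter_upwards [h1.eventually (gt_mem_nhds hε)] with k hk z
  rw [dist_comm, dist_eq_norm]
  exact (FL_dist hR k z).trans_lt hk

lemma f_continuous (k : ℕ) : Continuous (St hR k).f := by
  obtain ⟨C, hC⟩ := (St hR k).lip
  exact hC.continuous

lemma FL_continuous : Continuous (FL hR) :=
  (FL_uniform hR).continuous (Frequently.of_forall (f_continuous hR))

lemma FL_norm (z : E) : ‖FL hR z‖ ≤ 3 := by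
  have h1 := FL_dist hR 0 z
  have h2 : ‖(St hR 0).f z‖ ≤ 1 := by
    change ‖R (G0 z)‖ ≤ 1
    rw [R.norm_map]; exact G0_norm z
  have h3 : ‖FL hR z‖ ≤ ‖(St hR 0).f z‖ + ‖(St hR 0).f z - FL hR z‖ := by
    have := norm_sub_le ((St hR 0).f z) ((St hR 0).f z - FL hR z)
    rwa [sub_sub_cancel] at this
  norm_num at h1
  linarith

lemma f_stable {j k : ℕ} (hjk : j ≤ k) {z : E} (hz : z ∉ (St hR j).U) :
    (St hR k).f z = (St hR j).f z := by
  induction k, hjk using Nat.le_induction with
  | base => rfl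
  | succ k hk ih =>
    rw [(St_spec hR k).2.2.1 z (fun h => hz (U_anti hR hk h)), ih]

lemma FL_eq {k : ℕ} {z : E} (hz : z ∉ (St hR k).U) : FL hR z = (St hR k).f z := by
  refine tendsto_nhds_unique (FL_tendsto hR z) ?_
  refine tendsto_const_nhds.congr' ?_
  filter_upwards [eventually_ge_atTop k] with j hj
  exact (f_stable hR hj hz).symm

/-- all good points are good -/
lemma ae_good : ∀ᵐ z : E, ∀ k, z ∈ (St hR k).U → z ∉ (St hR (k+1)).U →
    Good R (St hR (k+1)) (kap k) (St hR k).s z := by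
  rw [ae_all_iff]
  intro k
  exact (St_spec hR k).2.2.2.2.2

include hR in
lemma nontriv : Nontrivial E := by
  by_contra hcon
  rw [not_nontrivial_iff_subsingleton] at hcon
  have : LinearMap.det (R.toLinearEquiv : E →ₗ[ℝ] E) = 1 := by
    have h1 : (R.toLinearEquiv : E →ₗ[ℝ] E) = LinearMap.id := by
      ext v; exact Subsingleton.elim _ _
    rw [h1, LinearMap.det_id]
  rw [this] at hR
  norm_num at hR

include hR in
lemma ae_off_sphere : ∀ᵐ z : E, ‖z‖ ≠ 1 := by
  have := nontriv hR
  have h := Measure.addHaar_sphere (volume : Measure E) 0 1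
  rw [measure_eq_zero_iff_ae_notMem] at h
  filter_upwards [h] with z hz h1
  exact hz (by rw [mem_sphere_zero_iff_norm]; exact h1)

/-- almost every point off `U k` has a neighbourhood off `U k` -/
lemma ae_off : ∀ᵐ z : E, ∀ k, z ∉ (St hR k).U → ∀ᶠ y in 𝓝 z, y ∉ (St hR k).U := by
  filter_upwards [ae_good hR, ae_off_sphere hR] with z hz hz1 k
  induction k with
  | zero =>
    intro h
    change z ∉ ball (0:E) 1 at h
    rw [mem_ball_zero_iff, not_lt] at h
    have h2 : 1 < ‖z‖ := lt_of_le_of_ne h (Ne.symm hz1)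
    have : ∀ᶠ y in 𝓝 z, 1 < ‖y‖ := continuous_norm.continuousAt.eventually (lt_mem_nhds h2)
    filter_upwards [this] with y hy hyU
    change y ∈ ball (0:E) 1 at hyU
    rw [mem_ball_zero_iff] at hyU
    linarith
  | succ k ih =>
    intro h
    by_cases hk : z ∈ (St hR k).U
    · exact (hz k hk h).1
    · filter_upwards [ih hk] with y hy hyU
      exact hy ((St_spec hR k).1 hyU)

lemma ae_off_eq : ∀ᵐ z : E, ∀ k, z ∉ (St hR k).U → FL hR =ᶠ[𝓝 z] (St hR k).f := by
  filter_upwards [ae_off hR] with z hz k hk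
  filter_upwards [hz k hk] with y hy
  exact FL_eq hR hy

lemma Uinf_null : volume (⋂ k, (St hR k).U) = 0 := by
  have := nontriv hR
  have hd : 0 < Module.finrank ℝ E := Module.finrank_pos
  have h1 : Tendsto (fun k : ℕ => ENNReal.ofReal (((1/2:ℝ) ^ Module.finrank ℝ E)^k) *
      volume (ball (0:E) 1)) atTop (𝓝 0) := by
    have h2 : Tendsto (fun k : ℕ => (((1/2:ℝ) ^ Module.finrank ℝ E)^k)) atTop (𝓝 0) := by
      apply tendsto_pow_atTop_nhds_zero_of_lt_one (by positivity)
      exact pow_lt_one₀ (by norm_num) (by norm_num) hd.ne'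
    have h3 := ENNReal.tendsto_ofReal h2
    rw [ENNReal.ofReal_zero] at h3
    have h4 := ENNReal.Tendsto.mul_const (b := volume (ball (0:E) 1)) h3
      (Or.inr measure_ball_lt_top.ne)
    rwa [zero_mul] at h4
  refine le_antisymm (ge_of_tendsto' h1 (fun k => ?_)) zero_le
  exact (measure_mono (iInter_subset _ k)).trans (vol_bound hR k)

/-- summing over the generations -/
lemma sum_bound (g : E → ℝ≥0∞) (c : ℕ → ℝ≥0∞)
    (h : ∀ᵐ z : E, ∀ k, z ∈ (St hR k).U → z ∉ (St hR (k+1)).U → g z ≤ c k) :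
    ∫⁻ z in ball (0:E) 1, g z ≤ ∑' k, c k * (ENNReal.ofReal (((1/2) ^ Module.finrank ℝ E)^k) *
      volume (ball (0:E) 1)) := by
  have h1 : ∫⁻ z in ball (0:E) 1, g z ≤
      ∫⁻ z in ⋃ k, ((St hR k).U \ (St hR (k+1)).U), g z := by
    have hU : Uinf_null hR = Uinf_null hR := rfl
    have h2 : ∀ᵐ z : E, z ∉ ⋂ k, (St hR k).U := measure_eq_zero_iff_ae_notMem.mp (Uinf_null hR)
    apply lintegral_mono_set'
    filter_upwards [h2] with z hz hz1
    change z ∈ (St hR 0).U at hz1
    change z ∈ ⋃ k, ((St hR k).U \ (St hR (k+1)).U)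
    simp only [mem_iInter, not_forall] at hz
    classical
    obtain ⟨k, hk, hmin⟩ : ∃ k, z ∉ (St hR k).U ∧ ∀ m < k, z ∈ (St hR m).U := by
      refine ⟨Nat.find hz, Nat.find_spec hz, fun m hm => ?_⟩
      have := Nat.find_min hz hm
      push Not at this
      exact this
    rcases k with _ | k
    · exact absurd hz1 hk
    · exact mem_iUnion.mpr ⟨k, hmin k (Nat.lt_succ_self k), hk⟩
  refine h1.trans ((lintegral_iUnion_le _ _).trans ?_)
  gcongr with k
  calc ∫⁻ z in (St hR k).U \ (St hR (k+1)).U, g z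
      ≤ ∫⁻ z in (St hR k).U \ (St hR (k+1)).U, c k := by
        apply lintegral_mono_ae
        rw [ae_restrict_iff' ((St hR k).open_U.measurableSet.diff (St hR (k+1)).open_U.measurableSet)]
        filter_upwards [h] with z hz hz2
        exact hz k hz2.1 hz2.2
    _ = c k * volume ((St hR k).U \ (St hR (k+1)).U) := setLIntegral_const _ _
    _ ≤ c k * volume (St hR k).U := by gcongr; exact sdiff_subset
    _ ≤ _ := by gcongr; exact vol_bound hR k

end

end Pool.Agent.Helper930.Pic
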