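import Mathlib
import Pool.Agent.Helper930.PicD
import Pool.Agent.Helper930.LipWD

set_option autoImplicit false

open Set Filter Topology MeasureTheory Metric
open scoped NNReal RealInnerProductSpace ENNReal ContDiff

namespace Pool.Agent.Helper930.Pic

variable {E : Type*} [NormedAddCommGroup E] [InnerProductSpace ℝ E]
  [FiniteDimensional ℝ E] [MeasurableSpace E] [BorelSpace E]

variable {R : E ≃ₗᵢ[ℝ] E} (hR : LinearMap.det (R.toLinearEquiv : E →ₗ[ℝ] E) = -1)

lemma good_facts : ∀ᵐ z : E, ∀ k, z ∈ (St hR k).U → z ∉ (St hR (k+1)).U →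
    0 < (fderiv ℝ (FL hR) z).det ∧
    ‖fderiv ℝ (FL hR) z‖ ^ Module.finrank ℝ E ≤ (3/kap k) * (fderiv ℝ (FL hR) z).det ∧
    (fderiv ℝ (FL hR) z).det ≤
      (St hR k).s ^ Module.finrank ℝ E * 3 ^ (Module.finrank ℝ E - 1) * kap k ∧
    ‖fderiv ℝ (FL hR) z‖ ≤ 3 * (St hR k).s := by
  filter_upwards [ae_good hR, ae_off_eq hR] with z hz hz2 k hk hk2
  obtain ⟨-, D, hD, h1, h2, h3, h4⟩ := hz k hk hk2
  have h5 : fderiv ℝ (FL hR) z = D := (hD.congr_of_eventuallyEq (hz2 (k+1) hk2)).fderiv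
  rw [h5]
  exact ⟨h1, h2, h3, h4⟩

lemma outer_facts {z : E} (hz : 1 < ‖z‖) :
    0 < (fderiv ℝ (FL hR) z).det ∧
    ‖fderiv ℝ (FL hR) z‖ ^ Module.finrank ℝ E ≤ (fderiv ℝ (FL hR) z).det ∧
    (fderiv ℝ (FL hR) z).det ≤ 1 ∧ ‖fderiv ℝ (FL hR) z‖ ≤ 1 := by
  obtain ⟨D, hD, h1⟩ := outer hR hz
  have h2 : FL hR =ᶠ[𝓝 z] (fun z => R (G0 z)) := by
    have : ∀ᶠ y in 𝓝 z, 1 < ‖y‖ := continuous_norm.continuousAt.eventually (lt_mem_nhds hz)
    filter_upwards [this] with y hy
    have hy0 : y ∉ (St hR 0).U := by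
      change y ∉ ball (0:E) 1
      rw [mem_ball_zero_iff]; linarith
    exact FL_eq hR hy0
  rw [(hD.congr_of_eventuallyEq h2).fderiv]
  exact h1

lemma ae_cover : ∀ᵐ z : E, 1 < ‖z‖ ∨ ∃ k, z ∈ (St hR k).U ∧ z ∉ (St hR (k+1)).U := by
  have h2 : ∀ᵐ z : E, z ∉ ⋂ k, (St hR k).U := measure_eq_zero_iff_ae_notMem.mp (Uinf_null hR)
  filter_upwards [h2, ae_off_sphere hR] with z hz hz1
  rcases lt_or_gt_of_ne hz1 with h | h
  swap
  · exact Or.inl h
  right
  simp only [mem_iInter, not_forall] at hz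
  classical
  obtain ⟨k, hk, hmin⟩ : ∃ k, z ∉ (St hR k).U ∧ ∀ m < k, z ∈ (St hR m).U := by
    refine ⟨Nat.find hz, Nat.find_spec hz, fun m hm => ?_⟩
    have := Nat.find_min hz hm
    push Not at this
    exact this
  rcases k with _ | k
  · exfalso
    apply hk
    change z ∈ ball (0:E) 1
    rwa [mem_ball_zero_iff]
  · exact ⟨k, hmin k (Nat.lt_succ_self k), hk⟩

include hR in
lemma ball_split (g : E → ℝ≥0∞) (h1 : ∀ z : E, 1 < ‖z‖ → g z ≤ 1) (r : ℝ) :
    ∫⁻ z in ball (0:E) r, g z ≤ (∫⁻ z in ball (0:E) 1, g z) + volume (ball (0:E) r) := by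
  have h2 : ball (0:E) r ⊆ ball 0 1 ∪ (ball 0 r \ ball 0 1) := by
    intro z hz
    by_cases h : z ∈ ball (0:E) 1
    · exact Or.inl h
    · exact Or.inr ⟨hz, h⟩
  refine (lintegral_mono_set h2).trans ((lintegral_union_le _ _ _).trans ?_)
  refine add_le_add le_rfl ?_
  calc ∫⁻ z in ball (0:E) r \ ball 0 1, g z ≤ ∫⁻ z in ball (0:E) r \ ball 0 1, 1 := by
        apply lintegral_mono_ae
        rw [ae_restrict_iff' (isOpen_ball.measurableSet.diff isOpen_ball.measurableSet)]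
        filter_upwards [ae_off_sphere hR] with z hz hz2
        apply h1
        have h3 := hz2.2
        rw [mem_ball_zero_iff, not_lt] at h3
        exact lt_of_le_of_ne h3 (Ne.symm hz)
    _ = volume (ball (0:E) r \ ball 0 1) := by simp
    _ ≤ volume (ball (0:E) r) := measure_mono sdiff_subset

lemma sum_bound' (g : E → ℝ≥0∞) (a : ℕ → ℝ) (ha : ∀ k, 0 ≤ a k)
    (hs : Summable (fun k => a k * ((1/2) ^ Module.finrank ℝ E)^k))
    (h : ∀ᵐ z : E, ∀ k, z ∈ (St hR k).U → z ∉ (St hR (k+1)).U → g z ≤ ENNReal.ofReal (a k)) :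
    ∫⁻ z in ball (0:E) 1, g z < ⊤ := by
  refine (sum_bound hR g _ h).trans_lt ?_
  simp_rw [← mul_assoc]
  rw [ENNReal.tsum_mul_right]
  apply ENNReal.mul_lt_top _ measure_ball_lt_top
  have h1 : ∀ k, ENNReal.ofReal (a k) * ENNReal.ofReal (((1/2) ^ Module.finrank ℝ E)^k) =
      ENNReal.ofReal (a k * ((1/2) ^ Module.finrank ℝ E)^k) := fun k =>
    (ENNReal.ofReal_mul (ha k)).symm
  simp_rw [h1]
  exact hs.tsum_ofReal_lt_top

/-- the distortion quotient -/
noncomputable def KK (A : E →L[ℝ] E) : ℝ := if 0 < A.det then ‖A‖ ^ Module.finrank ℝ E / A.det else 1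

lemma geo (q : ℝ) (hq0 : 0 < q) (hq : q < Module.finrank ℝ E) :
    ∫⁻ z in ball (0:E) 1, ENNReal.ofReal (‖fderiv ℝ (FL hR) z‖ ^ q) < ⊤ := by
  apply sum_bound' hR _ (fun k => (6 * 2^k)^q) (fun k => by positivity)
  · have h1 : ∀ k : ℕ, ((6:ℝ) * 2^k)^q * ((1/2) ^ Module.finrank ℝ E)^k =
        6^q * ((2:ℝ)^q * (1/2) ^ Module.finrank ℝ E)^k := by
      intro k
      rw [Real.mul_rpow (by norm_num) (by positivity), mul_pow, ← Real.rpow_natCast 2 k,
        ← Real.rpow_mul (by norm_num), mul_comm (k:ℝ) q, Real.rpow_mul (by norm_num),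
        Real.rpow_natCast]
      ring
    simp_rw [h1]
    apply Summable.mul_left
    apply summable_geometric_of_lt_one (by positivity)
    rw [one_div, inv_pow, ← div_eq_mul_inv, div_lt_one (by positivity), ← Real.rpow_natCast]
    exact Real.rpow_lt_rpow_of_exponent_lt (by norm_num) hq
  · filter_upwards [good_facts hR] with z hz k hk hk2
    have h1 := (hz k hk hk2).2.2.2
    have h2 := s_bound' hR k
    apply ENNReal.ofReal_le_ofReal
    gcongr
    linarith

lemma jac_int : ∫⁻ z in ball (0:E) 1, ENNReal.ofReal ((fderiv ℝ (FL hR) z).det) < ⊤ := by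
  set d := Module.finrank ℝ E with hd
  apply sum_bound' hR _ (fun k => (2 * 2^k)^d * 3^(d-1) * kap k) (fun k => by
    have := kap_pos k; positivity)
  · have h1 : ∀ k : ℕ, ((2:ℝ) * 2^k)^d * 3^(d-1) * kap k * ((1/2) ^ d)^k =
        (2^d * 3^(d-1)) * kap k := by
      intro k
      rw [mul_pow, ← pow_mul, ← pow_mul, mul_comm d k, one_div, inv_pow]
      field_simp
    rw [← hd]
    simp_rw [h1]
    apply Summable.mul_left
    have h2 : Summable (fun k : ℕ => 1 / ((k:ℝ) + 1)^2) := by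
      have := (summable_nat_add_iff 1).mpr (Real.summable_one_div_nat_pow.mpr (by norm_num : 1 < 2))
      simpa using this
    refine Summable.of_nonneg_of_le (fun k => (kap_pos k).le) (fun k => ?_) h2
    unfold kap
    rw [sq]
    gcongr
    linarith
  · filter_upwards [good_facts hR] with z hz k hk hk2
    have h1 := (hz k hk hk2).2.2.1
    have h2 := s_bound' hR k
    have h3 := (St hR k).s_pos
    have h4 := kap_pos k
    apply ENNReal.ofReal_le_ofReal
    refine h1.trans ?_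
    gcongr

lemma dist_int (p : ℝ) (hp : 0 < p) :
    ∫⁻ z in ball (0:E) 1, ENNReal.ofReal (KK (fderiv ℝ (FL hR) z) ^ p) < ⊤ := by
  have hnt := nontriv hR
  have hd0 : 0 < Module.finrank ℝ E := Module.finrank_pos
  obtain ⟨N, hN⟩ := exists_nat_ge p
  apply sum_bound' hR _ (fun k => (3 * ((k:ℝ) + 2)^2)^N) (fun k => by positivity)
  · have h1 : ∀ k : ℕ, ((3:ℝ) * ((k:ℝ) + 2)^2)^N * ((1/2) ^ Module.finrank ℝ E)^k =
        (3^N * (2^(Module.finrank ℝ E))^2) *
          ((((k+2 : ℕ)):ℝ)^(2*N) * ((1/2) ^ Module.finrank ℝ E)^(k+2)) := by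
      intro k
      rw [mul_pow, ← pow_mul, pow_add _ k 2]
      push_cast
      have : ((2:ℝ)^(Module.finrank ℝ E))^2 * ((1/2) ^ Module.finrank ℝ E)^2 = 1 := by
        rw [← mul_pow, ← mul_pow]; norm_num
      linear_combination (-(3:ℝ)^N * ((k:ℝ)+2)^(2*N) * ((1/2) ^ Module.finrank ℝ E)^k) * this
    simp_rw [h1]
    apply Summable.mul_left
    have h2 := summable_pow_mul_geometric_of_norm_lt_one (R := ℝ) (2*N)
      (r := (1/2) ^ Module.finrank ℝ E) (by
        rw [Real.norm_of_nonneg (by positivity)]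
        exact pow_lt_one₀ (by norm_num) (by norm_num) hd0.ne')
    exact (summable_nat_add_iff 2).mpr h2
  · filter_upwards [good_facts hR] with z hz k hk hk2
    obtain ⟨h1, h2, -, -⟩ := hz k hk hk2
    apply ENNReal.ofReal_le_ofReal
    have hK : KK (fderiv ℝ (FL hR) z) ≤ 3 * ((k:ℝ) + 2)^2 := by
      unfold KK
      rw [if_pos h1, div_le_iff₀ h1]
      refine h2.trans ?_
      gcongr
      unfold kap
      rw [div_div_eq_mul_div, div_one]
      have : (0:ℝ) ≤ k := Nat.cast_nonneg k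
      nlinarith
    have hK0 : 0 ≤ KK (fderiv ℝ (FL hR) z) := by
      unfold KK
      rw [if_pos h1]; positivity
    calc KK (fderiv ℝ (FL hR) z) ^ p ≤ (3 * ((k:ℝ) + 2)^2) ^ p := by gcongr
      _ ≤ (3 * ((k:ℝ) + 2)^2) ^ (N:ℝ) := by
          apply Real.rpow_le_rpow_of_exponent_le _ hN
          have : (0:ℝ) ≤ k := Nat.cast_nonneg k
          nlinarith
      _ = _ := Real.rpow_natCast _ _

lemma outer_norm {z : E} (hz : 1 < ‖z‖) : ‖fderiv ℝ (FL hR) z‖ ≤ 1 := (outer_facts hR hz).2.2.2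

lemma locInt_of_ball {G : Type*} [NormedAddCommGroup G] {g : E → G}
    (hm : AEStronglyMeasurable g volume)
    (h1 : ∫⁻ z in ball (0:E) 1, ‖g z‖ₑ < ⊤) (h2 : ∀ z : E, 1 < ‖z‖ → ‖g z‖ₑ ≤ 1)
    (hR : LinearMap.det (R.toLinearEquiv : E →ₗ[ℝ] E) = -1) :
    LocallyIntegrable g volume := by
  intro x
  refine ⟨ball 0 (‖x‖ + 1), isOpen_ball.mem_nhds (by rw [mem_ball_zero_iff]; linarith),
    hm.restrict, ?_⟩
  refine (ball_split hR _ h2 _).trans_lt ?_
  exact ENNReal.add_lt_top.mpr ⟨h1, measure_ball_lt_top (μ := (volume : Measure E))⟩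

variable (hd : 2 ≤ Module.finrank ℝ E)

include hd in
lemma D_lint : ∫⁻ z in ball (0:E) 1, ‖fderiv ℝ (FL hR) z‖ₑ < ⊤ := by
  have h := geo hR 1 one_pos (by
    have : (2:ℝ) ≤ Module.finrank ℝ E := by exact_mod_cast hd
    linarith)
  simp_rw [Real.rpow_one, ofReal_norm] at h
  exact h

include hd in
lemma D_locInt : LocallyIntegrable (fderiv ℝ (FL hR)) volume := by
  have : CompleteSpace E := FiniteDimensional.complete ℝ E
  refine locInt_of_ball (measurable_fderiv ℝ _).aestronglyMeasurable (D_lint hR hd) ?_ hR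
  intro z hz
  rw [← ofReal_norm]
  rw [← ENNReal.ofReal_one]
  exact ENNReal.ofReal_le_ofReal (outer_norm hR hz)

lemma det_cont : Continuous (fun A : E →L[ℝ] E => A.det) := ContinuousLinearMap.continuous_det

lemma J_locInt : LocallyIntegrable (fun z => (fderiv ℝ (FL hR) z).det) volume := by
  have : CompleteSpace E := FiniteDimensional.complete ℝ E
  have hpos : ∀ᵐ z : E, 0 < (fderiv ℝ (FL hR) z).det := by
    filter_upwards [ae_cover hR, good_facts hR] with z hz hz2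
    rcases hz with h | ⟨k, hk, hk2⟩
    · exact (outer_facts hR h).1
    · exact (hz2 k hk hk2).1
  refine locInt_of_ball (det_cont.measurable.comp (measurable_fderiv ℝ _)).aestronglyMeasurable
    ?_ ?_ hR
  · refine lt_of_le_of_lt (lintegral_mono_ae ?_) (jac_int hR)
    filter_upwards [ae_restrict_of_ae hpos] with z hz
    rw [← ofReal_norm, Real.norm_of_nonneg hz.le]
  · intro z hz
    obtain ⟨h1, -, h2, -⟩ := outer_facts hR hz
    rw [← ofReal_norm, Real.norm_of_nonneg h1.le, ← ENNReal.ofReal_one]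
    exact ENNReal.ofReal_le_ofReal h2

end Pool.Agent.Helper930.Pic
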