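import Mathlib
import Pool.Agent.Helper930.PicE

set_option autoImplicit false

open Set Filter Topology MeasureTheory Metric
open scoped NNReal RealInnerProductSpace ENNReal ContDiff

namespace Pool.Agent.Helper930.Pic

variable {E : Type*} [NormedAddCommGroup E] [InnerProductSpace ℝ E]
  [FiniteDimensional ℝ E] [MeasurableSpace E] [BorelSpace E]

variable {R : E ≃ₗᵢ[ℝ] E} (hR : LinearMap.det (R.toLinearEquiv : E →ₗ[ℝ] E) = -1)

lemma fk_deriv_norm (k : ℕ) {z : E} (hz : z ∈ (St hR k).U) :
    ‖fderiv ℝ (St hR k).f z‖ ≤ (St hR k).s := by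
  have hs := (St hR k).s_pos
  have h1 : HasFDerivAt (St hR k).f ((St hR k).s • (R.toContinuousLinearEquiv : E →L[ℝ] E)) z := by
    have h2 : HasFDerivAt (fun y : E => (St hR k).f z + (St hR k).s • R (y - z))
        ((St hR k).s • (R.toContinuousLinearEquiv : E →L[ℝ] E)) z := by
      have h3 : HasFDerivAt (fun y : E => y - z) (ContinuousLinearMap.id ℝ E) z :=
        (hasFDerivAt_id z).sub_const z
      have h4 := (R.toContinuousLinearEquiv : E →L[ℝ] E).hasFDerivAt.comp z h3
      exact (h4.const_smul (St hR k).s).const_add _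
    exact h2.congr_of_eventuallyEq ((St hR k).aff z hz)
  rw [h1.fderiv]
  apply ContinuousLinearMap.opNorm_le_bound _ hs.le
  intro v
  change ‖(St hR k).s • R v‖ ≤ _
  rw [norm_smul, R.norm_map, Real.norm_of_nonneg hs.le]

variable (hd : 2 ≤ Module.finrank ℝ E)

include hd in
lemma tail_tendsto : Tendsto (fun k => ∫⁻ z in (St hR k).U,
    (‖fderiv ℝ (St hR k).f z‖ₑ + ‖fderiv ℝ (FL hR) z‖ₑ)) atTop (𝓝 0) := by
  have hvolb : volume (ball (0:E) 1) ≠ ⊤ := measure_ball_lt_top.ne
  -- first part
  have h1 : ∀ k, ∫⁻ z in (St hR k).U, ‖fderiv ℝ (St hR k).f z‖ₑ ≤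
      ENNReal.ofReal (2 * (1/2)^k) * volume (ball (0:E) 1) := by
    intro k
    calc ∫⁻ z in (St hR k).U, ‖fderiv ℝ (St hR k).f z‖ₑ
        ≤ ∫⁻ z in (St hR k).U, ENNReal.ofReal (St hR k).s := by
          apply setLIntegral_mono' (St hR k).open_U.measurableSet
          intro z hz
          rw [← ofReal_norm]
          exact ENNReal.ofReal_le_ofReal (fk_deriv_norm hR k hz)
      _ = ENNReal.ofReal (St hR k).s * volume (St hR k).U := setLIntegral_const _ _
      _ ≤ ENNReal.ofReal (2 * 2^k) * (ENNReal.ofReal (((1/2) ^ Module.finrank ℝ E)^k) *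
            volume (ball (0:E) 1)) := by
          gcongr
          · exact s_bound' hR k
          · exact vol_bound hR k
      _ = ENNReal.ofReal (2 * 2^k * (((1/2) ^ Module.finrank ℝ E)^k)) * volume (ball (0:E) 1) := by
          rw [← mul_assoc, ← ENNReal.ofReal_mul (by positivity)]
      _ ≤ _ := by
          refine mul_le_mul' (ENNReal.ofReal_le_ofReal ?_) le_rfl
          have h2 : ((1/2:ℝ) ^ Module.finrank ℝ E)^k ≤ ((1/2)^2)^k :=
            pow_le_pow_left₀ (by positivity)
              (pow_le_pow_of_le_one (by norm_num) (by norm_num) hd) k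
          calc 2 * 2^k * ((1/2:ℝ) ^ Module.finrank ℝ E)^k ≤ 2 * 2^k * ((1/2)^2)^k := by gcongr
            _ = 2 * (2 * (1/2)^2)^k := by rw [mul_pow 2 _ k]; ring
            _ = _ := by norm_num
  have h2 : Tendsto (fun k : ℕ => ENNReal.ofReal (2 * (1/2)^k) * volume (ball (0:E) 1)) atTop
      (𝓝 0) := by
    have h3 : Tendsto (fun k : ℕ => 2 * (1/2:ℝ)^k) atTop (𝓝 0) := by
      have := (tendsto_pow_atTop_nhds_zero_of_lt_one (r := (1/2:ℝ)) (by norm_num)
        (by norm_num)).const_mul 2
      rwa [mul_zero] at this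
    have h4 := ENNReal.tendsto_ofReal h3
    rw [ENNReal.ofReal_zero] at h4
    have h5 := ENNReal.Tendsto.mul_const (b := volume (ball (0:E) 1)) h4 (Or.inr hvolb)
    rwa [zero_mul] at h5
  -- second part
  have h6 : Tendsto (fun k => ∫⁻ z in (St hR k).U, ‖fderiv ℝ (FL hR) z‖ₑ) atTop (𝓝 0) := by
    have h7 : Tendsto (fun k => (volume.restrict (ball (0:E) 1)) (St hR k).U) atTop (𝓝 0) := by
      have h8 : Tendsto (fun k : ℕ => ENNReal.ofReal (((1/2:ℝ) ^ Module.finrank ℝ E)^k) *
          volume (ball (0:E) 1)) atTop (𝓝 0) := by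
        have h9 : Tendsto (fun k : ℕ => (((1/2:ℝ) ^ Module.finrank ℝ E)^k)) atTop (𝓝 0) := by
          apply tendsto_pow_atTop_nhds_zero_of_lt_one (by positivity)
          exact pow_lt_one₀ (by norm_num) (by norm_num) (by omega)
        have h10 := ENNReal.tendsto_ofReal h9
        rw [ENNReal.ofReal_zero] at h10
        have h11 := ENNReal.Tendsto.mul_const (b := volume (ball (0:E) 1)) h10 (Or.inr hvolb)
        rwa [zero_mul] at h11
      refine tendsto_of_tendsto_of_tendsto_of_le_of_le tendsto_const_nhds h8 (fun _ => zero_le)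
        (fun k => (Measure.restrict_apply_le _ _).trans (vol_bound hR k))
    have h12 := tendsto_setLIntegral_zero (D_lint hR hd).ne h7
    refine h12.congr (fun k => ?_)
    rw [Measure.restrict_restrict (St hR k).open_U.measurableSet]
    congr 2
    apply inter_eq_left.mpr
    exact U_anti hR (Nat.zero_le k)
  have h13 := (tendsto_of_tendsto_of_tendsto_of_le_of_le tendsto_const_nhds h2 (fun _ => zero_le)
    h1).add h6
  rw [add_zero] at h13
  refine h13.congr (fun k => ?_)
  rw [lintegral_add_left']
  exact (measurable_fderiv ℝ _).enorm.aemeasurable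

include hd in
theorem FL_weak : WD.WeakDerivOn univ (FL hR) (fderiv ℝ (FL hR)) := by
  have hcomp : CompleteSpace E := FiniteDimensional.complete ℝ E
  refine ⟨?_, ?_, ?_⟩
  · rw [locallyIntegrableOn_univ]; exact (FL_continuous hR).locallyIntegrable
  · rw [locallyIntegrableOn_univ]; exact D_locInt hR hd
  · intro φ hφ hc _ v
    have hφc : Continuous φ := hφ.continuous
    have hcf : Continuous (fun x => fderiv ℝ φ x v) :=
      (hφ.continuous_fderiv (by norm_num)).clm_apply continuous_const
    have hcs : HasCompactSupport (fun x => fderiv ℝ φ x v) := by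
      have := hc.fderiv (𝕜 := ℝ)
      exact this.comp_left (g := fun A : E →L[ℝ] ℝ => A v) (by simp)
    obtain ⟨M, hM⟩ := hc.exists_bound_of_continuous hφc
    have hM0 : 0 ≤ M := (norm_nonneg _).trans (hM 0)
    have hibp : ∀ k, ∫ x, (fderiv ℝ φ x v) • (St hR k).f x =
        - ∫ x, φ x • fderiv ℝ (St hR k).f x v := by
      intro k
      obtain ⟨C, hC⟩ := (St hR k).lip
      exact WD.ibp_lip hC (hφ.of_le (by norm_num)) hc v
    -- left sides
    have hL : Tendsto (fun k => ∫ x, (fderiv ℝ φ x v) • (St hR k).f x) atTop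
        (𝓝 (∫ x, (fderiv ℝ φ x v) • FL hR x)) := by
      apply tendsto_integral_of_dominated_convergence (fun x => ‖fderiv ℝ φ x v‖ * 5)
      · intro k
        exact (hcf.smul (f_continuous hR k)).aestronglyMeasurable
      · exact ((hcf.integrable_of_hasCompactSupport hcs).norm).mul_const 5
      · intro k
        filter_upwards with x
        rw [norm_smul]
        gcongr
        have h1 := FL_dist hR k x
        have h2 := FL_norm hR x
        have h3 : ‖(St hR k).f x‖ ≤ ‖(St hR k).f x - FL hR x‖ + ‖FL hR x‖ := by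
          have := norm_add_le ((St hR k).f x - FL hR x) (FL hR x)
          rwa [sub_add_cancel] at this
        have h4 : (1/2:ℝ)^k ≤ 1 := pow_le_one₀ (by norm_num) (by norm_num)
        linarith
      · filter_upwards with x
        exact (FL_tendsto hR x).const_smul _
    -- right sides
    have hloc : ∀ k, LocallyIntegrable (fderiv ℝ (St hR k).f) volume := by
      intro k
      obtain ⟨C, hC⟩ := (St hR k).lip
      refine (locallyIntegrable_const (C:ℝ)).mono (measurable_fderiv ℝ _).aestronglyMeasurable ?_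
      filter_upwards with z
      have := norm_fderiv_le_of_lipschitz ℝ hC (x₀ := z)
      rw [Real.norm_of_nonneg C.coe_nonneg]
      exact this
    have hint : ∀ {g : E → E →L[ℝ] E}, LocallyIntegrable g volume →
        Integrable (fun x => φ x • g x v) volume := by
      intro g hg
      have h1 := hg.integrable_smul_left_of_hasCompactSupport hφc hc
      have h2 := (ContinuousLinearMap.apply ℝ E v).integrable_comp h1
      exact h2
    have hRt : Tendsto (fun k => ∫ x, φ x • fderiv ℝ (St hR k).f x v) atTop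
        (𝓝 (∫ x, φ x • fderiv ℝ (FL hR) x v)) := by
      apply tendsto_integral_of_L1 _ (hint (D_locInt hR hd)).aestronglyMeasurable
        (Eventually.of_forall (fun k => hint (hloc k)))
      have hb : ∀ k, ∫⁻ x, ‖φ x • fderiv ℝ (St hR k).f x v - φ x • fderiv ℝ (FL hR) x v‖ₑ ≤
          ENNReal.ofReal (M * ‖v‖) * ∫⁻ z in (St hR k).U,
            (‖fderiv ℝ (St hR k).f z‖ₑ + ‖fderiv ℝ (FL hR) z‖ₑ) := by
        intro k
        rw [← lintegral_const_mul' _ _ ENNReal.ofReal_ne_top,
          ← lintegral_indicator (St hR k).open_U.measurableSet]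
        apply lintegral_mono_ae
        filter_upwards [ae_off_eq hR] with z hz
        by_cases hzU : z ∈ (St hR k).U
        · rw [indicator_of_mem hzU]
          rw [← smul_sub, enorm_smul]
          have e1 : ‖φ z‖ₑ ≤ ENNReal.ofReal M := by
            rw [← ofReal_norm]; exact ENNReal.ofReal_le_ofReal (hM z)
          have e2 : ‖fderiv ℝ (St hR k).f z v - fderiv ℝ (FL hR) z v‖ₑ ≤
              (‖fderiv ℝ (St hR k).f z‖ₑ + ‖fderiv ℝ (FL hR) z‖ₑ) * ENNReal.ofReal ‖v‖ := by
            rw [← ofReal_norm, ← ofReal_norm, ← ofReal_norm, ← ENNReal.ofReal_add (norm_nonneg _)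
              (norm_nonneg _), ← ENNReal.ofReal_mul (by positivity)]
            apply ENNReal.ofReal_le_ofReal
            refine (norm_sub_le _ _).trans ?_
            rw [add_mul]
            exact add_le_add (ContinuousLinearMap.le_opNorm _ _) (ContinuousLinearMap.le_opNorm _ _)
          calc _ ≤ ENNReal.ofReal M * ((‖fderiv ℝ (St hR k).f z‖ₑ + ‖fderiv ℝ (FL hR) z‖ₑ) *
                ENNReal.ofReal ‖v‖) := mul_le_mul' e1 e2
            _ = _ := by rw [ENNReal.ofReal_mul hM0]; ring
        · rw [indicator_of_notMem hzU, (hz k hzU).fderiv_eq, sub_self, enorm_zero]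
      have ht := ENNReal.Tendsto.const_mul (a := ENNReal.ofReal (M * ‖v‖)) (tail_tendsto hR hd)
        (Or.inr ENNReal.ofReal_ne_top)
      rw [mul_zero] at ht
      exact tendsto_of_tendsto_of_tendsto_of_le_of_le tendsto_const_nhds ht (fun _ => zero_le) hb
    refine tendsto_nhds_unique hL ?_
    have := hRt.neg
    exact this.congr (fun k => (hibp k).symm)

end Pool.Agent.Helper930.Pic
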