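import Mathlib
import Pool.Agent.Helper930.Strip

set_option autoImplicit false

open Set Filter Topology Metric

namespace Pool.Agent.Helper930.MA

/-- Möbius map with real parameter -/
noncomputable def Tm (b : ℝ) (z : ℂ) : ℂ := (z - b)/(1 - b*z)

lemma Tm_den {b : ℝ} (hb : |b| < 1) {z : ℂ} (hz : ‖z‖ < 1) : 1 - b*z ≠ 0 := by
  intro h
  have h1 : (b:ℂ)*z = 1 := by linear_combination -h
  have h2 : |b| * ‖z‖ = 1 := by
    rw [← Real.norm_eq_abs, ← Complex.norm_real, ← norm_mul, h1, norm_one]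
  nlinarith [abs_nonneg b, norm_nonneg z]

lemma Tm_mem {b : ℝ} (hb : |b| < 1) {z : ℂ} (hz : ‖z‖ < 1) : ‖Tm b z‖ < 1 := by
  unfold Tm
  rw [norm_div, div_lt_one (norm_pos_iff.mpr (Tm_den hb hz))]
  have hz2 : Complex.normSq z < 1 := by
    rw [Complex.normSq_eq_norm_sq]; nlinarith [norm_nonneg z]
  have hb2 : b^2 < 1 := by
    rw [← sq_abs]; nlinarith [abs_nonneg b]
  have h2 : ‖z - b‖^2 < ‖1 - b*z‖^2 := by
    rw [← Complex.normSq_eq_norm_sq, ← Complex.normSq_eq_norm_sq, Complex.normSq_apply,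
      Complex.normSq_apply]
    rw [Complex.normSq_apply] at hz2
    simp only [Complex.sub_re, Complex.one_re, Complex.sub_im, Complex.one_im, Complex.mul_re,
      Complex.mul_im, Complex.ofReal_re, Complex.ofReal_im]
    nlinarith [mul_pos (sub_pos.mpr hb2) (sub_pos.mpr hz2)]
  exact lt_of_pow_lt_pow_left₀ 2 (norm_nonneg _) h2

lemma Tm_differentiableOn {b : ℝ} (hb : |b| < 1) : DifferentiableOn ℂ (Tm b) (ball 0 1) := by
  intro z hz
  have hz' : ‖z‖ < 1 := by simpa using hz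
  apply DifferentiableAt.differentiableWithinAt
  exact (by fun_prop : DifferentiableAt ℂ (fun z : ℂ => z - b) z).div (by fun_prop) (Tm_den hb hz')

lemma Tm_inv {b : ℝ} (hb : |b| < 1) {z : ℂ} (hz : ‖z‖ < 1) : Tm (-b) (Tm b z) = z := by
  have h1 := Tm_den hb hz
  have hb2 : (1:ℂ) - b^2 ≠ 0 := by
    have : (1:ℝ) - b^2 ≠ 0 := by
      have : b^2 < 1 := by rw [← sq_abs]; nlinarith [abs_nonneg b]
      linarith
    exact_mod_cast this
  unfold Tm
  have h2 : (z - b)/(1 - b*z) - ((-b : ℝ) : ℂ) = (1 - b^2) * z / (1 - b*z) := by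
    push_cast
    rw [eq_div_iff h1, sub_mul, div_mul_cancel₀ _ h1]
    ring
  have h3 : 1 - ((-b : ℝ) : ℂ) * ((z - b)/(1 - b*z)) = (1 - b^2)/(1 - b*z) := by
    push_cast
    rw [eq_div_iff h1, sub_mul, mul_assoc, div_mul_cancel₀ _ h1]
    ring
  rw [h2, h3, div_div_div_cancel_right₀ h1, mul_div_assoc, mul_comm, div_mul_cancel₀ _ hb2]

lemma schwarz_pick {F : ℂ → ℂ} (hF : DifferentiableOn ℂ F (ball 0 1))
    (hm : MapsTo F (ball 0 1) (ball 0 1)) {a b : ℂ} {b' c' : ℝ} (ha : ‖a‖ < 1) (hb : b = b')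
    (hb' : |b'| < 1) (hc : F b = c') (hc' : |c'| < 1) :
    ‖Tm c' (F a)‖ ≤ ‖Tm b' a‖ := by
  have hnb : |(-b')| < 1 := by rwa [abs_neg]
  have h1 : DifferentiableOn ℂ (fun z => Tm c' (F (Tm (-b') z))) (ball 0 1) := by
    apply (Tm_differentiableOn hc').comp
    · apply hF.comp (Tm_differentiableOn hnb)
      intro z hz
      have hz' : ‖z‖ < 1 := by simpa using hz
      simpa using Tm_mem hnb hz'
    · intro z hz
      have hz' : ‖z‖ < 1 := by simpa using hz
      apply hm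
      simpa using Tm_mem hnb hz'
  have h2 : MapsTo (fun z => Tm c' (F (Tm (-b') z))) (ball 0 1) (ball 0 1) := by
    intro z hz
    have hz' : ‖z‖ < 1 := by simpa using hz
    have h3 : F (Tm (-b') z) ∈ ball (0:ℂ) 1 := by
      apply hm; simpa using Tm_mem hnb hz'
    have h4 : ‖F (Tm (-b') z)‖ < 1 := by simpa using h3
    simpa using Tm_mem hc' h4
  have h3 : (fun z => Tm c' (F (Tm (-b') z))) 0 = 0 := by
    have : Tm (-b') 0 = b := by simp [Tm, hb]
    simp only [this, hc]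
    simp [Tm]
  have h4 : ‖Tm b' a‖ < 1 := Tm_mem hb' ha
  have h5 := Complex.norm_le_norm_of_mapsTo_ball h1 (h2.mono_right ball_subset_closedBall) h3
    (z := Tm b' a) h4
  simp only [Tm_inv hb' ha] at h5
  exact h5

lemma Tm_pt (j k : ℤ) : ‖Tm (pt j) (pt k)‖ = |(2:ℝ)^k - 2^j|/(2^k + 2^j) := by
  have hj := zp j
  have hk := zp k
  have h1 : Tm (pt j) (pt k) = (((2:ℝ)^k - 2^j)/(2^k + 2^j) : ℝ) := by
    have h2 : (pt k - pt j)/(1 - pt j * pt k) = ((2:ℝ)^k - 2^j)/(2^k + 2^j) := by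
      unfold pt
      have e1 : ((2:ℝ)^k - 1)/(2^k + 1) - (2^j - 1)/(2^j + 1) =
          2*(2^k - 2^j)/((2^k + 1)*(2^j + 1)) := by
        field_simp; ring
      have e2 : 1 - ((2:ℝ)^j - 1)/(2^j + 1) * ((2^k - 1)/(2^k + 1)) =
          2*(2^k + 2^j)/((2^k + 1)*(2^j + 1)) := by
        field_simp; ring
      rw [e1, e2]
      field_simp
    rw [← h2]
    unfold Tm
    push_cast
    rfl
  rw [h1, Complex.norm_real, Real.norm_eq_abs, abs_div, abs_of_pos (by linarith : (0:ℝ) < 2^k + 2^j)]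

lemma step_le {j k : ℤ} (h : ‖Tm (pt j) (pt k)‖ ≤ 1/3) : |k - j| ≤ 1 := by
  rw [Tm_pt] at h
  have hj := zp j
  have hk := zp k
  rw [div_le_div_iff₀ (by linarith) (by norm_num)] at h
  by_contra hcon
  push Not at hcon
  rcases le_total j k with hjk | hjk
  · have h2 : j + 2 ≤ k := by rw [abs_of_nonneg (by linarith)] at hcon; linarith
    have h3 : (2:ℝ)^(j+2) ≤ 2^k := zpow_le_zpow_right₀ (by norm_num) h2
    rw [zpow_add₀ (by norm_num)] at h3
    norm_num at h3
    have := le_abs_self ((2:ℝ)^k - 2^j)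
    linarith
  · have h2 : k + 2 ≤ j := by rw [abs_of_nonpos (by linarith)] at hcon; linarith
    have h3 : (2:ℝ)^(k+2) ≤ 2^j := zpow_le_zpow_right₀ (by norm_num) h2
    rw [zpow_add₀ (by norm_num)] at h3
    norm_num at h3
    have := neg_abs_le ((2:ℝ)^k - 2^j)
    linarith

lemma step_val (n : ℤ) : ‖Tm (pt n) (pt (n+1))‖ = 1/3 := by
  rw [Tm_pt, zpow_add₀ (by norm_num)]
  have hn := zp n
  norm_num
  rw [abs_of_pos (by linarith)]
  field_simp
  ring

/-- no injective walk on the nonzero integers indexed by the integers with steps at most one -/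
lemma no_walk (κ : ℤ → ℤ) (h0 : ∀ n, κ n ≠ 0) (hinj : Function.Injective κ)
    (hstep : ∀ n, |κ (n+1) - κ n| ≤ 1) : False := by
  have h1 : ∀ n, κ (n+1) - κ n = 1 ∨ κ (n+1) - κ n = -1 := by
    intro n
    have h2 := abs_le.mp (hstep n)
    have h3 : κ (n+1) ≠ κ n := fun h => by have := hinj h; omega
    omega
  have h2 : ∀ n, κ (n+1) - κ n = κ 1 - κ 0 := by
    have hs : ∀ n, κ (n+1+1) - κ (n+1) = κ (n+1) - κ n := by
      intro n
      have h3 : κ (n+1+1) ≠ κ n := fun h => by have := hinj h; omega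
      rcases h1 n with h | h <;> rcases h1 (n+1) with h' | h' <;> omega
    intro n
    induction n using Int.induction_on with
    | zero => simp
    | succ i ih => rw [hs, ih]
    | pred i ih =>
      have := hs (-(i:ℤ) - 1)
      rw [show -(i:ℤ) - 1 + 1 + 1 = -(i:ℤ) + 1 by ring, show -(i:ℤ) - 1 + 1 = -(i:ℤ) by ring] at this
      rw [show -(i:ℤ) - 1 + 1 = -(i:ℤ) by ring, ← this, ih]
  have h3 : ∀ n, κ n = κ 0 + n * (κ 1 - κ 0) := by
    intro n
    induction n using Int.induction_on with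
    | zero => simp
    | succ i ih => have := h2 i; linarith
    | pred i ih =>
      have := h2 (-(i:ℤ) - 1)
      rw [show -(i:ℤ) - 1 + 1 = -(i:ℤ) by ring] at this
      linarith
  rcases h1 0 with h | h
  · rw [zero_add] at h
    apply h0 (-κ 0)
    rw [h3, h]; ring
  · rw [zero_add] at h
    apply h0 (κ 0)
    rw [h3, h]; ring

theorem rigid (f : ℂ → ℂ) (e : DS univ ≃ₜ DS {n | n ≠ 0}) (he : ∀ z : DS univ, f z = e z)
    (hf : DifferentiableOn ℂ f (DS univ)) : False := by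
  classical
  set P : Set ℂ := range (fun n : ℤ => (pt n : ℂ)) with hP
  have hmemDS : ∀ {S : Set ℤ} {z : ℂ}, z ∈ DS S → ‖z‖ < 1 := fun h => by simpa using h.1
  have hfm : ∀ z ∈ DS univ, f z ∈ DS {n | n ≠ 0} := fun z hz => by
    rw [he ⟨z, hz⟩]; exact (e ⟨z, hz⟩).2
  have hfinj : ∀ z ∈ DS univ, ∀ w ∈ DS univ, f z = f w → z = w := by
    intro z hz w hw h
    rw [he ⟨z, hz⟩, he ⟨w, hw⟩] at h
    have := e.injective (Subtype.ext h)
    exact congrArg Subtype.val this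
  have hDS : ∀ z : ℂ, z ∈ ball (0:ℂ) 1 → z ∉ P → z ∈ DS univ := by
    intro z hz hn
    refine ⟨hz, ?_⟩
    rw [image_univ]; exact hn
  have hDS' : ∀ z : ℂ, z ∈ DS univ → z ∉ P := by
    intro z hz hn
    apply hz.2
    rw [image_univ]; exact hn
  -- isolated balls
  have hiso : ∀ n : ℤ, ∃ δ > 0, ball (pt n : ℂ) δ ⊆ ball 0 1 ∧
      ∀ z ∈ ball (pt n : ℂ) δ, z ≠ pt n → z ∈ DS univ := by
    intro n
    have h1 : (pt n : ℂ) ∈ DS {m | m ≠ n} := by
      refine ⟨pt_mem n, ?_⟩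
      rintro ⟨m, hm, hm2⟩
      apply hm
      have hm2' : (pt m : ℂ) = pt n := hm2
      exact pt_injective (by exact_mod_cast hm2')
    obtain ⟨δ, hδ, hδ2⟩ := Metric.isOpen_iff.mp (isOpen_DS {m | m ≠ n}) _ h1
    refine ⟨δ, hδ, fun z hz => (hδ2 hz).1, fun z hz hne => ?_⟩
    apply hDS z (hδ2 hz).1
    rintro ⟨m, hm⟩
    by_cases hmn : m = n
    · subst hmn; exact hne hm.symm
    · exact (hδ2 hz).2 ⟨m, hmn, hm⟩
  set F : ℂ → ℂ := fun z => if z ∈ P then limUnder (𝓝[≠] z) f else f z with hF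
  have hFf : ∀ z ∈ DS univ, F z = f z := fun z hz => if_neg (hDS' z hz)
  have hFdiff : DifferentiableOn ℂ F (ball 0 1) := by
    intro z hz
    apply DifferentiableAt.differentiableWithinAt
    by_cases hzP : z ∈ P
    · obtain ⟨n, rfl⟩ := hzP
      obtain ⟨δ, hδ, hδ1, hδ2⟩ := hiso n
      have h1 : DifferentiableOn ℂ f (ball (pt n : ℂ) δ \ {(pt n : ℂ)}) :=
        hf.mono (fun w hw => hδ2 w hw.1 hw.2)
      have h2 : BddAbove (norm ∘ f '' (ball (pt n : ℂ) δ \ {(pt n : ℂ)})) := by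
        refine ⟨1, ?_⟩
        rintro _ ⟨w, hw, rfl⟩
        exact (hmemDS (hfm w (hδ2 w hw.1 hw.2))).le
      have h3 := Complex.differentiableOn_update_limUnder_of_bddAbove (ball_mem_nhds _ hδ) h1 h2
      have h4 : DifferentiableAt ℂ (Function.update f (pt n : ℂ) (limUnder (𝓝[≠] (pt n : ℂ)) f))
          (pt n : ℂ) := (h3 _ (mem_ball_self hδ)).differentiableAt (ball_mem_nhds _ hδ)
      refine h4.congr_of_eventuallyEq ?_
      filter_upwards [ball_mem_nhds (pt n : ℂ) hδ] with w hw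
      by_cases hwn : w = pt n
      · rw [hwn, Function.update_self]
        exact if_pos ⟨n, rfl⟩
      · rw [Function.update_of_ne hwn]
        exact hFf w (hδ2 w hw hwn)
    · have h1 := hDS z hz hzP
      have h2 : DifferentiableAt ℂ f z := hf.differentiableAt ((isOpen_DS univ).mem_nhds h1)
      refine h2.congr_of_eventuallyEq ?_
      filter_upwards [(isOpen_DS univ).mem_nhds h1] with w hw using hFf w hw
  -- boundedness
  have htend : ∀ n : ℤ, Tendsto f (𝓝[≠] (pt n : ℂ)) (𝓝 (F (pt n))) := by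
    intro n
    obtain ⟨δ, hδ, hδ1, hδ2⟩ := hiso n
    have h1 : ContinuousAt F (pt n : ℂ) :=
      (hFdiff.differentiableAt (isOpen_ball.mem_nhds (pt_mem n))).continuousAt
    have h2 : Tendsto F (𝓝[≠] (pt n : ℂ)) (𝓝 (F (pt n))) := h1.tendsto.mono_left nhdsWithin_le_nhds
    refine h2.congr' ?_
    filter_upwards [nhdsWithin_le_nhds (ball_mem_nhds (pt n : ℂ) hδ), self_mem_nhdsWithin]
      with w hw hw2
    exact hFf w (hδ2 w hw hw2)
  have hev : ∀ n : ℤ, ∀ᶠ w in 𝓝[≠] (pt n : ℂ), w ∈ DS univ := by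
    intro n
    obtain ⟨δ, hδ, hδ1, hδ2⟩ := hiso n
    filter_upwards [nhdsWithin_le_nhds (ball_mem_nhds (pt n : ℂ) hδ), self_mem_nhdsWithin]
      with w hw hw2
    exact hδ2 w hw hw2
  have hFle : ∀ z ∈ ball (0:ℂ) 1, ‖F z‖ ≤ 1 := by
    intro z hz
    by_cases hzP : z ∈ P
    · obtain ⟨n, rfl⟩ := hzP
      refine le_of_tendsto (htend n).norm ?_
      filter_upwards [hev n] with w hw using (hmemDS (hfm w hw)).le
    · have h1 := hDS z hz hzP
      rw [hFf z h1]
      exact (hmemDS (hfm z h1)).le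
  -- a base point off the marked points
  obtain ⟨δ₀, hδ₀, hδ₀1, hδ₀2⟩ := hiso 0
  obtain ⟨z₀, hz₀⟩ : ∃ z₀, z₀ ∈ DS univ := (hev 0).exists
  have hFm : MapsTo F (ball 0 1) (ball 0 1) := by
    intro z hz
    have h1 := hFle z hz
    rcases h1.eq_or_lt with h2 | h2
    · exfalso
      have hmax : IsMaxOn (norm ∘ F) (ball 0 1) z := by
        intro w hw
        simp only [Set.mem_ofPred_eq, Function.comp_apply]
        rw [h2]; exact hFle w hw
      have h3 := Complex.norm_eqOn_of_isPreconnected_of_isMaxOn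
        (convex_ball (0:ℂ) 1).isPreconnected isOpen_ball hFdiff hz hmax
      have h4 := h3 hz₀.1
      simp only [Function.comp_apply, Function.const_apply] at h4
      rw [h2, hFf z₀ hz₀] at h4
      have := hmemDS (hfm z₀ hz₀)
      linarith
    · simpa using h2
  -- marked points go to marked points
  have hFP : ∀ n : ℤ, ∃ k : ℤ, k ≠ 0 ∧ F (pt n) = pt k := by
    intro n
    have h1 : F (pt n) ∉ DS {n | n ≠ 0} := by
      intro hq
      have hcont : ContinuousAt (fun q : DS {n | n ≠ 0} => ((e.symm q : DS univ) : ℂ)) ⟨_, hq⟩ :=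
        (continuous_subtype_val.comp e.symm.continuous).continuousAt
      -- the inverse along `f w`
      have h2 : Tendsto (fun w : ℂ => if hw : w ∈ DS univ then
          ((e.symm ⟨f w, hfm w hw⟩ : DS univ) : ℂ) else w) (𝓝[≠] (pt n : ℂ))
          (𝓝 ((e.symm ⟨F (pt n), hq⟩ : DS univ) : ℂ)) := by
        rw [Metric.tendsto_nhds]
        intro ε hε
        rw [Metric.continuousAt_iff] at hcont
        obtain ⟨δ, hδ, hδ'⟩ := hcont ε hε
        have h3 := Metric.tendsto_nhds.mp (htend n) δ hδ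
        filter_upwards [h3, hev n] with w hw1 hw2
        rw [dif_pos hw2]
        exact hδ' (by rw [Subtype.dist_eq]; exact hw1)
      have h3 : Tendsto (fun w : ℂ => if hw : w ∈ DS univ then
          ((e.symm ⟨f w, hfm w hw⟩ : DS univ) : ℂ) else w) (𝓝[≠] (pt n : ℂ)) (𝓝 (pt n : ℂ)) := by
        have h4 : Tendsto (fun w : ℂ => w) (𝓝[≠] (pt n : ℂ)) (𝓝 (pt n : ℂ)) :=
          tendsto_id.mono_left nhdsWithin_le_nhds
        refine h4.congr' ?_
        filter_upwards [hev n] with w hw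
        rw [dif_pos hw]
        have h5 : (⟨f w, hfm w hw⟩ : DS {n | n ≠ 0}) = e ⟨w, hw⟩ := Subtype.ext (he ⟨w, hw⟩)
        rw [h5, e.symm_apply_apply]
      have h4 := tendsto_nhds_unique h2 h3
      have h5 := (e.symm ⟨F (pt n), hq⟩ : DS univ).2
      rw [h4] at h5
      exact hDS' _ h5 ⟨n, rfl⟩
    have h2 := hFm (pt_mem n)
    by_contra hcon
    push Not at hcon
    apply h1
    refine ⟨h2, ?_⟩
    rintro ⟨k, hk, hk2⟩
    exact hcon k hk hk2.symm
  choose κ hκ0 hκ using hFP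
  -- open mapping near the marked points
  have hnhds : ∀ n : ℤ, 𝓝 (F (pt n)) ≤ map F (𝓝 (pt n : ℂ)) := by
    intro n
    have han : AnalyticAt ℂ F (pt n : ℂ) :=
      hFdiff.analyticAt (isOpen_ball.mem_nhds (pt_mem n))
    rcases han.eventually_constant_or_nhds_le_map_nhds with h | h
    · exfalso
      obtain ⟨δ, hδ, hδ1, hδ2⟩ := hiso n
      obtain ⟨δ', hδ', hδ'2⟩ := Metric.eventually_nhds_iff_ball.mp h
      set s := min δ δ' / 2 with hs
      have hs0 : 0 < s := by positivity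
      have hsδ : s < δ := by have := min_le_left δ δ'; linarith
      have hsδ' : s < δ' := by have := min_le_right δ δ'; linarith
      have e1 : (pt n : ℂ) + (s : ℂ) ∈ ball (pt n : ℂ) δ ∩ ball (pt n : ℂ) δ' := by
        simp [abs_of_pos hs0, hsδ, hsδ']
      have e2 : (pt n : ℂ) - (s : ℂ) ∈ ball (pt n : ℂ) δ ∩ ball (pt n : ℂ) δ' := by
        simp [dist_eq_norm, abs_of_pos hs0, hsδ, hsδ']
      have hs0c : (s : ℂ) ≠ 0 := by exact_mod_cast hs0.ne'
      have e3 := hδ2 _ e1.1 (by simpa using hs0c)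
      have e4 := hδ2 _ e2.1 (by simpa [sub_eq_self] using hs0c)
      have e5 := hδ'2 _ e1.2
      have e6 := hδ'2 _ e2.2
      rw [hFf _ e3] at e5
      rw [hFf _ e4] at e6
      have e7 := hfinj _ e3 _ e4 (e5.trans e6.symm)
      have e8 : (s : ℂ) = 0 := by linear_combination e7/2
      exact hs0c e8
    · exact h
  have hκinj : Function.Injective κ := by
    intro m n hmn
    by_contra hne
    have hpt : (pt m : ℂ) ≠ pt n := fun h => hne (pt_injective (by exact_mod_cast h))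
    have hFeq : F (pt m) = F (pt n) := by rw [hκ, hκ, hmn]
    obtain ⟨U, V, hU, hV, hmU, hnV, hUV⟩ := t2_separation hpt
    obtain ⟨δ, hδ, hδ1, hδ2⟩ := hiso m
    obtain ⟨δ', hδ', hδ'1, hδ'2⟩ := hiso n
    have h1 : F '' (U ∩ ball (pt m : ℂ) δ) ∈ 𝓝 (F (pt m)) :=
      hnhds m (image_mem_map (inter_mem (hU.mem_nhds hmU) (ball_mem_nhds _ hδ)))
    have h2 : F '' (V ∩ ball (pt n : ℂ) δ') ∈ 𝓝 (F (pt m)) := by
      rw [hFeq]
      exact hnhds n (image_mem_map (inter_mem (hV.mem_nhds hnV) (ball_mem_nhds _ hδ')))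
    have h3 : ∀ᶠ q in 𝓝[≠] (F (pt m)), q ∈ F '' (U ∩ ball (pt m : ℂ) δ) ∩
        F '' (V ∩ ball (pt n : ℂ) δ') ∧ q ≠ F (pt m) := by
      filter_upwards [nhdsWithin_le_nhds (inter_mem h1 h2), self_mem_nhdsWithin] with q hq hq2
      exact ⟨hq, hq2⟩
    obtain ⟨q, ⟨⟨z, hz, hzq⟩, ⟨w, hw, hwq⟩⟩, hqne⟩ := h3.exists
    have hz' : z ∈ DS univ := hδ2 z hz.2 (fun h => hqne (by rw [← hzq, h]))
    have hw' : w ∈ DS univ := hδ'2 w hw.2 (fun h => hqne (by rw [← hwq, h, hFeq]))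
    have h4 : z = w := hfinj z hz' w hw' (by rw [← hFf z hz', ← hFf w hw', hzq, hwq])
    exact Set.disjoint_left.mp hUV hz.1 (h4 ▸ hw.1)
  apply no_walk κ hκ0 hκinj
  intro n
  apply step_le
  rw [← step_val n, ← hκ (n+1)]
  have := schwarz_pick hFdiff hFm (a := (pt (n+1) : ℂ)) (b := (pt n : ℂ)) (b' := pt n)
    (c' := pt (κ n)) (by simpa using pt_abs (n+1)) rfl (pt_abs n) (hκ n) (pt_abs _)
  exact this

end Pool.Agent.Helper930.MA
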