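import Mathlib
import Pool.Agent.Helper930.Strip

set_option autoImplicit false

open Set Filter Topology Metric

namespace Pool.Agent.Helper930.MA

/-- there is no continuous logarithm of `z - p` on a small circle around `p` -/
lemma no_log {p : ℂ} {r : ℝ} (hr : 0 < r) {ℓ : ℂ → ℂ} {U : Set ℂ}
    (hU : ∀ t : ℝ, p + r * Complex.exp (t * Complex.I) ∈ U) (hℓ : ContinuousOn ℓ U)
    (h : ∀ z ∈ U, Complex.exp (ℓ z) = z - p) : False := by
  let γ : ℝ → ℂ := fun t => p + r * Complex.exp (t * Complex.I)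
  have hγ : Continuous γ := by fun_prop
  have h1 : Continuous (fun t => ℓ (γ t)) := hℓ.comp_continuous hγ hU
  have h2 : ∀ t : ℝ, Complex.exp (ℓ (γ t) - t * Complex.I) = r := by
    intro t
    rw [Complex.exp_sub, h _ (hU t)]
    simp only [γ, add_sub_cancel_left]
    rw [mul_div_assoc, div_self (Complex.exp_ne_zero _), mul_one]
  -- the function takes values in a discrete set
  have h3 : ∀ t : ℝ, ∃ n : ℤ, ℓ (γ t) - t * Complex.I = (ℓ (γ 0)) + n * (2 * Real.pi * Complex.I) := by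
    intro t
    have h0 := h2 0
    simp only [Complex.ofReal_zero, zero_mul, sub_zero] at h0
    have h4 : Complex.exp (ℓ (γ t) - t * Complex.I) = Complex.exp (ℓ (γ 0)) := by
      rw [h2 t, h0]
    exact Complex.exp_eq_exp_iff_exists_int.mp h4
  choose n hn using h3
  have hcont : Continuous (fun t : ℝ => (n t : ℝ)) := by
    have h5 : (fun t : ℝ => (n t : ℝ)) =
        fun t => ((ℓ (γ t) - t * Complex.I - ℓ (γ 0)).im) / (2 * Real.pi) := by
      funext t
      rw [hn t]
      have : (ℓ (γ 0) + (n t : ℂ) * (2 * Real.pi * Complex.I) - ℓ (γ 0)) =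
          ((n t * (2 * Real.pi) : ℝ) : ℂ) * Complex.I := by push_cast; ring
      rw [this]
      simp only [Complex.mul_im, Complex.ofReal_re, Complex.I_im, mul_one, Complex.ofReal_im,
        Complex.I_re, mul_zero, add_zero]
      have := Real.pi_pos
      field_simp
    rw [h5]
    apply Continuous.div_const
    exact Complex.continuous_im.comp ((h1.sub (by fun_prop)).sub continuous_const)
  have hconst : ∀ s t : ℝ, n s = n t := by
    have h6 : Continuous n := by
      rw [Int.isClosedEmbedding_coe_real.isInducing.continuous_iff]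
      exact hcont
    intro s t
    exact (isPreconnected_univ.constant (f := n) h6.continuousOn (mem_univ s) (mem_univ t))
  have h7 := hn 0
  have h8 := hn (2 * Real.pi)
  have h9 : γ (2 * Real.pi) = γ 0 := by
    simp only [γ]
    push_cast
    rw [Complex.exp_two_pi_mul_I]
    simp
  rw [h9, hconst (2 * Real.pi) 0] at h8
  have h10 : ((2 * Real.pi : ℝ) : ℂ) * Complex.I = 0 := by
    have : ((0:ℝ) : ℂ) * Complex.I = 0 := by simp
    linear_combination h7 - h8 + this
  have h11 : (2 * Real.pi : ℝ) = 0 := by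
    have := mul_eq_zero.mp h10
    rcases this with h | h
    · exact_mod_cast h
    · exact absurd h Complex.I_ne_zero
  have := Real.pi_pos
  linarith

theorem not_simplyConnected {S : Set ℤ} {n : ℤ} (hn : n ∈ S) : ¬ IsSimplyConnected (DS S) := by
  intro hsc
  have h0 : (0:ℂ) ∉ (fun z : ℂ => z - pt n) '' (DS S) := by
    rintro ⟨z, hz, hz0⟩
    apply hz.2
    refine ⟨n, hn, ?_⟩
    simp only at hz0 ⊢
    linear_combination -hz0
  obtain ⟨ℓ, hℓ, hℓ2⟩ := Complex.exists_continuousOn_eqOn_exp_comp hsc (isOpen_DS S)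
    (g := fun z : ℂ => z - pt n) (by fun_prop) h0
  -- isolated ball
  have h1 : (pt n : ℂ) ∈ DS {m | m ≠ n} := by
    refine ⟨pt_mem n, ?_⟩
    rintro ⟨m, hm, hm2⟩
    apply hm
    have hm2' : (pt m : ℂ) = pt n := hm2
    exact pt_injective (by exact_mod_cast hm2')
  obtain ⟨δ, hδ, hδ2⟩ := Metric.isOpen_iff.mp (isOpen_DS {m | m ≠ n}) _ h1
  have hr : 0 < δ/2 := by positivity
  refine no_log (p := (pt n : ℂ)) (r := δ/2) hr (U := DS S) (ℓ := ℓ) ?_ hℓ (fun z hz => hℓ2 hz)
  intro t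
  have hnorm : ‖(((δ/2 : ℝ)) : ℂ) * Complex.exp (t * Complex.I)‖ = δ/2 := by
    rw [norm_mul, Complex.norm_exp_ofReal_mul_I, mul_one, Complex.norm_real,
      Real.norm_of_nonneg hr.le]
  have h2 : (pt n : ℂ) + ((δ/2 : ℝ) : ℂ) * Complex.exp (t * Complex.I) ∈ ball (pt n : ℂ) δ := by
    rw [mem_ball, dist_eq_norm, add_sub_cancel_left, hnorm]
    linarith
  have h3 := hδ2 h2
  refine ⟨h3.1, ?_⟩
  rintro ⟨m, hm, hm2⟩
  have hm2' : (pt m : ℂ) = (pt n : ℂ) + ((δ/2 : ℝ) : ℂ) * Complex.exp (t * Complex.I) := hm2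
  by_cases hmn : m = n
  · subst hmn
    have : (((δ/2 : ℝ)) : ℂ) * Complex.exp (t * Complex.I) = 0 := by linear_combination -hm2'
    rw [this, norm_zero] at hnorm
    linarith
  · exact h3.2 ⟨m, hmn, hm2⟩

/-- upper half -/
lemma half_preconn (S : Set ℤ) (σ : ℝ) (hσ : σ = 1 ∨ σ = -1) :
    IsPreconnected (DS S ∩ {z : ℂ | 0 ≤ σ * z.im}) := by
  have hconv : Convex ℝ (ball (0:ℂ) 1 ∩ {z : ℂ | 0 < σ * z.im}) := by
    apply (convex_ball _ _).inter
    have : {z : ℂ | 0 < σ * z.im} = (σ • Complex.imLm : ℂ →ₗ[ℝ] ℝ) ⁻¹' (Ioi 0) := by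
      ext z; simp
    rw [this]
    exact (convex_Ioi (0:ℝ)).linear_preimage _
  have hσ0 : σ * σ = 1 := by rcases hσ with h | h <;> rw [h] <;> norm_num
  refine hconv.isPreconnected.subset_closure ?_ ?_
  · rintro z ⟨hz, hz2⟩
    refine ⟨⟨hz, ?_⟩, ?_⟩
    · rintro ⟨n, hn, rfl⟩
      have : (0:ℝ) < σ * ((pt n : ℂ)).im := hz2
      simp at this
    · have hz3 : 0 < σ * z.im := hz2
      exact hz3.le
  · rintro z ⟨hz, hz2⟩
    rw [Metric.mem_closure_iff]
    intro ε hε
    have hz1 : z ∈ ball (0:ℂ) 1 := hz.1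
    obtain ⟨δ, hδ, hδ2⟩ := Metric.isOpen_iff.mp isOpen_ball z hz1
    set s := min ε δ / 2 with hs
    have hs0 : 0 < s := by positivity
    have hsε : s < ε := by have := min_le_left ε δ; linarith
    have hsδ : s < δ := by have := min_le_right ε δ; linarith
    have hd : dist z (z + ((σ * s : ℝ) : ℂ) * Complex.I) = s := by
      rw [dist_eq_norm, sub_add_cancel_left, norm_neg, norm_mul, Complex.norm_I, mul_one,
        Complex.norm_real, Real.norm_eq_abs, abs_mul, abs_of_pos hs0]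
      rcases hσ with h | h <;> rw [h] <;> simp
    refine ⟨z + ((σ * s : ℝ) : ℂ) * Complex.I, ⟨hδ2 ?_, ?_⟩, ?_⟩
    · rw [mem_ball, dist_comm, hd]; exact hsδ
    · change 0 < σ * (z + ((σ * s : ℝ) : ℂ) * Complex.I).im
      have hz3 : 0 ≤ σ * z.im := hz2
      have : (z + ((σ * s : ℝ) : ℂ) * Complex.I).im = z.im + σ * s := by simp
      rw [this]
      nlinarith
    · rw [hd]; exact hsε

theorem isConnected_DS (S : Set ℤ) : IsConnected (DS S) := by
  have h16 : (1/6 : ℂ) ∈ DS S := by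
    refine ⟨by simp; norm_num, ?_⟩
    rintro ⟨n, hn, hn2⟩
    have hn3 : ((pt n : ℝ) : ℂ) = ((1/6 : ℝ) : ℂ) := by
      have : (pt n : ℂ) = 1/6 := hn2
      rw [this]; push_cast; rfl
    have hn4 : pt n = 1/6 := by exact_mod_cast hn3
    unfold pt at hn4
    have hp := zp n
    rw [div_eq_iff (by linarith)] at hn4
    have h5 : (2:ℝ)^n = 7/5 := by linarith
    rcases le_or_gt n 0 with h | h
    · have : (2:ℝ)^n ≤ 2^(0:ℤ) := zpow_le_zpow_right₀ (by norm_num) h
      rw [h5] at this; norm_num at this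
    · have : (2:ℝ)^(1:ℤ) ≤ 2^n := zpow_le_zpow_right₀ (by norm_num) h
      rw [h5] at this; norm_num at this
  refine ⟨⟨_, h16⟩, ?_⟩
  have h1 := half_preconn S 1 (Or.inl rfl)
  have h2 := half_preconn S (-1) (Or.inr rfl)
  have h3 : DS S = (DS S ∩ {z : ℂ | 0 ≤ 1 * z.im}) ∪ (DS S ∩ {z : ℂ | 0 ≤ (-1) * z.im}) := by
    rw [← inter_union_distrib_left]
    refine (inter_eq_left.mpr ?_).symm
    intro z _
    rcases le_total 0 z.im with h | h
    · left; change 0 ≤ 1 * z.im; linarith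
    · right; change 0 ≤ (-1) * z.im; linarith
  rw [h3]
  refine h1.union (1/6 : ℂ) ⟨h16, ?_⟩ ⟨h16, ?_⟩ h2
  · change 0 ≤ 1 * (1/6 : ℂ).im
    simp
  · change 0 ≤ (-1) * (1/6 : ℂ).im
    simp

end Pool.Agent.Helper930.MA
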