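import Mathlib
import Pool.Agent.Helper930.WD

set_option autoImplicit false

open Set Filter Topology MeasureTheory Metric
open scoped ContDiff

namespace Pool.Agent.Helper930.WD

/-- standard bumps -/
noncomputable def bmp {E : Type*} [NormedAddCommGroup E] (r : ℝ) (hr : 0 < r) :
    ContDiffBump (0 : E) := ⟨r/2, r, by positivity, by linarith⟩

/-- Weyl lemma for continuous functions whose weak derivative is complex linear -/
theorem weyl {Ω : Set ℂ} (hΩ : IsOpen Ω) {f : ℂ → ℂ} (hf : ContinuousOn f Ω)
    {Df : ℂ → ℂ →L[ℝ] ℂ} (hD : WeakDerivOn Ω f Df)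
    (hCR : ∀ᵐ z ∂(volume.restrict Ω), Df z Complex.I = Complex.I * Df z 1) :
    DifferentiableOn ℂ f Ω := by
  have hCR' : ∀ᵐ z : ℂ, z ∈ Ω → Df z Complex.I = Complex.I * Df z 1 :=
    (ae_restrict_iff' hΩ.measurableSet).mp hCR
  intro z₀ hz₀
  obtain ⟨R, hR, hRΩ⟩ := Metric.nhds_basis_closedBall.mem_iff.mp (hΩ.mem_nhds hz₀)
  set r := R/2 with hr
  have hr0 : 0 < r := by positivity
  set g : ℂ → ℂ := indicator (closedBall z₀ R) f with hg
  have hfc : ContinuousOn f (closedBall z₀ R) := hf.mono hRΩ
  have hgi : Integrable g volume := by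
    rw [hg, integrable_indicator_iff isClosed_closedBall.measurableSet]
    exact hfc.integrableOn_compact (isCompact_closedBall z₀ R)
  have hgeq : ∀ w ∈ closedBall z₀ R, g w = f w := fun w hw => indicator_of_mem hw f
  -- mollifications
  let ρ : ℕ → ℂ → ℝ := fun n => (bmp (E := ℂ) (r/(n+1)) (by positivity)).normed volume
  have hρs : ∀ n, ContDiff ℝ ∞ (ρ n) := fun n => ContDiffBump.contDiff_normed _
  have hρc : ∀ n, HasCompactSupport (ρ n) := fun n => ContDiffBump.hasCompactSupport_normed _
  have hle : ∀ n : ℕ, r/(n+1) ≤ r := fun n => by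
    apply div_le_self hr0.le
    linarith [Nat.cast_nonneg (α := ℝ) n]
  have hρt : ∀ n, tsupport (ρ n) ⊆ closedBall 0 (r/(n+1)) := by
    intro n
    have h1 := ContDiffBump.tsupport_normed_eq (bmp (E := ℂ) (r/(n+1)) (by positivity))
      (μ := volume)
    exact h1.le
  have hball : ∀ z ∈ ball z₀ r, ∀ n : ℕ, closedBall z (r/(n+1)) ⊆ closedBall z₀ R := by
    intro z hz n w hw
    rw [mem_closedBall] at hw ⊢
    rw [mem_ball] at hz
    have := hle n
    calc dist w z₀ ≤ dist w z + dist z z₀ := dist_triangle _ _ _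
      _ ≤ r + r := by linarith
      _ = R := by rw [hr]; ring
  have hdiff : ∀ n, DifferentiableOn ℂ (moll (ρ n) g) (ball z₀ r) := by
    intro n z hz
    apply DifferentiableAt.differentiableWithinAt
    obtain ⟨A, hA, hAv⟩ := moll_hasFDerivAt (hρs n) (hρc n) hgi.locallyIntegrable z
    rw [differentiableAt_complex_iff_differentiableAt_real]
    refine ⟨hA.differentiableAt, ?_⟩
    rw [hA.fderiv, hAv, hAv]
    have hb := hball z hz n
    rw [moll_weak hD (hρs n) (hρc n) (hρt n) (hb.trans hRΩ) (fun w hw => hgeq w (hb hw)) 1,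
      moll_weak hD (hρs n) (hρc n) (hρt n) (hb.trans hRΩ) (fun w hw => hgeq w (hb hw)) Complex.I]
    rw [← integral_smul]
    apply integral_congr_ae
    filter_upwards [hCR'] with w hw
    by_cases hwΩ : w ∈ Ω
    · rw [hw hwΩ, smul_eq_mul, Complex.real_smul, Complex.real_smul]; ring
    · have h0 : ρ n (z - w) = 0 := by
        by_contra hne
        apply hwΩ
        have h1 : z - w ∈ closedBall (0:ℂ) (r/(n+1)) :=
          hρt n (subset_tsupport _ (Function.mem_support.mpr hne))
        rw [mem_closedBall, dist_zero_right] at h1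
        apply hRΩ
        apply hb
        rw [mem_closedBall, dist_comm, dist_eq_norm]
        exact h1
      rw [h0]; simp
  have hunif : TendstoUniformlyOn (fun n => moll (ρ n) g) f atTop (ball z₀ r) := by
    rw [Metric.tendstoUniformlyOn_iff]
    intro ε hε
    have huc := (isCompact_closedBall z₀ R).uniformContinuousOn_of_continuous hfc
    rw [Metric.uniformContinuousOn_iff] at huc
    obtain ⟨δ, hδ, hδ'⟩ := huc (ε/2) (by positivity)
    have hlim : Tendsto (fun n : ℕ => r/((n:ℝ)+1)) atTop (𝓝 0) :=
      tendsto_const_div_atTop_nhds_zero_nat r |>.comp (tendsto_add_atTop_nat 1) |>.congr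
        (fun n => by simp)
    filter_upwards [hlim.eventually (gt_mem_nhds hδ)] with n hn z hz
    rw [dist_comm]
    have hb := hball z hz n
    have hzR : z ∈ closedBall z₀ R := hb (mem_closedBall_self (by positivity))
    have h1 := ContDiffBump.dist_normed_convolution_le
      (φ := bmp (E := ℂ) (r/(n+1)) (by positivity)) (μ := volume) (g := g) (x₀ := z) (ε := ε/2)
      hgi.aestronglyMeasurable (by
        intro x hx
        have hx' : x ∈ closedBall z₀ R := hb (ball_subset_closedBall hx)
        rw [hgeq x hx', hgeq z hzR]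
        refine (hδ' x hx' z hzR ?_).le
        rw [mem_ball] at hx
        exact hx.trans hn)
    rw [hgeq z hzR, convolution_eq_moll] at h1
    exact lt_of_le_of_lt h1 (by linarith)
  have h := hunif.tendstoLocallyUniformlyOn.differentiableOn (Eventually.of_forall hdiff) isOpen_ball
  exact ((h z₀ (mem_ball_self hr0)).differentiableAt (ball_mem_nhds z₀ hr0)).differentiableWithinAt

end Pool.Agent.Helper930.WD
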